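import Mathlib
import Pool.Agent.MP_dbfb19_an.Ends

set_option autoImplicit false

/-!
# Extremals in the logarithmic variable

`Kk s = (2 cosh (s / 2)) ^ (-1 / 2)` is the kernel in the variable `s = log x`.
-/

open MeasureTheory Set Filter Topology MPdbfb19
open scoped ENNReal

namespace Pool.Agent.ENC

/-- The kernel. -/
noncomputable def Kk (s : ℝ) : ℝ := Kr s ^ (1 / 2 : ℝ)

theorem Kk_pos (s : ℝ) : 0 < Kk s := Real.rpow_pos_of_pos (Kr_pos s) _

theorem Ke_eq (s : ℝ) : Ke s = ENNReal.ofReal (Kk s) := rfl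

theorem Kk_cont : Continuous Kk := Kr_cont.rpow_const fun x => Or.inl (Kr_pos x).ne'

theorem Kk_neg (s : ℝ) : Kk (-s) = Kk s := by
  unfold Kk Kr
  have e : -(-s / 2) = s / 2 := by ring
  have e' : -s / 2 = -(s / 2) := by ring
  rw [e, e', add_comm]

theorem Kk_sq (s : ℝ) : Kk s ^ 2 = Kr s := by
  unfold Kk
  rw [← Real.rpow_natCast, ← Real.rpow_mul (Kr_pos s).le]
  norm_num

/-- A positive solution of norm `1` of the integral equation with constant `c`. -/
structure Ext (c : ℝ) (φ : ℝ → ℝ) : Prop where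
  cont : Continuous φ
  pos : ∀ s, 0 < φ s
  int4 : Integrable (fun s => φ s ^ 4)
  four : ∫ s, φ s ^ 4 = 1
  inte : ∀ s, Integrable (fun t => φ t ^ 3 * Kk (s - t))
  eq : ∀ s, ∫ t, φ t ^ 3 * Kk (s - t) = c * φ s

/-- A solution that is even and nonincreasing on `[0, ∞)`. -/
structure EExt (c : ℝ) (φ : ℝ → ℝ) : Prop extends Ext c φ where
  even : ∀ s, φ (-s) = φ s
  anti : AntitoneOn φ (Ici 0)

theorem Ext.shift {c : ℝ} {φ : ℝ → ℝ} (h : Ext c φ) (a : ℝ) : Ext c (fun s => φ (a + s)) where
  cont := h.cont.comp (continuous_const.add continuous_id)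
  pos := fun s => h.pos _
  int4 := h.int4.comp_add_left a
  four := by
    rw [integral_add_left_eq_self (fun s => φ s ^ 4) a]
    exact h.four
  inte := fun s => by
    have h1 := (h.inte (a + s)).comp_add_left a
    refine h1.congr (Eventually.of_forall fun t => ?_)
    simp only
    congr 2
    ring
  eq := fun s => by
    have h1 := h.eq (a + s)
    rw [← integral_add_left_eq_self (fun t => φ t ^ 3 * Kk (a + s - t)) a] at h1
    rw [← h1]
    refine integral_congr_ae (Eventually.of_forall fun t => ?_)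
    simp only
    congr 2
    ring

end Pool.Agent.ENC
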