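import Mathlib
import Pool.Agent.ENC.Base

set_option autoImplicit false

/-!
# The discrete system satisfied by the masses of the cells
-/

open MeasureTheory Set Filter Topology MPdbfb19
open scoped ENNReal

namespace Pool.Agent.ENC

/-- `(∬_{cell 0 × cell n} K⁴)^{1/4}` for cells of length `d`. -/
noncomputable def kap (d : ℝ) (n : ℕ) : ℝ :=
  (Real.log (1 + (Real.cosh d - 1) / (Real.cosh (n * d) + 1))) ^ (1 / 4 : ℝ)

/-- `(∬ K⁴)^{1/4}` over a cell and a half line at distance `n d`. -/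
noncomputable def tau (d : ℝ) (n : ℕ) : ℝ :=
  (Real.log ((1 + Real.exp (-(n * d))) / (1 + Real.exp (-((n + 1 : ℕ) * d))))) ^ (1 / 4 : ℝ)

/-- `(∬ K⁴)^{1/4}` over two opposite half lines at distance `2 M d`. -/
noncomputable def tau0 (d : ℝ) (M : ℕ) : ℝ :=
  (Real.log (1 + Real.exp (-(2 * M * d)))) ^ (1 / 4 : ℝ)

/-- `(∫ K⁴)^{1/4}` over a cell at distance `n d` of a point. -/
noncomputable def nu (d : ℝ) (n : ℕ) : ℝ :=
  ((1 + Real.exp (n * d))⁻¹ - (1 + Real.exp ((n + 1 : ℕ) * d))⁻¹) ^ (1 / 4 : ℝ)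

/-- `(∫ K⁴)^{1/4}` over a half line at distance `n d` of a point. -/
noncomputable def nut (d : ℝ) (n : ℕ) : ℝ :=
  ((1 + Real.exp (n * d))⁻¹) ^ (1 / 4 : ℝ)

/-- The `L⁴`-norm on the cell `(j d, (j + 1) d]`. -/
noncomputable def cx (φ : ℝ → ℝ) (d : ℝ) (j : ℕ) : ℝ :=
  (∫ s in Ioc (j * d) ((j + 1 : ℕ) * d), φ s ^ 4) ^ (1 / 4 : ℝ)

/-- The `L⁴`-norm on `(M d, ∞)`. -/
noncomputable def cT (φ : ℝ → ℝ) (d : ℝ) (M : ℕ) : ℝ :=
  (∫ s in Ioi (M * d), φ s ^ 4) ^ (1 / 4 : ℝ)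

/-- The system. `i - j + (j - i)` is `|i - j|`. -/
structure Sys (c d : ℝ) (M : ℕ) (x : ℕ → ℝ) (xT : ℝ) : Prop where
  nonneg : ∀ j, 0 ≤ x j
  nonnegT : 0 ≤ xT
  mass : 2 * (∑ j ∈ Finset.range M, x j ^ 4 + xT ^ 4) = 1
  row : ∀ i < M, c * x i ≤
    ∑ j ∈ Finset.range M, (kap d (i - j + (j - i)) + kap d (i + j + 1)) * x j ^ 3 +
      (tau d (M - 1 - i) + tau d (M + i)) * xT ^ 3
  rowT : c * (xT - xT ^ 3) ≤
    ∑ j ∈ Finset.range M, (tau d (M - 1 - j) + tau d (M + j)) * x j ^ 3 + tau0 d M * xT ^ 3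

end Pool.Agent.ENC
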