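import Mathlib
import Pool.Agent.ENC.SysDef

set_option autoImplicit false

/-!
# Hoelder on pairs of cells and the integrals of the fourth power of the kernel
-/

open MeasureTheory Set Filter Topology MPdbfb19
open scoped ENNReal

namespace Pool.Agent.ENC

private lemma blk1_Ke4 (s : ℝ) :
    Ke s ^ 4 = ENNReal.ofReal (Real.exp s / (1 + Real.exp s) ^ 2) := by
  unfold Ke
  rw [← ENNReal.ofReal_pow (Real.rpow_nonneg (Kr_pos s).le _)]
  congr 1
  have h1 : (Kr s ^ (1 / 2 : ℝ)) ^ 4 = Kr s ^ 2 := by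
    rw [← Real.rpow_natCast, ← Real.rpow_mul (Kr_pos s).le, ← Real.rpow_natCast]
    norm_num
  rw [h1]
  unfold Kr
  have e1 : Real.exp s = Real.exp (s / 2) * Real.exp (s / 2) := by
    rw [← Real.exp_add]; congr 1; ring
  have e2 : Real.exp (-(s / 2)) * Real.exp (s / 2) = 1 := by
    rw [← Real.exp_add]; simp
  have e3 : Real.exp (-(s / 2)) = (Real.exp (s / 2))⁻¹ := Real.exp_neg _
  have hp : 0 < Real.exp (s / 2) := Real.exp_pos _
  rw [e1, e3]
  field_simp
  ring

private lemma blk1_Ioc {F f : ℝ → ℝ} (hF : ∀ x, HasDerivAt F (f x) x) (hf : Continuous f)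
    (h0 : ∀ x, 0 ≤ f x) {a b : ℝ} (hab : a ≤ b) :
    ∫⁻ x in Ioc a b, ENNReal.ofReal (f x) = ENNReal.ofReal (F b - F a) := by
  have h1 : ∫ x in a..b, f x = F b - F a :=
    intervalIntegral.integral_eq_sub_of_hasDerivAt (fun x _ => hF x) (hf.intervalIntegrable _ _)
  rw [intervalIntegral.integral_of_le hab] at h1
  rw [← h1, ofReal_integral_eq_lintegral_ofReal]
  · exact (hf.integrableOn_Icc).mono_set Ioc_subset_Icc_self
  · exact Eventually.of_forall h0

private lemma blk1_Ioi {F f : ℝ → ℝ} (hF : ∀ x, HasDerivAt F (f x) x)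
    (h0 : ∀ x, 0 ≤ f x) {l : ℝ} (hl : Tendsto F atTop (𝓝 l)) (a : ℝ) :
    ∫⁻ x in Ioi a, ENNReal.ofReal (f x) = ENNReal.ofReal (l - F a) := by
  have hint : IntegrableOn f (Ioi a) :=
    integrableOn_Ioi_deriv_of_nonneg' (fun x _ => hF x) (fun x _ => h0 x) hl
  have h1 : ∫ x in Ioi a, f x = l - F a :=
    integral_Ioi_of_hasDerivAt_of_nonneg' (fun x _ => hF x) (fun x _ => h0 x) hl
  rw [← h1, ofReal_integral_eq_lintegral_ofReal hint]
  exact Eventually.of_forall h0

private lemma blk1_Iic {F f : ℝ → ℝ} (hF : ∀ x, HasDerivAt F (f x) x)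
    (h0 : ∀ x, 0 ≤ f x) {l : ℝ} (hl : Tendsto F atBot (𝓝 l)) (c : ℝ) :
    ∫⁻ x in Iic c, ENNReal.ofReal (f x) = ENNReal.ofReal (F c - l) := by
  have h1 := (Measure.measurePreserving_neg (volume : Measure ℝ)).setLIntegral_comp_preimage_emb
    (MeasurableEquiv.neg ℝ).measurableEmbedding (fun x => ENNReal.ofReal (f x)) (Iic c)
  rw [← h1]
  have e1 : (Neg.neg : ℝ → ℝ) ⁻¹' (Iic c) = Ici (-c) := by
    ext x; simp only [mem_preimage, mem_Iic, mem_Ici]; constructor <;> intro h <;> linarith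
  have e2 : (fun x : ℝ => -x) ⁻¹' (Iic c) = Ici (-c) := e1
  rw [e1, ← setLIntegral_congr (Ioi_ae_eq_Ici (a := -c) (μ := (volume : Measure ℝ)))]
  have hG : ∀ x, HasDerivAt (fun x => -F (-x)) (f (-x)) x := by
    intro x
    have h2 := (hF (-x)).comp x (hasDerivAt_neg x)
    have h3 := h2.neg
    refine h3.congr_deriv ?_
    ring
  have hl' : Tendsto (fun x => -F (-x)) atTop (𝓝 (-l)) :=
    (hl.comp tendsto_neg_atTop_atBot).neg
  have h4 := blk1_Ioi hG (fun x => h0 (-x)) hl' (-c)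
  rw [h4]
  congr 1
  rw [neg_neg]
  ring

private lemma blk1_deriv (s t : ℝ) :
    HasDerivAt (fun t => -(1 + Real.exp (t - s))⁻¹)
      (Real.exp (t - s) / (1 + Real.exp (t - s)) ^ 2) t := by
  have h1 : HasDerivAt (fun t : ℝ => 1 + Real.exp (t - s)) (Real.exp (t - s)) t := by
    have h := (((hasDerivAt_id t).sub_const s).exp).const_add 1
    simpa using h
  have hp : (1 + Real.exp (t - s)) ≠ 0 := by positivity
  have h2 := (h1.inv hp).neg
  refine h2.congr_deriv ?_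
  ring

private lemma blk1_log_deriv (a s : ℝ) :
    HasDerivAt (fun s => Real.log (1 + Real.exp (s - a))) ((1 + Real.exp (a - s))⁻¹) s := by
  have h1 : HasDerivAt (fun s : ℝ => 1 + Real.exp (s - a)) (Real.exp (s - a)) s := by
    have h := (((hasDerivAt_id s).sub_const a).exp).const_add 1
    simpa using h
  have hp : (1 + Real.exp (s - a)) ≠ 0 := by positivity
  have h2 := h1.log hp
  refine h2.congr_deriv ?_
  have e : Real.exp (a - s) = (Real.exp (s - a))⁻¹ := by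
    rw [← Real.exp_neg]; congr 1; ring
  have hq : 0 < Real.exp (s - a) := Real.exp_pos _
  rw [e]
  field_simp
  ring

private lemma blk1_kcont (s : ℝ) :
    Continuous fun t : ℝ => Real.exp (t - s) / (1 + Real.exp (t - s)) ^ 2 := by
  refine Continuous.div (by fun_prop) (by fun_prop) fun t => ?_
  positivity

/-- **Hölder's inequality on a pair of cells.** `u, v` nonnegative measurable, in `ℝ≥0∞`.
`ENNReal.lintegral_mul_le_Lp_mul_Lq` on the product of the restricted measures with exponents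
`4` (for `K`) and `4/3` (for `u ⊗ v`); `(u ^ 3) ^ (4/3) = u ^ 4` (`MPdbfb19.cube_rpow`), and the
double integral of `u s ^ 4 * v t ^ 4` is the product of the integrals. -/
theorem block {u v : ℝ → ℝ≥0∞} (hu : Measurable u) (hv : Measurable v) {A B : Set ℝ}
    (hA : MeasurableSet A) (hB : MeasurableSet B) :
    ∫⁻ s in A, ∫⁻ t in B, u s ^ 3 * v t ^ 3 * Ke (s - t) ≤
      (∫⁻ s in A, ∫⁻ t in B, Ke (s - t) ^ 4) ^ (1 / 4 : ℝ) *
        ((∫⁻ s in A, u s ^ 4) * ∫⁻ t in B, v t ^ 4) ^ (3 / 4 : ℝ) := by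
  set μ := (volume : Measure ℝ).restrict A with hμ
  set ν := (volume : Measure ℝ).restrict B with hν
  have hK : Measurable fun p : ℝ × ℝ => Ke (p.1 - p.2) :=
    Ke_meas.comp (measurable_fst.sub measurable_snd)
  have hU : Measurable fun p : ℝ × ℝ => u p.1 ^ 3 * v p.2 ^ 3 :=
    ((hu.comp measurable_fst).pow_const 3).mul ((hv.comp measurable_snd).pow_const 3)
  have e1 : ∫⁻ s, ∫⁻ t, u s ^ 3 * v t ^ 3 * Ke (s - t) ∂ν ∂μ =
      ∫⁻ p : ℝ × ℝ, Ke (p.1 - p.2) * (u p.1 ^ 3 * v p.2 ^ 3) ∂(μ.prod ν) := by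
    have h := lintegral_prod (μ := μ) (ν := ν)
      (fun p : ℝ × ℝ => Ke (p.1 - p.2) * (u p.1 ^ 3 * v p.2 ^ 3)) (hK.mul hU).aemeasurable
    rw [h]
    refine lintegral_congr fun s => lintegral_congr fun t => ?_
    ring
  have hpq : Real.HolderConjugate 4 (4 / 3) := by
    rw [Real.holderConjugate_iff]
    constructor <;> norm_num
  have e2 := ENNReal.lintegral_mul_le_Lp_mul_Lq (μ.prod ν) hpq hK.aemeasurable hU.aemeasurable
  have e3 : ∫⁻ p : ℝ × ℝ, Ke (p.1 - p.2) ^ (4 : ℝ) ∂(μ.prod ν) =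
      ∫⁻ s, ∫⁻ t, Ke (s - t) ^ 4 ∂ν ∂μ := by
    have h : ∀ p : ℝ × ℝ, Ke (p.1 - p.2) ^ (4 : ℝ) = Ke (p.1 - p.2) ^ 4 := by
      intro p
      rw [← ENNReal.rpow_natCast]
      norm_num
    simp_rw [h]
    rw [lintegral_prod _ (hK.pow_const 4).aemeasurable]
  have e4 : ∫⁻ p : ℝ × ℝ, (u p.1 ^ 3 * v p.2 ^ 3) ^ (4 / 3 : ℝ) ∂(μ.prod ν) =
      (∫⁻ s, u s ^ 4 ∂μ) * ∫⁻ t, v t ^ 4 ∂ν := by
    have h : ∀ p : ℝ × ℝ, (u p.1 ^ 3 * v p.2 ^ 3) ^ (4 / 3 : ℝ) = u p.1 ^ 4 * v p.2 ^ 4 := by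
      intro p
      rw [ENNReal.mul_rpow_of_nonneg _ _ (by norm_num), cube_rpow, cube_rpow]
    simp_rw [h]
    exact lintegral_prod_mul (hu.pow_const 4).aemeasurable (hv.pow_const 4).aemeasurable
  rw [e1]
  refine e2.trans (le_of_eq ?_)
  rw [e3, e4]
  norm_num

/-- `∫_a^b K(t - s)⁴ dt = 1/(1 + e^{a-s}) - 1/(1 + e^{b-s})`: `K⁴ = Kr²`, and
`Kr v ^ 2 = exp v / (1 + exp v) ^ 2` is the derivative of `-(1 + exp v)⁻¹`. -/
theorem int_K4 {a b : ℝ} (hab : a ≤ b) (s : ℝ) :
    ∫⁻ t in Ioc a b, Ke (s - t) ^ 4 =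
      ENNReal.ofReal ((1 + Real.exp (a - s))⁻¹ - (1 + Real.exp (b - s))⁻¹) := by
  have h1 : ∀ t, Ke (s - t) ^ 4 =
      ENNReal.ofReal (Real.exp (t - s) / (1 + Real.exp (t - s)) ^ 2) := by
    intro t
    rw [Ke_symm, blk1_Ke4]
  simp_rw [h1]
  rw [blk1_Ioc (blk1_deriv s) (blk1_kcont s) (fun t => by positivity) hab]
  congr 1
  ring

theorem int_K4_Ioi (a s : ℝ) :
    ∫⁻ t in Ioi a, Ke (s - t) ^ 4 = ENNReal.ofReal ((1 + Real.exp (a - s))⁻¹) := by
  have h1 : ∀ t, Ke (s - t) ^ 4 =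
      ENNReal.ofReal (Real.exp (t - s) / (1 + Real.exp (t - s)) ^ 2) := by
    intro t
    rw [Ke_symm, blk1_Ke4]
  simp_rw [h1]
  have hl : Tendsto (fun t : ℝ => -(1 + Real.exp (t - s))⁻¹) atTop (𝓝 (-0)) := by
    refine Tendsto.neg ?_
    refine tendsto_inv_atTop_zero.comp ?_
    refine tendsto_atTop_add_const_left _ _ ?_
    exact Real.tendsto_exp_atTop.comp (tendsto_atTop_add_const_right _ _ tendsto_id)
  rw [blk1_Ioi (blk1_deriv s) (fun t => by positivity) hl]
  congr 1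
  ring

private lemma blk1_int_K4_Iic (c s : ℝ) :
    ∫⁻ t in Iic c, Ke (s - t) ^ 4 = ENNReal.ofReal ((1 + Real.exp (s - c))⁻¹) := by
  have h1 : ∀ t, Ke (s - t) ^ 4 =
      ENNReal.ofReal (Real.exp (t - s) / (1 + Real.exp (t - s)) ^ 2) := by
    intro t
    rw [Ke_symm, blk1_Ke4]
  simp_rw [h1]
  have hl : Tendsto (fun t : ℝ => -(1 + Real.exp (t - s))⁻¹) atBot (𝓝 (-(1 + 0)⁻¹)) := by
    refine Tendsto.neg ?_
    refine Tendsto.inv₀ ?_ (by norm_num)
    refine tendsto_const_nhds.add ?_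
    exact Real.tendsto_exp_atBot.comp (tendsto_atBot_add_const_right _ _ tendsto_id)
  rw [blk1_Iic (blk1_deriv s) (fun t => by positivity) hl]
  congr 1
  have e : Real.exp (c - s) = (Real.exp (s - c))⁻¹ := by
    rw [← Real.exp_neg]; congr 1; ring
  have hq : 0 < Real.exp (s - c) := Real.exp_pos _
  rw [e]
  field_simp
  ring

private lemma blk1_inv_cont (a : ℝ) : Continuous fun s : ℝ => (1 + Real.exp (a - s))⁻¹ := by
  refine Continuous.inv₀ (by fun_prop) fun s => ?_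
  positivity

/-- Two cells, the same or on different sides or not: `[i d, (i + 1) d]` and `[j d, (j + 1) d]`
with integers `i, j`; the value depends on `|i - j|` only.

Proof. By `int_K4` the inner integral is `(1 + e^{a-s})⁻¹ - (1 + e^{b-s})⁻¹`, with
`a = j d`, `b = (j + 1) d`, and `s ↦ log (1 + e^{s-a})` has the derivative `(1 + e^{a-s})⁻¹`. So the
double integral is
`log [(1 + e^{(i+1-j)d}) (1 + e^{(i-j-1)d}) / ((1 + e^{(i-j)d}) (1 + e^{(i-j)d}))]`, and with
`n = i - j`: `(1 + e^{(n+1)d})(1 + e^{(n-1)d}) / (1 + e^{nd})² =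
1 + (e^{(n+1)d} + e^{(n-1)d} - 2 e^{nd}) / (1 + e^{nd})² = 1 + (cosh d - 1)/(cosh (n d) + 1)`
(`cosh` is even: the value at `n` and at `|n|` is the same). -/
theorem int_cells {d : ℝ} (hd : 0 < d) (i j : ℤ) {n : ℕ} (hn : (n : ℤ) = |i - j|) :
    (∫⁻ s in Ioc (i * d) ((i + 1) * d), ∫⁻ t in Ioc (j * d) ((j + 1) * d), Ke (s - t) ^ 4) ^
      (1 / 4 : ℝ) = ENNReal.ofReal (kap d n) := by
  have hab : (j : ℝ) * d ≤ (j + 1) * d := by nlinarith
  have hcd : (i : ℝ) * d ≤ (i + 1) * d := by nlinarith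
  simp_rw [fun s => int_K4 hab s]
  have hF : ∀ s : ℝ, HasDerivAt (fun s => Real.log (1 + Real.exp (s - j * d)) -
      Real.log (1 + Real.exp (s - (j + 1) * d)))
      ((1 + Real.exp (j * d - s))⁻¹ - (1 + Real.exp ((j + 1) * d - s))⁻¹) s :=
    fun s => (blk1_log_deriv _ s).sub (blk1_log_deriv _ s)
  rw [blk1_Ioc hF ((blk1_inv_cont _).sub (blk1_inv_cont _)) (fun s => ?_) hcd]
  swap
  · rw [sub_nonneg]
    refine inv_anti₀ (by positivity) ?_
    have := Real.exp_le_exp.mpr (sub_le_sub_right hab s)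
    linarith
  unfold kap
  have hch : Real.cosh (n * d) = Real.cosh ((i - j) * d) := by
    have h1 : (n : ℝ) = |(i : ℝ) - j| := by
      have := congrArg (Int.cast : ℤ → ℝ) hn
      push_cast at this
      exact this
    rw [← Real.cosh_abs (((i : ℝ) - j) * d), abs_mul, h1, abs_of_pos hd]
  set m : ℝ := (i : ℝ) - j with hm
  have e1 : ((i : ℝ) + 1) * d - j * d = m * d + d := by rw [hm]; ring
  have e2 : ((i : ℝ) + 1) * d - (j + 1) * d = m * d := by rw [hm]; ring
  have e3 : (i : ℝ) * d - j * d = m * d := by rw [hm]; ring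
  have e4 : (i : ℝ) * d - (j + 1) * d = m * d - d := by rw [hm]; ring
  rw [e1, e2, e3, e4]
  have hx : 0 < Real.exp (m * d) := Real.exp_pos _
  have hy : 0 < Real.exp d := Real.exp_pos _
  have hid : Real.log (1 + Real.exp (m * d + d)) - Real.log (1 + Real.exp (m * d)) -
      (Real.log (1 + Real.exp (m * d)) - Real.log (1 + Real.exp (m * d - d))) =
      Real.log (1 + (Real.cosh d - 1) / (Real.cosh (n * d) + 1)) := by
    have p1 : 0 < 1 + Real.exp (m * d + d) := by positivity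
    have p2 : 0 < 1 + Real.exp (m * d) := by positivity
    have p3 : 0 < 1 + Real.exp (m * d - d) := by positivity
    have h1 : Real.log (1 + Real.exp (m * d + d)) - Real.log (1 + Real.exp (m * d)) -
        (Real.log (1 + Real.exp (m * d)) - Real.log (1 + Real.exp (m * d - d))) =
        Real.log ((1 + Real.exp (m * d + d)) * (1 + Real.exp (m * d - d)) /
          ((1 + Real.exp (m * d)) * (1 + Real.exp (m * d)))) := by
      rw [Real.log_div (by positivity) (by positivity), Real.log_mul p1.ne' p3.ne',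
        Real.log_mul p2.ne' p2.ne']
      ring
    rw [h1]
    congr 1
    rw [hch, Real.cosh_eq, Real.cosh_eq, Real.exp_add, Real.exp_sub, Real.exp_neg, Real.exp_neg]
    generalize Real.exp (m * d) = x at hx
    generalize Real.exp d = y at hy
    field_simp
    ring
  have hnn : 0 ≤ Real.log (1 + (Real.cosh d - 1) / (Real.cosh (n * d) + 1)) := by
    refine Real.log_nonneg ?_
    have h1 : 0 ≤ (Real.cosh d - 1) / (Real.cosh (n * d) + 1) :=
      div_nonneg (by linarith [Real.one_le_cosh d]) (by linarith [Real.one_le_cosh (n * d)])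
    linarith
  rw [hid, ENNReal.ofReal_rpow_of_nonneg hnn (by norm_num)]

/-- A cell and the half line `(M d, ∞)`, `i < M` (integers), `n = M - 1 - i`. -/
theorem int_cell_tail {d : ℝ} (hd : 0 < d) (i M : ℤ) {n : ℕ} (hn : (n : ℤ) = M - 1 - i) :
    (∫⁻ s in Ioc (i * d) ((i + 1) * d), ∫⁻ t in Ioi (M * d), Ke (s - t) ^ 4) ^ (1 / 4 : ℝ) =
      ENNReal.ofReal (tau d n) := by
  have hcd : (i : ℝ) * d ≤ (i + 1) * d := by nlinarith
  simp_rw [fun s => int_K4_Ioi ((M : ℝ) * d) s]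
  rw [blk1_Ioc (fun s => blk1_log_deriv _ s) (blk1_inv_cont _) (fun s => by positivity) hcd]
  unfold tau
  have hn' : (n : ℝ) = M - 1 - i := by
    have := congrArg (Int.cast : ℤ → ℝ) hn
    push_cast at this
    exact this
  have e1 : ((i : ℝ) + 1) * d - M * d = -(n * d) := by rw [hn']; ring
  have e2 : (i : ℝ) * d - M * d = -((n + 1 : ℕ) * d) := by push_cast; rw [hn']; ring
  rw [e1, e2, ← Real.log_div (by positivity) (by positivity)]
  rw [ENNReal.ofReal_rpow_of_nonneg _ (by norm_num)]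
  refine Real.log_nonneg ?_
  rw [one_le_div (by positivity)]
  have h1 : -((n + 1 : ℕ) * d) ≤ -((n : ℝ) * d) := by push_cast; nlinarith
  have := Real.exp_le_exp.mpr h1
  linarith

/-- The half lines `(M d, ∞)` and `(-∞, -M d]`. -/
theorem int_tails {d : ℝ} (hd : 0 < d) (M : ℕ) :
    (∫⁻ s in Ioi (M * d), ∫⁻ t in Iic (-(M * d)), Ke (s - t) ^ 4) ^ (1 / 4 : ℝ) =
      ENNReal.ofReal (tau0 d M) := by
  simp_rw [fun s => blk1_int_K4_Iic (-(M * d)) s]
  have hF : ∀ s : ℝ, HasDerivAt (fun s => -Real.log (1 + Real.exp (-(M * d) - s)))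
      ((1 + Real.exp (s - -(M * d)))⁻¹) s := by
    intro s
    have h1 : HasDerivAt (fun s : ℝ => 1 + Real.exp (-(M * d) - s))
        (-Real.exp (-(M * d) - s)) s := by
      have h := (((hasDerivAt_id s).const_sub (-(M * d))).exp).const_add 1
      refine h.congr_deriv ?_
      simp
    have hp : (1 + Real.exp (-(M * d) - s)) ≠ 0 := by positivity
    have h2 := (h1.log hp).neg
    refine h2.congr_deriv ?_
    have e : Real.exp (s - -(M * d)) = (Real.exp (-(M * d) - s))⁻¹ := by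
      rw [← Real.exp_neg]; congr 1; ring
    have hq : 0 < Real.exp (-(M * d) - s) := Real.exp_pos _
    rw [e]
    field_simp
    ring
  have hl : Tendsto (fun s : ℝ => -Real.log (1 + Real.exp (-(M * d) - s))) atTop
      (𝓝 (-Real.log (1 + 0))) := by
    refine Tendsto.neg ?_
    refine Tendsto.log ?_ (by norm_num)
    refine tendsto_const_nhds.add ?_
    refine Real.tendsto_exp_atBot.comp ?_
    exact tendsto_atBot_add_const_left _ _ tendsto_neg_atTop_atBot
  rw [blk1_Ioi hF (fun s => by positivity) hl]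
  unfold tau0
  have e1 : -Real.log (1 + 0) - -Real.log (1 + Real.exp (-(M * d) - M * d)) =
      Real.log (1 + Real.exp (-(2 * M * d))) := by
    have e : -((M : ℝ) * d) - M * d = -(2 * M * d) := by ring
    rw [e]
    simp
  rw [e1, ENNReal.ofReal_rpow_of_nonneg _ (by norm_num)]
  refine Real.log_nonneg ?_
  have := Real.exp_pos (-(2 * M * d))
  linarith

end Pool.Agent.ENC
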