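import Mathlib
import Pool.Agent.ENC.Blk1

set_option autoImplicit false

/-!
# The masses of the cells satisfy the system
-/

open MeasureTheory Set Filter Topology MPdbfb19
open scoped ENNReal

namespace Pool.Agent.ENC

/-- The cell `(p d, (p + 1) d]`. -/
private def blk2_C (d : ℝ) (p : ℤ) : Set ℝ := Ioc ((p : ℝ) * d) (((p : ℝ) + 1) * d)

private lemma blk2_Cm (d : ℝ) (p : ℤ) : MeasurableSet (blk2_C d p) := measurableSet_Ioc

/-- Decomposition of the line. -/
private lemma blk2_split {d : ℝ} (hd : 0 < d) (F : ℝ → ℝ≥0∞) (M : ℕ) :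
    ∫⁻ s, F s = ∑ j ∈ Finset.range M, ((∫⁻ s in blk2_C d j, F s) +
      (∫⁻ s in blk2_C d (-j - 1), F s)) +
      ((∫⁻ s in Ioi ((M : ℝ) * d), F s) + (∫⁻ s in Iic (-((M : ℝ) * d)), F s)) := by
  induction M with
  | zero =>
    simp only [Finset.range_zero, Finset.sum_empty, Nat.cast_zero, zero_mul, neg_zero, zero_add]
    rw [add_comm, ← lintegral_union measurableSet_Ioi, Iic_union_Ioi, Measure.restrict_univ]
    rw [Set.disjoint_left]
    intro x hx hx'
    exact absurd (mem_Iic.1 hx) (not_le.2 (mem_Ioi.1 hx'))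
  | succ M ih =>
    rw [ih, Finset.sum_range_succ]
    have h1 : Ioi ((M : ℝ) * d) = blk2_C d (M : ℤ) ∪ Ioi (((M + 1 : ℕ) : ℝ) * d) := by
      unfold blk2_C
      push_cast
      rw [Ioc_union_Ioi_eq_Ioi]
      nlinarith
    have h2 : Iic (-((M : ℝ) * d)) = Iic (-(((M + 1 : ℕ) : ℝ) * d)) ∪ blk2_C d (-(M : ℤ) - 1) := by
      unfold blk2_C
      push_cast
      have e1 : (-(M : ℝ) - 1) * d = -(((M : ℝ) + 1) * d) := by ring
      have e2 : (-(M : ℝ) - 1 + 1) * d = -((M : ℝ) * d) := by ring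
      rw [e1, e2, Iic_union_Ioc_eq_Iic]
      nlinarith
    rw [h1, h2, lintegral_union measurableSet_Ioi, lintegral_union (blk2_Cm d _)]
    · ring
    · rw [Set.disjoint_left]
      intro x hx hx'
      unfold blk2_C at hx'
      push_cast at hx'
      have h3 := hx'.1
      rw [mem_Iic] at hx
      push_cast at hx
      nlinarith
    · rw [Set.disjoint_left]
      intro x hx hx'
      unfold blk2_C at hx
      push_cast at hx
      have h3 := hx.2
      rw [mem_Ioi] at hx'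
      push_cast at hx'
      nlinarith

private lemma blk2_refl_Ioc (a b : ℝ) (F : ℝ → ℝ≥0∞) :
    ∫⁻ s in Ioc a b, F s = ∫⁻ s in Ioc (-b) (-a), F (-s) := by
  rw [← lintegral_indicator measurableSet_Ioc, ← lintegral_neg_eq_self,
    setLIntegral_congr (Ico_ae_eq_Ioc (a := -b) (b := -a)).symm,
    ← lintegral_indicator measurableSet_Ico]
  refine lintegral_congr fun s => ?_
  by_cases h : s ∈ Ico (-b) (-a)
  · rw [indicator_of_mem h, indicator_of_mem]
    rw [mem_Ico] at h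
    rw [mem_Ioc]
    constructor <;> linarith [h.1, h.2]
  · rw [indicator_of_notMem h, indicator_of_notMem]
    intro h'
    apply h
    rw [mem_Ioc] at h'
    rw [mem_Ico]
    constructor <;> linarith [h'.1, h'.2]

private lemma blk2_refl_Iic (a : ℝ) (F : ℝ → ℝ≥0∞) :
    ∫⁻ s in Iic (-a), F s = ∫⁻ s in Ioi a, F (-s) := by
  rw [← lintegral_indicator measurableSet_Iic, ← lintegral_neg_eq_self,
    setLIntegral_congr (Ioi_ae_eq_Ici (a := a)),
    ← lintegral_indicator measurableSet_Ici]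
  refine lintegral_congr fun s => ?_
  by_cases h : s ∈ Ici a
  · rw [indicator_of_mem h, indicator_of_mem]
    rw [mem_Ici] at h
    rw [mem_Iic]
    linarith
  · rw [indicator_of_notMem h, indicator_of_notMem]
    intro h'
    apply h
    rw [mem_Iic] at h'
    rw [mem_Ici]
    linarith

private lemma blk2_refl_C {d : ℝ} (i : ℤ) (F : ℝ → ℝ≥0∞) :
    ∫⁻ s in blk2_C d i, F s = ∫⁻ s in blk2_C d (-i - 1), F (-s) := by
  unfold blk2_C
  rw [blk2_refl_Ioc]
  have e1 : -(((i : ℝ) + 1) * d) = (((-i - 1 : ℤ) : ℝ)) * d := by push_cast; ring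
  have e2 : -((i : ℝ) * d) = (((-i - 1 : ℤ) : ℝ) + 1) * d := by push_cast; ring
  rw [e1, e2]

/-- Data of a solution. -/
private lemma blk2_eq {c : ℝ} {φ : ℝ → ℝ} (hc0 : 0 < c) (h : EExt c φ) (s : ℝ) :
    ∫⁻ t, ENNReal.ofReal (φ t) ^ 3 * Ke (s - t) = ENNReal.ofReal c * ENNReal.ofReal (φ s) := by
  rw [← ENNReal.ofReal_mul hc0.le, ← h.eq s, ofReal_integral_eq_lintegral_ofReal (h.inte s)
    (Eventually.of_forall fun t => mul_nonneg (pow_nonneg (h.pos t).le 3) (Kk_pos _).le)]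
  refine lintegral_congr fun t => ?_
  rw [ENNReal.ofReal_mul (pow_nonneg (h.pos t).le 3), ENNReal.ofReal_pow (h.pos t).le, Ke_eq]

private lemma blk2_mass {φ : ℝ → ℝ} (hp : ∀ s, 0 < φ s) (hi : Integrable (fun s => φ s ^ 4))
    (A : Set ℝ) : ∫⁻ s in A, ENNReal.ofReal (φ s) ^ 4 =
      ENNReal.ofReal ((∫ s in A, φ s ^ 4) ^ (1 / 4 : ℝ)) ^ 4 := by
  have h0 : 0 ≤ ∫ s in A, φ s ^ 4 := integral_nonneg fun s => by positivity
  rw [← ENNReal.ofReal_pow (Real.rpow_nonneg h0 _), ← Real.rpow_natCast, ← Real.rpow_mul h0]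
  norm_num
  rw [ofReal_integral_eq_lintegral_ofReal hi.integrableOn
    (Eventually.of_forall fun s => by positivity)]
  refine lintegral_congr fun s => ?_
  rw [ENNReal.ofReal_pow (hp s).le]

private lemma blk2_rpow (a b : ℝ≥0∞) : (a ^ 4 * b ^ 4) ^ (3 / 4 : ℝ) = a ^ 3 * b ^ 3 := by
  rw [← mul_pow, ← mul_pow, ← ENNReal.rpow_natCast, ← ENNReal.rpow_mul, ← ENNReal.rpow_natCast _ 3]
  norm_num

private lemma blk2_pos {φ : ℝ → ℝ} (hp : ∀ s, 0 < φ s) (hi : Integrable (fun s => φ s ^ 4))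
    {A : Set ℝ} (hv : volume A ≠ 0) :
    0 < (∫ s in A, φ s ^ 4) ^ (1 / 4 : ℝ) := by
  apply Real.rpow_pos_of_pos
  rw [setIntegral_pos_iff_support_of_nonneg_ae (Eventually.of_forall fun s => by positivity)
    hi.integrableOn]
  have : Function.support (fun s => φ s ^ 4) = univ := by
    ext s
    simp only [Function.mem_support, mem_univ, iff_true]
    have := hp s
    positivity
  rw [this, univ_inter]
  exact pos_iff_ne_zero.2 hv

/-- The double integral over `A × B`. -/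
private noncomputable def blk2_B (φ : ℝ → ℝ) (A B : Set ℝ) : ℝ≥0∞ :=
  ∫⁻ s in A, ∫⁻ t in B, ENNReal.ofReal (φ s) ^ 3 * ENNReal.ofReal (φ t) ^ 3 * Ke (s - t)

private lemma blk2_meas {φ : ℝ → ℝ} (hφ : Continuous φ) : Measurable (fun z : ℝ × ℝ =>
    ENNReal.ofReal (φ z.1) ^ 3 * ENNReal.ofReal (φ z.2) ^ 3 * Ke (z.1 - z.2)) := by
  have hu : Measurable (fun s => ENNReal.ofReal (φ s)) := hφ.measurable.ennreal_ofReal
  exact (((hu.comp measurable_fst).pow_const 3).mul ((hu.comp measurable_snd).pow_const 3)).mul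
    (Ke_meas.comp (measurable_fst.sub measurable_snd))

private lemma blk2_symm {φ : ℝ → ℝ} (hφ : Continuous φ) (A B : Set ℝ) :
    blk2_B φ A B = blk2_B φ B A := by
  unfold blk2_B
  rw [lintegral_lintegral_swap (blk2_meas hφ).aemeasurable]
  refine lintegral_congr fun s => lintegral_congr fun t => ?_
  rw [Ke_symm t s]
  ring

private lemma blk2_row {c : ℝ} {φ : ℝ → ℝ} (hc0 : 0 < c) (h : EExt c φ) {d : ℝ} (hd : 0 < d)
    (M : ℕ) (A : Set ℝ) :
    ENNReal.ofReal c * ∫⁻ s in A, ENNReal.ofReal (φ s) ^ 4 =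
      ∑ j ∈ Finset.range M, (blk2_B φ A (blk2_C d j) + blk2_B φ A (blk2_C d (-j - 1))) +
      (blk2_B φ A (Ioi ((M : ℝ) * d)) + blk2_B φ A (Iic (-((M : ℝ) * d)))) := by
  have hu : Measurable (fun s => ENNReal.ofReal (φ s)) := h.cont.measurable.ennreal_ofReal
  have hm : ∀ B : Set ℝ, Measurable (fun s => ∫⁻ t in B, ENNReal.ofReal (φ s) ^ 3 *
      ENNReal.ofReal (φ t) ^ 3 * Ke (s - t)) := fun B =>
    (blk2_meas h.cont).lintegral_prod_right'
  have e1 : ENNReal.ofReal c * ∫⁻ s in A, ENNReal.ofReal (φ s) ^ 4 = ∫⁻ s in A, ∫⁻ t,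
      ENNReal.ofReal (φ s) ^ 3 * ENNReal.ofReal (φ t) ^ 3 * Ke (s - t) := by
    rw [← lintegral_const_mul _ (hu.pow_const 4)]
    refine lintegral_congr fun s => ?_
    have e2 : ∀ t, ENNReal.ofReal (φ s) ^ 3 * ENNReal.ofReal (φ t) ^ 3 * Ke (s - t) =
        ENNReal.ofReal (φ s) ^ 3 * (ENNReal.ofReal (φ t) ^ 3 * Ke (s - t)) := fun t => mul_assoc _ _ _
    simp_rw [e2]
    have hm1 : Measurable (fun t => ENNReal.ofReal (φ t) ^ 3 * Ke (s - t)) :=
      (hu.pow_const 3).mul (Ke_meas.comp (measurable_const.sub measurable_id))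
    rw [lintegral_const_mul _ hm1, blk2_eq hc0 h]
    ring
  rw [e1]
  have e3 : ∀ s, ∫⁻ t, ENNReal.ofReal (φ s) ^ 3 * ENNReal.ofReal (φ t) ^ 3 * Ke (s - t) = _ :=
    fun s => blk2_split hd _ M
  simp_rw [e3]
  have hm2 : Measurable (fun s => (∫⁻ t in Ioi ((M : ℝ) * d), ENNReal.ofReal (φ s) ^ 3 *
      ENNReal.ofReal (φ t) ^ 3 * Ke (s - t)) + ∫⁻ t in Iic (-((M : ℝ) * d)),
      ENNReal.ofReal (φ s) ^ 3 * ENNReal.ofReal (φ t) ^ 3 * Ke (s - t)) := (hm _).add (hm _)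
  rw [lintegral_add_right _ hm2, lintegral_add_right _ (hm _),
    lintegral_finsetSum]
  rotate_left
  · intro j _
    exact (hm _).add (hm _)
  unfold blk2_B
  congr 1
  refine Finset.sum_congr rfl fun j _ => ?_
  rw [lintegral_add_right _ (hm _)]

private lemma blk2_ub {φ : ℝ → ℝ} (hφ : Continuous φ) {A B : Set ℝ} (hA : MeasurableSet A)
    (hB : MeasurableSet B) {k a b : ℝ} (hk0 : 0 ≤ k) (ha0 : 0 ≤ a) (hb0 : 0 ≤ b)
    (hk : (∫⁻ s in A, ∫⁻ t in B, Ke (s - t) ^ 4) ^ (1 / 4 : ℝ) = ENNReal.ofReal k)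
    (ha : ∫⁻ s in A, ENNReal.ofReal (φ s) ^ 4 = ENNReal.ofReal a ^ 4)
    (hb : ∫⁻ s in B, ENNReal.ofReal (φ s) ^ 4 = ENNReal.ofReal b ^ 4) :
    blk2_B φ A B ≤ ENNReal.ofReal (a ^ 3 * (k * b ^ 3)) := by
  have hu : Measurable (fun s => ENNReal.ofReal (φ s)) := hφ.measurable.ennreal_ofReal
  have h1 := block hu hu hA hB
  rw [hk, ha, hb, blk2_rpow] at h1
  refine h1.trans (le_of_eq ?_)
  rw [ENNReal.ofReal_mul (by positivity), ENNReal.ofReal_mul hk0, ENNReal.ofReal_pow ha0,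
    ENNReal.ofReal_pow hb0]
  ring

private lemma blk2_kap0 (d : ℝ) (n : ℕ) : 0 ≤ kap d n := by
  unfold kap
  apply Real.rpow_nonneg
  apply Real.log_nonneg
  have h1 := Real.one_le_cosh d
  have h2 := Real.one_le_cosh (n * d)
  have h3 : 0 ≤ (Real.cosh d - 1) / (Real.cosh (n * d) + 1) :=
    div_nonneg (by linarith) (by linarith)
  linarith

private lemma blk2_tau0 {d : ℝ} (hd : 0 < d) (n : ℕ) : 0 ≤ tau d n := by
  unfold tau
  apply Real.rpow_nonneg
  apply Real.log_nonneg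
  rw [le_div_iff₀ (by positivity), one_mul]
  have h1 : Real.exp (-(((n + 1 : ℕ) : ℝ) * d)) ≤ Real.exp (-(n * d)) := by
    apply Real.exp_le_exp.2
    push_cast
    nlinarith
  linarith

private lemma blk2_tau00 (d : ℝ) (M : ℕ) : 0 ≤ tau0 d M := by
  unfold tau0
  apply Real.rpow_nonneg
  apply Real.log_nonneg
  have := Real.exp_pos (-(2 * M * d))
  linarith

private lemma blk2_nu0' {d : ℝ} (hd : 0 < d) (n : ℕ) :
    0 ≤ (1 + Real.exp (n * d))⁻¹ - (1 + Real.exp (((n + 1 : ℕ) : ℝ) * d))⁻¹ := by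
  rw [sub_nonneg]
  apply inv_anti₀ (by positivity)
  have h1 : Real.exp (n * d) ≤ Real.exp (((n + 1 : ℕ) : ℝ) * d) := by
    apply Real.exp_le_exp.2
    push_cast
    nlinarith
  linarith

/-- The masses of the cells and tails. -/
private lemma blk2_mC {c : ℝ} {φ : ℝ → ℝ} (h : EExt c φ) (d : ℝ) (j : ℕ) :
    ∫⁻ s in blk2_C d j, ENNReal.ofReal (φ s) ^ 4 = ENNReal.ofReal (cx φ d j) ^ 4 := by
  rw [blk2_mass h.pos h.int4]
  unfold cx blk2_C
  push_cast
  rfl

private lemma blk2_mC' {c : ℝ} {φ : ℝ → ℝ} (h : EExt c φ) (d : ℝ) (j : ℕ) :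
    ∫⁻ s in blk2_C d (-j - 1), ENNReal.ofReal (φ s) ^ 4 = ENNReal.ofReal (cx φ d j) ^ 4 := by
  rw [blk2_refl_C, ← blk2_mC h]
  have e : -(-(j : ℤ) - 1) - 1 = (j : ℤ) := by ring
  rw [e]
  refine lintegral_congr fun s => ?_
  rw [h.even]

private lemma blk2_mT {c : ℝ} {φ : ℝ → ℝ} (h : EExt c φ) (d : ℝ) (M : ℕ) :
    ∫⁻ s in Ioi ((M : ℝ) * d), ENNReal.ofReal (φ s) ^ 4 = ENNReal.ofReal (cT φ d M) ^ 4 := by
  rw [blk2_mass h.pos h.int4]
  rfl

private lemma blk2_mT' {c : ℝ} {φ : ℝ → ℝ} (h : EExt c φ) (d : ℝ) (M : ℕ) :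
    ∫⁻ s in Iic (-((M : ℝ) * d)), ENNReal.ofReal (φ s) ^ 4 = ENNReal.ofReal (cT φ d M) ^ 4 := by
  rw [blk2_refl_Iic, ← blk2_mT h]
  refine lintegral_congr fun s => ?_
  rw [h.even]

private lemma blk2_cx0 (φ : ℝ → ℝ) (d : ℝ) (j : ℕ) : 0 ≤ cx φ d j := by
  unfold cx
  exact Real.rpow_nonneg (integral_nonneg fun s => by positivity) _

private lemma blk2_cT0 (φ : ℝ → ℝ) (d : ℝ) (j : ℕ) : 0 ≤ cT φ d j := by
  unfold cT
  exact Real.rpow_nonneg (integral_nonneg fun s => by positivity) _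

private lemma blk2_kC {d : ℝ} (hd : 0 < d) (p q : ℤ) {n : ℕ} (hn : (n : ℤ) = |p - q|) :
    (∫⁻ s in blk2_C d p, ∫⁻ t in blk2_C d q, Ke (s - t) ^ 4) ^ (1 / 4 : ℝ) =
      ENNReal.ofReal (kap d n) := int_cells hd p q hn

private lemma blk2_kT {d : ℝ} (hd : 0 < d) (p : ℤ) (M : ℕ) {n : ℕ} (hn : (n : ℤ) = M - 1 - p) :
    (∫⁻ s in blk2_C d p, ∫⁻ t in Ioi ((M : ℝ) * d), Ke (s - t) ^ 4) ^ (1 / 4 : ℝ) =
      ENNReal.ofReal (tau d n) := by
  have := int_cell_tail hd p (M : ℤ) hn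
  push_cast at this
  exact this

private lemma blk2_kT' {d : ℝ} (hd : 0 < d) (p : ℤ) (M : ℕ) {n : ℕ} (hn : (n : ℤ) = M + p) :
    (∫⁻ s in blk2_C d p, ∫⁻ t in Iic (-((M : ℝ) * d)), Ke (s - t) ^ 4) ^ (1 / 4 : ℝ) =
      ENNReal.ofReal (tau d n) := by
  rw [← blk2_kT hd (-p - 1) M (n := n) (by omega), blk2_refl_C]
  congr 1
  refine lintegral_congr fun s => ?_
  rw [blk2_refl_Iic]
  refine lintegral_congr fun t => ?_
  rw [Ke_symm]
  congr 2
  ring

/-- Collecting the terms. -/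
private lemma blk2_fin {c a bT k1T k2T : ℝ} {M : ℕ} {b k1 k2 : ℕ → ℝ}
    (hc0 : 0 < c) (ha : 0 < a) (hb : ∀ j, 0 ≤ b j) (hbT : 0 ≤ bT) (hk1 : ∀ j, 0 ≤ k1 j)
    (hk2 : ∀ j, 0 ≤ k2 j) (hk1T : 0 ≤ k1T) (hk2T : 0 ≤ k2T)
    (h : ENNReal.ofReal c * ENNReal.ofReal a ^ 4 ≤ ∑ j ∈ Finset.range M,
      (ENNReal.ofReal (a ^ 3 * (k1 j * b j ^ 3)) + ENNReal.ofReal (a ^ 3 * (k2 j * b j ^ 3))) +
      (ENNReal.ofReal (a ^ 3 * (k1T * bT ^ 3)) + ENNReal.ofReal (a ^ 3 * (k2T * bT ^ 3)))) :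
    c * a ≤ ∑ j ∈ Finset.range M, (k1 j + k2 j) * b j ^ 3 + (k1T + k2T) * bT ^ 3 := by
  have e1 : ∑ j ∈ Finset.range M,
      (ENNReal.ofReal (a ^ 3 * (k1 j * b j ^ 3)) + ENNReal.ofReal (a ^ 3 * (k2 j * b j ^ 3))) +
      (ENNReal.ofReal (a ^ 3 * (k1T * bT ^ 3)) + ENNReal.ofReal (a ^ 3 * (k2T * bT ^ 3))) =
      ENNReal.ofReal (a ^ 3 * (∑ j ∈ Finset.range M, (k1 j + k2 j) * b j ^ 3 +
        (k1T + k2T) * bT ^ 3)) := by
    have hs : ∀ j, 0 ≤ a ^ 3 * ((k1 j + k2 j) * b j ^ 3) := by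
      intro j
      have := hb j
      have := hk1 j
      have := hk2 j
      positivity
    have e2 : ∀ j ∈ Finset.range M, (ENNReal.ofReal (a ^ 3 * (k1 j * b j ^ 3)) +
        ENNReal.ofReal (a ^ 3 * (k2 j * b j ^ 3))) =
        ENNReal.ofReal (a ^ 3 * ((k1 j + k2 j) * b j ^ 3)) := by
      intro j _
      have := hb j
      have := hk1 j
      have := hk2 j
      rw [← ENNReal.ofReal_add (by positivity) (by positivity)]
      congr 1
      ring
    rw [Finset.sum_congr rfl e2, ← ENNReal.ofReal_sum_of_nonneg fun j _ => hs j,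
      ← ENNReal.ofReal_add (by positivity) (by positivity),
      ← ENNReal.ofReal_add (Finset.sum_nonneg fun j _ => hs j) (by positivity)]
    congr 1
    rw [← Finset.mul_sum]
    ring
  rw [e1, ← ENNReal.ofReal_pow ha.le, ← ENNReal.ofReal_mul hc0.le,
    ENNReal.ofReal_le_ofReal_iff] at h
  · have h2 : a ^ 3 * (c * a) ≤ a ^ 3 * (∑ j ∈ Finset.range M, (k1 j + k2 j) * b j ^ 3 +
        (k1T + k2T) * bT ^ 3) := by
      refine le_trans (le_of_eq ?_) h
      ring
    exact le_of_mul_le_mul_left h2 (by positivity)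
  · apply mul_nonneg (by positivity)
    apply add_nonneg _ (by positivity)
    refine Finset.sum_nonneg fun j _ => ?_
    have := hb j
    have := hk1 j
    have := hk2 j
    positivity

/-- **The system.**

Proof. Put `u s = ofReal (φ s)`. For a measurable set `A` let `m A = ∫⁻ s in A, u s ^ 4` (finite,
`m univ = 1`). By `Ext.eq`, `c * m A = ∫⁻ s in A, ∫⁻ t, u s ^ 3 * u t ^ 3 * Ke (s - t)`. The line is
the disjoint union (up to finitely many points) of the cells `(j d, (j + 1) d]`,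
`-M ≤ j < M` (integers), and the half lines `(M d, ∞)`, `(-∞, -M d]` (e.g. prove for nonnegative
measurable `F`: `∫⁻ F = ∑_{j < M} (∫⁻_{cell j} F + ∫⁻_{cell (-j-1)} F) + ∫⁻_{Ioi} F + ∫⁻_{Iic} F`, by
induction on `M`). By `block` and evenness (`m (cell (-j-1)) = m (cell j)`,
`m (Iic (-M d)) = m (Ioi (M d))`: substitution `s ↦ -s`), for `A = cell i`, `0 ≤ i < M`:
`c * m_i ≤ ∑_j (κ(|i-j|) + κ(i+j+1)) (m_i m_j)^{3/4} + (τ(M-1-i) + τ(M+i)) (m_i m_T)^{3/4}`
(`|i - (-j-1)| = i + j + 1`; the pair (cell i, `(-∞, -M d]`) is the mirror image of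
(cell (-i-1), `(M d, ∞)`), with `M - 1 - (-i-1) = M + i`). With `x_j = m_j^{1/4}` and division by
`x_i ^ 3 > 0` (`φ > 0`, `d > 0`) this is `row`. For `A = (M d, ∞)` use for the pair `(A, A)`
`∫⁻_A ∫⁻_A u³ u³ Ke ≤ c * m_T ^ (3/2)`, which is `hB` for `φ = ψ = indicator A (u ^ 3)`
(`NN = m_T`); `int_tails` for the pair of the two half lines; divide by `x_T ^ 3 > 0`:
`c x_T ≤ c x_T ^ 3 + …`. `mass`: `1 = m univ = 2 (∑ m_j + m_T)`. -/
theorem exists_sys {c : ℝ} {φ : ℝ → ℝ} (hB : BB (ENNReal.ofReal c)) (hc0 : 0 < c)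
    (h : EExt c φ) {d : ℝ} (hd : 0 < d) (M : ℕ) :
    Sys c d M (cx φ d) (cT φ d M) := by
  have hu : Measurable (fun s => ENNReal.ofReal (φ s)) := h.cont.measurable.ennreal_ofReal
  have hcxp : ∀ j : ℕ, 0 < cx φ d j := by
    intro j
    apply blk2_pos h.pos h.int4
    rw [Real.volume_Ioc]
    push_cast
    have e : ((j : ℝ) + 1) * d - j * d = d := by ring
    rw [e]
    exact (ENNReal.ofReal_pos.2 hd).ne'
  have hcTp : 0 < cT φ d M := by
    apply blk2_pos h.pos h.int4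
    rw [Real.volume_Ioi]
    exact ENNReal.top_ne_zero
  refine ⟨blk2_cx0 φ d, blk2_cT0 φ d M, ?_, ?_, ?_⟩
  · -- mass
    have h1 := blk2_split hd (fun s => ENNReal.ofReal (φ s) ^ 4) M
    have h2 : ∫⁻ s, ENNReal.ofReal (φ s) ^ 4 = ENNReal.ofReal 1 := by
      rw [← h.four, ofReal_integral_eq_lintegral_ofReal h.int4
        (Eventually.of_forall fun s => by positivity)]
      refine lintegral_congr fun s => ?_
      rw [ENNReal.ofReal_pow (h.pos s).le]
    rw [h2, blk2_mT h, blk2_mT' h] at h1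
    simp_rw [blk2_mC h, blk2_mC' h] at h1
    have e1 : ∀ j ∈ Finset.range M, ENNReal.ofReal (cx φ d j) ^ 4 +
        ENNReal.ofReal (cx φ d j) ^ 4 = ENNReal.ofReal (2 * cx φ d j ^ 4) := by
      intro j _
      have := blk2_cx0 φ d j
      rw [← ENNReal.ofReal_pow this, ← ENNReal.ofReal_add (by positivity) (by positivity)]
      congr 1
      ring
    have h0 := blk2_cT0 φ d M
    have hs : 0 ≤ ∑ j ∈ Finset.range M, 2 * cx φ d j ^ 4 :=
      Finset.sum_nonneg fun j _ => by positivity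
    rw [Finset.sum_congr rfl e1, ← ENNReal.ofReal_sum_of_nonneg (fun j _ => by positivity),
      ← ENNReal.ofReal_pow h0, ← ENNReal.ofReal_add (by positivity) (by positivity),
      ← ENNReal.ofReal_add hs (by positivity),
      ENNReal.ofReal_eq_ofReal_iff (by norm_num) (by positivity), ← Finset.mul_sum] at h1
    rw [h1]
    ring
  · -- rows
    intro i hi
    have h1 := (blk2_row hc0 h hd M (blk2_C d i)).le
    rw [blk2_mC h] at h1
    apply blk2_fin hc0 (hcxp i) (blk2_cx0 φ d) (blk2_cT0 φ d M)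
      (fun j => blk2_kap0 d _) (fun j => blk2_kap0 d _) (blk2_tau0 hd _) (blk2_tau0 hd _)
    refine h1.trans (add_le_add (Finset.sum_le_sum fun j _ => add_le_add ?_ ?_)
      (add_le_add ?_ ?_))
    · refine blk2_ub h.cont (blk2_Cm d _) (blk2_Cm d _) (blk2_kap0 d _) (blk2_cx0 φ d i)
        (blk2_cx0 φ d j) (blk2_kC hd _ _ ?_) (blk2_mC h d i) (blk2_mC h d j)
      rcases le_total i j with h | h
      · rw [abs_of_nonpos (by omega)]; omega
      · rw [abs_of_nonneg (by omega)]; omega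
    · refine blk2_ub h.cont (blk2_Cm d _) (blk2_Cm d _) (blk2_kap0 d _) (blk2_cx0 φ d i)
        (blk2_cx0 φ d j) (blk2_kC hd _ _ ?_) (blk2_mC h d i) (blk2_mC' h d j)
      rw [abs_of_nonneg (by omega)]
      push_cast
      ring
    · refine blk2_ub h.cont (blk2_Cm d _) measurableSet_Ioi (blk2_tau0 hd _) (blk2_cx0 φ d i)
        (blk2_cT0 φ d M) (blk2_kT hd _ M ?_) (blk2_mC h d i) (blk2_mT h d M)
      omega
    · refine blk2_ub h.cont (blk2_Cm d _) measurableSet_Iic (blk2_tau0 hd _) (blk2_cx0 φ d i)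
        (blk2_cT0 φ d M) (blk2_kT' hd _ M ?_) (blk2_mC h d i) (blk2_mT' h d M)
      omega
  · -- the tail
    have h1 := (blk2_row hc0 h hd M (Ioi ((M : ℝ) * d))).le
    rw [blk2_mT h] at h1
    have hTT : blk2_B φ (Ioi ((M : ℝ) * d)) (Ioi ((M : ℝ) * d)) ≤
        ENNReal.ofReal (cT φ d M ^ 3 * (c * cT φ d M ^ 3)) := by
      set A : Set ℝ := Ioi ((M : ℝ) * d) with hA
      have hAm : MeasurableSet A := measurableSet_Ioi
      set f : ℝ → ℝ≥0∞ := indicator A (fun s => ENNReal.ofReal (φ s) ^ 3) with hf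
      have hfm : Measurable f := (hu.pow_const 3).indicator hAm
      have hNN : NN f = ENNReal.ofReal (cT φ d M) ^ 4 := by
        rw [← blk2_mT h]
        unfold NN
        rw [← lintegral_indicator hAm]
        refine lintegral_congr fun s => ?_
        by_cases hs : s ∈ A
        · rw [hf, indicator_of_mem hs, indicator_of_mem hs, cube_rpow]
        · rw [hf, indicator_of_notMem hs, indicator_of_notMem hs]
          norm_num
      have hfin : NN f ≠ ∞ := by
        rw [hNN]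
        exact ENNReal.pow_ne_top ENNReal.ofReal_ne_top
      have h2 := hB f f hfm hfm hfin hfin
      have e1 : ∫⁻ s, f s * Tt f s = blk2_B φ A A := by
        unfold blk2_B Tt
        rw [← lintegral_indicator hAm]
        refine lintegral_congr fun s => ?_
        by_cases hs : s ∈ A
        · have hm1 : Measurable (fun t => A.indicator (fun s => ENNReal.ofReal (φ s) ^ 3) t *
              Ke (s - t)) := ((hu.pow_const 3).indicator hAm).mul
              (Ke_meas.comp (measurable_const.sub measurable_id))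
          rw [hf, indicator_of_mem hs, indicator_of_mem hs, ← lintegral_indicator hAm,
            ← lintegral_const_mul _ hm1]
          refine lintegral_congr fun t => ?_
          by_cases ht : t ∈ A
          · rw [indicator_of_mem ht, indicator_of_mem ht]
            ring
          · rw [indicator_of_notMem ht, indicator_of_notMem ht]
            simp
        · rw [hf, indicator_of_notMem hs, indicator_of_notMem hs, zero_mul]
      rw [e1, hNN] at h2
      refine h2.trans (le_of_eq ?_)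
      have e2 : ∀ x : ℝ≥0∞, (x ^ 4) ^ (3 / 4 : ℝ) = x ^ 3 := by
        intro x
        rw [← ENNReal.rpow_natCast, ← ENNReal.rpow_mul, ← ENNReal.rpow_natCast x 3]
        norm_num
      have h0 := blk2_cT0 φ d M
      rw [e2, ENNReal.ofReal_mul (by positivity), ENNReal.ofReal_mul hc0.le,
        ENNReal.ofReal_pow h0]
      ring
    have h3 : c * cT φ d M ≤ ∑ j ∈ Finset.range M, (tau d (M - 1 - j) + tau d (M + j)) *
        cx φ d j ^ 3 + (c + tau0 d M) * cT φ d M ^ 3 := by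
      apply blk2_fin hc0 hcTp (blk2_cx0 φ d) (blk2_cT0 φ d M)
        (fun j => blk2_tau0 hd _) (fun j => blk2_tau0 hd _) hc0.le (blk2_tau00 d M)
      refine h1.trans (add_le_add (Finset.sum_le_sum fun j hj => add_le_add ?_ ?_)
        (add_le_add hTT ?_))
      · rw [Finset.mem_range] at hj
        rw [blk2_symm h.cont]
        refine (blk2_ub h.cont (blk2_Cm d _) measurableSet_Ioi (blk2_tau0 hd (M - 1 - j))
          (blk2_cx0 φ d j) (blk2_cT0 φ d M) (blk2_kT hd _ M ?_) (blk2_mC h d j)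
          (blk2_mT h d M)).trans (le_of_eq ?_)
        · omega
        · congr 1; ring
      · rw [blk2_symm h.cont]
        refine (blk2_ub h.cont (blk2_Cm d _) measurableSet_Ioi (blk2_tau0 hd (M + j))
          (blk2_cx0 φ d j) (blk2_cT0 φ d M) (blk2_kT hd _ M ?_) (blk2_mC' h d j)
          (blk2_mT h d M)).trans (le_of_eq ?_)
        · push_cast; ring
        · congr 1; ring
      · exact blk2_ub h.cont measurableSet_Ioi measurableSet_Iic (blk2_tau00 d M)
          (blk2_cT0 φ d M) (blk2_cT0 φ d M) (int_tails hd M) (blk2_mT h d M) (blk2_mT' h d M)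
    linarith

/-- Hölder at a point. -/
private lemma blk2_holder {φ : ℝ → ℝ} (hφ : Continuous φ) {B : Set ℝ} (_hB : MeasurableSet B)
    (s : ℝ) {k b : ℝ} (hk0 : 0 ≤ k) (hb0 : 0 ≤ b)
    (hk : ∫⁻ t in B, Ke (s - t) ^ 4 = ENNReal.ofReal k)
    (hb : ∫⁻ s in B, ENNReal.ofReal (φ s) ^ 4 = ENNReal.ofReal b ^ 4) :
    ∫⁻ t in B, ENNReal.ofReal (φ t) ^ 3 * Ke (s - t) ≤
      ENNReal.ofReal (1 ^ 3 * (k ^ (1 / 4 : ℝ) * b ^ 3)) := by
  have hu : Measurable (fun s => ENNReal.ofReal (φ s)) := hφ.measurable.ennreal_ofReal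
  have h := ENNReal.lintegral_mul_le_Lp_mul_Lq (volume.restrict B) conj_exp
    (hu.pow_const 3).aemeasurable
    (Ke_meas.comp (measurable_const.sub measurable_id) : Measurable fun t => Ke (s - t)).aemeasurable
  have e : (1 / (4 / 3) : ℝ) = 3 / 4 := by norm_num
  rw [e] at h
  have e2 : ∀ t, Ke (s - t) ^ (4 : ℝ) = Ke (s - t) ^ 4 := fun t => by
    rw [← ENNReal.rpow_natCast]; norm_num
  have h' : ∫⁻ t in B, ENNReal.ofReal (φ t) ^ 3 * Ke (s - t) ≤
      (∫⁻ t in B, (ENNReal.ofReal (φ t) ^ 3) ^ (4 / 3 : ℝ)) ^ (3 / 4 : ℝ) *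
      (∫⁻ t in B, Ke (s - t) ^ (4 : ℝ)) ^ (1 / 4 : ℝ) := h
  simp_rw [e2, cube_rpow] at h'
  rw [hk, hb] at h'
  refine h'.trans (le_of_eq ?_)
  have e3 : ∀ x : ℝ≥0∞, (x ^ 4) ^ (3 / 4 : ℝ) = x ^ 3 := by
    intro x
    rw [← ENNReal.rpow_natCast, ← ENNReal.rpow_mul, ← ENNReal.rpow_natCast x 3]
    norm_num
  rw [e3, one_pow, one_mul, ENNReal.ofReal_mul (Real.rpow_nonneg hk0 _),
    ENNReal.ofReal_rpow_of_nonneg hk0 (by norm_num), ENNReal.ofReal_pow hb0]
  ring

private lemma blk2_refl_exp (x : ℝ) : (1 + Real.exp (-x))⁻¹ = 1 - (1 + Real.exp x)⁻¹ := by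
  rw [Real.exp_neg]
  have := Real.exp_pos x
  field_simp
  ring

/-- **Bound at a node** `t = i d`, `i ≤ M`: Hölder on each cell for `s ↦ K (i d - s)`, as in
`exists_sys` but with a point instead of the cell `A` (`int_K4`, `int_K4_Ioi`; a cell
`(j d, (j+1) d]` with `j < i` is the mirror image in `i d` of the cell at distance
`(i - j - 1) d`). -/
theorem node {c : ℝ} {φ : ℝ → ℝ} (hc0 : 0 < c) (h : EExt c φ) {d : ℝ} (hd : 0 < d) (M : ℕ)
    (i : ℕ) (hi : i ≤ M) :
    c * φ (i * d) ≤ ∑ j ∈ Finset.range M, (nu d (if i ≤ j then j - i else i - j - 1) +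
      nu d (i + j)) * cx φ d j ^ 3 + (nut d (M - i) + nut d (M + i)) * cT φ d M ^ 3 := by
  have h1 := blk2_eq hc0 h (i * d)
  rw [blk2_split hd _ M] at h1
  have hnut : ∀ n, 0 ≤ (1 + Real.exp (n * d))⁻¹ := fun n => by positivity
  have h2 : ENNReal.ofReal (c * φ (i * d)) * ENNReal.ofReal 1 ^ 4 ≤ ∑ j ∈ Finset.range M,
      (ENNReal.ofReal (1 ^ 3 * (nu d (if i ≤ j then j - i else i - j - 1) * cx φ d j ^ 3)) +
      ENNReal.ofReal (1 ^ 3 * (nu d (i + j) * cx φ d j ^ 3))) +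
      (ENNReal.ofReal (1 ^ 3 * (nut d (M - i) * cT φ d M ^ 3)) +
      ENNReal.ofReal (1 ^ 3 * (nut d (M + i) * cT φ d M ^ 3))) := by
    rw [ENNReal.ofReal_one, one_pow, mul_one, ENNReal.ofReal_mul hc0.le, ← h1]
    refine add_le_add (Finset.sum_le_sum fun j _ => add_le_add ?_ ?_) (add_le_add ?_ ?_)
    · refine blk2_holder h.cont (blk2_Cm d _) _ (blk2_nu0' hd _) (blk2_cx0 φ d j) ?_
        (blk2_mC h d j)
      unfold blk2_C
      rw [int_K4 (by nlinarith)]
      congr 1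
      split_ifs with hij
      · rw [Nat.cast_sub hij]
        push_cast [Nat.cast_sub hij]
        congr 4 <;> ring
      · have hji : j + 1 ≤ i := by omega
        have e1 : ((i - j - 1 : ℕ) : ℝ) = (i : ℝ) - j - 1 := by
          rw [Nat.sub_sub, Nat.cast_sub hji]
          push_cast
          ring
        have e2 : ((i - j - 1 + 1 : ℕ) : ℝ) = (i : ℝ) - j := by
          push_cast
          rw [e1]
          ring
        rw [e1, e2]
        have e3 : (((j : ℤ) : ℝ)) * d - i * d = -(((i : ℝ) - j) * d) := by push_cast; ring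
        have e4 : ((((j : ℤ) : ℝ)) + 1) * d - i * d = -(((i : ℝ) - j - 1) * d) := by
          push_cast; ring
        rw [e3, e4, blk2_refl_exp, blk2_refl_exp]
        ring
    · refine blk2_holder h.cont (blk2_Cm d _) _ (blk2_nu0' hd _) (blk2_cx0 φ d j) ?_
        (blk2_mC' h d j)
      unfold blk2_C
      rw [int_K4 (by nlinarith)]
      congr 1
      have e3 : (((-j - 1 : ℤ) : ℝ)) * d - i * d = -((((i + j + 1 : ℕ) : ℝ)) * d) := by
        push_cast; ring
      have e4 : ((((-j - 1 : ℤ) : ℝ)) + 1) * d - i * d = -((((i + j : ℕ) : ℝ)) * d) := by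
        push_cast; ring
      rw [e3, e4, blk2_refl_exp, blk2_refl_exp]
      ring
    · refine blk2_holder h.cont measurableSet_Ioi _ (hnut _) (blk2_cT0 φ d M) ?_
        (blk2_mT h d M)
      rw [int_K4_Ioi]
      congr 4
      rw [Nat.cast_sub hi]
      ring
    · refine blk2_holder h.cont measurableSet_Iic _ (hnut _) (blk2_cT0 φ d M) ?_
        (blk2_mT' h d M)
      rw [blk2_refl_Iic]
      have e5 : ∀ t : ℝ, Ke ((i : ℝ) * d - -t) = Ke (-((i : ℝ) * d) - t) := by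
        intro t
        rw [Ke_symm]
        congr 1
        ring
      simp_rw [e5]
      rw [int_K4_Ioi]
      congr 4
      push_cast
      ring
  have hnu : ∀ n, 0 ≤ nu d n := fun n => Real.rpow_nonneg (blk2_nu0' hd n) _
  have hnutt : ∀ n, 0 ≤ nut d n := fun n => Real.rpow_nonneg (hnut n) _
  have h3 := blk2_fin (mul_pos hc0 (h.pos _)) one_pos (blk2_cx0 φ d) (blk2_cT0 φ d M)
    (fun j => hnu _) (fun j => hnu _) (hnutt _) (hnutt _) h2
  rw [mul_one] at h3
  exact h3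

end Pool.Agent.ENC
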