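import Mathlib

set_option autoImplicit false

/-!
# The finite check

All numbers are naturals, scaled by `S`.
-/

namespace Pool.Agent.ENC

/-- Upper bound, times `256 m ^ 3 S ^ 5`, of the sum of `k x ^ 3 - m x ^ 4` over the cells. (Written
with recursors and the operations of `Nat` for the speed of the kernel.) -/
noncomputable def gs (S m : ℕ) (Xs : List ℕ) : List ℕ → ℕ :=
  List.rec (motive := fun _ => List ℕ → ℕ) (fun _ => 0)
    (fun X _ ih ks => List.rec (motive := fun _ => ℕ) 0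
      (fun k ks' _ => Nat.add (ih ks') (Bool.rec (motive := fun _ => ℕ)
        (Nat.mul (Nat.mul 27 (Nat.pow S 4)) (Nat.pow k 4))
        (Nat.mul (Nat.mul (Nat.mul 256 (Nat.pow m 3)) (Nat.pow X 3))
          (Nat.sub (Nat.mul S k) (Nat.mul m X)))
        (Nat.ble (Nat.mul (Nat.mul 4 m) X) (Nat.mul (Nat.mul 3 S) k)))) ks) Xs

/-- The sum and `m / 2`, times `S ^ 5`. -/
noncomputable def go (S m : ℕ) (ks Xs : List ℕ) (a : ℕ) : ℕ :=
  (gs S m Xs ks + a) / (256 * m ^ 3) + (m * S ^ 4) / 2 + 2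

/-- The same with one more cell, of weight `kT` and cap `XT`. -/
noncomputable def VV (S m kT XT : ℕ) (ks Xs : List ℕ) : ℕ :=
  go S m ks Xs (bif Nat.ble (4 * m * XT) (3 * S * kT) then 256 * m ^ 3 * (XT ^ 3 * (S * kT - m * XT))
    else 27 * S ^ 4 * kT ^ 4)

/-- The rows: new caps, old caps, multipliers, weights of the cells, weights of the tail. -/
noncomputable def rowsE (S CN CD XT : ℕ) (Xs : List ℕ) :
    List ℕ → List ℕ → List ℕ → List (List ℕ) → List ℕ → Bool
  | x :: Xn, X :: Xo, m :: ms, ks :: KE, t :: tE =>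
    ((Nat.ble X x) ||
      (Nat.ble 1 m && Nat.ble (VV S m t XT ks Xs * CD) (CN * x * S ^ 4))) &&
    rowsE S CN CD XT Xs Xn Xo ms KE tE
  | [], _, _, _, _ => true
  | _, _, _, _, _ => false

/-- The check for the tail: the value `R`. -/
noncomputable def RT (S m TT XT : ℕ) (tE Xs : List ℕ) : ℕ := go S m tE Xs 0 + XT ^ 3 * TT * S

/-- The polynomial of the tail. -/
def PT (S CN CD m x : ℕ) : ℕ := CN * (x * S ^ 4 - x ^ 3 * S ^ 2) + CD * m * x ^ 4

/-- The check for the tail. -/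
noncomputable def chkTE (S CN CD TT XT XT' m : ℕ) (tE Xs : List ℕ) : Bool :=
  Nat.beq XT XT' ||
  (Nat.ble (2 * m * XT * CD) (CN * S ^ 2) && (Nat.ble 1 m && (Nat.ble XT S &&
  (Nat.ble XT' XT && (Nat.blt (RT S m TT XT tE Xs * CD) (PT S CN CD m XT) &&
    Nat.blt (RT S m TT XT tE Xs * CD) (PT S CN CD m XT'))))))

/-- One iteration. -/
noncomputable def stepE (S CN CD TT : ℕ) (KE : List (List ℕ)) (tE : List ℕ) (Xs : List ℕ) (XT : ℕ)
    (Xn : List ℕ) (XTn : ℕ) (ms : List ℕ) (m : ℕ) : Bool :=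
  Nat.beq Xn.length Xs.length && (rowsE S CN CD XT Xs Xn Xs ms KE tE &&
    chkTE S CN CD TT XT XTn m tE Xs)

/-- Sum of the fourth powers. -/
def s4 : List ℕ → ℕ
  | [] => 0
  | X :: Xs => X ^ 4 + s4 Xs

/-- Entrywise `p + q ≤ r`. -/
def le3 : List ℕ → List ℕ → List ℕ → Bool
  | p :: P, q :: Q, r :: R => Nat.ble (p + q) r && le3 P Q R
  | _, _, [] => true
  | _, _, _ => false

/-- The rows of weights dominate the sums `K |i - j| + K (i + j + 1)`. -/
def chkKE (M : ℕ) : List (List ℕ) → List ℕ → List ℕ → List ℕ → Bool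
  | [], _, _, _ => true
  | r :: rs, k' :: K', P, Q =>
    Nat.beq r.length M && (le3 P Q r && chkKE M rs K' (k' :: P) Q.tail)
  | _, _, _, _ => false

/-- `log (1 + N / D) ≤ (k / S) ^ 4`. -/
def lg3 (S N D k : ℕ) : Bool :=
  Nat.ble (S ^ 4 * (6 * N * D ^ 2 + 2 * N ^ 3)) (6 * D ^ 3 * k ^ 4 + 3 * S ^ 4 * N ^ 2 * D)

/-- Table of the weights of pairs of cells: `a = A ^ n`, `b = B ^ n`. -/
def chkK (S A B : ℕ) : List ℕ → ℕ → ℕ → Bool
  | [], _, _ => true
  | k :: ks, a, b =>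
    lg3 S ((A - B) ^ 2 * (a * b)) (A * B * (a + b) ^ 2) k && chkK S A B ks (A * a) (B * b)

/-- Table of the weights of a cell and a half line. -/
def chkT (S A B : ℕ) : List ℕ → ℕ → ℕ → Bool
  | [], _, _ => true
  | k :: ks, a, b => lg3 S ((A - B) * b) (A * a + B * b) k && chkT S A B ks (A * a) (B * b)

/-- All tables. -/
def chkTab (S A B M : ℕ) (K T : List ℕ) (TT : ℕ) (KE : List (List ℕ)) (tE : List ℕ) : Bool :=
  Nat.beq K.length (2 * M + 1) && (Nat.beq T.length (2 * M) && (Nat.beq KE.length M &&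
  (Nat.beq tE.length M && (chkK S A B K 1 1 && (chkT S A B T 1 1 &&
  (lg3 S (B ^ (2 * M)) (A ^ (2 * M)) TT &&
  (chkKE M KE K.tail K K.tail && le3 (T.take M).reverse (T.drop M) tE)))))))

end Pool.Agent.ENC
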