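import Mathlib
import Pool.Agent.ENC.SysDef
import Pool.Agent.ENC.Chk

set_option autoImplicit false

/-!
# Soundness of the finite check
-/

open MeasureTheory Set Filter Topology MPdbfb19
open scoped ENNReal

namespace Pool.Agent.ENC

/-- One cell, first case. -/
theorem cellA {k μ X x : ℝ} (hμ : 0 ≤ μ) (hx0 : 0 ≤ x) (hxX : x ≤ X) (h : 4 * μ * X ≤ 3 * k) :
    k * x ^ 3 - μ * x ^ 4 ≤ k * X ^ 3 - μ * X ^ 4 := by
  have hX : 0 ≤ X := hx0.trans hxX
  have h1 : k * X ^ 3 - μ * X ^ 4 - (k * x ^ 3 - μ * x ^ 4) =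
      (X - x) * ((k - 4 / 3 * μ * X) * (X ^ 2 + X * x + x ^ 2) +
        μ * (X - x) * (X ^ 2 + 2 * X * x + 3 * x ^ 2) / 3) := by ring
  have h2 : 0 ≤ (X - x) * ((k - 4 / 3 * μ * X) * (X ^ 2 + X * x + x ^ 2) +
        μ * (X - x) * (X ^ 2 + 2 * X * x + 3 * x ^ 2) / 3) := by
    have h3 : 0 ≤ X - x := by linarith
    have h4 : 0 ≤ k - 4 / 3 * μ * X := by linarith
    positivity
  linarith

/-- One cell, second case. -/
theorem cellB {k μ x : ℝ} (hμ : 0 < μ) :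
    k * x ^ 3 - μ * x ^ 4 ≤ 27 * k ^ 4 / (256 * μ ^ 3) := by
  rw [le_div_iff₀ (by positivity)]
  have h : 27 * k ^ 4 - (k * x ^ 3 - μ * x ^ 4) * (256 * μ ^ 3) =
      (4 * μ * x - 3 * k) ^ 2 * ((4 * μ * x + k) ^ 2 + 2 * k ^ 2) := by ring
  have h2 : 0 ≤ (4 * μ * x - 3 * k) ^ 2 * ((4 * μ * x + k) ^ 2 + 2 * k ^ 2) := by positivity
  linarith

/-- Contribution of one cell, in integers. -/
theorem cell_case {S m k X : ℕ} (hS : 0 < S) (hm : 0 < m) {κ x : ℝ} (hx0 : 0 ≤ x)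
    (hκ : κ ≤ (k : ℝ) / S) (hx : x ≤ (X : ℝ) / S) (h : 4 * m * X ≤ 3 * S * k) :
    (S : ℝ) ^ 5 * (κ * x ^ 3 - (m : ℝ) / S * x ^ 4) ≤ ((X ^ 3 * (S * k - m * X) : ℕ) : ℝ) := by
  have hS' : (0 : ℝ) < S := by exact_mod_cast hS
  have hle : m * X ≤ S * k := by nlinarith
  push_cast [Nat.cast_sub hle]
  have h1 : κ * x ^ 3 - (m : ℝ) / S * x ^ 4 ≤ (k : ℝ) / S * x ^ 3 - (m : ℝ) / S * x ^ 4 := by
    have := mul_le_mul_of_nonneg_right hκ (pow_nonneg hx0 3)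
    linarith
  have h2 := cellA (k := (k : ℝ) / S) (μ := (m : ℝ) / S) (X := (X : ℝ) / S) (x := x)
    (by positivity) hx0 hx (by
      have : (4 * m * X : ℝ) ≤ 3 * S * k := by exact_mod_cast h
      rw [show 4 * ((m : ℝ) / S) * ((X : ℝ) / S) = (4 * m * X) / S ^ 2 by field_simp,
        show 3 * ((k : ℝ) / S) = (3 * S * k) / S ^ 2 by field_simp]
      gcongr)
  have h3 : (S : ℝ) ^ 5 * ((k : ℝ) / S * ((X : ℝ) / S) ^ 3 - (m : ℝ) / S * ((X : ℝ) / S) ^ 4) =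
      (X : ℝ) ^ 3 * (S * k - m * X) := by
    field_simp
  have h4 : (S : ℝ) ^ 5 * (κ * x ^ 3 - (m : ℝ) / S * x ^ 4) ≤
      (S : ℝ) ^ 5 * ((k : ℝ) / S * ((X : ℝ) / S) ^ 3 - (m : ℝ) / S * ((X : ℝ) / S) ^ 4) := by
    apply mul_le_mul_of_nonneg_left _ (by positivity)
    linarith
  linarith

theorem cell_case' {S m k : ℕ} (hS : 0 < S) (hm : 0 < m) {κ x : ℝ} (hx0 : 0 ≤ x)
    (hκ : κ ≤ (k : ℝ) / S) :
    (S : ℝ) ^ 5 * (κ * x ^ 3 - (m : ℝ) / S * x ^ 4) ≤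
      27 * (S : ℝ) ^ 4 * (k : ℝ) ^ 4 / (256 * (m : ℝ) ^ 3) := by
  have hS' : (0 : ℝ) < S := by exact_mod_cast hS
  have hm' : (0 : ℝ) < m := by exact_mod_cast hm
  have h1 : κ * x ^ 3 - (m : ℝ) / S * x ^ 4 ≤ (k : ℝ) / S * x ^ 3 - (m : ℝ) / S * x ^ 4 := by
    have := mul_le_mul_of_nonneg_right hκ (pow_nonneg hx0 3)
    linarith
  have h2 := cellB (k := (k : ℝ) / S) (μ := (m : ℝ) / S) (x := x) (by positivity)
  have h3 : (S : ℝ) ^ 5 * (27 * ((k : ℝ) / S) ^ 4 / (256 * ((m : ℝ) / S) ^ 3)) =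
      27 * (S : ℝ) ^ 4 * (k : ℝ) ^ 4 / (256 * (m : ℝ) ^ 3) := by
    field_simp
  rw [← h3]
  apply mul_le_mul_of_nonneg_left _ (by positivity)
  linarith

theorem fin_le {S m a : ℕ} (hm : 0 < m) :
    (a : ℝ) / (256 * (m : ℝ) ^ 3) + (m : ℝ) * S ^ 4 / 2 ≤
      ((a / (256 * m ^ 3) + (m * S ^ 4) / 2 + 2 : ℕ) : ℝ) := by
  have h1 : (a : ℝ) / (256 * (m : ℝ) ^ 3) ≤ ((a / (256 * m ^ 3) : ℕ) : ℝ) + 1 := by
    have := Nat.lt_floor_add_one ((a : ℝ) / (256 * (m : ℝ) ^ 3))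
    have h2 : ⌊(a : ℝ) / (256 * (m : ℝ) ^ 3)⌋₊ = a / (256 * m ^ 3) := by
      rw [← Nat.floor_div_eq_div (K := ℝ)]
      push_cast
      rfl
    rw [h2] at this
    exact this.le
  have h2 : (m : ℝ) * S ^ 4 / 2 ≤ (((m * S ^ 4) / 2 : ℕ) : ℝ) + 1 := by
    have := Nat.lt_floor_add_one ((m : ℝ) * S ^ 4 / 2)
    have h2 : ⌊(m : ℝ) * S ^ 4 / 2⌋₊ = (m * S ^ 4) / 2 := by
      rw [← Nat.floor_div_eq_div (K := ℝ)]
      push_cast
      rfl
    rw [h2] at this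
    exact this.le
  rw [Nat.cast_add, Nat.cast_add]
  push_cast at h1 h2 ⊢
  linarith

/-- The contribution of one cell in `gs`. -/
def term (S m X k : ℕ) : ℕ :=
  bif Nat.ble (4 * m * X) (3 * S * k) then 256 * m ^ 3 * (X ^ 3 * (S * k - m * X))
    else 27 * S ^ 4 * k ^ 4

theorem term_le {S m k X : ℕ} (hS : 0 < S) (hm : 0 < m) {κ x : ℝ} (hx0 : 0 ≤ x)
    (hκ : κ ≤ (k : ℝ) / S) (hx : x ≤ (X : ℝ) / S) :
    256 * (m : ℝ) ^ 3 * ((S : ℝ) ^ 5 * (κ * x ^ 3 - (m : ℝ) / S * x ^ 4)) ≤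
      ((term S m X k : ℕ) : ℝ) := by
  have hm' : (0 : ℝ) < m := by exact_mod_cast hm
  unfold term
  cases hc : Nat.ble (4 * m * X) (3 * S * k) with
  | true =>
    simp only [cond_true]
    have h1 := cell_case hS hm hx0 hκ hx (Nat.le_of_ble_eq_true hc)
    rw [Nat.cast_mul]
    push_cast at h1 ⊢
    exact mul_le_mul_of_nonneg_left h1 (by positivity)
  | false =>
    simp only [cond_false]
    have h1 := cell_case' (m := m) hS hm hx0 hκ
    rw [le_div_iff₀ (by positivity)] at h1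
    push_cast
    linarith

theorem gs_cons (S m X k : ℕ) (Xs ks : List ℕ) :
    gs S m (X :: Xs) (k :: ks) = gs S m Xs ks + term S m X k := by
  unfold term
  have e : gs S m (X :: Xs) (k :: ks) = gs S m Xs ks + (Bool.rec (motive := fun _ => ℕ)
        (27 * S ^ 4 * k ^ 4)
        (256 * m ^ 3 * X ^ 3 * (S * k - m * X))
        (Nat.ble (4 * m * X) (3 * S * k)) : ℕ) := rfl
  rw [e]
  congr 1
  cases Nat.ble (4 * m * X) (3 * S * k) with
  | true => simp only [cond_true]; ring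
  | false => simp only [cond_false]

/-- Soundness of `gs`. -/
theorem gs_sound {S m : ℕ} (hS : 0 < S) (hm : 0 < m) :
    ∀ (Xs ks : List ℕ) (κ x : ℕ → ℝ), Xs.length ≤ ks.length →
      (∀ j < Xs.length, 0 ≤ x j) → (∀ j < Xs.length, x j ≤ (Xs.getD j 0 : ℝ) / S) →
      (∀ j < Xs.length, κ j ≤ (ks.getD j 0 : ℝ) / S) →
      256 * (m : ℝ) ^ 3 * ((S : ℝ) ^ 5 *
        (∑ j ∈ Finset.range Xs.length, (κ j * x j ^ 3 - (m : ℝ) / S * x j ^ 4))) ≤
          (gs S m Xs ks : ℕ) := by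
  intro Xs
  induction Xs with
  | nil =>
    intro ks κ x _ _ _ _
    have e : gs S m [] ks = 0 := rfl
    rw [e]
    simp
  | cons X Xs ih =>
    intro ks κ x hlen hx0 hx hκ
    obtain ⟨k, ks, rfl⟩ : ∃ k ks', ks = k :: ks' := by
      cases ks with
      | nil => simp at hlen
      | cons k ks => exact ⟨k, ks, rfl⟩
    have hlen' : Xs.length ≤ ks.length := by simpa using hlen
    rw [List.length_cons, Finset.sum_range_succ', gs_cons]
    have h0 : 0 < (X :: Xs).length := by simp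
    have ex := hx 0 h0
    have ek := hκ 0 h0
    simp only [List.getD_cons_zero] at ex ek
    have hI := ih ks (fun j => κ (j + 1)) (fun j => x (j + 1)) hlen'
      (fun j hj => hx0 (j + 1) (by simpa using hj))
      (fun j hj => by simpa using hx (j + 1) (by simpa using hj))
      (fun j hj => by simpa using hκ (j + 1) (by simpa using hj))
    have h1 := term_le hS hm (hx0 0 h0) ek ex
    rw [Nat.cast_add, mul_add, mul_add]
    exact add_le_add hI h1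

/-- Soundness of `go`. -/
theorem go_sound {S m : ℕ} (hS : 0 < S) (hm : 0 < m) (Xs ks : List ℕ) (a : ℕ) (κ x : ℕ → ℝ)
    {w : ℝ} (hw : 256 * (m : ℝ) ^ 3 * ((S : ℝ) ^ 5 * w) ≤ a) (hlen : Xs.length ≤ ks.length)
    (hx0 : ∀ j < Xs.length, 0 ≤ x j) (hx : ∀ j < Xs.length, x j ≤ (Xs.getD j 0 : ℝ) / S)
    (hκ : ∀ j < Xs.length, κ j ≤ (ks.getD j 0 : ℝ) / S) :
      (S : ℝ) ^ 5 * (∑ j ∈ Finset.range Xs.length, (κ j * x j ^ 3 - (m : ℝ) / S * x j ^ 4)) +
        (S : ℝ) ^ 5 * w + (m : ℝ) * S ^ 4 / 2 ≤ (go S m ks Xs a : ℕ) := by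
  have hm' : (0 : ℝ) < m := by exact_mod_cast hm
  have h1 := gs_sound hS hm Xs ks κ x hlen hx0 hx hκ
  have h2 := fin_le (S := S) (m := m) (a := gs S m Xs ks + a) hm
  refine le_trans ?_ h2
  apply add_le_add _ le_rfl
  rw [le_div_iff₀ (by positivity), Nat.cast_add]
  linarith

/-- Soundness of `VV`. -/
theorem VV_sound {S m kT XT : ℕ} (hS : 0 < S) (hm : 0 < m) {Xs ks : List ℕ} {κ x : ℕ → ℝ}
    {κT xT : ℝ} (hlen : Xs.length ≤ ks.length)
    (hx0 : ∀ j < Xs.length, 0 ≤ x j) (hx : ∀ j < Xs.length, x j ≤ (Xs.getD j 0 : ℝ) / S)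
    (hκ : ∀ j < Xs.length, κ j ≤ (ks.getD j 0 : ℝ) / S) (hT0 : 0 ≤ xT)
    (hT : xT ≤ (XT : ℝ) / S) (hκT : κT ≤ (kT : ℝ) / S)
    (hmass : ∑ j ∈ Finset.range Xs.length, x j ^ 4 + xT ^ 4 = 1 / 2) :
    (S : ℝ) ^ 5 * (∑ j ∈ Finset.range Xs.length, κ j * x j ^ 3 + κT * xT ^ 3) ≤
      (VV S m kT XT ks Xs : ℕ) := by
  have hS' : (0 : ℝ) < S := by exact_mod_cast hS
  have key : (S : ℝ) ^ 5 * (∑ j ∈ Finset.range Xs.length, κ j * x j ^ 3 + κT * xT ^ 3) =
      (S : ℝ) ^ 5 * (∑ j ∈ Finset.range Xs.length, (κ j * x j ^ 3 - (m : ℝ) / S * x j ^ 4)) +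
      (S : ℝ) ^ 5 * (κT * xT ^ 3 - (m : ℝ) / S * xT ^ 4) + (m : ℝ) * S ^ 4 / 2 := by
    rw [Finset.sum_sub_distrib, ← Finset.mul_sum]
    have e : ∑ j ∈ Finset.range Xs.length, x j ^ 4 = 1 / 2 - xT ^ 4 := by linarith
    rw [e]
    field_simp
    ring
  rw [key]
  exact go_sound hS hm Xs ks _ κ x (term_le hS hm hT0 hκT hT) hlen hx0 hx hκ

/-- Soundness of the rows. -/
theorem rows_sound {S CN CD XT : ℕ} (hS : 0 < S) (hCN : 0 < CN) (hCD : 0 < CD) {Xs : List ℕ} {c : ℝ}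
    (hc : (CN : ℝ) ≤ c * CD) {x : ℕ → ℝ} {xT : ℝ}
    (hx0 : ∀ j < Xs.length, 0 ≤ x j) (hx : ∀ j < Xs.length, x j ≤ (Xs.getD j 0 : ℝ) / S)
    (hT0 : 0 ≤ xT) (hT : xT ≤ (XT : ℝ) / S)
    (hmass : ∑ j ∈ Finset.range Xs.length, x j ^ 4 + xT ^ 4 = 1 / 2) :
    ∀ (Xn Xo ms : List ℕ) (KE : List (List ℕ)) (tE : List ℕ) (κ : ℕ → ℕ → ℝ) (θ y : ℕ → ℝ),
      rowsE S CN CD XT Xs Xn Xo ms KE tE = true →
      (∀ r ∈ KE, Xs.length ≤ r.length) →
      (∀ i < Xn.length, y i ≤ (Xo.getD i 0 : ℝ) / S) →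
      (∀ i < Xn.length, ∀ j < Xs.length, κ i j ≤ ((KE.getD i []).getD j 0 : ℝ) / S) →
      (∀ i < Xn.length, θ i ≤ (tE.getD i 0 : ℝ) / S) →
      (∀ i < Xn.length, c * y i ≤ ∑ j ∈ Finset.range Xs.length, κ i j * x j ^ 3 + θ i * xT ^ 3) →
      (∀ i < Xn.length, 0 ≤ y i) →
      ∀ i < Xn.length, y i ≤ (Xn.getD i 0 : ℝ) / S := by
  have hS' : (0 : ℝ) < S := by exact_mod_cast hS
  have hCD' : (0 : ℝ) < CD := by exact_mod_cast hCD
  intro Xn
  induction Xn with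
  | nil => intro Xo ms KE tE κ θ y _ _ _ _ _ _ _ i hi; simp at hi
  | cons x' Xn ih =>
    intro Xo ms KE tE κ θ y h hKE hy hκ hθ hrow hy0
    match Xo, ms, KE, tE, h, hKE, hy, hκ, hθ with
    | [], _, _, _, h, _, _, _, _ => simp [rowsE] at h
    | _ :: _, [], _, _, h, _, _, _, _ => simp [rowsE] at h
    | _ :: _, _ :: _, [], _, h, _, _, _, _ => simp [rowsE] at h
    | _ :: _, _ :: _, _ :: _, [], h, _, _, _, _ => simp [rowsE] at h
    | X :: Xo, m :: ms, ks :: KE, t :: tE, h, hKE, hy, hκ, hθ =>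
      rw [rowsE, Bool.and_eq_true, Bool.or_eq_true, Bool.and_eq_true] at h
      obtain ⟨h1, h2⟩ := h
      have h0 : 0 < (x' :: Xn).length := by simp
      intro i hi
      cases i with
      | zero =>
        rw [List.getD_cons_zero]
        rcases h1 with h1 | ⟨hm1, h1⟩
        · have h3 := hy 0 h0
          rw [List.getD_cons_zero] at h3
          have h4 : X ≤ x' := Nat.le_of_ble_eq_true h1
          have h5 : (X : ℝ) ≤ x' := by exact_mod_cast h4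
          refine h3.trans ?_
          gcongr
        · have hm : 0 < m := Nat.le_of_ble_eq_true hm1
          have h3 := Nat.le_of_ble_eq_true h1
          have h4 : ((VV S m t XT ks Xs * CD : ℕ) : ℝ) ≤ ((CN * x' * S ^ 4 : ℕ) : ℝ) := by
            exact_mod_cast h3
          push_cast at h4
          have h5 := VV_sound (κ := κ 0) (κT := θ 0) hS hm (hKE ks (by simp)) hx0 hx
            (fun j hj => by simpa using hκ 0 h0 j hj) hT0 hT (by simpa using hθ 0 h0) hmass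
          have h6 := hrow 0 h0
          have h7 : (S : ℝ) ^ 5 * (c * y 0) * CD ≤ CN * x' * S ^ 4 := by
            calc (S : ℝ) ^ 5 * (c * y 0) * CD ≤ (VV S m t XT ks Xs : ℕ) * CD := by
                  apply mul_le_mul_of_nonneg_right _ hCD'.le
                  exact (mul_le_mul_of_nonneg_left h6 (by positivity)).trans h5
              _ ≤ _ := h4
          rw [le_div_iff₀ hS']
          have h8 : (CN : ℝ) * (S ^ 4 * (y 0 * S)) ≤ CN * (S ^ 4 * x') := by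
            have : (CN : ℝ) * (y 0 * S ^ 5) ≤ c * CD * (y 0 * S ^ 5) :=
              mul_le_mul_of_nonneg_right hc (mul_nonneg (hy0 0 h0) (by positivity))
            calc (CN : ℝ) * (S ^ 4 * (y 0 * S)) = CN * (y 0 * S ^ 5) := by ring
              _ ≤ c * CD * (y 0 * S ^ 5) := this
              _ = (S : ℝ) ^ 5 * (c * y 0) * CD := by ring
              _ ≤ CN * x' * S ^ 4 := h7
              _ = _ := by ring
          have h9 := le_of_mul_le_mul_left h8 (by exact_mod_cast hCN)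
          exact le_of_mul_le_mul_left h9 (by positivity)
      | succ i =>
        have hi' : i < Xn.length := by simpa using hi
        rw [List.getD_cons_succ]
        exact ih Xo ms KE tE (fun i j => κ (i + 1) j) (fun i => θ (i + 1)) (fun i => y (i + 1)) h2
          (fun r hr => hKE r (by simp [hr]))
          (fun i hi => by simpa using hy (i + 1) (by simpa using hi))
          (fun i hi j hj => by simpa using hκ (i + 1) (by simpa using hi) j hj)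
          (fun i hi => by simpa using hθ (i + 1) (by simpa using hi))
          (fun i hi => by simpa using hrow (i + 1) (by simpa using hi))
          (fun i hi => by simpa using hy0 (i + 1) (by simpa using hi)) i hi'

/-- A concave cubic-quartic is bounded below by its values at the ends of an interval. -/
theorem conc {c μ a b x : ℝ} (hc : 0 ≤ c) (hμ : 0 ≤ μ) (ha : 0 ≤ a) (hax : a ≤ x)
    (hxb : x ≤ b) (h : 2 * μ * b ≤ c) {r : ℝ} (h1 : r < c * (a - a ^ 3) + μ * a ^ 4)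
    (h2 : r < c * (b - b ^ 3) + μ * b ^ 4) : r < c * (x - x ^ 3) + μ * x ^ 4 := by
  rcases eq_or_lt_of_le (hax.trans hxb) with hab | hab
  · have : x = a := le_antisymm (by linarith) hax
    rw [this]
    exact h1
  · have key : (b - a) * (c * (x - x ^ 3) + μ * x ^ 4) =
        (b - x) * (c * (a - a ^ 3) + μ * a ^ 4) + (x - a) * (c * (b - b ^ 3) + μ * b ^ 4) +
        (x - a) * (b - x) * (b - a) * (c * (a + b + x) -
          μ * (a ^ 2 + b ^ 2 + x ^ 2 + a * b + a * x + b * x)) := by ring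
    have h3 : 0 ≤ c * (a + b + x) - μ * (a ^ 2 + b ^ 2 + x ^ 2 + a * b + a * x + b * x) := by
      have hx0 : 0 ≤ x := ha.trans hax
      have hb0 : 0 ≤ b := hx0.trans hxb
      have e1 : μ * (a ^ 2 + b ^ 2 + x ^ 2 + a * b + a * x + b * x) ≤
          μ * (2 * b * (a + b + x)) := by
        apply mul_le_mul_of_nonneg_left _ hμ
        nlinarith [mul_nonneg ha (sub_nonneg.2 hxb), mul_nonneg hb0 (sub_nonneg.2 hxb),
          mul_nonneg hb0 (sub_nonneg.2 (hax.trans hxb)),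
          mul_nonneg ha (sub_nonneg.2 (hax.trans hxb)), mul_nonneg hx0 (sub_nonneg.2 hxb),
          mul_nonneg hx0 (sub_nonneg.2 (hax.trans hxb))]
      have e2 : μ * (2 * b * (a + b + x)) = (2 * μ * b) * (a + b + x) := by ring
      have e3 : (2 * μ * b) * (a + b + x) ≤ c * (a + b + x) :=
        mul_le_mul_of_nonneg_right h (by positivity)
      linarith
    have h4 : 0 ≤ (x - a) * (b - x) * (b - a) * (c * (a + b + x) -
          μ * (a ^ 2 + b ^ 2 + x ^ 2 + a * b + a * x + b * x)) := by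
      have := sub_nonneg.2 hax
      have := sub_nonneg.2 hxb
      have := (sub_pos.2 hab).le
      positivity
    have h5 : (b - a) * r < (b - a) * (c * (x - x ^ 3) + μ * x ^ 4) := by
      rw [key]
      rcases eq_or_lt_of_le hax with hx1 | hx1
      · have e : (b - a) * r < (b - x) * (c * (a - a ^ 3) + μ * a ^ 4) := by
          rw [← hx1]
          exact mul_lt_mul_of_pos_left h1 (by linarith)
        have e' : (x - a) * (c * (b - b ^ 3) + μ * b ^ 4) = 0 := by rw [← hx1]; ring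
        linarith
      · have e : (x - a) * r < (x - a) * (c * (b - b ^ 3) + μ * b ^ 4) :=
          mul_lt_mul_of_pos_left h2 (by linarith)
        have e' : (b - x) * r ≤ (b - x) * (c * (a - a ^ 3) + μ * a ^ 4) :=
          mul_le_mul_of_nonneg_left h1.le (by linarith)
        nlinarith
    exact lt_of_mul_lt_mul_left h5 (by linarith)

theorem PT_eq {S CN CD m X : ℕ} (hS : 0 < S) (hX : X ≤ S) :
    ((PT S CN CD m X : ℕ) : ℝ) = (S : ℝ) ^ 5 * (CN * ((X : ℝ) / S - ((X : ℝ) / S) ^ 3) +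
      CD * ((m : ℝ) / S) * ((X : ℝ) / S) ^ 4) := by
  have hS' : (0 : ℝ) < S := by exact_mod_cast hS
  have hle : X ^ 3 * S ^ 2 ≤ X * S ^ 4 := by
    calc X ^ 3 * S ^ 2 = X * (X ^ 2 * S ^ 2) := by ring
      _ ≤ X * (S ^ 2 * S ^ 2) := by gcongr
      _ = X * S ^ 4 := by ring
  unfold PT
  push_cast [Nat.cast_sub hle]
  field_simp

/-- Soundness of the tail. -/
theorem tail_sound {S CN CD TT XT XT' m : ℕ} (hS : 0 < S) (hCN : 0 < CN) (hCD : 0 < CD)
    {Xs tE : List ℕ}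
    (h : chkTE S CN CD TT XT XT' m tE Xs = true) {c : ℝ} (hc : (CN : ℝ) ≤ c * CD)
    {x τ : ℕ → ℝ} {xT τT : ℝ} (hlen : Xs.length ≤ tE.length)
    (hx0 : ∀ j < Xs.length, 0 ≤ x j) (hx : ∀ j < Xs.length, x j ≤ (Xs.getD j 0 : ℝ) / S)
    (hτ : ∀ j < Xs.length, τ j ≤ (tE.getD j 0 : ℝ) / S) (hT0 : 0 ≤ xT)
    (hT : xT ≤ (XT : ℝ) / S) (hτT0 : 0 ≤ τT) (hτT : τT ≤ (TT : ℝ) / S)
    (hmass : ∑ j ∈ Finset.range Xs.length, x j ^ 4 + xT ^ 4 = 1 / 2)
    (hrow : c * (xT - xT ^ 3) ≤ ∑ j ∈ Finset.range Xs.length, τ j * x j ^ 3 + τT * xT ^ 3) :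
    xT ≤ (XT' : ℝ) / S := by
  have hS' : (0 : ℝ) < S := by exact_mod_cast hS
  have hCD' : (0 : ℝ) < CD := by exact_mod_cast hCD
  have hCN' : (0 : ℝ) < CN := by exact_mod_cast hCN
  rw [chkTE, Bool.or_eq_true] at h
  rcases h with h | h
  · rw [← Nat.eq_of_beq_eq_true h]
    exact hT
  rw [Bool.and_eq_true, Bool.and_eq_true, Bool.and_eq_true, Bool.and_eq_true,
    Bool.and_eq_true] at h
  obtain ⟨h1, h2, h3, h4, h5, h6⟩ := h
  have h1 := Nat.le_of_ble_eq_true h1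
  have hm : 0 < m := Nat.le_of_ble_eq_true h2
  have h3 := Nat.le_of_ble_eq_true h3
  have h4 := Nat.le_of_ble_eq_true h4
  rw [Nat.blt_eq] at h5 h6
  have h5' : ((RT S m TT XT tE Xs * CD : ℕ) : ℝ) < ((PT S CN CD m XT : ℕ) : ℝ) := by
    exact_mod_cast h5
  have h6' : ((RT S m TT XT tE Xs * CD : ℕ) : ℝ) < ((PT S CN CD m XT' : ℕ) : ℝ) := by
    exact_mod_cast h6
  rw [PT_eq hS h3] at h5'
  rw [PT_eq hS (h4.trans h3)] at h6'
  by_contra hcon
  push Not at hcon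
  have hg := go_sound hS hm Xs tE 0 τ x (w := 0) (by simp) hlen hx0 hx hτ
  simp only [mul_zero, add_zero] at hg
  -- the row
  have hxT1 : xT ≤ 1 := by
    refine hT.trans ?_
    rw [div_le_one hS']
    exact_mod_cast h3
  have hr : (S : ℝ) ^ 5 * (c * (xT - xT ^ 3) + (m : ℝ) / S * xT ^ 4) ≤
      ((RT S m TT XT tE Xs : ℕ) : ℝ) := by
    have e1 : τT * xT ^ 3 ≤ (TT : ℝ) / S * ((XT : ℝ) / S) ^ 3 := by gcongr
    have e2 : ∑ j ∈ Finset.range Xs.length, (τ j * x j ^ 3 - (m : ℝ) / S * x j ^ 4) =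
        ∑ j ∈ Finset.range Xs.length, τ j * x j ^ 3 - (m : ℝ) / S * (1 / 2 - xT ^ 4) := by
      rw [Finset.sum_sub_distrib, ← Finset.mul_sum]
      congr 2
      linarith
    rw [e2] at hg
    unfold RT
    push_cast
    have e3 : (S : ℝ) ^ 5 * ((TT : ℝ) / S * ((XT : ℝ) / S) ^ 3) = (XT : ℝ) ^ 3 * TT * S := by
      field_simp
    have e4 : (S : ℝ) ^ 5 * (c * (xT - xT ^ 3) + (m : ℝ) / S * xT ^ 4) ≤
        (S : ℝ) ^ 5 * (∑ j ∈ Finset.range Xs.length, τ j * x j ^ 3 +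
          (TT : ℝ) / S * ((XT : ℝ) / S) ^ 3 + (m : ℝ) / S * xT ^ 4) := by
      apply mul_le_mul_of_nonneg_left _ (by positivity)
      linarith
    have e5 : (S : ℝ) ^ 5 * ((m : ℝ) / S * (1 / 2)) = (m : ℝ) * S ^ 4 / 2 := by
      field_simp
    rw [← e3]
    nlinarith
  -- concavity
  have hbnd : 2 * ((CD : ℝ) * ((m : ℝ) / S)) * ((XT : ℝ) / S) ≤ CN := by
    have : (2 * m * XT * CD : ℝ) ≤ CN * S ^ 2 := by exact_mod_cast h1
    rw [show 2 * ((CD : ℝ) * ((m : ℝ) / S)) * ((XT : ℝ) / S) = (2 * m * XT * CD) / S ^ 2 by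
      field_simp]
    rw [div_le_iff₀ (by positivity)]
    exact this
  have hcv := conc (c := (CN : ℝ)) (μ := (CD : ℝ) * ((m : ℝ) / S)) (a := (XT' : ℝ) / S)
    (b := (XT : ℝ) / S) (x := xT) (r := ((RT S m TT XT tE Xs * CD : ℕ) : ℝ) / S ^ 5)
    hCN'.le (by positivity) (by positivity) hcon.le hT hbnd
    (by rw [div_lt_iff₀ (by positivity)]; linarith)
    (by rw [div_lt_iff₀ (by positivity)]; linarith)
  rw [div_lt_iff₀ (by positivity)] at hcv
  push_cast at hcv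
  have e6 : (CN : ℝ) * (xT - xT ^ 3) ≤ c * CD * (xT - xT ^ 3) := by
    apply mul_le_mul_of_nonneg_right hc
    nlinarith [mul_nonneg hT0 (sub_nonneg.2 hxT1), pow_nonneg hT0 2, mul_nonneg
      (mul_nonneg hT0 (sub_nonneg.2 hxT1)) hT0]
  have e7 : ((RT S m TT XT tE Xs : ℕ) : ℝ) * CD <
      ((RT S m TT XT tE Xs : ℕ) : ℝ) * CD := by
    calc ((RT S m TT XT tE Xs : ℕ) : ℝ) * CD < _ := hcv
      _ ≤ (c * CD * (xT - xT ^ 3) + (CD : ℝ) * ((m : ℝ) / S) * xT ^ 4) * S ^ 5 := by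
          apply mul_le_mul_of_nonneg_right _ (by positivity)
          linarith
      _ = ((S : ℝ) ^ 5 * (c * (xT - xT ^ 3) + (m : ℝ) / S * xT ^ 4)) * CD := by ring
      _ ≤ _ := mul_le_mul_of_nonneg_right hr hCD'.le
  exact lt_irrefl _ e7

end Pool.Agent.ENC
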