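import Mathlib
import Pool.Agent.ENC.Snd

set_option autoImplicit false

/-!
# Soundness of one iteration, the start and the end
-/

open MeasureTheory Set Filter Topology MPdbfb19
open scoped ENNReal

namespace Pool.Agent.ENC

/-- The caps bound the masses. -/
structure Caps (S M : ℕ) (Xs : List ℕ) (XT : ℕ) (x : ℕ → ℝ) (xT : ℝ) : Prop where
  len : Xs.length = M
  cell : ∀ j < M, x j ≤ (Xs.getD j 0 : ℝ) / S
  tail : xT ≤ (XT : ℝ) / S

/-- The tables bound the weights. -/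
structure Tabs (S : ℕ) (d : ℝ) (M : ℕ) (KE : List (List ℕ)) (tE : List ℕ) (TT : ℕ) : Prop where
  lenT : tE.length = M
  lenK : ∀ r ∈ KE, M ≤ r.length
  cell : ∀ i < M, ∀ j < M,
    kap d (i - j + (j - i)) + kap d (i + j + 1) ≤ ((KE.getD i []).getD j 0 : ℝ) / S
  tail : ∀ i < M, tau d (M - 1 - i) + tau d (M + i) ≤ (tE.getD i 0 : ℝ) / S
  tt : tau0 d M ≤ (TT : ℝ) / S

theorem kap_nonneg (d : ℝ) (n : ℕ) : 0 ≤ kap d n := by
  unfold kap
  apply Real.rpow_nonneg
  apply Real.log_nonneg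
  have : 0 ≤ (Real.cosh d - 1) / (Real.cosh (n * d) + 1) := by
    apply div_nonneg
    · linarith [Real.one_le_cosh d]
    · linarith [Real.one_le_cosh (n * d)]
  linarith

theorem tau0_nonneg (d : ℝ) (M : ℕ) : 0 ≤ tau0 d M := by
  unfold tau0
  apply Real.rpow_nonneg
  apply Real.log_nonneg
  linarith [Real.exp_pos (-(2 * M * d))]

/-- One iteration. -/
theorem step_sound {S CN CD TT M : ℕ} (hS : 0 < S) (hCN : 0 < CN) (hCD : 0 < CD) {d c : ℝ}
    (hc : (CN : ℝ) ≤ c * CD) {KE : List (List ℕ)} {tE : List ℕ} (hT : Tabs S d M KE tE TT)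
    {x : ℕ → ℝ} {xT : ℝ} (hs : Sys c d M x xT) {Xs Xn ms : List ℕ} {XT XTn m : ℕ}
    (hcap : Caps S M Xs XT x xT) (h : stepE S CN CD TT KE tE Xs XT Xn XTn ms m = true) :
    Caps S M Xn XTn x xT := by
  rw [stepE, Bool.and_eq_true, Bool.and_eq_true] at h
  obtain ⟨h1, h2, h3⟩ := h
  have h1 := Nat.eq_of_beq_eq_true h1
  have hl := hcap.len
  have hln : Xn.length = M := h1.trans hl
  have hmass : ∑ j ∈ Finset.range Xs.length, x j ^ 4 + xT ^ 4 = 1 / 2 := by
    rw [hl]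
    linarith [hs.mass]
  refine ⟨hln, ?_, ?_⟩
  · have := rows_sound (XT := XT) hS hCN hCD (Xs := Xs) hc (x := x) (xT := xT)
      (fun j _ => hs.nonneg j) (fun j hj => hcap.cell j (hl ▸ hj)) hs.nonnegT hcap.tail hmass
      Xn Xs ms KE tE (fun i j => kap d (i - j + (j - i)) + kap d (i + j + 1))
      (fun i => tau d (M - 1 - i) + tau d (M + i)) x h2
      (fun r hr => hl ▸ hT.lenK r hr) (fun i hi => hcap.cell i (hln ▸ hi))
      (fun i hi j hj => hT.cell i (hln ▸ hi) j (hl ▸ hj)) (fun i hi => hT.tail i (hln ▸ hi))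
      (fun i hi => by
        rw [hl]
        exact hs.row i (hln ▸ hi)) (fun i _ => hs.nonneg i)
    intro j hj
    exact this j (hln ▸ hj)
  · exact tail_sound hS hCN hCD h3 hc (τ := fun j => tau d (M - 1 - j) + tau d (M + j))
      (τT := tau0 d M) (x := x) (by rw [hl, hT.lenT])
      (fun j _ => hs.nonneg j) (fun j hj => hcap.cell j (hl ▸ hj))
      (fun j hj => hT.tail j (hl ▸ hj)) hs.nonnegT hcap.tail (tau0_nonneg d M) hT.tt hmass
      (by rw [hl]; exact hs.rowT)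

/-- The start. -/
theorem caps_init {S M : ℕ} (hS : 0 < S) {X : ℕ} (hX : S ^ 4 ≤ 2 * X ^ 4) {c d : ℝ}
    {x : ℕ → ℝ} {xT : ℝ} (hs : Sys c d M x xT) : Caps S M (List.replicate M X) X x xT := by
  have hS' : (0 : ℝ) < S := by exact_mod_cast hS
  have h : ∀ y : ℝ, 0 ≤ y → y ^ 4 ≤ 1 / 2 → y ≤ (X : ℝ) / S := by
    intro y hy hy4
    have h1 : (S : ℝ) ^ 4 ≤ 2 * X ^ 4 := by exact_mod_cast hX
    have h2 : y ^ 4 ≤ ((X : ℝ) / S) ^ 4 := by
      refine hy4.trans ?_
      rw [div_pow, le_div_iff₀ (by positivity)]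
      linarith
    exact le_of_pow_le_pow_left₀ (by norm_num) (by positivity) h2
  refine ⟨by simp, ?_, ?_⟩
  · intro j hj
    have : (List.replicate M X).getD j 0 = X := by
      rw [List.getD_eq_getElem _ _ (by simpa using hj)]
      simp
    rw [this]
    apply h _ (hs.nonneg j)
    have h1 : x j ^ 4 ≤ ∑ j ∈ Finset.range M, x j ^ 4 :=
      Finset.single_le_sum (f := fun j => x j ^ 4) (fun i _ => by positivity)
        (Finset.mem_range.2 hj)
    have h2 : 0 ≤ xT ^ 4 := by positivity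
    linarith [hs.mass]
  · apply h _ hs.nonnegT
    have h1 : 0 ≤ ∑ j ∈ Finset.range M, x j ^ 4 := Finset.sum_nonneg fun i _ => by positivity
    linarith [hs.mass]

theorem s4_sum (Xs : List ℕ) : (s4 Xs : ℕ) = ∑ j ∈ Finset.range Xs.length, (Xs.getD j 0) ^ 4 := by
  induction Xs with
  | nil => simp [s4]
  | cons X Xs ih =>
    rw [s4, List.length_cons, Finset.sum_range_succ', ih]
    simp [add_comm]

/-- The end. -/
theorem caps_end {S M : ℕ} (hS : 0 < S) {Xs : List ℕ} {XT : ℕ} {c d : ℝ}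
    {x : ℕ → ℝ} {xT : ℝ} (hs : Sys c d M x xT) (hcap : Caps S M Xs XT x xT)
    (h : 2 * (s4 Xs + XT ^ 4) < S ^ 4) : False := by
  have hS' : (0 : ℝ) < S := by exact_mod_cast hS
  have h1 : (2 * ((s4 Xs : ℕ) + (XT : ℝ) ^ 4) : ℝ) < S ^ 4 := by exact_mod_cast h
  rw [s4_sum, hcap.len] at h1
  push_cast at h1
  have h2 : ∑ j ∈ Finset.range M, x j ^ 4 ≤
      ∑ j ∈ Finset.range M, (Xs.getD j 0 : ℝ) ^ 4 / S ^ 4 := by
    apply Finset.sum_le_sum
    intro j hj
    rw [← div_pow]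
    exact pow_le_pow_left₀ (hs.nonneg j) (hcap.cell j (Finset.mem_range.1 hj)) 4
  rw [← Finset.sum_div] at h2
  have h3 : xT ^ 4 ≤ (XT : ℝ) ^ 4 / S ^ 4 := by
    rw [← div_pow]
    exact pow_le_pow_left₀ hs.nonnegT hcap.tail 4
  have h4 := hs.mass
  have h5 : (1 : ℝ) ≤ 2 * ((∑ j ∈ Finset.range M, (Xs.getD j 0 : ℝ) ^ 4) + (XT : ℝ) ^ 4) / S ^ 4 := by
    rw [← h4, mul_div_assoc, add_div]
    gcongr
  rw [le_div_iff₀ (by positivity)] at h5
  linarith

end Pool.Agent.ENC
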