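import Mathlib
import Pool.Agent.ENC.Stp

set_option autoImplicit false

/-!
# Soundness of the tables
-/

open MeasureTheory Set Filter Topology MPdbfb19
open scoped ENNReal

namespace Pool.Agent.ENC

/-- `log (1 + t) ≤ t - t² / 2 + t³ / 3`. -/
theorem log_le3 {t : ℝ} (ht : 0 ≤ t) : Real.log (1 + t) ≤ t - t ^ 2 / 2 + t ^ 3 / 3 := by
  have hderiv : ∀ u ∈ interior (Ici (0 : ℝ)), HasDerivAt
      (fun u => u - u ^ 2 / 2 + u ^ 3 / 3 - Real.log (1 + u)) (1 - u + u ^ 2 - 1 / (1 + u)) u := by
    intro u hu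
    rw [interior_Ici] at hu
    have hu0 : (0 : ℝ) < u := hu
    have h1 : HasDerivAt (fun u : ℝ => u) 1 u := hasDerivAt_id u
    have h2 : HasDerivAt (fun u : ℝ => u ^ 2 / 2) u u := by
      have := (hasDerivAt_pow 2 u).div_const 2
      refine this.congr_deriv ?_
      norm_num
    have h3 : HasDerivAt (fun u : ℝ => u ^ 3 / 3) (u ^ 2) u := by
      have := (hasDerivAt_pow 3 u).div_const 3
      refine this.congr_deriv ?_
      norm_num
    have h4 : HasDerivAt (fun u : ℝ => Real.log (1 + u)) (1 / (1 + u)) u :=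
      (h1.const_add 1).log (by positivity)
    exact ((h1.sub h2).add h3).sub h4
  have hmono : MonotoneOn (fun u : ℝ => u - u ^ 2 / 2 + u ^ 3 / 3 - Real.log (1 + u)) (Ici 0) := by
    apply monotoneOn_of_deriv_nonneg (convex_Ici 0)
    · intro u hu
      have hu0 : (0 : ℝ) ≤ u := hu
      apply ContinuousAt.continuousWithinAt
      have : ContinuousAt (fun u : ℝ => Real.log (1 + u)) u :=
        (continuousAt_const.add continuousAt_id).log (by
          have : (0 : ℝ) < 1 + u := by positivity
          exact this.ne')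
      exact ((continuousAt_id.sub ((continuousAt_id.pow 2).div_const 2)).add
        ((continuousAt_id.pow 3).div_const 3)).sub this
    · intro u hu
      exact (hderiv u hu).differentiableAt.differentiableWithinAt
    · intro u hu
      rw [(hderiv u hu).deriv]
      rw [interior_Ici] at hu
      have hu0 : (0 : ℝ) < u := hu
      have h5 : 1 / (1 + u) ≤ 1 - u + u ^ 2 := by
        rw [div_le_iff₀ (by positivity)]
        nlinarith [pow_pos hu0 3]
      linarith
  have h := hmono (by simp : (0 : ℝ) ∈ Ici (0 : ℝ)) ht ht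
  simp only [add_zero, Real.log_one] at h
  norm_num at h
  linarith

/-- Soundness of `lg3`. -/
theorem lg3_sound {S N D k : ℕ} (hS : 0 < S) (hD : 0 < D) (h : lg3 S N D k = true) :
    (Real.log (1 + (N : ℝ) / D)) ^ (1 / 4 : ℝ) ≤ (k : ℝ) / S := by
  have hS' : (0 : ℝ) < S := by exact_mod_cast hS
  have hD' : (0 : ℝ) < D := by exact_mod_cast hD
  have h1 := Nat.le_of_ble_eq_true h
  have h2 : ((S : ℝ) ^ 4 * (6 * N * D ^ 2 + 2 * N ^ 3)) ≤
      6 * D ^ 3 * k ^ 4 + 3 * S ^ 4 * N ^ 2 * D := by exact_mod_cast h1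
  have ht : (0 : ℝ) ≤ (N : ℝ) / D := by positivity
  have h3 : Real.log (1 + (N : ℝ) / D) ≤ ((k : ℝ) / S) ^ 4 := by
    refine (log_le3 ht).trans ?_
    rw [div_pow (k : ℝ), le_div_iff₀ (by positivity)]
    have e : ((N : ℝ) / D - ((N : ℝ) / D) ^ 2 / 2 + ((N : ℝ) / D) ^ 3 / 3) * S ^ 4 =
        (S ^ 4 * (6 * N * D ^ 2 + 2 * N ^ 3) - 3 * S ^ 4 * N ^ 2 * D) / (6 * D ^ 3) := by
      field_simp
      ring
    rw [e, div_le_iff₀ (by positivity)]
    linarith
  have h4 : 0 ≤ Real.log (1 + (N : ℝ) / D) := Real.log_nonneg (by linarith)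
  calc (Real.log (1 + (N : ℝ) / D)) ^ (1 / 4 : ℝ) ≤ (((k : ℝ) / S) ^ 4) ^ (1 / 4 : ℝ) :=
        Real.rpow_le_rpow h4 h3 (by norm_num)
    _ = (k : ℝ) / S := by
        rw [← Real.rpow_natCast, ← Real.rpow_mul (by positivity)]
        norm_num

section

variable {A B : ℕ}

theorem exp_nat (hA : 0 < A) (hB : 0 < B) (n : ℕ) :
    Real.exp (n * Real.log ((A : ℝ) / B)) = (A : ℝ) ^ n / (B : ℝ) ^ n := by
  have hA' : (0 : ℝ) < A := by exact_mod_cast hA
  have hB' : (0 : ℝ) < B := by exact_mod_cast hB
  rw [Real.exp_nat_mul, Real.exp_log (by positivity), div_pow]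

theorem exp_neg_nat (hA : 0 < A) (hB : 0 < B) (n : ℕ) :
    Real.exp (-(n * Real.log ((A : ℝ) / B))) = (B : ℝ) ^ n / (A : ℝ) ^ n := by
  rw [Real.exp_neg, exp_nat hA hB, inv_div]

theorem kap_eq (hA : 0 < A) (hB : 0 < B) (hBA : B ≤ A) (n : ℕ) :
    kap (Real.log ((A : ℝ) / B)) n =
      (Real.log (1 + (((A - B) ^ 2 * (A ^ n * B ^ n) : ℕ) : ℝ) /
        ((A * B * (A ^ n + B ^ n) ^ 2 : ℕ) : ℝ))) ^ (1 / 4 : ℝ) := by
  have hA' : (0 : ℝ) < A := by exact_mod_cast hA
  have hB' : (0 : ℝ) < B := by exact_mod_cast hB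
  unfold kap
  congr 3
  rw [Real.cosh_eq, Real.cosh_eq, exp_nat hA hB, exp_neg_nat hA hB]
  have e1 := exp_nat hA hB 1
  have e2 := exp_neg_nat hA hB 1
  simp only [Nat.cast_one, one_mul, pow_one] at e1 e2
  rw [e1, e2]
  push_cast [Nat.cast_sub hBA]
  field_simp
  ring

theorem tau_eq (hA : 0 < A) (hB : 0 < B) (hBA : B ≤ A) (n : ℕ) :
    tau (Real.log ((A : ℝ) / B)) n =
      (Real.log (1 + (((A - B) * B ^ n : ℕ) : ℝ) /
        ((A * A ^ n + B * B ^ n : ℕ) : ℝ))) ^ (1 / 4 : ℝ) := by
  have hA' : (0 : ℝ) < A := by exact_mod_cast hA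
  have hB' : (0 : ℝ) < B := by exact_mod_cast hB
  unfold tau
  congr 2
  rw [exp_neg_nat hA hB, exp_neg_nat hA hB]
  push_cast [Nat.cast_sub hBA]
  field_simp
  ring

theorem tau0_eq (hA : 0 < A) (hB : 0 < B) (M : ℕ) :
    tau0 (Real.log ((A : ℝ) / B)) M =
      (Real.log (1 + ((B ^ (2 * M) : ℕ) : ℝ) / ((A ^ (2 * M) : ℕ) : ℝ))) ^ (1 / 4 : ℝ) := by
  unfold tau0
  congr 3
  have := exp_neg_nat hA hB (2 * M)
  push_cast at this ⊢
  exact this

end

theorem chkK_sound {S A B : ℕ} (hS : 0 < S) (hB : 0 < B) (hBA : B ≤ A) :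
    ∀ (K : List ℕ) (n : ℕ), chkK S A B K (A ^ n) (B ^ n) = true →
      ∀ i < K.length, kap (Real.log ((A : ℝ) / B)) (n + i) ≤ (K.getD i 0 : ℝ) / S := by
  have hA : 0 < A := hB.trans_le hBA
  intro K
  induction K with
  | nil => intro n _ i hi; simp at hi
  | cons k K ih =>
    intro n h i hi
    rw [chkK, Bool.and_eq_true] at h
    cases i with
    | zero =>
      rw [add_zero, List.getD_cons_zero, kap_eq hA hB hBA]
      exact lg3_sound hS (by positivity) h.1
    | succ i =>
      rw [List.getD_cons_succ]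
      have e1 : A * A ^ n = A ^ (n + 1) := by ring
      have e2 : B * B ^ n = B ^ (n + 1) := by ring
      rw [e1, e2] at h
      have := ih (n + 1) h.2 i (by simpa using hi)
      rw [show n + (i + 1) = n + 1 + i by ring]
      exact this

theorem chkT_sound {S A B : ℕ} (hS : 0 < S) (hB : 0 < B) (hBA : B ≤ A) :
    ∀ (K : List ℕ) (n : ℕ), chkT S A B K (A ^ n) (B ^ n) = true →
      ∀ i < K.length, tau (Real.log ((A : ℝ) / B)) (n + i) ≤ (K.getD i 0 : ℝ) / S := by
  have hA : 0 < A := hB.trans_le hBA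
  intro K
  induction K with
  | nil => intro n _ i hi; simp at hi
  | cons k K ih =>
    intro n h i hi
    rw [chkT, Bool.and_eq_true] at h
    cases i with
    | zero =>
      rw [add_zero, List.getD_cons_zero, tau_eq hA hB hBA]
      exact lg3_sound hS (by positivity) h.1
    | succ i =>
      rw [List.getD_cons_succ]
      have e1 : A * A ^ n = A ^ (n + 1) := by ring
      have e2 : B * B ^ n = B ^ (n + 1) := by ring
      rw [e1, e2] at h
      have := ih (n + 1) h.2 i (by simpa using hi)
      rw [show n + (i + 1) = n + 1 + i by ring]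
      exact this

theorem le3_sound : ∀ (R P Q : List ℕ), le3 P Q R = true →
    ∀ j < R.length, j < P.length ∧ j < Q.length ∧ P.getD j 0 + Q.getD j 0 ≤ R.getD j 0 := by
  intro R
  induction R with
  | nil => intro P Q _ j hj; simp at hj
  | cons r R ih =>
    intro P Q h j hj
    match P, Q, h with
    | [], _, h => simp [le3] at h
    | _ :: _, [], h => simp [le3] at h
    | p :: P, q :: Q, h =>
      rw [le3, Bool.and_eq_true] at h
      cases j with
      | zero => exact ⟨by simp, by simp, by simpa using Nat.le_of_ble_eq_true h.1⟩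
      | succ j =>
        obtain ⟨h1, h2, h3⟩ := ih P Q h.2 j (by simpa using hj)
        exact ⟨by simpa using h1, by simpa using h2, by simpa using h3⟩

/-- Soundness of the table of rows, for an abstract `f : ℕ → ℝ`. -/
theorem chkKE_sound {M S : ℕ} (hS : 0 < S) {f : ℕ → ℝ} :
    ∀ (KE : List (List ℕ)) (i0 : ℕ) (K' P Q : List ℕ), chkKE M KE K' P Q = true →
      (∀ i < K'.length, f (i0 + 1 + i) ≤ (K'.getD i 0 : ℝ) / S) →
      (∀ j < P.length, f (i0 - j + (j - i0)) ≤ (P.getD j 0 : ℝ) / S) →
      (∀ j < Q.length, f (i0 + j + 1) ≤ (Q.getD j 0 : ℝ) / S) →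
      (∀ r ∈ KE, r.length = M) ∧
      ∀ i < KE.length, ∀ j < M,
        f (i0 + i - j + (j - (i0 + i))) + f (i0 + i + j + 1) ≤ ((KE.getD i []).getD j 0 : ℝ) / S := by
  have hS' : (0 : ℝ) < S := by exact_mod_cast hS
  intro KE
  induction KE with
  | nil =>
    intro i0 K' P Q _ _ _ _
    exact ⟨by simp, fun i hi => by simp at hi⟩
  | cons r KE ih =>
    intro i0 K' P Q h hK' hP hQ
    match K', h, hK' with
    | [], h, _ => simp [chkKE] at h
    | k' :: K', h, hK' =>
      rw [chkKE, Bool.and_eq_true, Bool.and_eq_true] at h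
      obtain ⟨h1, h2, h3⟩ := h
      have h1 := Nat.eq_of_beq_eq_true h1
      have hk0 : f (i0 + 1) ≤ (k' : ℝ) / S := by
        have := hK' 0 (by simp)
        simpa using this
      have hI := ih (i0 + 1) K' (k' :: P) Q.tail h3 (by
          intro i hi
          have := hK' (i + 1) (by simpa using hi)
          rw [List.getD_cons_succ] at this
          rw [show i0 + 1 + 1 + i = i0 + 1 + (i + 1) by ring]
          exact this) (by
          intro j hj
          cases j with
          | zero =>
            simp only [Nat.sub_zero, Nat.zero_sub, add_zero, List.getD_cons_zero]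
            exact hk0
          | succ j =>
            rw [List.getD_cons_succ, show i0 + 1 - (j + 1) + (j + 1 - (i0 + 1)) =
              i0 - j + (j - i0) by omega]
            exact hP j (by simpa using hj)) (by
          intro j hj
          rw [List.length_tail] at hj
          have := hQ (j + 1) (by omega)
          rw [show i0 + 1 + j + 1 = i0 + (j + 1) + 1 by ring]
          refine this.trans (le_of_eq ?_)
          congr 2
          cases Q with
          | nil => simp at hj
          | cons q Q => simp)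
      refine ⟨?_, ?_⟩
      · intro r' hr'
        rcases List.mem_cons.1 hr' with e | hr'
        · rw [e]
          exact h1
        · exact hI.1 r' hr'
      · intro i hi j hj
        cases i with
        | zero =>
          rw [add_zero, List.getD_cons_zero]
          obtain ⟨e1, e2, e3⟩ := le3_sound r P Q h2 j (h1.symm ▸ hj)
          have e4 := hP j e1
          have e5 := hQ j e2
          have e6 : ((P.getD j 0 : ℕ) : ℝ) + ((Q.getD j 0 : ℕ) : ℝ) ≤ ((r.getD j 0 : ℕ) : ℝ) := by
            exact_mod_cast e3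
          calc _ ≤ ((P.getD j 0 : ℕ) : ℝ) / S + ((Q.getD j 0 : ℕ) : ℝ) / S := add_le_add e4 e5
            _ = (((P.getD j 0 : ℕ) : ℝ) + ((Q.getD j 0 : ℕ) : ℝ)) / S := by ring
            _ ≤ _ := by gcongr
        | succ i =>
          rw [List.getD_cons_succ]
          have := hI.2 i (by simpa using hi) j hj
          rw [show i0 + (i + 1) = i0 + 1 + i by ring]
          exact this

/-- **Soundness of the tables.** -/
theorem tab_sound {S A B M TT : ℕ} {K T tE : List ℕ} {KE : List (List ℕ)} (hS : 0 < S)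
    (hB : 0 < B) (hBA : B ≤ A) (h : chkTab S A B M K T TT KE tE = true) :
    Tabs S (Real.log ((A : ℝ) / B)) M KE tE TT := by
  have hS' : (0 : ℝ) < S := by exact_mod_cast hS
  have hA : 0 < A := hB.trans_le hBA
  simp only [chkTab, Bool.and_eq_true] at h
  obtain ⟨h1, h2, h3, h4, h5, h6, h7, h8, h9⟩ := h
  have h1 := Nat.eq_of_beq_eq_true h1
  have h2 := Nat.eq_of_beq_eq_true h2
  have h3 := Nat.eq_of_beq_eq_true h3
  have h4 := Nat.eq_of_beq_eq_true h4
  have hK := chkK_sound hS hB hBA K 0 (by simpa using h5)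
  have hT := chkT_sound hS hB hBA T 0 (by simpa using h6)
  simp only [zero_add] at hK hT
  have hKE := chkKE_sound (M := M) hS (f := kap (Real.log ((A : ℝ) / B))) KE 0 K.tail K K.tail h8
    (by
      intro i hi
      rw [List.length_tail] at hi
      have := hK (i + 1) (by omega)
      rw [show 0 + 1 + i = i + 1 by ring]
      refine this.trans (le_of_eq ?_)
      congr 2
      cases K with
      | nil => simp at hi
      | cons q Q => simp)
    (by
      intro j hj
      rw [show 0 - j + (j - 0) = j by omega]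
      exact hK j hj)
    (by
      intro i hi
      rw [List.length_tail] at hi
      have := hK (i + 1) (by omega)
      rw [show 0 + i + 1 = i + 1 by ring]
      refine this.trans (le_of_eq ?_)
      congr 2
      cases K with
      | nil => simp at hi
      | cons q Q => simp)
  refine ⟨h4, fun r hr => (hKE.1 r hr).ge, ?_, ?_, ?_⟩
  · intro i hi j hj
    have := hKE.2 i (h3.symm ▸ hi) j hj
    simp only [zero_add] at this
    exact this
  · intro i hi
    obtain ⟨e1, e2, e3⟩ := le3_sound tE _ _ h9 i (h4.symm ▸ hi)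
    have e4 := hT (M - 1 - i) (by omega)
    have e5 := hT (M + i) (by omega)
    have e6 : (T.take M).reverse.getD i 0 = T.getD (M - 1 - i) 0 := by
      rw [List.getD_eq_getElem _ _ e1, List.getElem_reverse]
      rw [List.getD_eq_getElem _ _ (by omega : M - 1 - i < T.length)]
      rw [List.getElem_take]
      congr 1
      rw [List.length_take]
      omega
    have e7 : (T.drop M).getD i 0 = T.getD (M + i) 0 := by
      rw [List.getD_eq_getElem _ _ e2, List.getElem_drop,
        List.getD_eq_getElem _ _ (by omega : M + i < T.length)]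
    rw [e6, e7] at e3
    have e8 : ((T.getD (M - 1 - i) 0 : ℕ) : ℝ) + ((T.getD (M + i) 0 : ℕ) : ℝ) ≤
        ((tE.getD i 0 : ℕ) : ℝ) := by exact_mod_cast e3
    calc _ ≤ ((T.getD (M - 1 - i) 0 : ℕ) : ℝ) / S + ((T.getD (M + i) 0 : ℕ) : ℝ) / S :=
          add_le_add e4 e5
      _ = (((T.getD (M - 1 - i) 0 : ℕ) : ℝ) + ((T.getD (M + i) 0 : ℕ) : ℝ)) / S := by ring
      _ ≤ _ := by gcongr
  · rw [tau0_eq hA hB]
    exact lg3_sound hS (by positivity) h7

end Pool.Agent.ENC
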