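import Mathlib
import Pool.Agent.ENC.Tab

set_option autoImplicit false

/-!
# The second finite check: bounds at the nodes and the trace
-/

open MeasureTheory Set Filter Topology MPdbfb19
open scoped ENNReal

namespace Pool.Agent.ENC

/-- `(N / D) ^ (1/4) ≤ k / S`. -/
def r4 (S N D k : ℕ) : Bool := Nat.ble (S ^ 4 * N) (k ^ 4 * D)

/-- Table of `nu`. -/
def chkNU (S A B : ℕ) : List ℕ → ℕ → ℕ → Bool
  | [], _, _ => true
  | k :: ks, a, b => r4 S (a * b * (A - B)) ((a + b) * (A * a + B * b)) k &&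
    chkNU S A B ks (A * a) (B * b)

/-- Table of `nut`. -/
def chkNT (S A B : ℕ) : List ℕ → ℕ → ℕ → Bool
  | [], _, _ => true
  | k :: ks, a, b => r4 S b (a + b) k && chkNT S A B ks (A * a) (B * b)

/-- All tables for the nodes. -/
def chkTabN (S A B M : ℕ) (NU NT : List ℕ) (KN : List (List ℕ)) (tN : List ℕ) : Bool :=
  Nat.beq NU.length (2 * M) && (Nat.beq NT.length (2 * M + 1) && (Nat.beq KN.length (M + 1) &&
  (Nat.beq tN.length (M + 1) && (chkNU S A B NU 1 1 && (chkNT S A B NT 1 1 &&
  (chkKE M KN NU NU NU && le3 (NT.take (M + 1)).reverse (NT.drop M) tN))))))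

/-- The nodes: bounds, multipliers, weights of the cells, weights of the tail. -/
noncomputable def rowsN (S CN CD XT : ℕ) (Xs : List ℕ) :
    List ℕ → List ℕ → List (List ℕ) → List ℕ → Bool
  | u :: Us, m :: ms, ks :: KN, t :: tN =>
    (Nat.ble 1 m && Nat.ble (VV S m t XT ks Xs * CD) (CN * u * S ^ 4)) &&
    rowsN S CN CD XT Xs Us ms KN tN
  | [], _, _, _ => true
  | _, _, _, _ => false

theorem r4_sound {S N D k : ℕ} (hS : 0 < S) (hD : 0 < D) (h : r4 S N D k = true) :
    ((N : ℝ) / D) ^ (1 / 4 : ℝ) ≤ (k : ℝ) / S := by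
  have hS' : (0 : ℝ) < S := by exact_mod_cast hS
  have hD' : (0 : ℝ) < D := by exact_mod_cast hD
  have h1 := Nat.le_of_ble_eq_true h
  have h2 : ((S : ℝ) ^ 4 * N) ≤ k ^ 4 * D := by exact_mod_cast h1
  have h3 : (N : ℝ) / D ≤ ((k : ℝ) / S) ^ 4 := by
    rw [div_pow, div_le_div_iff₀ hD' (by positivity)]
    linarith
  calc ((N : ℝ) / D) ^ (1 / 4 : ℝ) ≤ (((k : ℝ) / S) ^ 4) ^ (1 / 4 : ℝ) :=
        Real.rpow_le_rpow (by positivity) h3 (by norm_num)
    _ = (k : ℝ) / S := by
        rw [← Real.rpow_natCast, ← Real.rpow_mul (by positivity)]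
        norm_num

section

variable {A B : ℕ}

theorem nu_eq (hA : 0 < A) (hB : 0 < B) (hBA : B ≤ A) (n : ℕ) :
    nu (Real.log ((A : ℝ) / B)) n =
      (((A ^ n * B ^ n * (A - B) : ℕ) : ℝ) /
        (((A ^ n + B ^ n) * (A * A ^ n + B * B ^ n) : ℕ) : ℝ)) ^ (1 / 4 : ℝ) := by
  have hA' : (0 : ℝ) < A := by exact_mod_cast hA
  have hB' : (0 : ℝ) < B := by exact_mod_cast hB
  unfold nu
  congr 1
  rw [exp_nat hA hB, exp_nat hA hB]
  push_cast [Nat.cast_sub hBA]
  field_simp
  ring

theorem nut_eq (hA : 0 < A) (hB : 0 < B) (n : ℕ) :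
    nut (Real.log ((A : ℝ) / B)) n =
      (((B ^ n : ℕ) : ℝ) / ((A ^ n + B ^ n : ℕ) : ℝ)) ^ (1 / 4 : ℝ) := by
  have hA' : (0 : ℝ) < A := by exact_mod_cast hA
  have hB' : (0 : ℝ) < B := by exact_mod_cast hB
  unfold nut
  congr 1
  rw [exp_nat hA hB]
  push_cast
  field_simp
  ring

end

theorem chkNU_sound {S A B : ℕ} (hS : 0 < S) (hB : 0 < B) (hBA : B ≤ A) :
    ∀ (K : List ℕ) (n : ℕ), chkNU S A B K (A ^ n) (B ^ n) = true →
      ∀ i < K.length, nu (Real.log ((A : ℝ) / B)) (n + i) ≤ (K.getD i 0 : ℝ) / S := by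
  have hA : 0 < A := hB.trans_le hBA
  intro K
  induction K with
  | nil => intro n _ i hi; simp at hi
  | cons k K ih =>
    intro n h i hi
    rw [chkNU, Bool.and_eq_true] at h
    cases i with
    | zero =>
      rw [add_zero, List.getD_cons_zero, nu_eq hA hB hBA]
      exact r4_sound hS (by positivity) h.1
    | succ i =>
      rw [List.getD_cons_succ]
      have e1 : A * A ^ n = A ^ (n + 1) := by ring
      have e2 : B * B ^ n = B ^ (n + 1) := by ring
      rw [e1, e2] at h
      have := ih (n + 1) h.2 i (by simpa using hi)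
      rw [show n + (i + 1) = n + 1 + i by ring]
      exact this

theorem chkNT_sound {S A B : ℕ} (hS : 0 < S) (hB : 0 < B) (hBA : B ≤ A) :
    ∀ (K : List ℕ) (n : ℕ), chkNT S A B K (A ^ n) (B ^ n) = true →
      ∀ i < K.length, nut (Real.log ((A : ℝ) / B)) (n + i) ≤ (K.getD i 0 : ℝ) / S := by
  have hA : 0 < A := hB.trans_le hBA
  intro K
  induction K with
  | nil => intro n _ i hi; simp at hi
  | cons k K ih =>
    intro n h i hi
    rw [chkNT, Bool.and_eq_true] at h
    cases i with
    | zero =>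
      rw [add_zero, List.getD_cons_zero, nut_eq hA hB]
      exact r4_sound hS (by positivity) h.1
    | succ i =>
      rw [List.getD_cons_succ]
      have e1 : A * A ^ n = A ^ (n + 1) := by ring
      have e2 : B * B ^ n = B ^ (n + 1) := by ring
      rw [e1, e2] at h
      have := ih (n + 1) h.2 i (by simpa using hi)
      rw [show n + (i + 1) = n + 1 + i by ring]
      exact this

/-- Soundness of the table of rows, general form. -/
theorem chkKE_gen {M S : ℕ} (hS : 0 < S) {p : ℕ → ℕ → ℝ} {q r : ℕ → ℝ}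
    (hp : ∀ i j, p (i + 1) (j + 1) = p i j) (hr : ∀ i, p (i + 1) 0 = r i) :
    ∀ (KE : List (List ℕ)) (i0 : ℕ) (K' P Q : List ℕ), chkKE M KE K' P Q = true →
      (∀ i < K'.length, r (i0 + i) ≤ (K'.getD i 0 : ℝ) / S) →
      (∀ j < P.length, p i0 j ≤ (P.getD j 0 : ℝ) / S) →
      (∀ j < Q.length, q (i0 + j) ≤ (Q.getD j 0 : ℝ) / S) →
      (∀ r ∈ KE, r.length = M) ∧
      ∀ i < KE.length, ∀ j < M,
        p (i0 + i) j + q (i0 + i + j) ≤ ((KE.getD i []).getD j 0 : ℝ) / S := by
  have hS' : (0 : ℝ) < S := by exact_mod_cast hS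
  intro KE
  induction KE with
  | nil =>
    intro i0 K' P Q _ _ _ _
    exact ⟨by simp, fun i hi => by simp at hi⟩
  | cons R KE ih =>
    intro i0 K' P Q h hK' hP hQ
    match K', h, hK' with
    | [], h, _ => simp [chkKE] at h
    | k' :: K', h, hK' =>
      rw [chkKE, Bool.and_eq_true, Bool.and_eq_true] at h
      obtain ⟨h1, h2, h3⟩ := h
      have h1 := Nat.eq_of_beq_eq_true h1
      have hk0 : r i0 ≤ (k' : ℝ) / S := by
        have := hK' 0 (by simp)
        simpa using this
      have hI := ih (i0 + 1) K' (k' :: P) Q.tail h3 (by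
          intro i hi
          have := hK' (i + 1) (by simpa using hi)
          rw [List.getD_cons_succ] at this
          rw [show i0 + 1 + i = i0 + (i + 1) by ring]
          exact this) (by
          intro j hj
          cases j with
          | zero =>
            rw [hr, List.getD_cons_zero]
            exact hk0
          | succ j =>
            rw [List.getD_cons_succ, hp]
            exact hP j (by simpa using hj)) (by
          intro j hj
          rw [List.length_tail] at hj
          have := hQ (j + 1) (by omega)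
          rw [show i0 + 1 + j = i0 + (j + 1) by ring]
          refine this.trans (le_of_eq ?_)
          congr 2
          cases Q with
          | nil => simp at hj
          | cons q Q => simp)
      refine ⟨?_, ?_⟩
      · intro r' hr'
        rcases List.mem_cons.1 hr' with e | hr'
        · rw [e]
          exact h1
        · exact hI.1 r' hr'
      · intro i hi j hj
        cases i with
        | zero =>
          rw [add_zero, List.getD_cons_zero]
          obtain ⟨e1, e2, e3⟩ := le3_sound R P Q h2 j (h1.symm ▸ hj)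
          have e4 := hP j e1
          have e5 := hQ j e2
          have e6 : ((P.getD j 0 : ℕ) : ℝ) + ((Q.getD j 0 : ℕ) : ℝ) ≤ ((R.getD j 0 : ℕ) : ℝ) := by
            exact_mod_cast e3
          calc _ ≤ ((P.getD j 0 : ℕ) : ℝ) / S + ((Q.getD j 0 : ℕ) : ℝ) / S := add_le_add e4 e5
            _ = (((P.getD j 0 : ℕ) : ℝ) + ((Q.getD j 0 : ℕ) : ℝ)) / S := by ring
            _ ≤ _ := by gcongr
        | succ i =>
          rw [List.getD_cons_succ]
          have := hI.2 i (by simpa using hi) j hj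
          rw [show i0 + (i + 1) = i0 + 1 + i by ring]
          exact this

/-- The tables bound the weights of the nodes. -/
structure TabsN (S : ℕ) (d : ℝ) (M : ℕ) (KN : List (List ℕ)) (tN : List ℕ) : Prop where
  lenK : ∀ r ∈ KN, M ≤ r.length
  cell : ∀ i ≤ M, ∀ j < M,
    nu d (if i ≤ j then j - i else i - j - 1) + nu d (i + j) ≤ ((KN.getD i []).getD j 0 : ℝ) / S
  tail : ∀ i ≤ M, nut d (M - i) + nut d (M + i) ≤ (tN.getD i 0 : ℝ) / S

theorem tabN_sound {S A B M : ℕ} {NU NT tN : List ℕ} {KN : List (List ℕ)} (hS : 0 < S)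
    (hB : 0 < B) (hBA : B ≤ A) (h : chkTabN S A B M NU NT KN tN = true) :
    TabsN S (Real.log ((A : ℝ) / B)) M KN tN := by
  have hS' : (0 : ℝ) < S := by exact_mod_cast hS
  simp only [chkTabN, Bool.and_eq_true] at h
  obtain ⟨h1, h2, h3, h4, h5, h6, h7, h8⟩ := h
  have h1 := Nat.eq_of_beq_eq_true h1
  have h2 := Nat.eq_of_beq_eq_true h2
  have h3 := Nat.eq_of_beq_eq_true h3
  have h4 := Nat.eq_of_beq_eq_true h4
  have hU := chkNU_sound hS hB hBA NU 0 (by simpa using h5)
  have hT := chkNT_sound hS hB hBA NT 0 (by simpa using h6)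
  simp only [zero_add] at hU hT
  set d := Real.log ((A : ℝ) / B)
  have hKN := chkKE_gen (M := M) hS (p := fun i j => nu d (if i ≤ j then j - i else i - j - 1))
    (q := fun n => nu d n) (r := fun n => nu d n) (by
      intro i j
      simp only [add_le_add_iff_right]
      by_cases hij : i ≤ j
      · rw [if_pos hij, if_pos hij]
        congr 1
        omega
      · rw [if_neg hij, if_neg hij]
        congr 1
        omega) (by
      intro i
      rw [if_neg (by omega)]
      rfl) KN 0 NU NU NU h7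
    (by
      intro i hi
      simpa using hU i hi)
    (by
      intro j hj
      simpa using hU j hj)
    (by
      intro j hj
      simpa using hU j hj)
  refine ⟨fun r hr => (hKN.1 r hr).ge, ?_, ?_⟩
  · intro i hi j hj
    have := hKN.2 i (by omega) j hj
    simp only [zero_add] at this
    exact this
  · intro i hi
    obtain ⟨e1, e2, e3⟩ := le3_sound tN _ _ h8 i (by omega)
    have e4 := hT (M - i) (by omega)
    have e5 := hT (M + i) (by omega)
    have e6 : (NT.take (M + 1)).reverse.getD i 0 = NT.getD (M - i) 0 := by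
      rw [List.getD_eq_getElem _ _ e1, List.getElem_reverse]
      rw [List.getD_eq_getElem _ _ (by omega : M - i < NT.length)]
      rw [List.getElem_take]
      congr 1
      rw [List.length_take]
      omega
    have e7 : (NT.drop M).getD i 0 = NT.getD (M + i) 0 := by
      rw [List.getD_eq_getElem _ _ e2, List.getElem_drop,
        List.getD_eq_getElem _ _ (by omega : M + i < NT.length)]
    rw [e6, e7] at e3
    have e8 : ((NT.getD (M - i) 0 : ℕ) : ℝ) + ((NT.getD (M + i) 0 : ℕ) : ℝ) ≤
        ((tN.getD i 0 : ℕ) : ℝ) := by exact_mod_cast e3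
    calc _ ≤ ((NT.getD (M - i) 0 : ℕ) : ℝ) / S + ((NT.getD (M + i) 0 : ℕ) : ℝ) / S :=
          add_le_add e4 e5
      _ = (((NT.getD (M - i) 0 : ℕ) : ℝ) + ((NT.getD (M + i) 0 : ℕ) : ℝ)) / S := by ring
      _ ≤ _ := by gcongr

/-- Soundness of the rows for the nodes. -/
theorem rowsN_sound {S CN CD XT : ℕ} (hS : 0 < S) (hCN : 0 < CN) (hCD : 0 < CD) {Xs : List ℕ}
    {c : ℝ} (hc : (CN : ℝ) ≤ c * CD) {x : ℕ → ℝ} {xT : ℝ}
    (hx0 : ∀ j < Xs.length, 0 ≤ x j) (hx : ∀ j < Xs.length, x j ≤ (Xs.getD j 0 : ℝ) / S)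
    (hT0 : 0 ≤ xT) (hT : xT ≤ (XT : ℝ) / S)
    (hmass : ∑ j ∈ Finset.range Xs.length, x j ^ 4 + xT ^ 4 = 1 / 2) :
    ∀ (Us ms : List ℕ) (KN : List (List ℕ)) (tN : List ℕ) (κ : ℕ → ℕ → ℝ) (θ y : ℕ → ℝ),
      rowsN S CN CD XT Xs Us ms KN tN = true →
      (∀ r ∈ KN, Xs.length ≤ r.length) →
      (∀ i < Us.length, ∀ j < Xs.length, κ i j ≤ ((KN.getD i []).getD j 0 : ℝ) / S) →
      (∀ i < Us.length, θ i ≤ (tN.getD i 0 : ℝ) / S) →
      (∀ i < Us.length, c * y i ≤ ∑ j ∈ Finset.range Xs.length, κ i j * x j ^ 3 + θ i * xT ^ 3) →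
      (∀ i < Us.length, 0 ≤ y i) →
      ∀ i < Us.length, y i ≤ (Us.getD i 0 : ℝ) / S := by
  have hS' : (0 : ℝ) < S := by exact_mod_cast hS
  have hCD' : (0 : ℝ) < CD := by exact_mod_cast hCD
  intro Us
  induction Us with
  | nil => intro ms KN tN κ θ y _ _ _ _ _ _ i hi; simp at hi
  | cons u Us ih =>
    intro ms KN tN κ θ y h hKN hκ hθ hrow hy0
    match ms, KN, tN, h, hKN, hκ, hθ with
    | [], _, _, h, _, _, _ => simp [rowsN] at h
    | _ :: _, [], _, h, _, _, _ => simp [rowsN] at h
    | _ :: _, _ :: _, [], h, _, _, _ => simp [rowsN] at h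
    | m :: ms, ks :: KN, t :: tN, h, hKN, hκ, hθ =>
      rw [rowsN, Bool.and_eq_true, Bool.and_eq_true] at h
      obtain ⟨⟨hm1, h1⟩, h2⟩ := h
      have h0 : 0 < (u :: Us).length := by simp
      intro i hi
      cases i with
      | zero =>
        rw [List.getD_cons_zero]
        have hm : 0 < m := Nat.le_of_ble_eq_true hm1
        have h3 := Nat.le_of_ble_eq_true h1
        have h4 : ((VV S m t XT ks Xs * CD : ℕ) : ℝ) ≤ ((CN * u * S ^ 4 : ℕ) : ℝ) := by
          exact_mod_cast h3
        push_cast at h4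
        have h5 := VV_sound (κ := κ 0) (κT := θ 0) hS hm (hKN ks (by simp)) hx0 hx
          (fun j hj => by simpa using hκ 0 h0 j hj) hT0 hT (by simpa using hθ 0 h0) hmass
        have h6 := hrow 0 h0
        have h7 : (S : ℝ) ^ 5 * (c * y 0) * CD ≤ CN * u * S ^ 4 := by
          calc (S : ℝ) ^ 5 * (c * y 0) * CD ≤ (VV S m t XT ks Xs : ℕ) * CD := by
                apply mul_le_mul_of_nonneg_right _ hCD'.le
                exact (mul_le_mul_of_nonneg_left h6 (by positivity)).trans h5
            _ ≤ _ := h4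
        rw [le_div_iff₀ hS']
        have h8 : (CN : ℝ) * (S ^ 4 * (y 0 * S)) ≤ CN * (S ^ 4 * u) := by
          have : (CN : ℝ) * (y 0 * S ^ 5) ≤ c * CD * (y 0 * S ^ 5) :=
            mul_le_mul_of_nonneg_right hc (mul_nonneg (hy0 0 h0) (by positivity))
          calc (CN : ℝ) * (S ^ 4 * (y 0 * S)) = CN * (y 0 * S ^ 5) := by ring
            _ ≤ c * CD * (y 0 * S ^ 5) := this
            _ = (S : ℝ) ^ 5 * (c * y 0) * CD := by ring
            _ ≤ CN * u * S ^ 4 := h7
            _ = _ := by ring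
        have h9 := le_of_mul_le_mul_left h8 (by exact_mod_cast hCN)
        exact le_of_mul_le_mul_left h9 (by positivity)
      | succ i =>
        have hi' : i < Us.length := by simpa using hi
        rw [List.getD_cons_succ]
        exact ih ms KN tN (fun i j => κ (i + 1) j) (fun i => θ (i + 1)) (fun i => y (i + 1)) h2
          (fun r hr => hKN r (by simp [hr]))
          (fun i hi j hj => by simpa using hκ (i + 1) (by simpa using hi) j hj)
          (fun i hi => by simpa using hθ (i + 1) (by simpa using hi))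
          (fun i hi => by simpa using hrow (i + 1) (by simpa using hi))
          (fun i hi => by simpa using hy0 (i + 1) (by simpa using hi)) i hi'

end Pool.Agent.ENC
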