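import Mathlib
import Pool.Agent.ENC.Base

set_option autoImplicit false

open MeasureTheory Set Filter Topology MPdbfb19
open scoped ENNReal

namespace Pool.Agent.ENC

/-- `Kk` is strictly decreasing in `|s|`. (`Kr s = 1 / (exp (s/2) + exp (-s/2))`.) -/
theorem Kk_lt {s t : ℝ} (h : |s| < |t|) : Kk t < Kk s := by
  have h1 : ∀ x, Kr x = (2 * Real.cosh (x / 2))⁻¹ := by
    intro x
    unfold Kr
    rw [Real.cosh_eq]
    congr 1
    ring
  unfold Kk
  refine Real.rpow_lt_rpow (Kr_pos t).le ?_ (by norm_num)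
  rw [h1, h1]
  have h2 : Real.cosh (s / 2) < Real.cosh (t / 2) := by
    rw [Real.cosh_lt_cosh, abs_div, abs_div]
    exact div_lt_div_of_pos_right h (by norm_num)
  have h3 := Real.cosh_pos (s / 2)
  exact inv_strictAnti₀ (by linarith) (by linarith)

theorem pol_le {s t : ℝ} (h : |s| ≤ |t|) : Kk t ≤ Kk s := by
  rcases h.lt_or_eq with h | h
  · exact (Kk_lt h).le
  · rcases abs_eq_abs.1 h with h | h
    · rw [h]
    · rw [h, Kk_neg]

/-- The double integral. -/
theorem pol_q {f : ℝ → ℝ} (hf : Continuous f) (h0 : ∀ s, 0 ≤ f s) :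
    ∫⁻ s, ENNReal.ofReal (f s) * Tt (fun t => ENNReal.ofReal (f t)) s =
      ∫⁻ z : ℝ × ℝ, ENNReal.ofReal (f z.1 * f z.2 * Kk (z.1 - z.2)) := by
  have hc : Continuous (fun z : ℝ × ℝ => f z.1 * f z.2 * Kk (z.1 - z.2)) :=
    ((hf.comp continuous_fst).mul (hf.comp continuous_snd)).mul
      (Kk_cont.comp (continuous_fst.sub continuous_snd))
  rw [Measure.volume_eq_prod, lintegral_prod _ hc.measurable.ennreal_ofReal.aemeasurable]
  refine lintegral_congr fun s => ?_
  unfold Tt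
  rw [← lintegral_const_mul' _ _ ENNReal.ofReal_ne_top]
  refine lintegral_congr fun t => ?_
  rw [Ke_eq, ← ENNReal.ofReal_mul (h0 t), ← ENNReal.ofReal_mul (h0 s), mul_assoc]

/-- The symmetrised integrand. -/
noncomputable def pol_G (a : ℝ) (f : ℝ → ℝ) (z : ℝ × ℝ) : ℝ :=
  (f z.1 * f z.2 + f (2 * a - z.1) * f (2 * a - z.2)) * Kk (z.1 - z.2) +
    (f z.1 * f (2 * a - z.2) + f (2 * a - z.1) * f z.2) * Kk (z.1 - (2 * a - z.2))

theorem pol_sym (a : ℝ) {f : ℝ → ℝ} (hf : Continuous f) (h0 : ∀ s, 0 ≤ f s) :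
    ∫⁻ z : ℝ × ℝ, ENNReal.ofReal (pol_G a f z) =
      4 * ∫⁻ z : ℝ × ℝ, ENNReal.ofReal (f z.1 * f z.2 * Kk (z.1 - z.2)) := by
  have hc : Continuous (fun z : ℝ × ℝ => f z.1 * f z.2 * Kk (z.1 - z.2)) :=
    ((hf.comp continuous_fst).mul (hf.comp continuous_snd)).mul
      (Kk_cont.comp (continuous_fst.sub continuous_snd))
  have hm : Measurable (fun z : ℝ × ℝ => ENNReal.ofReal (f z.1 * f z.2 * Kk (z.1 - z.2))) :=
    hc.measurable.ennreal_ofReal
  have hσ : MeasurePreserving (fun x : ℝ => 2 * a - x) volume volume :=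
    Measure.measurePreserving_sub_left volume (2 * a)
  have hi : MeasurePreserving (fun x : ℝ => x) volume volume := MeasurePreserving.id volume
  have k1 := (hσ.prod hi).lintegral_comp hm
  have k2 := (hi.prod hσ).lintegral_comp hm
  have k3 := (hσ.prod hσ).lintegral_comp hm
  rw [← Measure.volume_eq_prod] at k1 k2 k3
  simp only [Prod.map_apply'] at k1 k2 k3
  have hσc : Continuous (fun x : ℝ => 2 * a - x) := continuous_const.sub continuous_id
  have m1 : Measurable (fun z : ℝ × ℝ => ENNReal.ofReal (f (2 * a - z.1) * f z.2 *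
      Kk (2 * a - z.1 - z.2))) :=
    (hc.comp ((hσc.comp continuous_fst).prodMk continuous_snd)).measurable.ennreal_ofReal
  have m2 : Measurable (fun z : ℝ × ℝ => ENNReal.ofReal (f z.1 * f (2 * a - z.2) *
      Kk (z.1 - (2 * a - z.2)))) :=
    (hc.comp (continuous_fst.prodMk (hσc.comp continuous_snd))).measurable.ennreal_ofReal
  have e : ∀ z : ℝ × ℝ, ENNReal.ofReal (pol_G a f z) =
      ENNReal.ofReal (f z.1 * f z.2 * Kk (z.1 - z.2)) +
      (ENNReal.ofReal (f (2 * a - z.1) * f z.2 * Kk (2 * a - z.1 - z.2)) +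
      (ENNReal.ofReal (f z.1 * f (2 * a - z.2) * Kk (z.1 - (2 * a - z.2))) +
      ENNReal.ofReal (f (2 * a - z.1) * f (2 * a - z.2) * Kk (2 * a - z.1 - (2 * a - z.2))))) := by
    intro z
    have p : ∀ x y w : ℝ, 0 ≤ f x * f y * Kk w := fun x y w =>
      mul_nonneg (mul_nonneg (h0 _) (h0 _)) (Kk_pos _).le
    rw [← ENNReal.ofReal_add (p _ _ _) (p _ _ _),
      ← ENNReal.ofReal_add (p _ _ _) (add_nonneg (p _ _ _) (p _ _ _)),
      ← ENNReal.ofReal_add (p _ _ _)
        (add_nonneg (p _ _ _) (add_nonneg (p _ _ _) (p _ _ _)))]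
    congr 1
    have e1 : Kk (2 * a - z.1 - z.2) = Kk (z.1 - (2 * a - z.2)) := by
      rw [← Kk_neg]
      congr 1
      ring
    have e2 : Kk (2 * a - z.1 - (2 * a - z.2)) = Kk (z.1 - z.2) := by
      rw [← Kk_neg]
      congr 1
      ring
    rw [e1, e2]
    unfold pol_G
    ring
  simp_rw [e]
  rw [lintegral_add_left hm, lintegral_add_left m1, lintegral_add_left m2, k1, k2, k3]
  ring

/-- The polarisation. -/
noncomputable def pol_P (a : ℝ) (f : ℝ → ℝ) (s : ℝ) : ℝ :=
  if s ≤ a then max (f s) (f (2 * a - s)) else min (f s) (f (2 * a - s))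

theorem pol_cont (a : ℝ) {f : ℝ → ℝ} (hf : Continuous f) : Continuous (pol_P a f) := by
  have hσc : Continuous (fun x : ℝ => f (2 * a - x)) :=
    hf.comp (continuous_const.sub continuous_id)
  refine Continuous.if_le (hf.max hσc) (hf.min hσc) continuous_id continuous_const fun s hs => ?_
  have hs' : s = a := hs
  have e : 2 * a - s = s := by rw [hs']; ring
  rw [e, max_self, min_self]

theorem pol_nonneg (a : ℝ) {f : ℝ → ℝ} (h0 : ∀ s, 0 ≤ f s) (s : ℝ) : 0 ≤ pol_P a f s := by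
  unfold pol_P
  split_ifs
  · exact le_max_of_le_left (h0 _)
  · exact le_min (h0 _) (h0 _)

/-- The two values are permuted. -/
theorem pol_perm (a : ℝ) (f : ℝ → ℝ) (s : ℝ) :
    (pol_P a f s = f s ∧ pol_P a f (2 * a - s) = f (2 * a - s)) ∨
      (pol_P a f s = f (2 * a - s) ∧ pol_P a f (2 * a - s) = f s) := by
  have e : 2 * a - (2 * a - s) = s := by ring
  unfold pol_P
  rw [e]
  rcases lt_trichotomy s a with h | h | h
  · rw [if_pos h.le, if_neg (by linarith)]
    rcases le_total (f s) (f (2 * a - s)) with h1 | h1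
    · right
      exact ⟨max_eq_right h1, min_eq_right h1⟩
    · left
      exact ⟨max_eq_left h1, min_eq_left h1⟩
  · have e2 : 2 * a - s = s := by rw [h]; ring
    rw [e2]
    left
    rw [if_pos h.le, max_self]
    exact ⟨rfl, rfl⟩
  · rw [if_neg (by linarith), if_pos (by linarith)]
    rcases le_total (f s) (f (2 * a - s)) with h1 | h1
    · left
      exact ⟨min_eq_left h1, max_eq_left h1⟩
    · right
      exact ⟨min_eq_right h1, max_eq_right h1⟩

theorem pol_sum (a : ℝ) (f : ℝ → ℝ) (s : ℝ) :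
    pol_P a f s + pol_P a f (2 * a - s) = f s + f (2 * a - s) := by
  rcases pol_perm a f s with ⟨h1, h2⟩ | ⟨h1, h2⟩
  · rw [h1, h2]
  · rw [h1, h2, add_comm]

theorem pol_dif (a : ℝ) (f : ℝ → ℝ) (s : ℝ) :
    (s ≤ a → pol_P a f s - pol_P a f (2 * a - s) = |f s - f (2 * a - s)|) ∧
      (a ≤ s → pol_P a f s - pol_P a f (2 * a - s) = -|f s - f (2 * a - s)|) := by
  have e : 2 * a - (2 * a - s) = s := by ring
  have h1 : ∀ x y : ℝ, max x y - min x y = |x - y| := fun x y => by
    rw [max_sub_min_eq_abs']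
  unfold pol_P
  rw [e]
  constructor
  · intro h
    rcases h.lt_or_eq with h | h
    · rw [if_pos h.le, if_neg (by linarith), min_comm, h1]
    · have e2 : 2 * a - s = s := by rw [h]; ring
      rw [e2]
      simp
  · intro h
    rcases h.lt_or_eq with h | h
    · rw [if_neg (by linarith), if_pos (by linarith), ← h1, max_comm]
      ring
    · have e2 : 2 * a - s = s := by rw [← h]; ring
      rw [e2]
      simp

theorem pol_NN (a : ℝ) {f : ℝ → ℝ} (hf : Continuous f) :
    NN (fun s => ENNReal.ofReal (pol_P a f s)) = NN (fun s => ENNReal.ofReal (f s)) := by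
  have hσ : MeasurePreserving (fun x : ℝ => 2 * a - x) volume volume :=
    Measure.measurePreserving_sub_left volume (2 * a)
  have key : ∀ g : ℝ → ℝ, Continuous g → 2 * NN (fun s => ENNReal.ofReal (g s)) =
      ∫⁻ s, (ENNReal.ofReal (g s) ^ (4 / 3 : ℝ) +
        ENNReal.ofReal (g (2 * a - s)) ^ (4 / 3 : ℝ)) := by
    intro g hg
    have hm : Measurable (fun s => ENNReal.ofReal (g s) ^ (4 / 3 : ℝ)) :=
      hg.measurable.ennreal_ofReal.pow_const _
    rw [lintegral_add_left hm, hσ.lintegral_comp hm, two_mul]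
    rfl
  have h1 := key _ (pol_cont a hf)
  have h2 := key _ hf
  have h3 : 2 * NN (fun s => ENNReal.ofReal (pol_P a f s)) =
      2 * NN (fun s => ENNReal.ofReal (f s)) := by
    rw [h1, h2]
    refine lintegral_congr fun s => ?_
    rcases pol_perm a f s with ⟨h1, h2⟩ | ⟨h1, h2⟩
    · rw [h1, h2]
    · rw [h1, h2, add_comm]
  exact (ENNReal.mul_right_inj (by norm_num) (by norm_num)).1 h3

/-- The difference of the integrands. -/
noncomputable def pol_D (a : ℝ) (f : ℝ → ℝ) (z : ℝ × ℝ) : ℝ :=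
  1 / 2 * ((pol_P a f z.1 - pol_P a f (2 * a - z.1)) *
    (pol_P a f z.2 - pol_P a f (2 * a - z.2)) -
    (f z.1 - f (2 * a - z.1)) * (f z.2 - f (2 * a - z.2))) *
    (Kk (z.1 - z.2) - Kk (z.1 - (2 * a - z.2)))

theorem pol_GD (a : ℝ) (f : ℝ → ℝ) (z : ℝ × ℝ) :
    pol_G a (pol_P a f) z = pol_G a f z + pol_D a f z := by
  have h1 := pol_sum a f z.1
  have h2 := pol_sum a f z.2
  unfold pol_G pol_D
  set x := pol_P a f z.1
  set x' := pol_P a f (2 * a - z.1)
  set y := pol_P a f z.2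
  set y' := pol_P a f (2 * a - z.2)
  set k := Kk (z.1 - z.2)
  set k' := Kk (z.1 - (2 * a - z.2))
  have h3 : (x + x') * (y + y') =
      (f z.1 + f (2 * a - z.1)) * (f z.2 + f (2 * a - z.2)) := by rw [h1, h2]
  linear_combination ((k + k') / 2) * h3

theorem pol_D_nonneg (a : ℝ) (f : ℝ → ℝ) (z : ℝ × ℝ) : 0 ≤ pol_D a f z := by
  unfold pol_D
  obtain ⟨s, t⟩ := z
  simp only
  set u := f s - f (2 * a - s)
  set w := f t - f (2 * a - t)
  have hp : |u| * |w| - u * w ≥ 0 := by
    rw [← abs_mul]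
    linarith [le_abs_self (u * w)]
  have hq : -(|u| * |w|) - u * w ≤ 0 := by
    rw [← abs_mul]
    linarith [neg_abs_le (u * w)]
  rcases le_total s a with hs | hs <;> rcases le_total t a with ht | ht
  · rw [(pol_dif a f s).1 hs, (pol_dif a f t).1 ht]
    have hk : Kk (s - (2 * a - t)) ≤ Kk (s - t) := by
      refine pol_le ?_
      rw [abs_of_nonpos (by linarith : s - (2 * a - t) ≤ 0), abs_le]
      constructor <;> linarith
    exact mul_nonneg (by linarith) (by linarith)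
  · rw [(pol_dif a f s).1 hs, (pol_dif a f t).2 ht]
    have hk : Kk (s - t) ≤ Kk (s - (2 * a - t)) := by
      refine pol_le ?_
      rw [abs_of_nonpos (by linarith : s - t ≤ 0), abs_le]
      constructor <;> linarith
    have e : |u| * -|w| = -(|u| * |w|) := by ring
    rw [e]
    exact mul_nonneg_of_nonpos_of_nonpos (by linarith) (by linarith)
  · rw [(pol_dif a f s).2 hs, (pol_dif a f t).1 ht]
    have hk : Kk (s - t) ≤ Kk (s - (2 * a - t)) := by
      refine pol_le ?_
      rw [abs_of_nonneg (by linarith : 0 ≤ s - t), abs_le]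
      constructor <;> linarith
    have e : -|u| * |w| = -(|u| * |w|) := by ring
    rw [e]
    exact mul_nonneg_of_nonpos_of_nonpos (by linarith) (by linarith)
  · rw [(pol_dif a f s).2 hs, (pol_dif a f t).2 ht]
    have hk : Kk (s - (2 * a - t)) ≤ Kk (s - t) := by
      refine pol_le ?_
      rw [abs_of_nonneg (by linarith : 0 ≤ s - (2 * a - t)), abs_le]
      constructor <;> linarith
    have e : -|u| * -|w| = |u| * |w| := by ring
    rw [e]
    exact mul_nonneg (by linarith) (by linarith)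

theorem pol_G_cont (a : ℝ) {f : ℝ → ℝ} (hf : Continuous f) : Continuous (pol_G a f) := by
  have hσc : Continuous (fun x : ℝ => f (2 * a - x)) :=
    hf.comp (continuous_const.sub continuous_id)
  have c1 := hf.comp (continuous_fst (X := ℝ) (Y := ℝ))
  have c2 := hf.comp (continuous_snd (X := ℝ) (Y := ℝ))
  have d1 := hσc.comp (continuous_fst (X := ℝ) (Y := ℝ))
  have d2 := hσc.comp (continuous_snd (X := ℝ) (Y := ℝ))
  have k1 : Continuous (fun z : ℝ × ℝ => Kk (z.1 - z.2)) :=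
    Kk_cont.comp (continuous_fst.sub continuous_snd)
  have k2 : Continuous (fun z : ℝ × ℝ => Kk (z.1 - (2 * a - z.2))) :=
    Kk_cont.comp (continuous_fst.sub (continuous_const.sub continuous_snd))
  exact (((c1.mul c2).add (d1.mul d2)).mul k1).add (((c1.mul d2).add (d1.mul c2)).mul k2)

theorem pol_D_cont (a : ℝ) {f : ℝ → ℝ} (hf : Continuous f) : Continuous (pol_D a f) := by
  have h1 : pol_D a f = fun z => pol_G a (pol_P a f) z - pol_G a f z := by
    funext z
    rw [pol_GD]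
    ring
  rw [h1]
  exact (pol_G_cont a (pol_cont a hf)).sub (pol_G_cont a hf)

theorem pol_G_nonneg (a : ℝ) {f : ℝ → ℝ} (h0 : ∀ s, 0 ≤ f s) (z : ℝ × ℝ) : 0 ≤ pol_G a f z :=
  add_nonneg (mul_nonneg (add_nonneg (mul_nonneg (h0 _) (h0 _)) (mul_nonneg (h0 _) (h0 _)))
    (Kk_pos _).le) (mul_nonneg (add_nonneg (mul_nonneg (h0 _) (h0 _))
    (mul_nonneg (h0 _) (h0 _))) (Kk_pos _).le)

theorem pol_cube43 {x : ℝ} (hx : 0 ≤ x) :
    ENNReal.ofReal (x ^ 3) ^ (4 / 3 : ℝ) = ENNReal.ofReal (x ^ 4) := by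
  rw [ENNReal.ofReal_rpow_of_nonneg (pow_nonneg hx 3) (by norm_num), cube_pow43 hx]

/-- **Polarisation.** For every `a` one of the two comparisons between `φ` and its reflection in
`a` holds on the whole half line.

Proof. Suppose not: there are `s₁, s₂ < a` with `φ s₁ < φ (2a - s₁)` and `φ s₂ > φ (2a - s₂)`. Let
`F = φ ^ 3`, `σ s = 2a - s`, and `P s = max (F s) (F (σ s))` for `s ≤ a`,
`P s = min (F s) (F (σ s))` for `s > a`. Then `NN P = NN F = 1` (the values at `s` and `σ s` are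
permuted: split the integral at `a` and substitute `s ↦ 2a - s` in the part over `(a, ∞)`:
`∫ P^{4/3} = ∫_{s<a} (max ^ (4/3) + min ^ (4/3)) = ∫_{s<a} (F s ^ (4/3) + F (σ s) ^ (4/3))`).
With `H = (-∞, a)`, splitting both integrals and substituting,
`∬ F(s) F(t) K(s-t) = ∬_{H×H} [(F s F t + Fσs Fσt) K(s-t) + (F s Fσt + Fσs F t) K(s-σt)]`
(`K(σs-σt) = K(s-t)`, `K(σs-t) = K(s-σt)`, `Kk_neg`), and the same for `P`. The sum of the four
products is `(F s + Fσs)(F t + Fσt)` in both cases, so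
`∬ P P K - ∬ F F K = ∬_{H×H} (K(s-t) - K(s-σt)) E(s,t)` with
`E = (max max + min min) - (F s F t + Fσs Fσt) ≥ 0` (`max max` = product of the maxima at `s` and
at `t`), and `E = -(F s - Fσs)(F t - Fσt) > 0` if the two differences have opposite signs. For
`s, t < a`: `|s - t| < |s - (2a - t)| = 2a - s - t`, so `K(s-t) > K(s-σt)` by `Kk_lt`. The
integrand is continuous and nonnegative on `H × H` and positive at `(s₁, s₂)`, so the integral is
`> 0`: `∬ P P K > ∬ F F K = ∫ φ ^ 3 (c φ) = c` (`Ext.eq`, `Ext.four`). This contradicts `hB` for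
`φ = ψ = ofReal ∘ P` (`≤ c * 1 * 1`). (Work with `ℝ≥0∞`-valued integrals or with real ones; all
integrals are finite by `hB`.) -/
theorem Ext.polar {c : ℝ} {φ : ℝ → ℝ} (hB : BB (ENNReal.ofReal c)) (hc0 : 0 < c) (h : Ext c φ)
    (a : ℝ) : (∀ s ≤ a, φ (2 * a - s) ≤ φ s) ∨ (∀ s ≤ a, φ s ≤ φ (2 * a - s)) := by
  by_contra hcon
  rw [not_or] at hcon
  obtain ⟨hc1, hc2⟩ := hcon
  simp only [not_forall, not_le] at hc1 hc2
  obtain ⟨s₁, hs₁, h₁⟩ := hc1
  obtain ⟨s₂, hs₂, h₂⟩ := hc2
  have hs₁' : s₁ < a := by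
    rcases hs₁.lt_or_eq with h3 | h3
    · exact h3
    · exfalso
      have e : 2 * a - s₁ = s₁ := by rw [h3]; ring
      rw [e] at h₁
      exact lt_irrefl _ h₁
  have hs₂' : s₂ < a := by
    rcases hs₂.lt_or_eq with h3 | h3
    · exact h3
    · exfalso
      have e : 2 * a - s₂ = s₂ := by rw [h3]; ring
      rw [e] at h₂
      exact lt_irrefl _ h₂
  set F : ℝ → ℝ := fun s => φ s ^ 3 with hF
  have hFc : Continuous F := h.cont.pow 3
  have hF0 : ∀ s, 0 ≤ F s := fun s => pow_nonneg (h.pos s).le 3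
  have hlin : ∫⁻ s, ENNReal.ofReal (φ s ^ 4) = 1 := by
    rw [← ofReal_integral_eq_lintegral_ofReal h.int4
      (Eventually.of_forall fun s => pow_nonneg (h.pos s).le 4), h.four, ENNReal.ofReal_one]
  have hNF : NN (fun s => ENNReal.ofReal (F s)) = 1 := by
    rw [← hlin]
    exact lintegral_congr fun s => pol_cube43 (h.pos s).le
  have hQF : ∫⁻ s, ENNReal.ofReal (F s) * Tt (fun t => ENNReal.ofReal (F t)) s =
      ENNReal.ofReal c := by
    have e1 : ∀ s, Tt (fun t => ENNReal.ofReal (F t)) s = ENNReal.ofReal (c * φ s) := by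
      intro s
      rw [← h.eq s, ofReal_integral_eq_lintegral_ofReal (h.inte s)
        (Eventually.of_forall fun t => mul_nonneg (pow_nonneg (h.pos t).le 3) (Kk_pos _).le)]
      refine lintegral_congr fun t => ?_
      rw [Ke_eq, ← ENNReal.ofReal_mul (hF0 t)]
    simp_rw [e1]
    have e2 : ∀ s, ENNReal.ofReal (F s) * ENNReal.ofReal (c * φ s) =
        ENNReal.ofReal c * ENNReal.ofReal (φ s ^ 4) := by
      intro s
      rw [← ENNReal.ofReal_mul (hF0 s), ← ENNReal.ofReal_mul hc0.le]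
      congr 1
      simp only [hF]
      ring
    simp_rw [e2]
    rw [lintegral_const_mul' _ _ ENNReal.ofReal_ne_top, hlin, mul_one]
  set P : ℝ → ℝ := pol_P a F with hP
  have hPc : Continuous P := pol_cont a hFc
  have hP0 : ∀ s, 0 ≤ P s := pol_nonneg a hF0
  have hNP : NN (fun s => ENNReal.ofReal (P s)) = 1 := (pol_NN a hFc).trans hNF
  have hQP : ∫⁻ s, ENNReal.ofReal (P s) * Tt (fun t => ENNReal.ofReal (P t)) s ≤
      ENNReal.ofReal c := by
    have h3 := hB (fun s => ENNReal.ofReal (P s)) (fun s => ENNReal.ofReal (P s))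
      hPc.measurable.ennreal_ofReal hPc.measurable.ennreal_ofReal
      (by rw [hNP]; exact ENNReal.one_ne_top) (by rw [hNP]; exact ENNReal.one_ne_top)
    rw [hNP, ENNReal.one_rpow, mul_one, mul_one] at h3
    exact h3
  have h4 : ∫⁻ z : ℝ × ℝ, ENNReal.ofReal (pol_G a P z) ≤ 4 * ENNReal.ofReal c := by
    rw [pol_sym a hPc hP0, ← pol_q hPc hP0]
    exact mul_le_mul_right hQP 4
  have h5 : ∫⁻ z : ℝ × ℝ, ENNReal.ofReal (pol_G a F z) = 4 * ENNReal.ofReal c := by
    rw [pol_sym a hFc hF0, ← pol_q hFc hF0, hQF]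
  have h6 : ∫⁻ z : ℝ × ℝ, ENNReal.ofReal (pol_G a P z) =
      (∫⁻ z : ℝ × ℝ, ENNReal.ofReal (pol_G a F z)) +
        ∫⁻ z : ℝ × ℝ, ENNReal.ofReal (pol_D a F z) := by
    rw [← lintegral_add_left (pol_G_cont a hFc).measurable.ennreal_ofReal]
    refine lintegral_congr fun z => ?_
    rw [hP, pol_GD, ENNReal.ofReal_add (pol_G_nonneg a hF0 z) (pol_D_nonneg a F z)]
  rw [h6, h5] at h4
  have h7 : ∫⁻ z : ℝ × ℝ, ENNReal.ofReal (pol_D a F z) = 0 := by
    have h8 : 4 * ENNReal.ofReal c ≠ ∞ := ENNReal.mul_ne_top (by norm_num) ENNReal.ofReal_ne_top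
    have h9 : 4 * ENNReal.ofReal c + ∫⁻ z : ℝ × ℝ, ENNReal.ofReal (pol_D a F z) ≤
        4 * ENNReal.ofReal c + 0 := by rwa [add_zero]
    exact le_antisymm ((ENNReal.add_le_add_iff_left h8).1 h9) bot_le
  have hDc := pol_D_cont a hFc
  rw [lintegral_eq_zero_iff hDc.measurable.ennreal_ofReal] at h7
  have h8 : (fun z : ℝ × ℝ => ENNReal.ofReal (pol_D a F z)) = 0 :=
    (Continuous.ae_eq_iff_eq volume (ENNReal.continuous_ofReal.comp hDc) continuous_zero).1 h7
  have h9 := congrFun h8 (s₁, s₂)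
  simp only [Pi.zero_apply, ENNReal.ofReal_eq_zero] at h9
  have h10 : 0 < pol_D a F (s₁, s₂) := by
    unfold pol_D
    simp only
    rw [(pol_dif a F s₁).1 hs₁, (pol_dif a F s₂).1 hs₂]
    have u1 : F s₁ - F (2 * a - s₁) < 0 := by
      have := pow_lt_pow_left₀ h₁ (h.pos _).le (n := 3) (by norm_num)
      simp only [hF]
      linarith
    have u2 : 0 < F s₂ - F (2 * a - s₂) := by
      have := pow_lt_pow_left₀ h₂ (h.pos _).le (n := 3) (by norm_num)
      simp only [hF]
      linarith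
    have u3 : 0 < |F s₁ - F (2 * a - s₁)| * |F s₂ - F (2 * a - s₂)| :=
      mul_pos (abs_pos.2 u1.ne) (abs_pos.2 u2.ne')
    have u4 : (F s₁ - F (2 * a - s₁)) * (F s₂ - F (2 * a - s₂)) < 0 :=
      mul_neg_of_neg_of_pos u1 u2
    have hk : Kk (s₁ - (2 * a - s₂)) < Kk (s₁ - s₂) := by
      refine Kk_lt ?_
      rw [abs_of_neg (by linarith : s₁ - (2 * a - s₂) < 0), abs_lt]
      constructor <;> linarith
    exact mul_pos (by linarith) (by linarith)
  exact absurd h9 (not_le.2 h10)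

end Pool.Agent.ENC
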