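import Mathlib
import Pool.Agent.ENC.Pol

set_option autoImplicit false

open MeasureTheory Set Filter Topology MPdbfb19
open scoped ENNReal

namespace Pool.Agent.ENC

theorem evn_lip {c : ℝ} {φ : ℝ → ℝ} (hc0 : 0 < c) (h : Ext c φ) (s s' : ℝ) :
    φ s ≤ Real.exp (|s - s'| / 4) * φ s' := by
  have hK : ∀ x x' : ℝ, Kk x ≤ Real.exp (|x - x'| / 4) * Kk x' := by
    intro x x'
    unfold Kk
    have h1 := Kr_lip x x'
    have h2 := Real.rpow_le_rpow (Kr_pos x).le h1 (by norm_num : (0 : ℝ) ≤ 1 / 2)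
    refine h2.trans (le_of_eq ?_)
    rw [Real.mul_rpow (Real.exp_pos _).le (Kr_pos x').le, ← Real.exp_mul]
    congr 2
    ring
  have h1 : c * φ s ≤ Real.exp (|s - s'| / 4) * (c * φ s') := by
    rw [← h.eq s, ← h.eq s', ← integral_const_mul]
    refine integral_mono (h.inte s) ((h.inte s').const_mul _) fun t => ?_
    have h2 := hK (s - t) (s' - t)
    have e : s - t - (s' - t) = s - s' := by ring
    rw [e] at h2
    have h3 := mul_le_mul_of_nonneg_left h2 (pow_nonneg (h.pos t).le 3)
    refine h3.trans (le_of_eq ?_)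
    ring
  have h4 : c * φ s ≤ c * (Real.exp (|s - s'| / 4) * φ s') := by
    refine h1.trans (le_of_eq ?_)
    ring
  exact le_of_mul_le_mul_left h4 hc0

theorem evn_refl {c : ℝ} {φ : ℝ → ℝ} (h : Ext c φ) : Ext c (fun s => φ (-s)) where
  cont := h.cont.comp continuous_neg
  pos := fun s => h.pos _
  int4 := h.int4.comp_neg
  four := by
    rw [integral_neg_eq_self (fun s => φ s ^ 4)]
    exact h.four
  inte := fun s => by
    have h1 := (h.inte (-s)).comp_neg
    refine h1.congr (Eventually.of_forall fun t => ?_)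
    simp only
    rw [← Kk_neg]
    congr 2
    ring
  eq := fun s => by
    have h1 := h.eq (-s)
    rw [← integral_neg_eq_self (fun t => φ t ^ 3 * Kk (-s - t))] at h1
    rw [← h1]
    refine integral_congr_ae (Eventually.of_forall fun t => ?_)
    simp only
    rw [← Kk_neg]
    congr 2
    ring

theorem evn_top {c : ℝ} {φ : ℝ → ℝ} (hc0 : 0 < c) (h : Ext c φ) :
    Tendsto φ atTop (𝓝 0) := by
  have h4c : Continuous (fun s => φ s ^ 4) := h.cont.pow 4
  have h1 : Tendsto (fun x : ℝ => ∫ t in (0 : ℝ)..x, φ t ^ 4) atTop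
      (𝓝 (∫ t in Ioi (0 : ℝ), φ t ^ 4)) :=
    intervalIntegral_tendsto_integral_Ioi 0 h.int4.integrableOn tendsto_id
  have h2 : Tendsto (fun x : ℝ => ∫ t in (0 : ℝ)..(x + 1), φ t ^ 4) atTop
      (𝓝 (∫ t in Ioi (0 : ℝ), φ t ^ 4)) :=
    intervalIntegral_tendsto_integral_Ioi 0 h.int4.integrableOn
      (tendsto_atTop_add_const_right _ _ tendsto_id)
  have h3 : Tendsto (fun x : ℝ => ∫ t in x..(x + 1), φ t ^ 4) atTop (𝓝 0) := by
    have h4 := h2.sub h1
    rw [sub_self] at h4
    refine h4.congr fun x => ?_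
    have h4' := intervalIntegral.integral_add_adjacent_intervals
      (h4c.intervalIntegrable (μ := volume) 0 x) (h4c.intervalIntegrable (μ := volume) x (x + 1))
    rw [← h4']
    ring
  have h5 : ∀ x, φ x ^ 4 ≤ Real.exp 1 * ∫ t in x..(x + 1), φ t ^ 4 := by
    intro x
    have h6 : (∫ t in x..(x + 1), φ x ^ 4 * Real.exp (-1)) ≤ ∫ t in x..(x + 1), φ t ^ 4 := by
      refine intervalIntegral.integral_mono_on (by linarith) (intervalIntegrable_const (c := φ x ^ 4 * Real.exp (-1)))
        (h4c.intervalIntegrable _ _) fun t ht => ?_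
      have h7 := evn_lip hc0 h x t
      have h8 : |x - t| ≤ 1 := by
        rw [abs_le]
        constructor <;> linarith [ht.1, ht.2]
      have h9 : φ x ≤ Real.exp (1 / 4) * φ t :=
        h7.trans (mul_le_mul_of_nonneg_right (Real.exp_le_exp.2 (by linarith)) (h.pos t).le)
      have h10 := pow_le_pow_left₀ (h.pos x).le h9 4
      rw [mul_pow, ← Real.exp_nat_mul] at h10
      have e : ((4 : ℕ) : ℝ) * (1 / 4) = 1 := by norm_num
      rw [e] at h10
      have h11 := mul_le_mul_of_nonneg_right h10 (Real.exp_pos (-1)).le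
      refine h11.trans (le_of_eq ?_)
      have e2 : Real.exp 1 * Real.exp (-1) = 1 := by
        rw [← Real.exp_add]
        norm_num
      calc Real.exp 1 * φ t ^ 4 * Real.exp (-1)
          = (Real.exp 1 * Real.exp (-1)) * φ t ^ 4 := by ring
        _ = φ t ^ 4 := by rw [e2, one_mul]
    rw [intervalIntegral.integral_const, smul_eq_mul] at h6
    have e3 : x + 1 - x = 1 := by ring
    rw [e3, one_mul] at h6
    have h12 := mul_le_mul_of_nonneg_left h6 (Real.exp_pos 1).le
    refine le_trans (le_of_eq ?_) h12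
    have e2 : Real.exp 1 * Real.exp (-1) = 1 := by
      rw [← Real.exp_add]
      norm_num
    calc φ x ^ 4 = (Real.exp 1 * Real.exp (-1)) * φ x ^ 4 := by rw [e2, one_mul]
      _ = _ := by ring
  have h13 : Tendsto (fun x => φ x ^ 4) atTop (𝓝 0) := by
    have h14 := h3.const_mul (Real.exp 1)
    rw [mul_zero] at h14
    exact squeeze_zero (fun x => pow_nonneg (h.pos x).le 4) h5 h14
  have h15 := h13.rpow_const (p := (1 / 4 : ℝ)) (Or.inr (by norm_num))
  rw [Real.zero_rpow (by norm_num)] at h15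
  refine h15.congr fun x => ?_
  rw [← Real.rpow_natCast, ← Real.rpow_mul (h.pos x).le]
  norm_num

/-- **Solutions tend to `0`.** From `φ s ≤ exp (|s - s'| / 4) * φ s'` (`MPdbfb19.Ke_lip`, or
`Kk (s - t) ≤ exp (|s - s'| / 4) * Kk (s' - t)`, and `Ext.eq`): if `φ s ≥ ε` then `φ ≥ ε exp (-1/4)`
on `[s - 1, s + 1]`, so `∫_{s-1}^{s+1} φ ^ 4 ≥ 2 ε ^ 4 exp (-1)`; as `∫ φ ^ 4 = 1` the integrals
over `[s - 1, s + 1]` tend to `0` for `|s| → ∞`. -/
theorem Ext.tendsto {c : ℝ} {φ : ℝ → ℝ} (hc0 : 0 < c) (h : Ext c φ) :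
    Tendsto φ atTop (𝓝 0) ∧ Tendsto φ atBot (𝓝 0) := by
  refine ⟨evn_top hc0 h, ?_⟩
  have h1 := evn_top hc0 (evn_refl h)
  have h2 := h1.comp tendsto_neg_atBot_atTop
  refine h2.congr fun x => ?_
  simp

/-- **Every solution is even and decreasing about some point.**

Proof. Let `L = {a | ∀ s ≤ a, φ (2a - s) ≤ φ s}`, `R = {a | ∀ s ≤ a, φ s ≤ φ (2a - s)}`;
`L ∪ R = ℝ` by `Ext.polar`. Both are closed (`φ` continuous; for `a_n → a` and `s < a` one has
`s ≤ a_n` eventually, and `s = a` by continuity or trivially `2a - a = a`).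
`L` is not empty: otherwise `R = ℝ`, `φ s ≤ φ (2a - s)` for all `s ≤ a`; fix `s = 0`, let
`a → ∞`: `φ 0 ≤ lim φ (2a) = 0` by `Ext.tendsto`, against `φ > 0`. Similarly `R` is not empty:
otherwise `φ (2a - s) ≤ φ s` for all `s ≤ a`; take `2a - s = 0`, i.e. `s = 2a`, `a ≤ 0`,
`a → -∞`: `φ 0 ≤ lim φ (2a) = 0`. As `ℝ` is connected (`isPreconnected_univ`, closed version)
`L ∩ R` contains some `a`: `φ (2a - s) = φ s` for all `s ≤ a`, hence for all `s`. This is evenness
of `s ↦ φ (a + s)`.
Decreasing: let `0 ≤ s < t` and `b = a + (s + t) / 2 > a`. If `b ∈ L` then, with `a + s ≤ b`,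
`φ (a + t) = φ (2b - (a + s)) ≤ φ (a + s)`. If `b ∈ R` then for `r ≤ b`:
`φ r ≤ φ (2b - r) = φ (2a - 2b + r)` (evenness about `a`: `2a - (2b - r)`), i.e. with
`δ = 2 (b - a) > 0`: `φ r ≤ φ (r - δ)` for all `r ≤ b`; iterating, `φ b ≤ φ (b - n δ) → 0`
(`Ext.tendsto`), a contradiction. -/
theorem Ext.center {c : ℝ} {φ : ℝ → ℝ} (hB : BB (ENNReal.ofReal c)) (hc0 : 0 < c)
    (h : Ext c φ) : ∃ a, EExt c (fun s => φ (a + s)) := by
  obtain ⟨hT, hTb⟩ := Ext.tendsto hc0 h
  set L : Set ℝ := {a | ∀ s ≤ a, φ (2 * a - s) ≤ φ s} with hL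
  set R : Set ℝ := {a | ∀ s ≤ a, φ s ≤ φ (2 * a - s)} with hR
  have hLc : IsClosed L := by
    rw [← isSeqClosed_iff_isClosed]
    intro x a hx hxa s hs
    rcases hs.lt_or_eq with hs | hs
    · have h1 : ∀ᶠ n in atTop, s < x n := hxa.eventually (lt_mem_nhds hs)
      have h2 : Tendsto (fun n => φ (2 * x n - s)) atTop (𝓝 (φ (2 * a - s))) :=
        (h.cont.tendsto _).comp ((hxa.const_mul 2).sub_const s)
      exact le_of_tendsto h2 (h1.mono fun n hn => hx n s hn.le)
    · subst hs
      have e : 2 * s - s = s := by ring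
      rw [e]
  have hRc : IsClosed R := by
    rw [← isSeqClosed_iff_isClosed]
    intro x a hx hxa s hs
    rcases hs.lt_or_eq with hs | hs
    · have h1 : ∀ᶠ n in atTop, s < x n := hxa.eventually (lt_mem_nhds hs)
      have h2 : Tendsto (fun n => φ (2 * x n - s)) atTop (𝓝 (φ (2 * a - s))) :=
        (h.cont.tendsto _).comp ((hxa.const_mul 2).sub_const s)
      exact ge_of_tendsto h2 (h1.mono fun n hn => hx n s hn.le)
    · subst hs
      have e : 2 * s - s = s := by ring
      rw [e]
  have hU : (univ : Set ℝ) ⊆ L ∪ R := by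
    intro a _
    rcases Ext.polar hB hc0 h a with h1 | h1
    · exact Or.inl h1
    · exact Or.inr h1
  have hLn : L.Nonempty := by
    by_contra hne
    rw [not_nonempty_iff_eq_empty] at hne
    have h1 : ∀ a : ℝ, 0 ≤ a → φ 0 ≤ φ (2 * a) := by
      intro a ha
      rcases hU (mem_univ a) with h2 | h2
      · rw [hne] at h2
        exact absurd h2 (notMem_empty _)
      · have h3 := h2 0 ha
        rwa [sub_zero] at h3
    have h4 : Tendsto (fun a : ℝ => φ (2 * a)) atTop (𝓝 0) :=
      hT.comp (tendsto_id.const_mul_atTop (by norm_num))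
    have h5 : φ 0 ≤ 0 := ge_of_tendsto h4 ((eventually_ge_atTop 0).mono fun a ha => h1 a ha)
    exact absurd h5 (not_le.2 (h.pos 0))
  have hRn : R.Nonempty := by
    by_contra hne
    rw [not_nonempty_iff_eq_empty] at hne
    have h1 : ∀ a : ℝ, a ≤ 0 → φ 0 ≤ φ (2 * a) := by
      intro a ha
      rcases hU (mem_univ a) with h2 | h2
      · have h3 := h2 (2 * a) (by linarith)
        rwa [sub_self] at h3
      · rw [hne] at h2
        exact absurd h2 (notMem_empty _)
    have h4 : Tendsto (fun a : ℝ => φ (2 * a)) atBot (𝓝 0) :=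
      hTb.comp (tendsto_id.const_mul_atBot (by norm_num))
    have h5 : φ 0 ≤ 0 := ge_of_tendsto h4 ((eventually_le_atBot 0).mono fun a ha => h1 a ha)
    exact absurd h5 (not_le.2 (h.pos 0))
  obtain ⟨a, -, haL, haR⟩ := isPreconnected_closed_iff.1 isPreconnected_univ L R hLc hRc hU
    (by rwa [univ_inter]) (by rwa [univ_inter])
  have hsym1 : ∀ s ≤ a, φ (2 * a - s) = φ s := fun s hs => le_antisymm (haL s hs) (haR s hs)
  have hsym : ∀ s, φ (2 * a - s) = φ s := by
    intro s
    rcases le_total s a with hs | hs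
    · exact hsym1 s hs
    · have h1 := hsym1 (2 * a - s) (by linarith)
      rw [← h1]
      congr 1
      ring
  refine ⟨a, { toExt := h.shift a, even := ?_, anti := ?_ }⟩
  · intro s
    rw [← hsym (a + s)]
    congr 1
    ring
  · intro s hs t ht hst
    rcases hst.lt_or_eq with hst | hst
    swap
    · subst hst
      exact le_rfl
    have hs0 : 0 ≤ s := hs
    set b := a + (s + t) / 2 with hb
    have hab : a < b := by
      rw [hb]
      linarith
    rcases hU (mem_univ b) with h1 | h1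
    · have h2 := h1 (a + s) (by rw [hb]; linarith)
      refine le_trans (le_of_eq ?_) h2
      have e : 2 * b - (a + s) = a + t := by
        rw [hb]
        ring
      rw [e]
    · exfalso
      have h3 : ∀ r ≤ b, φ r ≤ φ (r - 2 * (b - a)) := by
        intro r hr
        refine (h1 r hr).trans (le_of_eq ?_)
        rw [← hsym (2 * b - r)]
        congr 1
        ring
      have h4 : ∀ n : ℕ, φ b ≤ φ (b - n * (2 * (b - a))) := by
        intro n
        induction n with
        | zero => simp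
        | succ n ih =>
          refine ih.trans ((h3 _ ?_).trans (le_of_eq ?_))
          · have : 0 ≤ (n : ℝ) * (2 * (b - a)) :=
              mul_nonneg (Nat.cast_nonneg n) (by linarith)
            linarith
          · congr 1
            push_cast
            ring
      have h5 : Tendsto (fun n : ℕ => b - (n : ℝ) * (2 * (b - a))) atTop atBot := by
        refine tendsto_atBot_add_const_left _ _ ?_
        refine tendsto_neg_atTop_atBot.comp ?_
        exact tendsto_natCast_atTop_atTop.atTop_mul_const (by linarith)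
      have h6 : φ b ≤ 0 := ge_of_tendsto (hTb.comp h5) (Eventually.of_forall h4)
      exact absurd h6 (not_le.2 (h.pos b))

end Pool.Agent.ENC
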