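import Mathlib
import Pool.Agent.ENC.Base
import Pool.Agent.MP_dbfb19_an.Psd

set_option autoImplicit false

/-!
# Uniqueness of the even solution from a trace bound
-/

open MeasureTheory Set Filter Topology MPdbfb19
open scoped ENNReal

namespace Pool.Agent.ENC

private lemma unq1_mL {φ : ℝ → ℝ≥0∞} (hφ : Measurable φ) : Measurable (Lap φ) := by
  have m1 : Measurable (fun z : ℝ × ℝ => ENNReal.ofReal (pl z.1 z.2)) := pl_meas.ennreal_ofReal
  have m : Measurable (fun z : ℝ × ℝ => φ z.2 * ENNReal.ofReal (pl z.2 z.1)) :=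
    (hφ.comp measurable_snd).mul (m1.comp measurable_swap)
  exact m.lintegral_prod_right'

private lemma unq1_T {φ : ℝ → ℝ≥0∞} (hφ : Measurable φ) (s : ℝ) :
    Tt φ s = ∫⁻ r in Ioi (0 : ℝ), ENNReal.ofReal (pl s r) *
      (Lap φ r * ENNReal.ofReal (wr r)) := by
  have m1 : Measurable (fun z : ℝ × ℝ => ENNReal.ofReal (pl z.1 z.2)) := pl_meas.ennreal_ofReal
  have mw : Measurable (fun r : ℝ => ENNReal.ofReal (wr r)) := wr_meas.ennreal_ofReal
  unfold Tt
  have e1 : ∀ t, φ t * Ke (s - t) = ∫⁻ r in Ioi (0 : ℝ), φ t * (ENNReal.ofReal (pl s r) *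
    (ENNReal.ofReal (pl t r) * ENNReal.ofReal (wr r))) := by
    intro t
    rw [Ke_laplace]
    have hm : Measurable (fun r => ENNReal.ofReal (pl s r) *
      (ENNReal.ofReal (pl t r) * ENNReal.ofReal (wr r))) :=
      (m1.comp measurable_prodMk_left).mul ((m1.comp measurable_prodMk_left).mul mw)
    rw [lintegral_const_mul _ hm]
  simp_rw [e1]
  have m2 : Measurable (fun z : ℝ × ℝ => φ z.1 * (ENNReal.ofReal (pl s z.2) *
    (ENNReal.ofReal (pl z.1 z.2) * ENNReal.ofReal (wr z.2)))) :=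
    (hφ.comp measurable_fst).mul (((m1.comp measurable_prodMk_left).comp measurable_snd).mul
      (m1.mul (mw.comp measurable_snd)))
  rw [lintegral_lintegral_swap m2.aemeasurable]
  refine lintegral_congr fun r => ?_
  unfold Lap
  have hm : Measurable (fun t => φ t * ENNReal.ofReal (pl t r)) :=
    hφ.mul (m1.comp measurable_prodMk_right)
  rw [← lintegral_mul_const _ hm, ← lintegral_const_mul _ (hm.mul_const _)]
  refine lintegral_congr fun t => ?_
  ring

private lemma unq1_quad {p q r : ℝ} (h : ∀ a b : ℝ, 0 ≤ a ^ 2 * p + 2 * a * b * q + b ^ 2 * r) :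
    q ^ 2 ≤ p * r := by
  have h1 : ∀ x : ℝ, 0 ≤ p * (x * x) + 2 * q * x + r := by
    intro x
    have := h x 1
    nlinarith [this]
  have h2 := discrim_le_zero h1
  unfold discrim at h2
  nlinarith [h2]

private lemma unq1_add {μ : Measure ℝ} {f g : ℝ → ℝ} {a b : ℝ}
    (hf : Integrable f μ ∧ ∫ r, f r ∂μ = a) (hg : Integrable g μ ∧ ∫ r, g r ∂μ = b) :
    Integrable (fun r => f r + g r) μ ∧ ∫ r, (f r + g r) ∂μ = a + b :=
  ⟨hf.1.add hg.1, by rw [integral_add hf.1 hg.1, hf.2, hg.2]⟩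

private lemma unq1_mul {μ : Measure ℝ} {f : ℝ → ℝ} {a : ℝ} (k : ℝ)
    (hf : Integrable f μ ∧ ∫ r, f r ∂μ = a) :
    Integrable (fun r => k * f r) μ ∧ ∫ r, k * f r ∂μ = k * a :=
  ⟨hf.1.const_mul k, by rw [integral_const_mul, hf.2]⟩

private lemma unq1_gram {μ : Measure ℝ} {w f1 f2 f3 : ℝ → ℝ} {gx gy n I11 I12 I22 : ℝ}
    (hw : ∀ᵐ r ∂μ, 0 ≤ w r) (hn : 0 < n)
    (h11 : Integrable (fun r => f1 r * f1 r * w r) μ ∧ ∫ r, f1 r * f1 r * w r ∂μ = I11)
    (h12 : Integrable (fun r => f1 r * f2 r * w r) μ ∧ ∫ r, f1 r * f2 r * w r ∂μ = I12)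
    (h22 : Integrable (fun r => f2 r * f2 r * w r) μ ∧ ∫ r, f2 r * f2 r * w r ∂μ = I22)
    (h13 : Integrable (fun r => f1 r * f3 r * w r) μ ∧ ∫ r, f1 r * f3 r * w r ∂μ = gx)
    (h23 : Integrable (fun r => f2 r * f3 r * w r) μ ∧ ∫ r, f2 r * f3 r * w r ∂μ = gy)
    (h33 : Integrable (fun r => f3 r * f3 r * w r) μ ∧ ∫ r, f3 r * f3 r * w r ∂μ = n) :
    (I12 - gx * gy / n) ^ 2 ≤ (I11 - gx ^ 2 / n) * (I22 - gy ^ 2 / n) := by
  apply unq1_quad
  intro a b
  set c : ℝ := -(a * gx + b * gy) / n with hc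
  have h0 : 0 ≤ ∫ r, (a * f1 r + b * f2 r + c * f3 r) ^ 2 * w r ∂μ := by
    apply integral_nonneg_of_ae
    filter_upwards [hw] with r hr
    have := sq_nonneg (a * f1 r + b * f2 r + c * f3 r)
    exact mul_nonneg this hr
  have e : ∫ r, (a * f1 r + b * f2 r + c * f3 r) ^ 2 * w r ∂μ =
      a ^ 2 * I11 + b ^ 2 * I22 + c ^ 2 * n + 2 * a * b * I12 + 2 * a * c * gx
        + 2 * b * c * gy := by
    have e0 : (fun r => (a * f1 r + b * f2 r + c * f3 r) ^ 2 * w r) = fun r =>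
        a ^ 2 * (f1 r * f1 r * w r) + b ^ 2 * (f2 r * f2 r * w r) + c ^ 2 * (f3 r * f3 r * w r) +
        2 * a * b * (f1 r * f2 r * w r) + 2 * a * c * (f1 r * f3 r * w r) +
        2 * b * c * (f2 r * f3 r * w r) := by
      funext r
      ring
    rw [e0]
    exact (unq1_add (unq1_add (unq1_add (unq1_add (unq1_add (unq1_mul (a ^ 2) h11)
      (unq1_mul (b ^ 2) h22)) (unq1_mul (c ^ 2) h33)) (unq1_mul (2 * a * b) h12))
      (unq1_mul (2 * a * c) h13)) (unq1_mul (2 * b * c) h23)).2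
  rw [e] at h0
  have e2 : a ^ 2 * (I11 - gx ^ 2 / n) + 2 * a * b * (I12 - gx * gy / n) +
      b ^ 2 * (I22 - gy ^ 2 / n) = a ^ 2 * I11 + b ^ 2 * I22 + c ^ 2 * n + 2 * a * b * I12 +
        2 * a * c * gx + 2 * b * c * gy := by
    rw [hc]
    field_simp
    ring
  rw [e2]
  exact h0

private lemma unq1_KK (x y : ℝ) :
    IntegrableOn (fun r => pl x r * pl y r * wr r) (Ioi 0) ∧
    ∫ r in Ioi (0 : ℝ), pl x r * pl y r * wr r = Kk (x - y) := by
  have h := Ke_laplace x y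
  rw [Ke_eq] at h
  have e : ∀ r ∈ Ioi (0 : ℝ), ENNReal.ofReal (pl x r) *
      (ENNReal.ofReal (pl y r) * ENNReal.ofReal (wr r)) =
      ENNReal.ofReal (pl x r * pl y r * wr r) := by
    intro r hr
    have hr0 : 0 < r := hr
    rw [← ENNReal.ofReal_mul (pl_pos y r).le, ← ENNReal.ofReal_mul (pl_pos x r).le]
    congr 1
    ring
  rw [setLIntegral_congr_fun measurableSet_Ioi e] at h
  have hm : Measurable (fun r => pl x r * pl y r * wr r) :=
    ((pl_meas.comp measurable_prodMk_left).mul (pl_meas.comp measurable_prodMk_left)).mul wr_meas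
  have hpos : 0 ≤ᵐ[volume.restrict (Ioi (0 : ℝ))] fun r => pl x r * pl y r * wr r := by
    filter_upwards [ae_restrict_mem measurableSet_Ioi] with r hr
    have hr0 : 0 < r := hr
    have := wr_nonneg hr0
    have := pl_pos x r
    have := pl_pos y r
    simp only [Pi.zero_apply]
    positivity
  have hint : IntegrableOn (fun r => pl x r * pl y r * wr r) (Ioi 0) := by
    refine ⟨hm.aestronglyMeasurable, ?_⟩
    rw [hasFiniteIntegral_iff_ofReal hpos, ← h]
    exact ENNReal.ofReal_lt_top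
  refine ⟨hint, ?_⟩
  rw [integral_eq_lintegral_of_nonneg_ae hpos hm.aestronglyMeasurable, ← h,
    ENNReal.toReal_ofReal (Kk_pos _).le]

/-- **Pointwise Cauchy–Schwarz inequality after splitting off one direction.** With
`e(x, y) = (K(x-y) + K(x+y)) / 2` and `g = K * G` for an even function `G ≥ 0`,
`e(x,y) - g(x) g(y) / n` is bounded by the geometric mean of its values on the diagonal, for every
`n ≥ ⟨G, g⟩`... here in the form needed: `n = ∫ G g > 0`.

Proof. Laplace representation (`MPdbfb19.Ke_laplace`): `Kk (x - y) = ∫_0^∞ pl x r * pl y r * wr r dr`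
with `pl > 0`, `wr ≥ 0`. In `L²((0,∞), wr r dr)` let `A_x = (pl x + pl (-x)) / 2` and
`Γ r = ∫ t, G t * pl t r` (finite for a.e. `r`, with `∫ Γ² wr = ∫∫ G G K = ∫ G g < ∞`; Tonelli,
everything is nonnegative). Then `⟨A_x, A_y⟩ = (K(x-y) + K(x+y)) / 2` (as `K` is even:
`(K(x-y) + K(x+y) + K(-x-y) + K(-x+y)) / 4`), `⟨A_x, Γ⟩ = (g x + g (-x)) / 2 = g x` (`g` is even
because `G` is), `⟨Γ, Γ⟩ = n`. The claim is the Cauchy–Schwarz inequality for the projections of
`A_x` and `A_y` onto the orthogonal complement of `Γ`: the Gram determinant argument: for all real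
`a, b` the norm of `a A_x + b A_y - (a g x + b g y) / n * Γ` is `≥ 0`, which says
`a² m(x) + 2 a b ρ(x,y) + b² m(y) ≥ 0`. -/
theorem split_cs {G g : ℝ → ℝ} (hG : Measurable G) (hG0 : ∀ t, 0 ≤ G t)
    (hGe : ∀ t, G (-t) = G t) (hi : ∀ s, Integrable (fun t => G t * Kk (s - t)))
    (hg : ∀ s, ∫ t, G t * Kk (s - t) = g s) (hn : Integrable (fun s => G s * g s))
    (hn0 : 0 < ∫ s, G s * g s) (x y : ℝ) :
    ((Kk (x - y) + Kk (x + y)) / 2 - g x * g y / ∫ s, G s * g s) ^ 2 ≤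
      ((Kk 0 + Kk (2 * x)) / 2 - g x ^ 2 / ∫ s, G s * g s) *
        ((Kk 0 + Kk (2 * y)) / 2 - g y ^ 2 / ∫ s, G s * g s) := by
  -- the function `g` is even and nonnegative
  have hg0 : ∀ s, 0 ≤ g s := by
    intro s
    rw [← hg s]
    exact integral_nonneg fun t => mul_nonneg (hG0 t) (Kk_pos _).le
  have hge : ∀ s, g (-s) = g s := by
    intro s
    rw [← hg, ← hg, ← integral_neg_eq_self (fun t => G t * Kk (s - t))]
    refine integral_congr_ae (Eventually.of_forall fun t => ?_)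
    simp only
    rw [hGe, ← Kk_neg (-s - t)]
    congr 2
    ring
  set φ : ℝ → ℝ≥0∞ := fun t => ENNReal.ofReal (G t) with hφ
  have hφm : Measurable φ := hG.ennreal_ofReal
  have hT : ∀ s, Tt φ s = ENNReal.ofReal (g s) := by
    intro s
    unfold Tt
    rw [← hg s, ofReal_integral_eq_lintegral_ofReal (hi s)
      (Eventually.of_forall fun t => mul_nonneg (hG0 t) (Kk_pos _).le)]
    refine lintegral_congr fun t => ?_
    rw [ENNReal.ofReal_mul (hG0 t), Ke_eq]
  have hn1 : ∫⁻ s, φ s * Tt φ s = ENNReal.ofReal (∫ s, G s * g s) := by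
    rw [ofReal_integral_eq_lintegral_ofReal hn
      (Eventually.of_forall fun t => mul_nonneg (hG0 t) (hg0 t))]
    refine lintegral_congr fun t => ?_
    rw [hT, ENNReal.ofReal_mul (hG0 t)]
  have hΛm : Measurable (Lap φ) := unq1_mL hφm
  have hn2 : ∫⁻ r in Ioi (0 : ℝ), Lap φ r * Lap φ r * ENNReal.ofReal (wr r) =
      ENNReal.ofReal (∫ s, G s * g s) := by
    rw [← form_laplace hφm hφm, hn1]
  have mw : Measurable (fun r : ℝ => ENNReal.ofReal (wr r)) := wr_meas.ennreal_ofReal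
  have hwpos : ∀ r : ℝ, 0 < r → 0 < wr r := by
    intro r hr
    unfold wr
    have := Real.pi_pos
    positivity
  have hfin : ∀ᵐ r ∂(volume.restrict (Ioi (0 : ℝ))), Lap φ r ≠ ∞ := by
    have h1 : ∀ᵐ r ∂(volume.restrict (Ioi (0 : ℝ))),
        Lap φ r * Lap φ r * ENNReal.ofReal (wr r) < ∞ := by
      refine ae_lt_top ((hΛm.mul hΛm).mul mw) ?_
      rw [hn2]
      exact ENNReal.ofReal_ne_top
    filter_upwards [h1, ae_restrict_mem measurableSet_Ioi] with r hr hr0 h
    rw [h] at hr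
    have hr1 : 0 < r := hr0
    have : ENNReal.ofReal (wr r) ≠ 0 := by
      rw [Ne, ENNReal.ofReal_eq_zero, not_le]
      exact hwpos r hr1
    rw [ENNReal.top_mul_top, ENNReal.top_mul this] at hr
    exact lt_irrefl _ hr
  set Γ : ℝ → ℝ := fun r => (Lap φ r).toReal with hΓ
  have hΓm : Measurable Γ := hΛm.ennreal_toReal
  have hΓ0 : ∀ r, 0 ≤ Γ r := fun r => ENNReal.toReal_nonneg
  -- integrals
  have hww : ∀ᵐ r ∂(volume.restrict (Ioi (0 : ℝ))), 0 ≤ wr r := by
    filter_upwards [ae_restrict_mem measurableSet_Ioi] with r hr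
    exact wr_nonneg hr
  have hΓΓ : Integrable (fun r => Γ r * Γ r * wr r) (volume.restrict (Ioi (0 : ℝ))) ∧
      ∫ r in Ioi (0 : ℝ), Γ r * Γ r * wr r = ∫ s, G s * g s := by
    have hpos : 0 ≤ᵐ[volume.restrict (Ioi (0 : ℝ))] fun r => Γ r * Γ r * wr r := by
      filter_upwards [hww] with r hr
      exact mul_nonneg (mul_nonneg (hΓ0 r) (hΓ0 r)) hr
    have hm : Measurable (fun r => Γ r * Γ r * wr r) := (hΓm.mul hΓm).mul wr_meas
    have e : ∫⁻ r in Ioi (0 : ℝ), ENNReal.ofReal (Γ r * Γ r * wr r) =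
        ENNReal.ofReal (∫ s, G s * g s) := by
      rw [← hn2]
      refine lintegral_congr_ae ?_
      filter_upwards [hfin, hww] with r hr hw
      rw [ENNReal.ofReal_mul (mul_nonneg (hΓ0 r) (hΓ0 r)), ENNReal.ofReal_mul (hΓ0 r), hΓ]
      simp only
      rw [ENNReal.ofReal_toReal hr]
    refine ⟨⟨hm.aestronglyMeasurable, ?_⟩, ?_⟩
    · rw [hasFiniteIntegral_iff_ofReal hpos, e]
      exact ENNReal.ofReal_lt_top
    · rw [integral_eq_lintegral_of_nonneg_ae hpos hm.aestronglyMeasurable, e,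
        ENNReal.toReal_ofReal hn0.le]
  have hPΓ : ∀ x : ℝ, Integrable (fun r => pl x r * Γ r * wr r)
        (volume.restrict (Ioi (0 : ℝ))) ∧
      ∫ r in Ioi (0 : ℝ), pl x r * Γ r * wr r = g x := by
    intro x
    have hpos : 0 ≤ᵐ[volume.restrict (Ioi (0 : ℝ))] fun r => pl x r * Γ r * wr r := by
      filter_upwards [hww] with r hr
      exact mul_nonneg (mul_nonneg (pl_pos x r).le (hΓ0 r)) hr
    have hm : Measurable (fun r => pl x r * Γ r * wr r) :=
      ((pl_meas.comp measurable_prodMk_left).mul hΓm).mul wr_meas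
    have e : ∫⁻ r in Ioi (0 : ℝ), ENNReal.ofReal (pl x r * Γ r * wr r) =
        ENNReal.ofReal (g x) := by
      rw [← hT x, unq1_T hφm]
      refine lintegral_congr_ae ?_
      filter_upwards [hfin, hww] with r hr hw
      rw [ENNReal.ofReal_mul (mul_nonneg (pl_pos x r).le (hΓ0 r)),
        ENNReal.ofReal_mul (pl_pos x r).le, hΓ]
      simp only
      rw [ENNReal.ofReal_toReal hr, mul_assoc]
    refine ⟨⟨hm.aestronglyMeasurable, ?_⟩, ?_⟩
    · rw [hasFiniteIntegral_iff_ofReal hpos, e]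
      exact ENNReal.ofReal_lt_top
    · rw [integral_eq_lintegral_of_nonneg_ae hpos hm.aestronglyMeasurable, e,
        ENNReal.toReal_ofReal (hg0 x)]
  set A : ℝ → ℝ → ℝ := fun x r => (pl x r + pl (-x) r) / 2 with hA
  have hAA : ∀ x y : ℝ, Integrable (fun r => A x r * A y r * wr r)
        (volume.restrict (Ioi (0 : ℝ))) ∧
      ∫ r in Ioi (0 : ℝ), A x r * A y r * wr r = (Kk (x - y) + Kk (x + y)) / 2 := by
    intro x y
    have e0 : (fun r => A x r * A y r * wr r) = fun r =>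
        1 / 4 * (pl x r * pl y r * wr r + pl x r * pl (-y) r * wr r + pl (-x) r * pl y r * wr r +
          pl (-x) r * pl (-y) r * wr r) := by
      funext r
      simp only [hA]
      ring
    rw [e0]
    have I := unq1_mul (1 / 4) (unq1_add (unq1_add (unq1_add (unq1_KK x y) (unq1_KK x (-y)))
      (unq1_KK (-x) y)) (unq1_KK (-x) (-y)))
    refine ⟨I.1, I.2.trans ?_⟩
    have k2 : Kk (x - -y) = Kk (x + y) := by congr 1; ring
    have k3 : Kk (-x - y) = Kk (x + y) := by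
      rw [← Kk_neg]; congr 1; ring
    have k4 : Kk (-x - -y) = Kk (x - y) := by
      rw [← Kk_neg]; congr 1; ring
    rw [k2, k3, k4]
    ring
  have hAΓ : ∀ x : ℝ, Integrable (fun r => A x r * Γ r * wr r)
        (volume.restrict (Ioi (0 : ℝ))) ∧
      ∫ r in Ioi (0 : ℝ), A x r * Γ r * wr r = g x := by
    intro x
    have e0 : (fun r => A x r * Γ r * wr r) = fun r =>
        1 / 2 * (pl x r * Γ r * wr r + pl (-x) r * Γ r * wr r) := by
      funext r
      simp only [hA]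
      ring
    rw [e0]
    have I := unq1_mul (1 / 2) (unq1_add (hPΓ x) (hPΓ (-x)))
    refine ⟨I.1, I.2.trans ?_⟩
    rw [hge]
    ring
  have hxx : (Kk (x - x) + Kk (x + x)) / 2 = (Kk 0 + Kk (2 * x)) / 2 := by
    rw [sub_self, two_mul]
  have hyy : (Kk (y - y) + Kk (y + y)) / 2 = (Kk 0 + Kk (2 * y)) / 2 := by
    rw [sub_self, two_mul]
  rw [← hxx, ← hyy]
  exact unq1_gram hww hn0 (hAA x x) (hAA x y) (hAA y y) (hAΓ x) (hAΓ y) hΓΓ

end Pool.Agent.ENC
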