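import Mathlib
import Pool.Agent.ENC.Unq1

set_option autoImplicit false

/-!
# Uniqueness of the even solution from a trace bound
-/

open MeasureTheory Set Filter Topology MPdbfb19
open scoped ENNReal

namespace Pool.Agent.ENC

theorem unq2_Kle (s : ℝ) : Kk s ≤ 1 := by
  have h := Ke_le_one s
  rw [Ke_eq] at h
  exact ENNReal.ofReal_le_one.1 h

theorem unq2_le {c : ℝ} {φ : ℝ → ℝ} (h : EExt c φ) (s : ℝ) : φ s ≤ φ 0 := by
  have h1 : φ s = φ |s| := by
    rcases abs_choice s with h0 | h0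
    · rw [h0]
    · rw [h0, h.even]
  rw [h1]
  exact h.anti (mem_Ici.2 le_rfl) (mem_Ici.2 (abs_nonneg s)) (abs_nonneg s)

theorem unq2_int {f g : ℝ → ℝ} (hf : Integrable f) (hg : Continuous g) {B : ℝ}
    (hB : ∀ x, |g x| ≤ B) : Integrable (fun x => f x * g x) :=
  hf.mul_bdd (c := B) hg.aestronglyMeasurable (ae_of_all _ fun x => by
    rw [Real.norm_eq_abs]
    exact hB x)

theorem unq2_swap {c : ℝ} {φ ψ : ℝ → ℝ} (h3 : Integrable (fun x => φ x ^ 3))
    (h3' : Integrable (fun x => ψ x ^ 3)) (he : ∀ s, ∫ t, φ t ^ 3 * Kk (s - t) = c * φ s)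
    (he' : ∀ s, ∫ t, ψ t ^ 3 * Kk (s - t) = c * ψ s) :
    c * ∫ s, φ s ^ 3 * ψ s = c * ∫ s, ψ s ^ 3 * φ s := by
  have h1 : c * ∫ s, φ s ^ 3 * ψ s = ∫ s, ∫ t, φ s ^ 3 * (ψ t ^ 3 * Kk (s - t)) := by
    rw [← integral_const_mul]
    refine integral_congr_ae (ae_of_all _ fun s => ?_)
    simp only
    rw [integral_const_mul, he']
    ring
  have h2 : c * ∫ s, ψ s ^ 3 * φ s = ∫ t, ∫ s, φ s ^ 3 * (ψ t ^ 3 * Kk (s - t)) := by
    rw [← integral_const_mul]
    refine integral_congr_ae (ae_of_all _ fun t => ?_)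
    simp only
    have h4 : ∀ s, φ s ^ 3 * (ψ t ^ 3 * Kk (s - t)) = ψ t ^ 3 * (φ s ^ 3 * Kk (t - s)) := by
      intro s
      rw [← Kk_neg (s - t), neg_sub]
      ring
    simp_rw [h4]
    rw [integral_const_mul, he]
    ring
  rw [h1, h2]
  apply integral_integral_swap
  have h4 : Integrable (fun z : ℝ × ℝ => φ z.1 ^ 3 * ψ z.2 ^ 3) (volume.prod volume) :=
    h3.mul_prod h3'
  have hm : Measurable (fun z : ℝ × ℝ => Kk (z.1 - z.2)) :=
    Kk_cont.measurable.comp (measurable_fst.sub measurable_snd)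
  have h5 := h4.mul_bdd (c := 1) (g := fun z : ℝ × ℝ => Kk (z.1 - z.2))
    hm.aestronglyMeasurable (ae_of_all _ fun z => by
      rw [Real.norm_eq_abs, abs_of_pos (Kk_pos _)]
      exact unq2_Kle _)
  refine h5.congr (ae_of_all _ fun z => ?_)
  simp only [Function.uncurry]
  ring

/-- the averaged kernel applied to an even function -/
theorem unq2_even {D : ℝ → ℝ} (hD : ∀ t, D (-t) = D t) (x : ℝ)
    (hi : Integrable (fun t => D t * Kk (x - t))) :
    Integrable (fun t => (Kk (x - t) + Kk (x + t)) / 2 * D t) ∧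
      ∫ t, (Kk (x - t) + Kk (x + t)) / 2 * D t = ∫ t, D t * Kk (x - t) := by
  have h1 : Integrable (fun t => D t * Kk (x + t)) := by
    have h2 := hi.comp_neg
    refine h2.congr (ae_of_all _ fun t => ?_)
    simp only
    rw [hD, sub_neg_eq_add]
  have h2 : ∫ t, D t * Kk (x + t) = ∫ t, D t * Kk (x - t) := by
    rw [← integral_neg_eq_self (fun t => D t * Kk (x - t)) volume]
    refine integral_congr_ae (ae_of_all _ fun t => ?_)
    simp only
    rw [hD, sub_neg_eq_add]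
  have h3 : ∀ t, (Kk (x - t) + Kk (x + t)) / 2 * D t =
      (1 / 2) * (D t * Kk (x - t)) + (1 / 2) * (D t * Kk (x + t)) := by
    intro t
    ring
  refine ⟨((hi.const_mul (1 / 2)).add (h1.const_mul (1 / 2))).congr
    (ae_of_all _ fun t => (h3 t).symm), ?_⟩
  simp_rw [h3]
  rw [integral_add (hi.const_mul (1 / 2)) (h1.const_mul (1 / 2)), integral_const_mul,
    integral_const_mul, h2]
  ring

/-- the abstract end of the argument -/
theorem unq2_end {c Θ : ℝ} {m V d : ℝ → ℝ} {J : ℝ} (hc0 : 0 < c) (hm : ∀ x, 0 ≤ m x)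
    (hV : ∀ x, 0 ≤ V x) (hi : Integrable (fun x => √(m x) * (V x * |d x|)))
    (hJ : ∫ x, √(m x) * (V x * |d x|) = J) (hk : ∀ x, c * |d x| ≤ √(m x) * J)
    (hi' : Integrable (fun x => V x * m x)) (hΘ : ∫ x, V x * m x ≤ Θ) (hΘc : Θ < c) (x : ℝ) :
    d x = 0 := by
  have hJ0 : 0 ≤ J := by
    rw [← hJ]
    exact integral_nonneg fun x => mul_nonneg (Real.sqrt_nonneg _)
      (mul_nonneg (hV x) (abs_nonneg _))
  have h1 : J ≤ J / c * ∫ x, V x * m x := by
    rw [← integral_const_mul, ← hJ]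
    refine integral_mono hi (by rw [hJ]; exact hi'.const_mul _) fun x => ?_
    rw [hJ]
    have h2 : |d x| ≤ √(m x) * J / c := by
      rw [le_div_iff₀ hc0]
      linarith [hk x]
    have h3 : √(m x) * √(m x) = m x := Real.mul_self_sqrt (hm x)
    calc √(m x) * (V x * |d x|) ≤ √(m x) * (V x * (√(m x) * J / c)) :=
          mul_le_mul_of_nonneg_left (mul_le_mul_of_nonneg_left h2 (hV x)) (Real.sqrt_nonneg _)
      _ = (√(m x) * √(m x)) * V x * (J / c) := by ring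
      _ = J / c * (V x * m x) := by rw [h3]; ring
  have h2 : J / c * ∫ x, V x * m x ≤ J / c * Θ :=
    mul_le_mul_of_nonneg_left hΘ (div_nonneg hJ0 hc0.le)
  have hJ1 : J = 0 := by
    by_contra h0
    have h3 : 0 < J := lt_of_le_of_ne hJ0 (Ne.symm h0)
    have h4 : J / c * Θ < J := by
      rw [div_mul_eq_mul_div, div_lt_iff₀ hc0]
      exact mul_lt_mul_of_pos_left hΘc h3
    linarith
  have h3 := hk x
  rw [hJ1, mul_zero] at h3
  have h4 : |d x| ≤ 0 := by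
    by_contra h0
    push Not at h0
    have := mul_pos hc0 h0
    linarith
  exact abs_nonpos_iff.1 h4

/-- **Uniqueness.** If for two even solutions `φ, ψ` with the same constant
`∫ (φ² + φψ + ψ²) ((K(0) + K(2x))/2 - c (φ+ψ)²/4) dx < c`, then `φ = ψ`.

Proof. Let `d = φ - ψ`, `V = φ² + φψ + ψ²`, so `V d = φ³ - ψ³` and `c d = K * (V d)` (`Ext.eq`).
Let `G = φ³ + ψ³`, `g = K * G = c (φ + ψ)`, `n = ∫ G g = c ∫ (φ³ + ψ³)(φ + ψ) ≤ 4 c` (Hölder /
`4 x y³ ≤ x⁴ + 3 y⁴`, `Ext.four`), `n > 0`.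
(1) `∫ φ³ ψ = ∫ φ ψ³`: `c ∫ φ³ ψ = ∫∫ φ(s)³ ψ(t)³ K(s-t) = c ∫ φ ψ³` (Fubini/Tonelli). So
`∫ V d g = c ∫ (φ³ - ψ³)(φ + ψ) = c (∫ φ⁴ + ∫ φ³ψ - ∫ φψ³ - ∫ ψ⁴) = 0`.
(2) `c ∫ V d² = ∫∫ (V d)(x) K(x-y) (V d)(y) = ∫∫ (V d)(x) e(x,y) (V d)(y)` (`V d` is even)
`= ∫∫ (V d)(x) ρ(x,y) (V d)(y)` with `ρ(x,y) = e(x,y) - g(x) g(y)/n` (by (1)).
(3) By `split_cs` `|ρ(x,y)| ≤ √m(x) √m(y)`, `m(x) = (K(0)+K(2x))/2 - g(x)²/n ≥ 0`, so
`c ∫ V d² ≤ (∫ V |d| √m)² ≤ ∫ V m * ∫ V d²` (Cauchy–Schwarz), and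
`m ≤ (K(0)+K(2x))/2 - c² (φ+ψ)²/(4c)` because `n ≤ 4c`. So `c ∫ V d² ≤ Θ ∫ V d²` with `Θ < c` the
integral in the hypothesis; hence `∫ V d² = 0` and `d = 0` by continuity (`V > 0`).
All integrals are finite: `φ, ψ ≤ C` (bounded), `φ², ψ²` integrable (`h2`, `h2'`). -/
theorem eq_of_trace {c : ℝ} {φ ψ : ℝ → ℝ} (hc0 : 0 < c) (h : EExt c φ) (h' : EExt c ψ)
    (h2 : Integrable (fun x => φ x ^ 2)) (h2' : Integrable (fun x => ψ x ^ 2))
    (hΘ : ∫ x, (φ x ^ 2 + φ x * ψ x + ψ x ^ 2) *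
      ((Kk 0 + Kk (2 * x)) / 2 - c / 4 * (φ x + ψ x) ^ 2) < c) : φ = ψ := by
  have hφ0 := h.pos
  have hψ0 := h'.pos
  have hφc : Continuous φ := h.cont
  have hψc : Continuous ψ := h'.cont
  obtain ⟨M, hMφ, hMψ⟩ : ∃ M, (∀ s, φ s ≤ M) ∧ ∀ s, ψ s ≤ M :=
    ⟨max (φ 0) (ψ 0), fun s => (unq2_le h s).trans (le_max_left _ _),
      fun s => (unq2_le h' s).trans (le_max_right _ _)⟩
  have hM0 : 0 < M := (hφ0 0).trans_le (hMφ 0)
  have hφa : ∀ x, |φ x| ≤ M := fun x => by rw [abs_of_pos (hφ0 x)]; exact hMφ x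
  have hψa : ∀ x, |ψ x| ≤ M := fun x => by rw [abs_of_pos (hψ0 x)]; exact hMψ x
  have hφ3 : Integrable (fun x => φ x ^ 3) :=
    (unq2_int h2 hφc hφa).congr (ae_of_all _ fun x => by simp only; ring)
  have hψ3 : Integrable (fun x => ψ x ^ 3) :=
    (unq2_int h2' hψc hψa).congr (ae_of_all _ fun x => by simp only; ring)
  have hφψ : Integrable (fun x => φ x * ψ x) := by
    refine Integrable.mono' (h2.add h2') (hφc.mul hψc).aestronglyMeasurable
      (ae_of_all _ fun x => ?_)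
    rw [Real.norm_eq_abs, abs_of_pos (mul_pos (hφ0 x) (hψ0 x))]
    simp only [Pi.add_apply]
    nlinarith [sq_nonneg (φ x - ψ x), sq_nonneg (φ x + ψ x)]
  have hV : Integrable (fun x => φ x ^ 2 + φ x * ψ x + ψ x ^ 2) := (h2.add hφψ).add h2'
  have hV0 : ∀ x, 0 < φ x ^ 2 + φ x * ψ x + ψ x ^ 2 := fun x => by
    have := hφ0 x
    have := hψ0 x
    positivity
  have hVc : Continuous (fun x => φ x ^ 2 + φ x * ψ x + ψ x ^ 2) := by fun_prop
  -- the functions `G` and `g`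
  have hG : Integrable (fun x => φ x ^ 3 + ψ x ^ 3) := hφ3.add hψ3
  have hD : Integrable (fun x => φ x ^ 3 - ψ x ^ 3) := hφ3.sub hψ3
  have hgc : Continuous (fun x => c * (φ x + ψ x)) := by fun_prop
  have hga : ∀ x, |c * (φ x + ψ x)| ≤ c * (2 * M) := fun x => by
    have h3 := hφ0 x
    have h4 := hψ0 x
    rw [abs_of_pos (by positivity)]
    have h5 := hMφ x
    have h6 := hMψ x
    exact mul_le_mul_of_nonneg_left (by linarith) hc0.le
  have hgi : ∀ s, Integrable (fun t => (φ t ^ 3 + ψ t ^ 3) * Kk (s - t)) := fun s =>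
    ((h.inte s).add (h'.inte s)).congr (ae_of_all _ fun t => by
      simp only [Pi.add_apply]
      ring)
  have hge : ∀ s, ∫ t, (φ t ^ 3 + ψ t ^ 3) * Kk (s - t) = c * (φ s + ψ s) := fun s => by
    simp_rw [add_mul]
    rw [integral_add (h.inte s) (h'.inte s), h.eq, h'.eq]
    ring
  have hDi : ∀ s, Integrable (fun t => (φ t ^ 3 - ψ t ^ 3) * Kk (s - t)) := fun s =>
    ((h.inte s).sub (h'.inte s)).congr (ae_of_all _ fun t => by
      simp only [Pi.sub_apply]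
      ring)
  have hDe : ∀ s, ∫ t, (φ t ^ 3 - ψ t ^ 3) * Kk (s - t) = c * (φ s - ψ s) := fun s => by
    simp_rw [sub_mul]
    rw [integral_sub (h.inte s) (h'.inte s), h.eq, h'.eq]
    ring
  have hn : Integrable (fun s => (φ s ^ 3 + ψ s ^ 3) * (c * (φ s + ψ s))) :=
    unq2_int hG hgc hga
  have hDg : Integrable (fun s => (φ s ^ 3 - ψ s ^ 3) * (c * (φ s + ψ s))) :=
    unq2_int hD hgc hga
  have i1 : Integrable (fun s => φ s ^ 3 * ψ s) := unq2_int hφ3 hψc hψa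
  have i2 : Integrable (fun s => ψ s ^ 3 * φ s) := unq2_int hψ3 hφc hφa
  have k1 : Integrable (fun s => φ s ^ 4 + ψ s ^ 4) := h.int4.add h'.int4
  have k2 : Integrable (fun s => φ s ^ 3 * ψ s + ψ s ^ 3 * φ s) := i1.add i2
  have k3 : Integrable (fun s => φ s ^ 4 - ψ s ^ 4) := h.int4.sub h'.int4
  have k4 : Integrable (fun s => φ s ^ 3 * ψ s - ψ s ^ 3 * φ s) := i1.sub i2
  have hsw := unq2_swap hφ3 hψ3 h.eq h'.eq
  have hsw' : ∫ s, φ s ^ 3 * ψ s = ∫ s, ψ s ^ 3 * φ s := mul_left_cancel₀ hc0.ne' hsw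
  have e1 : ∫ s, (φ s ^ 3 + ψ s ^ 3) * (c * (φ s + ψ s)) =
      c * (2 + 2 * ∫ s, φ s ^ 3 * ψ s) := by
    have h3 : ∀ s, (φ s ^ 3 + ψ s ^ 3) * (c * (φ s + ψ s)) =
        c * ((φ s ^ 4 + ψ s ^ 4) + (φ s ^ 3 * ψ s + ψ s ^ 3 * φ s)) := fun s => by ring
    simp_rw [h3]
    rw [integral_const_mul, integral_add k1 k2,
      integral_add h.int4 h'.int4, integral_add i1 i2, h.four, h'.four, ← hsw']
    ring
  have e2 : ∫ s, (φ s ^ 3 - ψ s ^ 3) * (c * (φ s + ψ s)) = 0 := by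
    have h3 : ∀ s, (φ s ^ 3 - ψ s ^ 3) * (c * (φ s + ψ s)) =
        c * ((φ s ^ 4 - ψ s ^ 4) + (φ s ^ 3 * ψ s - ψ s ^ 3 * φ s)) := fun s => by ring
    simp_rw [h3]
    rw [integral_const_mul, integral_add k3 k4,
      integral_sub h.int4 h'.int4, integral_sub i1 i2, h.four, h'.four, ← hsw']
    ring
  have hI0 : 0 ≤ ∫ s, φ s ^ 3 * ψ s := integral_nonneg fun s => by
    have := hφ0 s
    have := hψ0 s
    simp only [Pi.zero_apply]
    positivity
  have hI1 : ∫ s, φ s ^ 3 * ψ s ≤ 1 := by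
    have h3 : ∫ s, φ s ^ 3 * ψ s ≤ ∫ s, (3 / 4 * φ s ^ 4 + 1 / 4 * ψ s ^ 4) := by
      refine integral_mono i1 ((h.int4.const_mul _).add (h'.int4.const_mul _)) fun s => ?_
      have := young_le (hψ0 s).le (hφ0 s).le
      simp only
      linarith
    rw [integral_add (h.int4.const_mul _) (h'.int4.const_mul _), integral_const_mul,
      integral_const_mul, h.four, h'.four] at h3
    linarith
  obtain ⟨n, hndef⟩ : ∃ n, ∫ s, (φ s ^ 3 + ψ s ^ 3) * (c * (φ s + ψ s)) = n := ⟨_, rfl⟩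
  have hn0 : 0 < n := by
    rw [← hndef, e1]
    positivity
  have hn4 : n ≤ 4 * c := by
    rw [← hndef, e1]
    nlinarith
  have hcs := split_cs (G := fun x => φ x ^ 3 + ψ x ^ 3) (g := fun x => c * (φ x + ψ x))
    (by fun_prop) (fun t => by
      have := hφ0 t
      have := hψ0 t
      positivity) (fun t => by rw [h.even, h'.even]) hgi hge hn
    (by rw [hndef]; exact hn0)
  simp only [hndef] at hcs
  -- `m`
  set m : ℝ → ℝ := fun x => (Kk 0 + Kk (2 * x)) / 2 - (c * (φ x + ψ x)) ^ 2 / n with hm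
  have hmc : Continuous m := by
    have := Kk_cont
    fun_prop
  have hm1 : ∀ x, m x ≤ 1 := fun x => by
    have h3 := unq2_Kle 0
    have h4 := unq2_Kle (2 * x)
    have h5 : 0 ≤ (c * (φ x + ψ x)) ^ 2 / n := by positivity
    simp only [hm]
    linarith
  have hmpos : ∃ y, 0 < m y := by
    by_contra h0
    push Not at h0
    have h3 : ∀ x, Kk 0 * (n / (4 * c ^ 2)) ≤ φ x ^ 2 + ψ x ^ 2 := by
      intro x
      have h4 := h0 x
      simp only [hm] at h4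
      have h5 := Kk_pos (2 * x)
      have h6 : Kk 0 / 2 ≤ (c * (φ x + ψ x)) ^ 2 / n := by linarith
      rw [le_div_iff₀ hn0] at h6
      rw [← mul_div_assoc, div_le_iff₀ (by positivity)]
      nlinarith [sq_nonneg (c * (φ x - ψ x))]
    have h4 : Integrable (fun _ : ℝ => Kk 0 * (n / (4 * c ^ 2))) := by
      refine Integrable.mono' (h2.add h2') continuous_const.aestronglyMeasurable
        (ae_of_all _ fun x => ?_)
      have h5 := Kk_pos 0
      rw [Real.norm_eq_abs, abs_of_pos (by positivity)]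
      exact h3 x
    rw [integrable_const_iff] at h4
    have h5 := Kk_pos 0
    rcases h4 with h4 | h4
    · have : 0 < Kk 0 * (n / (4 * c ^ 2)) := by positivity
      exact this.ne' h4
    · have h6 : IsFiniteMeasure (volume : Measure ℝ) := h4
      have h7 := h6.measure_univ_lt_top
      rw [Real.volume_univ] at h7
      exact lt_irrefl _ h7
  have hm0 : ∀ x, 0 ≤ m x := by
    intro x
    obtain ⟨y, hy⟩ := hmpos
    have h3 := hcs x y
    have h4 : 0 ≤ m x * m y := (sq_nonneg _).trans h3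
    exact nonneg_of_mul_nonneg_left h4 hy
  have hsm : Continuous (fun x => √(m x)) := Real.continuous_sqrt.comp hmc
  have hsa : ∀ x, |√(m x)| ≤ 1 := fun x => by
    rw [abs_of_nonneg (Real.sqrt_nonneg _)]
    exact Real.sqrt_le_one.2 (hm1 x)
  have hfac : ∀ x, |φ x ^ 3 - ψ x ^ 3| = (φ x ^ 2 + φ x * ψ x + ψ x ^ 2) * |φ x - ψ x| := by
    intro x
    have h3 : φ x ^ 3 - ψ x ^ 3 = (φ x ^ 2 + φ x * ψ x + ψ x ^ 2) * (φ x - ψ x) := by ring
    rw [h3, abs_mul, abs_of_pos (hV0 x)]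
  have hJi : Integrable (fun x => √(m x) * |φ x ^ 3 - ψ x ^ 3|) :=
    (unq2_int hD.abs hsm hsa).congr (ae_of_all _ fun x => mul_comm _ _)
  have hJi' : Integrable (fun x => √(m x) *
      ((φ x ^ 2 + φ x * ψ x + ψ x ^ 2) * |φ x - ψ x|)) := by
    simp_rw [← hfac]
    exact hJi
  have hVm : Integrable (fun x => (φ x ^ 2 + φ x * ψ x + ψ x ^ 2) * m x) :=
    unq2_int hV hmc (B := 1) fun x => by
      rw [abs_of_nonneg (hm0 x)]
      exact hm1 x
  have hkey : ∀ x, c * |φ x - ψ x| ≤ √(m x) * ∫ y, √(m y) * |φ y ^ 3 - ψ y ^ 3| := by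
    intro x
    obtain ⟨j1, j2⟩ := unq2_even (D := fun t => φ t ^ 3 - ψ t ^ 3)
      (fun t => by rw [h.even, h'.even]) x (hDi x)
    rw [hDe] at j2
    have j3 : Integrable (fun y => c * (φ x + ψ x) / n *
        ((φ y ^ 3 - ψ y ^ 3) * (c * (φ y + ψ y)))) := hDg.const_mul _
    have j4 : ∀ y, ((Kk (x - y) + Kk (x + y)) / 2 -
        c * (φ x + ψ x) * (c * (φ y + ψ y)) / n) * (φ y ^ 3 - ψ y ^ 3) =
        (Kk (x - y) + Kk (x + y)) / 2 * (φ y ^ 3 - ψ y ^ 3) -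
        c * (φ x + ψ x) / n * ((φ y ^ 3 - ψ y ^ 3) * (c * (φ y + ψ y))) := fun y => by ring
    have j5 : c * (φ x - ψ x) = ∫ y, ((Kk (x - y) + Kk (x + y)) / 2 -
        c * (φ x + ψ x) * (c * (φ y + ψ y)) / n) * (φ y ^ 3 - ψ y ^ 3) := by
      simp_rw [j4]
      rw [integral_sub j1 j3, j2, integral_const_mul, e2]
      ring
    have j6 : c * |φ x - ψ x| = |c * (φ x - ψ x)| := by rw [abs_mul, abs_of_pos hc0]
    rw [j6, j5, ← integral_const_mul, ← Real.norm_eq_abs]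
    refine (norm_integral_le_integral_norm _).trans ?_
    refine integral_mono ?_ (hJi.const_mul _) fun y => ?_
    · refine Integrable.norm ?_
      simp_rw [j4]
      exact j1.sub j3
    · simp only
      rw [Real.norm_eq_abs, abs_mul, ← mul_assoc (√(m x)) (√(m y))]
      refine mul_le_mul_of_nonneg_right ?_ (abs_nonneg _)
      rw [← Real.sqrt_mul (hm0 x)]
      exact Real.abs_le_sqrt (hcs x y)
  have hΘ' : ∫ x, (φ x ^ 2 + φ x * ψ x + ψ x ^ 2) * m x ≤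
      ∫ x, (φ x ^ 2 + φ x * ψ x + ψ x ^ 2) *
        ((Kk 0 + Kk (2 * x)) / 2 - c / 4 * (φ x + ψ x) ^ 2) := by
    refine integral_mono hVm ?_ fun x => ?_
    · refine unq2_int hV (by have := Kk_cont; fun_prop) (B := 1 + c / 4 * (2 * M) ^ 2)
        fun x => ?_
      have h3 := unq2_Kle 0
      have h4 := unq2_Kle (2 * x)
      have h5 := Kk_pos 0
      have h6 := Kk_pos (2 * x)
      have h7 : (φ x + ψ x) ^ 2 ≤ (2 * M) ^ 2 := by
        refine pow_le_pow_left₀ (by have := hφ0 x; have := hψ0 x; positivity) ?_ 2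
        linarith [hMφ x, hMψ x]
      have h8 : 0 ≤ c / 4 * (φ x + ψ x) ^ 2 := by positivity
      have h9 : c / 4 * (φ x + ψ x) ^ 2 ≤ c / 4 * (2 * M) ^ 2 :=
        mul_le_mul_of_nonneg_left h7 (by positivity)
      rw [abs_le]
      constructor <;> linarith
    · simp only
      refine mul_le_mul_of_nonneg_left ?_ (hV0 x).le
      have h3 : c / 4 * (φ x + ψ x) ^ 2 ≤ (c * (φ x + ψ x)) ^ 2 / n := by
        rw [le_div_iff₀ hn0]
        have h4 : 0 ≤ c / 4 * (φ x + ψ x) ^ 2 := by positivity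
        calc c / 4 * (φ x + ψ x) ^ 2 * n ≤ c / 4 * (φ x + ψ x) ^ 2 * (4 * c) :=
              mul_le_mul_of_nonneg_left hn4 h4
          _ = (c * (φ x + ψ x)) ^ 2 := by ring
      simp only [hm]
      linarith
  funext x
  have hx := unq2_end (d := fun x => φ x - ψ x) hc0 hm0 (fun x => (hV0 x).le) hJi'
    (by simp_rw [← hfac]) hkey hVm hΘ' hΘ x
  linarith

end Pool.Agent.ENC
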