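import Mathlib
import Pool.Agent.ENC.Base

set_option autoImplicit false

/-!
# Exponential decay of the even solutions
-/

open MeasureTheory Set Filter Topology MPdbfb19
open scoped ENNReal

namespace Pool.Agent.ENC

private theorem unq3_up (v : ℝ) : Kk v ≤ Real.exp (-|v| / 4) := by
  have h1 : Kk v ^ 2 ≤ Real.exp (-|v| / 4) ^ 2 := by
    rw [Kk_sq, ← Real.exp_nat_mul]
    have e : ((2 : ℕ) : ℝ) * (-|v| / 4) = -(|v| / 2) := by push_cast; ring
    rw [e, Real.exp_neg]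
    unfold Kr
    refine inv_anti₀ (Real.exp_pos _) ?_
    rcases abs_cases v with ⟨h, _⟩ | ⟨h, _⟩
    · rw [h]
      linarith [Real.exp_pos (-(v / 2))]
    · have e2 : |v| / 2 = -(v / 2) := by rw [h]; ring
      rw [e2]
      linarith [Real.exp_pos (v / 2)]
  exact (pow_le_pow_iff_left₀ (Kk_pos v).le (Real.exp_pos _).le two_ne_zero).1 h1

private theorem unq3_low {u : ℝ} (hu : 0 ≤ u) : Real.exp (-u / 4) ≤ Real.sqrt 2 * Kk u := by
  have h0 : 0 ≤ Real.sqrt 2 * Kk u := mul_nonneg (Real.sqrt_nonneg _) (Kk_pos u).le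
  have h1 : Real.exp (-u / 4) ^ 2 ≤ (Real.sqrt 2 * Kk u) ^ 2 := by
    rw [mul_pow, Kk_sq, Real.sq_sqrt (by norm_num : (0 : ℝ) ≤ 2), ← Real.exp_nat_mul]
    have e : ((2 : ℕ) : ℝ) * (-u / 4) = -(u / 2) := by push_cast; ring
    rw [e]
    unfold Kr
    have h2 : Real.exp (-(u / 2)) = (Real.exp (u / 2))⁻¹ := Real.exp_neg _
    have h3 : 1 ≤ Real.exp (u / 2) := Real.one_le_exp (by linarith)
    have hp : 0 < Real.exp (u / 2) := Real.exp_pos _
    have h4 : Real.exp (-(u / 2)) ≤ Real.exp (u / 2) :=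
      Real.exp_le_exp.2 (by linarith)
    have h5 : Real.exp (u / 2) + Real.exp (-(u / 2)) ≤ 2 * Real.exp (u / 2) := by linarith
    have h6 : (2 * Real.exp (u / 2))⁻¹ ≤ (Real.exp (u / 2) + Real.exp (-(u / 2)))⁻¹ :=
      inv_anti₀ (by positivity) h5
    calc Real.exp (-(u / 2)) = 2 * (2 * Real.exp (u / 2))⁻¹ := by
          rw [h2]; field_simp
      _ ≤ _ := by linarith
  exact (pow_le_pow_iff_left₀ (Real.exp_pos _).le h0 two_ne_zero).1 h1

private theorem unq3_int : Integrable (fun t : ℝ => Real.exp (-|t| / 8)) := by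
  rw [← integrableOn_univ, ← Iic_union_Ioi (a := (0 : ℝ))]
  refine IntegrableOn.union ?_ ?_
  · refine (integrableOn_exp_mul_Iic (a := 1 / 8) (by norm_num) 0).congr_fun (fun t ht => ?_)
      measurableSet_Iic
    simp only
    rw [abs_of_nonpos ht]
    congr 1
    ring
  · refine (integrableOn_exp_mul_Ioi (a := -(1 / 8)) (by norm_num) 0).congr_fun (fun t ht => ?_)
      measurableSet_Ioi
    simp only
    rw [abs_of_pos ht]
    congr 1
    ring

private theorem unq3_val : ∫ t : ℝ, Real.exp (-|t| / 8) = 16 := by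
  rw [integral_comp_abs (f := fun t : ℝ => Real.exp (-t / 8))]
  have h1 : ∫ t in Ioi (0 : ℝ), Real.exp (-t / 8) = 8 := by
    have h := integral_exp_mul_Ioi (a := -(1 / 8)) (by norm_num) 0
    have e : ∀ t : ℝ, Real.exp (-t / 8) = Real.exp (-(1 / 8) * t) := by
      intro t; congr 1; ring
    simp_rw [e]
    rw [h]
    norm_num
  rw [h1]
  norm_num

private theorem unq3_shift (x : ℝ) : ∫ t : ℝ, Real.exp (-|x - t| / 8) = 16 := by
  rw [integral_sub_left_eq_self (fun t : ℝ => Real.exp (-|t| / 8)) volume x]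
  exact unq3_val

private theorem unq3_int_shift (x : ℝ) : Integrable (fun t : ℝ => Real.exp (-|x - t| / 8)) :=
  unq3_int.comp_sub_left x

/-- The weight. -/
private noncomputable def unq3_w (T L y : ℝ) : ℝ := min (Real.exp ((y - T) / 8)) L

private theorem unq3_w_le (T L : ℝ) (hL : 1 ≤ L) (x t : ℝ) :
    unq3_w T L x ≤ Real.exp (|x - t| / 8) * unq3_w T L t := by
  unfold unq3_w
  have hp : 0 < Real.exp (|x - t| / 8) := Real.exp_pos _
  have h1 : 1 ≤ Real.exp (|x - t| / 8) := Real.one_le_exp (by positivity)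
  rw [mul_min_of_nonneg _ _ hp.le]
  refine min_le_min ?_ ?_
  · rw [← Real.exp_add]
    refine Real.exp_le_exp.2 ?_
    have := le_abs_self (x - t)
    linarith
  · nlinarith

private theorem unq3_main {c : ℝ} {φ : ℝ → ℝ} (h : EExt c φ) {T : ℝ} (hT : 0 ≤ T)
    {L N' : ℝ} (hL : 1 ≤ L) (hN' : ∀ y, T ≤ y → φ y * unq3_w T L y ≤ N') (x : ℝ) (hx : T ≤ x) :
    c * (φ x * unq3_w T L x) ≤ Real.sqrt 2 * c * φ T + 16 * φ T ^ 2 * N' := by
  have hw0 : 0 ≤ unq3_w T L x := le_min (Real.exp_pos _).le (by linarith)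
  have hwx : unq3_w T L x ≤ Real.exp ((x - T) / 8) := min_le_left _ _
  have hφT := h.pos T
  have hI := h.inte x
  have hIT := h.inte T
  have hsplit : ∫ t, φ t ^ 3 * Kk (x - t) =
      (∫ t in Iic T, φ t ^ 3 * Kk (x - t)) + ∫ t in Ioi T, φ t ^ 3 * Kk (x - t) :=
    (intervalIntegral.integral_Iic_add_Ioi hI.integrableOn hI.integrableOn).symm
  have hcx : c * φ x = ∫ t, φ t ^ 3 * Kk (x - t) := (h.eq x).symm
  -- first part
  have hA : (∫ t in Iic T, φ t ^ 3 * Kk (x - t)) * unq3_w T L x ≤ Real.sqrt 2 * c * φ T := by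
    have h1 : ∫ t in Iic T, φ t ^ 3 * Kk (x - t) ≤
        ∫ t in Iic T, Real.sqrt 2 * Real.exp (-(x - T) / 4) * (φ t ^ 3 * Kk (T - t)) := by
      refine setIntegral_mono_on hI.integrableOn (hIT.const_mul _).integrableOn
        measurableSet_Iic fun t ht => ?_
      have ht' : t ≤ T := ht
      have h3 : 0 < φ t ^ 3 := pow_pos (h.pos t) 3
      have h4 := unq3_up (x - t)
      rw [abs_of_nonneg (by linarith)] at h4
      have h5 := unq3_low (u := T - t) (by linarith)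
      have h6 : Real.exp (-(x - t) / 4) = Real.exp (-(x - T) / 4) * Real.exp (-(T - t) / 4) := by
        rw [← Real.exp_add]; congr 1; ring
      have h7 : Kk (x - t) ≤ Real.exp (-(x - T) / 4) * (Real.sqrt 2 * Kk (T - t)) := by
        refine h4.trans ?_
        rw [h6]
        exact mul_le_mul_of_nonneg_left h5 (Real.exp_pos _).le
      calc φ t ^ 3 * Kk (x - t) ≤ φ t ^ 3 * (Real.exp (-(x - T) / 4) * (Real.sqrt 2 * Kk (T - t))) :=
            mul_le_mul_of_nonneg_left h7 h3.le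
        _ = _ := by ring
    have h2 : ∫ t in Iic T, Real.sqrt 2 * Real.exp (-(x - T) / 4) * (φ t ^ 3 * Kk (T - t)) ≤
        Real.sqrt 2 * Real.exp (-(x - T) / 4) * (c * φ T) := by
      rw [integral_const_mul]
      refine mul_le_mul_of_nonneg_left ?_ (by positivity)
      rw [← h.eq T]
      refine setIntegral_le_integral hIT (Eventually.of_forall fun t => ?_)
      exact mul_nonneg (pow_pos (h.pos t) 3).le (Kk_pos _).le
    have hcT : 0 ≤ c * φ T := by
      rw [← h.eq T]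
      exact integral_nonneg fun t => mul_nonneg (pow_pos (h.pos t) 3).le (Kk_pos _).le
    have h3 : Real.exp (-(x - T) / 4) * unq3_w T L x ≤ 1 := by
      calc Real.exp (-(x - T) / 4) * unq3_w T L x
          ≤ Real.exp (-(x - T) / 4) * Real.exp ((x - T) / 8) :=
            mul_le_mul_of_nonneg_left hwx (Real.exp_pos _).le
        _ = Real.exp (-(x - T) / 8) := by rw [← Real.exp_add]; congr 1; ring
        _ ≤ 1 := Real.exp_le_one_iff.2 (by linarith)
    calc (∫ t in Iic T, φ t ^ 3 * Kk (x - t)) * unq3_w T L x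
        ≤ (Real.sqrt 2 * Real.exp (-(x - T) / 4) * (c * φ T)) * unq3_w T L x :=
          mul_le_mul_of_nonneg_right (h1.trans h2) hw0
      _ = (Real.sqrt 2 * (c * φ T)) * (Real.exp (-(x - T) / 4) * unq3_w T L x) := by ring
      _ ≤ (Real.sqrt 2 * (c * φ T)) * 1 :=
          mul_le_mul_of_nonneg_left h3 (mul_nonneg (Real.sqrt_nonneg _) hcT)
      _ = _ := by ring
  -- second part
  have hB : (∫ t in Ioi T, φ t ^ 3 * Kk (x - t)) * unq3_w T L x ≤ 16 * φ T ^ 2 * N' := by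
    have hN0 : 0 ≤ N' := le_trans (mul_nonneg (h.pos T).le
      (le_min (Real.exp_pos _).le (by linarith))) (hN' T le_rfl)
    rw [← integral_mul_const]
    have h1 : ∫ t in Ioi T, φ t ^ 3 * Kk (x - t) * unq3_w T L x ≤
        ∫ t in Ioi T, (φ T ^ 2 * N') * Real.exp (-|x - t| / 8) := by
      refine setIntegral_mono_on (hI.mul_const _).integrableOn
        ((unq3_int_shift x).const_mul _).integrableOn measurableSet_Ioi fun t ht => ?_
      have ht' : T ≤ t := le_of_lt ht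
      have hφt := h.pos t
      have h3 : φ t ≤ φ T := h.anti (mem_Ici.2 hT) (mem_Ici.2 (hT.trans ht')) ht'
      have h4 := unq3_up (x - t)
      have h5 := unq3_w_le T L hL x t
      have h6 := hN' t ht'
      have hwt : 0 ≤ unq3_w T L t := le_min (Real.exp_pos _).le (by linarith)
      have e : Real.exp (-|x - t| / 4) * Real.exp (|x - t| / 8) = Real.exp (-|x - t| / 8) := by
        rw [← Real.exp_add]; congr 1; ring
      have h7 : Kk (x - t) * unq3_w T L x ≤ Real.exp (-|x - t| / 8) * unq3_w T L t := by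
        calc Kk (x - t) * unq3_w T L x
            ≤ Real.exp (-|x - t| / 4) * (Real.exp (|x - t| / 8) * unq3_w T L t) :=
              mul_le_mul h4 h5 hw0 (Real.exp_pos _).le
          _ = _ := by rw [← mul_assoc, e]
      have h8 : φ t ^ 3 ≤ φ T ^ 2 * φ t := by
        have : φ t ^ 2 ≤ φ T ^ 2 := pow_le_pow_left₀ hφt.le h3 2
        calc φ t ^ 3 = φ t ^ 2 * φ t := by ring
          _ ≤ _ := mul_le_mul_of_nonneg_right this hφt.le
      have h9 : 0 ≤ Kk (x - t) * unq3_w T L x := mul_nonneg (Kk_pos _).le hw0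
      have h10 : 0 ≤ φ T ^ 2 * φ t := mul_nonneg (sq_nonneg _) hφt.le
      calc φ t ^ 3 * Kk (x - t) * unq3_w T L x = φ t ^ 3 * (Kk (x - t) * unq3_w T L x) := by ring
        _ ≤ (φ T ^ 2 * φ t) * (Kk (x - t) * unq3_w T L x) := mul_le_mul_of_nonneg_right h8 h9
        _ ≤ (φ T ^ 2 * φ t) * (Real.exp (-|x - t| / 8) * unq3_w T L t) :=
            mul_le_mul_of_nonneg_left h7 h10
        _ = (φ T ^ 2 * Real.exp (-|x - t| / 8)) * (φ t * unq3_w T L t) := by ring
        _ ≤ (φ T ^ 2 * Real.exp (-|x - t| / 8)) * N' :=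
            mul_le_mul_of_nonneg_left h6 (by positivity)
        _ = _ := by ring
    refine h1.trans ?_
    rw [integral_const_mul]
    have h2 : ∫ t in Ioi T, Real.exp (-|x - t| / 8) ≤ 16 := by
      rw [← unq3_shift x]
      exact setIntegral_le_integral (unq3_int_shift x)
        (Eventually.of_forall fun t => (Real.exp_pos _).le)
    calc φ T ^ 2 * N' * ∫ t in Ioi T, Real.exp (-|x - t| / 8) ≤ φ T ^ 2 * N' * 16 :=
          mul_le_mul_of_nonneg_left h2 (by positivity)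
      _ = _ := by ring
  calc c * (φ x * unq3_w T L x) = (c * φ x) * unq3_w T L x := by ring
    _ = (∫ t in Iic T, φ t ^ 3 * Kk (x - t)) * unq3_w T L x +
        (∫ t in Ioi T, φ t ^ 3 * Kk (x - t)) * unq3_w T L x := by
        rw [hcx, hsplit, add_mul]
    _ ≤ _ := add_le_add hA hB

/-- **Decay.**

Proof. For `u ≥ 0`: `exp (-u/4) / √2 ≤ Kk u ≤ exp (-u/4)`, as
`Kk u ^ 2 = Kr u = exp (-u/2) / (1 + exp (-u))` (`Kk_sq`); `Kk v ≤ exp (-|v|/4)` for all `v`.
Let `x ≥ T`; split `c φ x = ∫ φ t ^ 3 * Kk (x - t)` (`h.eq`) at `t = T`.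
(1) `t ≤ T`: `Kk (x - t) ≤ exp (-(x-t)/4) = exp (-(x-T)/4) exp (-(T-t)/4) ≤
√2 exp (-(x-T)/4) Kk (T - t)`, so this part is at most `√2 exp (-(x-T)/4) c φ T` (`h.eq T`).
(2) `t > T`: `φ t ^ 3 ≤ φ T ^ 2 * φ t` (`h.anti`, `0 ≤ T`), `Kk (x - t) ≤ exp (-|x-t|/4)`.
Fix `L ≥ 1` and let `w y = min (exp ((y-T)/8)) L`, `N' = sup {φ y * w y | y ≥ T}` (`≤ φ T * L`,
finite). `w x ≤ exp (|x-t|/8) * w t` for `x, t ≥ T`. Multiply by `w x`:
`c φ x w x ≤ √2 c φ T + φ T ^ 2 N' ∫ exp (-|x-t|/8) dt = √2 c φ T + 16 φ T ^ 2 N'`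
(`exp (-(x-T)/4) w x ≤ 1`). The supremum over `x` gives `N' (c - 16 φ T ^ 2) ≤ √2 c φ T`, so
`N' ≤ N`. For a given `x ≥ T` take `L = exp ((x-T)/8)`: `φ x exp ((x-T)/8) ≤ N`. -/
theorem EExt.decay {c : ℝ} {φ : ℝ → ℝ} (hc0 : 0 < c) (h : EExt c φ) {T N : ℝ} (hT : 0 ≤ T)
    (h16 : 16 * φ T ^ 2 < c) (hN : Real.sqrt 2 * c * φ T ≤ N * (c - 16 * φ T ^ 2)) :
    ∀ x, T ≤ x → φ x ≤ N * Real.exp (-(x - T) / 8) := by
  intro x hx
  have hL : 1 ≤ Real.exp ((x - T) / 8) := Real.one_le_exp (by linarith)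
  set L := Real.exp ((x - T) / 8) with hLdef
  set S : Set ℝ := (fun y => φ y * unq3_w T L y) '' Ici T with hS
  have hne : S.Nonempty := ⟨_, T, mem_Ici.2 le_rfl, rfl⟩
  have hbdd : BddAbove S := by
    refine ⟨φ T * L, ?_⟩
    rintro _ ⟨y, hy, rfl⟩
    have hy' : T ≤ y := hy
    have h1 : φ y ≤ φ T := h.anti (mem_Ici.2 hT) (mem_Ici.2 (hT.trans hy')) hy'
    exact mul_le_mul h1 (min_le_right _ _) (le_min (Real.exp_pos _).le (by linarith)) (h.pos T).le
  have hN' : ∀ y, T ≤ y → φ y * unq3_w T L y ≤ sSup S := fun y hy =>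
    le_csSup hbdd ⟨y, hy, rfl⟩
  have hmain := fun y hy => unq3_main h hT hL hN' y hy
  have hsup : sSup S ≤ (Real.sqrt 2 * c * φ T + 16 * φ T ^ 2 * sSup S) / c := by
    refine csSup_le hne ?_
    rintro _ ⟨y, hy, rfl⟩
    rw [le_div_iff₀ hc0]
    have := hmain y hy
    linarith
  rw [le_div_iff₀ hc0] at hsup
  have hd : 0 < c - 16 * φ T ^ 2 := by linarith
  have hNN : sSup S ≤ N := by
    have h1 : sSup S * (c - 16 * φ T ^ 2) ≤ N * (c - 16 * φ T ^ 2) := by linarith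
    exact le_of_mul_le_mul_right h1 hd
  have h2 := (hN' x hx).trans hNN
  have hwx : unq3_w T L x = L := by
    unfold unq3_w
    rw [← hLdef, min_self]
  rw [hwx] at h2
  have h3 : L * Real.exp (-(x - T) / 8) = 1 := by
    rw [hLdef, ← Real.exp_add]
    have e : (x - T) / 8 + -(x - T) / 8 = 0 := by ring
    rw [e, Real.exp_zero]
  calc φ x = (φ x * L) * Real.exp (-(x - T) / 8) := by rw [mul_assoc, h3, mul_one]
    _ ≤ N * Real.exp (-(x - T) / 8) := mul_le_mul_of_nonneg_right h2 (Real.exp_pos _).le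

end Pool.Agent.ENC
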