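import Mathlib
import Pool.Agent.ENC.Base

set_option autoImplicit false

/-!
# Bound of the trace by step functions
-/

open MeasureTheory Set Filter Topology MPdbfb19
open scoped ENNReal

namespace Pool.Agent.ENC

private theorem unq4_poly {k U l c B : ℝ} (hk : 0 ≤ k) (hU : 0 ≤ U)
    (h0 : k * U ^ 2 + (l - c / 4) * U ^ 4 ≤ B)
    (h1 : k * U ^ 2 + (l - c / 4) * U ^ 4 + (k * U ^ 2 - 3 * c / 4 * U ^ 4) / 4 ≤ B)
    (h2 : k * U ^ 2 + (l - c / 4) * U ^ 4 + (k * U ^ 2 - 3 * c / 4 * U ^ 4) / 2 +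
      (k * U ^ 2 - c * U ^ 4) / 6 ≤ B)
    (h3 : k * U ^ 2 + (l - c / 4) * U ^ 4 + 3 * (k * U ^ 2 - 3 * c / 4 * U ^ 4) / 4 +
      (k * U ^ 2 - c * U ^ 4) / 2 - 3 * c / 4 * U ^ 4 / 4 ≤ B)
    (h4 : k * U ^ 2 + (l - c / 4) * U ^ 4 + (k * U ^ 2 - 3 * c / 4 * U ^ 4) +
      (k * U ^ 2 - c * U ^ 4) - 3 * c / 4 * U ^ 4 + (l - c / 4) * U ^ 4 ≤ B)
    (h5 : 3 / 2 * k * U ^ 2 ≤ B) {x y : ℝ} (hx : 0 ≤ x) (hxU : x ≤ U) (hy : 0 ≤ y)
    (hyx : y ≤ x) :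
    (x ^ 2 + x * y + y ^ 2) * (k - c / 4 * (x + y) ^ 2) + l * (x ^ 4 + y ^ 4) ≤ B := by
  have hB : 0 ≤ B := le_trans (by positivity) h5
  rcases hx.eq_or_lt with hx0 | hx0
  · have hx1 : x = 0 := hx0.symm
    have hy1 : y = 0 := le_antisymm (hyx.trans hx1.le) hy
    rw [hx1, hy1]
    simpa using hB
  obtain ⟨t, ht⟩ : ∃ t, y = t * x := ⟨y / x, (div_mul_cancel₀ y hx0.ne').symm⟩
  have ht0 : 0 ≤ t := by
    rw [ht] at hy
    exact nonneg_of_mul_nonneg_left hy hx0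
  have ht1 : t ≤ 1 := by
    rw [ht] at hyx
    by_contra hc
    push Not at hc
    nlinarith
  obtain ⟨w, hw⟩ : ∃ w, w = x ^ 2 := ⟨_, rfl⟩
  have hw0 : 0 < w := by rw [hw]; positivity
  have hwU : w ≤ U ^ 2 := by rw [hw]; exact pow_le_pow_left₀ hx hxU 2
  obtain ⟨κ, hκ⟩ : ∃ κ, κ = k * (1 + t + t ^ 2) := ⟨_, rfl⟩
  obtain ⟨β, hβ⟩ : ∃ β, β = l * (1 + t ^ 4) - c / 4 * (1 + t + t ^ 2) * (1 + t) ^ 2 := ⟨_, rfl⟩
  have e : (x ^ 2 + x * y + y ^ 2) * (k - c / 4 * (x + y) ^ 2) + l * (x ^ 4 + y ^ 4) =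
      w * (κ + β * w) := by
    rw [ht, hw, hκ, hβ]
    ring
  rw [e]
  have hκ0 : 0 ≤ κ := by rw [hκ]; positivity
  have hκ3 : κ ≤ 3 * k := by
    rw [hκ]
    have h6 : 1 + t + t ^ 2 ≤ 3 := by nlinarith
    nlinarith
  have hs : 0 ≤ 1 - t := by linarith
  have hG : U ^ 2 * (κ + β * U ^ 2) ≤ B := by
    have e1 : U ^ 2 * (κ + β * U ^ 2) =
        (1 - t) ^ 4 * (k * U ^ 2 + (l - c / 4) * U ^ 4) +
        4 * t * (1 - t) ^ 3 *
          (k * U ^ 2 + (l - c / 4) * U ^ 4 + (k * U ^ 2 - 3 * c / 4 * U ^ 4) / 4) +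
        6 * t ^ 2 * (1 - t) ^ 2 *
          (k * U ^ 2 + (l - c / 4) * U ^ 4 + (k * U ^ 2 - 3 * c / 4 * U ^ 4) / 2 +
            (k * U ^ 2 - c * U ^ 4) / 6) +
        4 * t ^ 3 * (1 - t) *
          (k * U ^ 2 + (l - c / 4) * U ^ 4 + 3 * (k * U ^ 2 - 3 * c / 4 * U ^ 4) / 4 +
            (k * U ^ 2 - c * U ^ 4) / 2 - 3 * c / 4 * U ^ 4 / 4) +
        t ^ 4 * (k * U ^ 2 + (l - c / 4) * U ^ 4 + (k * U ^ 2 - 3 * c / 4 * U ^ 4) +
          (k * U ^ 2 - c * U ^ 4) - 3 * c / 4 * U ^ 4 + (l - c / 4) * U ^ 4) := by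
      rw [hκ, hβ]
      ring
    have e2 : B = (1 - t) ^ 4 * B + 4 * t * (1 - t) ^ 3 * B + 6 * t ^ 2 * (1 - t) ^ 2 * B +
        4 * t ^ 3 * (1 - t) * B + t ^ 4 * B := by ring
    rw [e1, e2]
    have a0 := mul_le_mul_of_nonneg_left h0 (by positivity : 0 ≤ (1 - t) ^ 4)
    have a1 := mul_le_mul_of_nonneg_left h1 (by positivity : 0 ≤ 4 * t * (1 - t) ^ 3)
    have a2 := mul_le_mul_of_nonneg_left h2 (by positivity : 0 ≤ 6 * t ^ 2 * (1 - t) ^ 2)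
    have a3 := mul_le_mul_of_nonneg_left h3 (by positivity : 0 ≤ 4 * t ^ 3 * (1 - t))
    have a4 := mul_le_mul_of_nonneg_left h4 (by positivity : 0 ≤ t ^ 4)
    linarith
  rcases le_or_gt 0 (κ + β * (U ^ 2 + w)) with hc | hc
  · refine le_trans ?_ hG
    have e3 : U ^ 2 * (κ + β * U ^ 2) - w * (κ + β * w) =
        (U ^ 2 - w) * (κ + β * (U ^ 2 + w)) := by ring
    have h6 := mul_nonneg (sub_nonneg.2 hwU) hc
    linarith
  · refine le_trans ?_ h5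
    have hp : 0 < U ^ 2 + w := by positivity
    have h6 : (U ^ 2 + w) * (w * (κ + β * w)) ≤ (U ^ 2 + w) * (3 / 2 * k * U ^ 2) := by
      have h7 : w * w * (κ + β * (U ^ 2 + w)) ≤ 0 :=
        mul_nonpos_of_nonneg_of_nonpos (by positivity) hc.le
      have h8 : w * (U ^ 2 * κ) ≤ (U ^ 2 + w) / 2 * (U ^ 2 * (3 * k)) :=
        mul_le_mul (by linarith) (mul_le_mul_of_nonneg_left hκ3 (by positivity))
          (by positivity) (by positivity)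
      nlinarith
    exact le_of_mul_le_mul_left h6 hp

private theorem unq4_exp_int : Integrable (fun x : ℝ => Real.exp (-(|x| / 4))) := by
  rw [← integrableOn_univ, ← Iic_union_Ioi (a := (0 : ℝ))]
  refine IntegrableOn.union ?_ ?_
  · refine (integrableOn_exp_mul_Iic (a := 1 / 4) (by norm_num) 0).congr_fun ?_ measurableSet_Iic
    intro x hx
    simp only
    rw [abs_of_nonpos hx]
    congr 1
    ring
  · refine (integrableOn_exp_mul_Ioi (a := -(1 / 4)) (by norm_num) 0).congr_fun ?_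
      measurableSet_Ioi
    intro x hx
    simp only
    rw [abs_of_pos hx]
    congr 1
    ring

private theorem unq4_abs {c : ℝ} {φ : ℝ → ℝ} (h : EExt c φ) (x : ℝ) : φ |x| = φ x := by
  rcases le_total 0 x with hx | hx
  · rw [abs_of_nonneg hx]
  · rw [abs_of_nonpos hx, h.even]

private theorem unq4_le {c : ℝ} {φ : ℝ → ℝ} (h : EExt c φ) (x : ℝ) : φ x ≤ φ 0 := by
  rw [← unq4_abs h x]
  exact h.anti (mem_Ici.2 le_rfl) (mem_Ici.2 (abs_nonneg x)) (abs_nonneg x)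

/-- The elementary maximum. With `y₂ = t y₁`, `0 ≤ t ≤ 1`, `w = y₁² ∈ [0, U²]` the left side is
`k (1+t+t²) w + β w²`, `β = l (1+t⁴) - c/4 (1+t+t²)(1+t)²`. If `β ≥ 0` this is `≤` its value at
`w = U²`. If `β < 0` it is concave in `w`, so `≤` its value at `U²` or (vertex `w*` in
`[0, U²]`) `= k (1+t+t²) w* / 2 ≤ 3/2 k U²`. The value at `w = U²` is a polynomial
`g₀ + g₁ t + g₂ t² + g₃ t³ + g₄ t⁴` with `g₀ = k U² + (l - c/4) U⁴`, `g₁ = k U² - 3c/4 U⁴`,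
`g₂ = k U² - c U⁴`, `g₃ = - 3c/4 U⁴`, `g₄ = (l - c/4) U⁴`, which is a convex combination
(Bernstein) of `g₀`, `g₀ + g₁/4`, `g₀ + g₁/2 + g₂/6`, `g₀ + 3g₁/4 + g₂/2 + g₃/4`,
`g₀ + g₁ + g₂ + g₃ + g₄`: it equals `(1-t)⁴ b₀ + 4 t (1-t)³ b₁ + 6 t² (1-t)² b₂ + 4 t³ (1-t) b₃ +
t⁴ b₄`. -/
theorem poly_bound {k U l c B : ℝ} (hk : 0 ≤ k) (hU : 0 ≤ U)
    (h0 : k * U ^ 2 + (l - c / 4) * U ^ 4 ≤ B)
    (h1 : k * U ^ 2 + (l - c / 4) * U ^ 4 + (k * U ^ 2 - 3 * c / 4 * U ^ 4) / 4 ≤ B)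
    (h2 : k * U ^ 2 + (l - c / 4) * U ^ 4 + (k * U ^ 2 - 3 * c / 4 * U ^ 4) / 2 +
      (k * U ^ 2 - c * U ^ 4) / 6 ≤ B)
    (h3 : k * U ^ 2 + (l - c / 4) * U ^ 4 + 3 * (k * U ^ 2 - 3 * c / 4 * U ^ 4) / 4 +
      (k * U ^ 2 - c * U ^ 4) / 2 - 3 * c / 4 * U ^ 4 / 4 ≤ B)
    (h4 : k * U ^ 2 + (l - c / 4) * U ^ 4 + (k * U ^ 2 - 3 * c / 4 * U ^ 4) +
      (k * U ^ 2 - c * U ^ 4) - 3 * c / 4 * U ^ 4 + (l - c / 4) * U ^ 4 ≤ B)
    (h5 : 3 / 2 * k * U ^ 2 ≤ B) {x y : ℝ} (hx : 0 ≤ x) (hxU : x ≤ U) (hy : 0 ≤ y)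
    (hyU : y ≤ U) :
    (x ^ 2 + x * y + y ^ 2) * (k - c / 4 * (x + y) ^ 2) + l * (x ^ 4 + y ^ 4) ≤ B := by
  rcases le_total y x with hyx | hxy
  · exact unq4_poly hk hU h0 h1 h2 h3 h4 h5 hx hxU hy hyx
  · have h6 := unq4_poly hk hU h0 h1 h2 h3 h4 h5 hy hyU hx hxy
    have e : (x ^ 2 + x * y + y ^ 2) * (k - c / 4 * (x + y) ^ 2) + l * (x ^ 4 + y ^ 4) =
      (y ^ 2 + y * x + x ^ 2) * (k - c / 4 * (y + x) ^ 2) + l * (y ^ 4 + x ^ 4) := by ring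
    rw [e]
    exact h6

/-- The square is integrable. (Bounded on `[-T, T]`, and the decay beyond; even.) -/
theorem sq_integrable {c : ℝ} {φ : ℝ → ℝ} (h : EExt c φ) {T N : ℝ} (hT : 0 ≤ T)
    (hN : ∀ x, T ≤ x → φ x ≤ N * Real.exp (-(x - T) / 8)) :
    Integrable (fun x => φ x ^ 2) := by
  refine (unq4_exp_int.const_mul ((φ 0 ^ 2 + N ^ 2) * Real.exp (T / 4))).mono'
    (h.cont.pow 2).aestronglyMeasurable (Eventually.of_forall fun x => ?_)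
  rw [Real.norm_of_nonneg (sq_nonneg _), mul_assoc, ← Real.exp_add]
  rcases le_total |x| T with hx | hx
  · have h1 : 1 ≤ Real.exp (T / 4 + -(|x| / 4)) := Real.one_le_exp (by linarith)
    have h2 : φ x ^ 2 ≤ φ 0 ^ 2 := pow_le_pow_left₀ (h.pos x).le (unq4_le h x) 2
    nlinarith [sq_nonneg N, sq_nonneg (φ 0)]
  · have h1 := hN |x| hx
    rw [unq4_abs h] at h1
    have h2 : φ x ^ 2 ≤ (N * Real.exp (-(|x| - T) / 8)) ^ 2 :=
      pow_le_pow_left₀ (h.pos x).le h1 2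
    rw [mul_pow, ← Real.exp_nat_mul] at h2
    have e : ((2 : ℕ) : ℝ) * (-(|x| - T) / 8) = T / 4 + -(|x| / 4) := by
      push_cast
      ring
    rw [e] at h2
    have h3 : 0 ≤ φ 0 ^ 2 * Real.exp (T / 4 + -(|x| / 4)) := by positivity
    nlinarith

private theorem unq4_Kk {s t : ℝ} (hs : 0 ≤ s) (hst : s ≤ t) : Kk t ≤ Kk s := by
  unfold Kk
  refine Real.rpow_le_rpow (Kr_pos t).le ?_ (by norm_num)
  unfold Kr
  refine inv_anti₀ (by positivity) ?_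
  have h1 : Real.cosh (s / 2) ≤ Real.cosh (t / 2) := by
    rw [Real.cosh_le_cosh, abs_of_nonneg (by linarith), abs_of_nonneg (by linarith)]
    linarith
  rw [Real.cosh_eq, Real.cosh_eq] at h1
  linarith

private theorem unq4_Kk_abs (s : ℝ) : Kk |s| = Kk s := by
  rcases le_total 0 s with hx | hx
  · rw [abs_of_nonneg hx]
  · rw [abs_of_nonpos hx, Kk_neg]

private theorem unq4_Kk0 (s : ℝ) : Kk s ≤ Kk 0 := by
  rw [← unq4_Kk_abs s]
  exact unq4_Kk le_rfl (abs_nonneg s)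

private theorem unq4_c {c : ℝ} {φ : ℝ → ℝ} (h : EExt c φ) : 0 ≤ c := by
  have h1 := h.eq 0
  have h2 : 0 ≤ ∫ t, φ t ^ 3 * Kk (0 - t) :=
    integral_nonneg fun t => mul_nonneg (pow_nonneg (h.pos t).le 3) (Kk_pos _).le
  rw [h1] at h2
  exact nonneg_of_mul_nonneg_left h2 (h.pos 0)

private theorem unq4_tail {c N T : ℝ} {φ : ℝ → ℝ} (h : EExt c φ) (hT : 0 ≤ T)
    (hN : ∀ x, T ≤ x → φ x ≤ N * Real.exp (-(x - T) / 8)) :
    ∫ x in Ioi T, φ x ^ 2 ≤ 4 * N ^ 2 := by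
  have h1 : IntegrableOn (fun x : ℝ => N ^ 2 * Real.exp (T / 4) * Real.exp (-(1 / 4) * x))
      (Ioi T) := (integrableOn_exp_mul_Ioi (a := -(1 / 4)) (by norm_num) T).const_mul _
  have h2 : ∫ x in Ioi T, φ x ^ 2 ≤
      ∫ x in Ioi T, N ^ 2 * Real.exp (T / 4) * Real.exp (-(1 / 4) * x) := by
    refine setIntegral_mono_on (sq_integrable h hT hN).integrableOn h1 measurableSet_Ioi
      fun x hx => ?_
    have h3 := hN x (le_of_lt hx)
    have h4 : φ x ^ 2 ≤ (N * Real.exp (-(x - T) / 8)) ^ 2 :=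
      pow_le_pow_left₀ (h.pos x).le h3 2
    rw [mul_pow, ← Real.exp_nat_mul] at h4
    have e : ((2 : ℕ) : ℝ) * (-(x - T) / 8) = T / 4 + -(1 / 4) * x := by
      push_cast
      ring
    rw [e, Real.exp_add, ← mul_assoc] at h4
    exact h4
  refine h2.trans ?_
  rw [integral_const_mul, integral_exp_mul_Ioi (by norm_num)]
  have h5 : Real.exp (T / 4) * Real.exp (-(1 / 4) * T) = 1 := by
    have e0 : T / 4 + -(1 / 4) * T = 0 := by ring
    rw [← Real.exp_add, e0, Real.exp_zero]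
  have e : N ^ 2 * Real.exp (T / 4) * (-Real.exp (-(1 / 4) * T) / -(1 / 4)) =
      4 * N ^ 2 * (Real.exp (T / 4) * Real.exp (-(1 / 4) * T)) := by ring
  rw [e, h5, mul_one]

/-- **The trace bound.**

Proof. Let `F x` be the integrand. `∫ F = ∫ (F + l (φ⁴ + ψ⁴)) - 2 l` (`Ext.four`), and the
integrand `F + l (φ⁴ + ψ⁴)` is even, so the integral is `2 ∫_{x > 0}`. On the cell
`[j d, (j+1) d]`, `j < M`: `φ, ψ ≤ U j` (`anti`), `(Kk 0 + Kk (2x))/2 ≤ k j` (`Kk` is decreasing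
on `[0, ∞)`), `- c/4 ≤ - cm/4`; so the integrand is `≤ B j` by `hB`. For `x > M d`: the integrand
is `≤ (3/2) Kk 0 (φ² + ψ²) + l (φ⁴ + ψ⁴) ≤ (3/2 Kk 0 + l (U M)²)(φ² + ψ²)` and
`∫_{x > M d} φ² ≤ N² ∫ exp (-(x - M d)/4) = 4 N²`. Together
`2 (d ∑ B j + (3/2 Kk 0 + l (U M)²) * 8 N²) - 2 l`. -/
theorem theta_bound {c cm l N d : ℝ} {φ ψ : ℝ → ℝ} (h : EExt c φ) (h' : EExt c ψ)
    (hcm : cm ≤ c) (hl : 0 ≤ l) (hd : 0 < d) (M : ℕ) {U k B : ℕ → ℝ}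
    (hU : ∀ j ≤ M, φ (j * d) ≤ U j) (hU' : ∀ j ≤ M, ψ (j * d) ≤ U j)
    (hk : ∀ j < M, (Kk 0 + Kk (2 * (j * d))) / 2 ≤ k j)
    (hB : ∀ j < M, ∀ x y : ℝ, 0 ≤ x → x ≤ U j → 0 ≤ y → y ≤ U j →
      (x ^ 2 + x * y + y ^ 2) * (k j - cm / 4 * (x + y) ^ 2) + l * (x ^ 4 + y ^ 4) ≤ B j)
    (hN : ∀ x, M * d ≤ x → φ x ≤ N * Real.exp (-(x - M * d) / 8))
    (hN' : ∀ x, M * d ≤ x → ψ x ≤ N * Real.exp (-(x - M * d) / 8)) :
    ∫ x, (φ x ^ 2 + φ x * ψ x + ψ x ^ 2) *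
      ((Kk 0 + Kk (2 * x)) / 2 - c / 4 * (φ x + ψ x) ^ 2) ≤
    2 * (d * ∑ j ∈ Finset.range M, B j + (3 / 2 * Kk 0 + l * U M ^ 2) * (8 * N ^ 2)) - 2 * l := by
  have hT : 0 ≤ (M : ℝ) * d := by positivity
  have hc : 0 ≤ c := unq4_c h
  have iφ := sq_integrable h hT hN
  have iψ := sq_integrable h' hT hN'
  obtain ⟨b, hb⟩ : ∃ b : ℝ → ℝ, b = fun x => (Kk 0 + Kk (2 * x)) / 2 - c / 4 * (φ x + ψ x) ^ 2 :=
    ⟨_, rfl⟩
  have hbc : Continuous b := by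
    rw [hb]
    have h1 : Continuous fun x : ℝ => Kk (2 * x) := Kk_cont.comp (continuous_const.mul continuous_id)
    exact ((continuous_const.add h1).div_const 2).sub
      (continuous_const.mul ((h.cont.add h'.cont).pow 2))
  have hbb : ∀ x, |b x| ≤ Kk 0 + c / 4 * (φ 0 + ψ 0) ^ 2 := by
    intro x
    rw [hb]
    have h1 : 0 ≤ (Kk 0 + Kk (2 * x)) / 2 := by
      have := Kk_pos 0
      have := Kk_pos (2 * x)
      positivity
    have h2 : (Kk 0 + Kk (2 * x)) / 2 ≤ Kk 0 := by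
      have := unq4_Kk0 (2 * x)
      linarith
    have h3 : 0 ≤ c / 4 * (φ x + ψ x) ^ 2 := by positivity
    have h4 : c / 4 * (φ x + ψ x) ^ 2 ≤ c / 4 * (φ 0 + ψ 0) ^ 2 := by
      refine mul_le_mul_of_nonneg_left ?_ (by positivity)
      exact pow_le_pow_left₀ (add_nonneg (h.pos x).le (h'.pos x).le)
        (add_le_add (unq4_le h x) (unq4_le h' x)) 2
    rw [abs_le]
    constructor
    · simp only
      have := Kk_pos 0
      linarith
    · simp only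
      have h5 : 0 ≤ c / 4 * (φ 0 + ψ 0) ^ 2 := by positivity
      linarith
  obtain ⟨F, hF⟩ : ∃ F : ℝ → ℝ, F = fun x => (φ x ^ 2 + φ x * ψ x + ψ x ^ 2) * b x := ⟨_, rfl⟩
  have hFc : Continuous F := by
    rw [hF]
    exact (((h.cont.pow 2).add (h.cont.mul h'.cont)).add (h'.cont.pow 2)).mul hbc
  have iF : Integrable F := by
    refine ((iφ.add iψ).const_mul (3 / 2 * (Kk 0 + c / 4 * (φ 0 + ψ 0) ^ 2))).mono'
      hFc.aestronglyMeasurable (Eventually.of_forall fun x => ?_)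
    rw [hF]
    simp only [Pi.add_apply]
    rw [Real.norm_eq_abs, abs_mul]
    have h1 : 0 ≤ φ x ^ 2 + φ x * ψ x + ψ x ^ 2 := by
      have := h.pos x
      have := h'.pos x
      positivity
    rw [abs_of_nonneg h1]
    have h2 : φ x ^ 2 + φ x * ψ x + ψ x ^ 2 ≤ 3 / 2 * (φ x ^ 2 + ψ x ^ 2) := by
      nlinarith [sq_nonneg (φ x - ψ x)]
    have h3 := mul_le_mul h2 (hbb x) (abs_nonneg _) (h1.trans h2)
    calc _ ≤ _ := h3
      _ = _ := by ring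
  obtain ⟨H, hH⟩ : ∃ H : ℝ → ℝ, H = fun x => F x + l * (φ x ^ 4 + ψ x ^ 4) := ⟨_, rfl⟩
  have i4 : Integrable fun x => l * (φ x ^ 4 + ψ x ^ 4) := (h.int4.add h'.int4).const_mul l
  have iH : Integrable H := by
    rw [hH]
    exact iF.add i4
  have hHc : Continuous H := by
    rw [hH]
    exact hFc.add (continuous_const.mul ((h.cont.pow 4).add (h'.cont.pow 4)))
  have e1 : ∫ x, F x = (∫ x, H x) - 2 * l := by
    have h1 : ∫ x, H x = (∫ x, F x) + ∫ x, l * (φ x ^ 4 + ψ x ^ 4) := by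
      rw [hH]
      exact integral_add iF i4
    have h2 : ∫ x, l * (φ x ^ 4 + ψ x ^ 4) = 2 * l := by
      rw [integral_const_mul, integral_add h.int4 h'.int4, h.four, h'.four]
      ring
    rw [h1, h2]
    ring
  have e2 : ∫ x, H x = 2 * ∫ x in Ioi (0 : ℝ), H x := by
    rw [← integral_comp_abs (f := H)]
    refine integral_congr_ae (Eventually.of_forall fun x => ?_)
    simp only
    rw [hH, hF, hb]
    simp only
    rw [unq4_abs h, unq4_abs h']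
    have h1 : Kk (2 * |x|) = Kk (2 * x) := by
      rw [← unq4_Kk_abs (2 * x), abs_mul, abs_of_pos (by norm_num : (0 : ℝ) < 2)]
    rw [h1]
  have e3 : ∫ x in Ioi (0 : ℝ), H x =
      (∫ x in Ioc 0 (M * d), H x) + ∫ x in Ioi (M * d), H x := by
    rw [← Ioc_union_Ioi_eq_Ioi hT]
    exact setIntegral_union (Set.disjoint_left.2 fun x hx hx' => absurd hx.2 (not_le.2 hx'))
      measurableSet_Ioi iH.integrableOn iH.integrableOn
  have b1 : ∫ x in Ioc 0 (M * d), H x ≤ d * ∑ j ∈ Finset.range M, B j := by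
    rw [← intervalIntegral.integral_of_le hT]
    have h1 : ∑ j ∈ Finset.range M, ∫ x in ((j : ℕ) : ℝ) * d..((j + 1 : ℕ) : ℝ) * d, H x =
        ∫ x in ((0 : ℕ) : ℝ) * d..(M : ℝ) * d, H x :=
      intervalIntegral.sum_integral_adjacent_intervals (a := fun j : ℕ => (j : ℝ) * d)
        fun j _ => hHc.intervalIntegrable _ _
    rw [Nat.cast_zero, zero_mul] at h1
    rw [← h1, Finset.mul_sum]
    refine Finset.sum_le_sum fun j hj => ?_
    have hjM : j < M := Finset.mem_range.1 hj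
    have hle : (j : ℝ) * d ≤ ((j + 1 : ℕ) : ℝ) * d := by
      push_cast
      nlinarith
    have h2 : ∫ x in (j : ℝ) * d..((j + 1 : ℕ) : ℝ) * d, H x ≤
        ∫ x in (j : ℝ) * d..((j + 1 : ℕ) : ℝ) * d, B j := by
      refine intervalIntegral.integral_mono_on hle (hHc.intervalIntegrable _ _)
        (continuous_const.intervalIntegrable _ _) fun x hx => ?_
      have hj0 : 0 ≤ (j : ℝ) * d := by positivity
      have hx0 : 0 ≤ x := hj0.trans hx.1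
      have h3 : φ x ≤ U j := (h.anti (mem_Ici.2 hj0) (mem_Ici.2 hx0) hx.1).trans (hU j hjM.le)
      have h4 : ψ x ≤ U j := (h'.anti (mem_Ici.2 hj0) (mem_Ici.2 hx0) hx.1).trans (hU' j hjM.le)
      refine le_trans ?_ (hB j hjM (φ x) (ψ x) (h.pos x).le h3 (h'.pos x).le h4)
      rw [hH, hF, hb]
      simp only
      have h5 : (Kk 0 + Kk (2 * x)) / 2 ≤ k j := by
        have h6 : Kk (2 * x) ≤ Kk (2 * (j * d)) :=
          unq4_Kk (by linarith) (by linarith [hx.1])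
        have h7 := hk j hjM
        linarith
      have h8 : cm / 4 * (φ x + ψ x) ^ 2 ≤ c / 4 * (φ x + ψ x) ^ 2 :=
        mul_le_mul_of_nonneg_right (by linarith) (sq_nonneg _)
      have h9 : 0 ≤ φ x ^ 2 + φ x * ψ x + ψ x ^ 2 := by
        have := h.pos x
        have := h'.pos x
        positivity
      have h10 := mul_le_mul_of_nonneg_left (sub_le_sub h5 h8) h9
      linarith
    refine h2.trans (le_of_eq ?_)
    rw [intervalIntegral.integral_const, smul_eq_mul]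
    push_cast
    ring
  have b2 : ∫ x in Ioi (M * d), H x ≤ (3 / 2 * Kk 0 + l * U M ^ 2) * (8 * N ^ 2) := by
    have h1 : ∫ x in Ioi (M * d), H x ≤
        ∫ x in Ioi (M * d), (3 / 2 * Kk 0 + l * U M ^ 2) * (φ x ^ 2 + ψ x ^ 2) := by
      refine setIntegral_mono_on iH.integrableOn ((iφ.add iψ).const_mul _).integrableOn
        measurableSet_Ioi fun x hx => ?_
      have hx0 : 0 ≤ x := hT.trans (le_of_lt hx)
      have h3 : φ x ≤ U M :=
        (h.anti (mem_Ici.2 hT) (mem_Ici.2 hx0) (le_of_lt hx)).trans (hU M le_rfl)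
      have h4 : ψ x ≤ U M :=
        (h'.anti (mem_Ici.2 hT) (mem_Ici.2 hx0) (le_of_lt hx)).trans (hU' M le_rfl)
      have h5 : φ x ^ 2 ≤ U M ^ 2 := pow_le_pow_left₀ (h.pos x).le h3 2
      have h6 : ψ x ^ 2 ≤ U M ^ 2 := pow_le_pow_left₀ (h'.pos x).le h4 2
      have h7 : φ x ^ 4 ≤ U M ^ 2 * φ x ^ 2 := by
        have e : φ x ^ 4 = φ x ^ 2 * φ x ^ 2 := by ring
        rw [e]
        exact mul_le_mul_of_nonneg_right h5 (sq_nonneg _)
      have h8 : ψ x ^ 4 ≤ U M ^ 2 * ψ x ^ 2 := by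
        have e : ψ x ^ 4 = ψ x ^ 2 * ψ x ^ 2 := by ring
        rw [e]
        exact mul_le_mul_of_nonneg_right h6 (sq_nonneg _)
      rw [hH, hF, hb]
      simp only
      have h9 : 0 ≤ φ x ^ 2 + φ x * ψ x + ψ x ^ 2 := by
        have := h.pos x
        have := h'.pos x
        positivity
      have h10 : φ x ^ 2 + φ x * ψ x + ψ x ^ 2 ≤ 3 / 2 * (φ x ^ 2 + ψ x ^ 2) := by
        nlinarith [sq_nonneg (φ x - ψ x)]
      have h11 : (Kk 0 + Kk (2 * x)) / 2 - c / 4 * (φ x + ψ x) ^ 2 ≤ Kk 0 := by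
        have h12 := unq4_Kk0 (2 * x)
        have h13 : 0 ≤ c / 4 * (φ x + ψ x) ^ 2 := by positivity
        linarith
      have h14 := mul_le_mul_of_nonneg_left h11 h9
      have h15 := mul_le_mul_of_nonneg_right h10 (Kk_pos 0).le
      have h16 := mul_le_mul_of_nonneg_left (add_le_add h7 h8) hl
      nlinarith
    refine h1.trans ?_
    rw [integral_const_mul, integral_add iφ.integrableOn iψ.integrableOn]
    have h2 := unq4_tail h hT hN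
    have h3 := unq4_tail h' hT hN'
    refine mul_le_mul_of_nonneg_left (by linarith) ?_
    have := Kk_pos 0
    positivity
  have e4 : ∫ x, (φ x ^ 2 + φ x * ψ x + ψ x ^ 2) *
      ((Kk 0 + Kk (2 * x)) / 2 - c / 4 * (φ x + ψ x) ^ 2) = ∫ x, F x := by
    rw [hF, hb]
  rw [e4, e1, e2, e3]
  linarith

end Pool.Agent.ENC
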