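import Mathlib
import Pool.Agent.ENC.Chk2
import Pool.Agent.ENC.Blk2
import Pool.Agent.ENC.Evn
import Pool.Agent.ENC.Unq2
import Pool.Agent.ENC.Unq3
import Pool.Agent.ENC.Unq4

set_option autoImplicit false

/-!
# The second finite check: the trace
-/

open MeasureTheory Set Filter Topology MPdbfb19
open scoped ENNReal

namespace Pool.Agent.ENC

/-- Table of `Kk (2 j d)`. -/
def chkH (S A B : ℕ) : List ℕ → ℕ → ℕ → Bool
  | [], _, _ => true
  | k :: ks, a, b => Nat.ble (S ^ 2 * (a * b)) (k ^ 2 * (a ^ 2 + b ^ 2)) &&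
    chkH S A B ks (A * a) (B * b)

theorem chkH_sound {S A B : ℕ} (hS : 0 < S) (hB : 0 < B) (hBA : B ≤ A) :
    ∀ (K : List ℕ) (n : ℕ), chkH S A B K (A ^ n) (B ^ n) = true →
      ∀ i < K.length, Kk (2 * ((n + i : ℕ) * Real.log ((A : ℝ) / B))) ≤ (K.getD i 0 : ℝ) / S := by
  have hA : 0 < A := hB.trans_le hBA
  have hS' : (0 : ℝ) < S := by exact_mod_cast hS
  have hA' : (0 : ℝ) < A := by exact_mod_cast hA
  have hB' : (0 : ℝ) < B := by exact_mod_cast hB
  intro K
  induction K with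
  | nil => intro n _ i hi; simp at hi
  | cons k K ih =>
    intro n h i hi
    rw [chkH, Bool.and_eq_true] at h
    cases i with
    | zero =>
      rw [add_zero, List.getD_cons_zero]
      have h1 := Nat.le_of_ble_eq_true h.1
      have h2 : ((S : ℝ) ^ 2 * ((A : ℝ) ^ n * (B : ℝ) ^ n)) ≤
          (k : ℝ) ^ 2 * (((A : ℝ) ^ n) ^ 2 + ((B : ℝ) ^ n) ^ 2) := by exact_mod_cast h1
      have h3 : Kk (2 * (n * Real.log ((A : ℝ) / B))) ^ 2 =
          (A : ℝ) ^ n * (B : ℝ) ^ n / (((A : ℝ) ^ n) ^ 2 + ((B : ℝ) ^ n) ^ 2) := by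
        rw [Kk_sq]
        unfold Kr
        rw [show 2 * (n * Real.log ((A : ℝ) / B)) / 2 = n * Real.log ((A : ℝ) / B) by ring,
          exp_neg_nat hA hB, exp_nat hA hB]
        field_simp
      refine le_of_pow_le_pow_left₀ (by norm_num : (2 : ℕ) ≠ 0) (by positivity) ?_
      rw [h3, div_pow, div_le_div_iff₀ (by positivity) (by positivity)]
      linarith
    | succ i =>
      rw [List.getD_cons_succ]
      have e1 : A * A ^ n = A ^ (n + 1) := by ring
      have e2 : B * B ^ n = B ^ (n + 1) := by ring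
      rw [e1, e2] at h
      have := ih (n + 1) h.2 i (by simpa using hi)
      rw [show n + (i + 1) = n + 1 + i by ring]
      exact this

/-- The six inequalities of one cell. `p` is `4 LD CD S ^ 4` times `k U²`, `w = u ^ 4`, `c4` and
`l4` are `4 LD CD` times `c / 4` and `l`, `b'` is `4 LD CD S ^ 4` times `B`. -/
def six (p w c4 l4 b' : ℕ) : Bool :=
  Nat.ble (p + l4 * w) (b' + c4 * w) &&
  (Nat.ble (5 * p + 4 * l4 * w) (4 * b' + 7 * c4 * w) &&
  (Nat.ble (10 * p + 6 * l4 * w) (6 * b' + 19 * c4 * w) &&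
  (Nat.ble (9 * p + 4 * l4 * w) (4 * b' + 24 * c4 * w) &&
  (Nat.ble (3 * p + 2 * l4 * w) (b' + 12 * c4 * w) && Nat.ble (3 * p) (2 * b')))))

/-- The cells. -/
def chkB (S CN CD LN LD K0 : ℕ) : List ℕ → List ℕ → List ℕ → Bool
  | b :: bs, k :: ks, u :: us =>
    six (2 * LD * CD * S * (K0 + k) * u ^ 2) (u ^ 4) (CN * LD) (4 * LN * CD)
      (4 * LD * CD * S ^ 3 * b) && chkB S CN CD LN LD K0 bs ks us
  | [], _, _ => true
  | _, _, _ => false

theorem six_sound {S CN CD LN LD K b u : ℕ} (hS : 0 < S) (hCD : 0 < CD) (hLD : 0 < LD)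
    (h : six (2 * LD * CD * S * K * u ^ 2) (u ^ 4) (CN * LD) (4 * LN * CD)
      (4 * LD * CD * S ^ 3 * b) = true) {x y : ℝ} (hx : 0 ≤ x) (hxU : x ≤ (u : ℝ) / S)
    (hy : 0 ≤ y) (hyU : y ≤ (u : ℝ) / S) :
    (x ^ 2 + x * y + y ^ 2) * ((K : ℝ) / (2 * S) - (CN : ℝ) / CD / 4 * (x + y) ^ 2) +
      (LN : ℝ) / LD * (x ^ 4 + y ^ 4) ≤ (b : ℝ) / S := by
  have hS' : (0 : ℝ) < S := by exact_mod_cast hS
  have hCD' : (0 : ℝ) < CD := by exact_mod_cast hCD
  have hLD' : (0 : ℝ) < LD := by exact_mod_cast hLD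
  simp only [six, Bool.and_eq_true] at h
  obtain ⟨a0, a1, a2, a3, a4, a5⟩ := h
  have a0 := Nat.le_of_ble_eq_true a0
  have a1 := Nat.le_of_ble_eq_true a1
  have a2 := Nat.le_of_ble_eq_true a2
  have a3 := Nat.le_of_ble_eq_true a3
  have a4 := Nat.le_of_ble_eq_true a4
  have a5 := Nat.le_of_ble_eq_true a5
  rify at a0 a1 a2 a3 a4 a5
  set D : ℝ := 4 * LD * CD * S ^ 4 with hD
  have hD0 : 0 < D := by positivity
  have ep : 2 * (LD : ℝ) * CD * S * K * (u : ℝ) ^ 2 = D * ((K : ℝ) / (2 * S) * ((u : ℝ) / S) ^ 2) := by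
    rw [hD]
    field_simp
    ring
  have ec : (CN : ℝ) * LD * (u : ℝ) ^ 4 = D * ((CN : ℝ) / CD / 4 * ((u : ℝ) / S) ^ 4) := by
    rw [hD]
    field_simp
  have el : 4 * (LN : ℝ) * CD * (u : ℝ) ^ 4 = D * ((LN : ℝ) / LD * ((u : ℝ) / S) ^ 4) := by
    rw [hD]
    field_simp
  have eb : 4 * (LD : ℝ) * CD * S ^ 3 * (b : ℝ) = D * ((b : ℝ) / S) := by
    rw [hD]
    field_simp
  set k : ℝ := (K : ℝ) / (2 * S) with hk
  set U : ℝ := (u : ℝ) / S with hU
  set c : ℝ := (CN : ℝ) / CD with hc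
  set l : ℝ := (LN : ℝ) / LD with hl
  set B : ℝ := (b : ℝ) / S with hB
  have key : ∀ r : ℝ, D * r ≤ D * B → r ≤ B := fun r hr => le_of_mul_le_mul_left hr hD0
  refine poly_bound (k := k) (U := U) (l := l) (c := c) (B := B) (by positivity) (by positivity)
    ?_ ?_ ?_ ?_ ?_ ?_ hx hxU hy hyU
  · apply key
    nlinarith
  · apply key
    nlinarith
  · apply key
    nlinarith
  · apply key
    nlinarith
  · apply key
    nlinarith
  · apply key
    nlinarith

theorem chkB_sound {S CN CD LN LD K0 : ℕ} (hS : 0 < S) (hCD : 0 < CD) (hLD : 0 < LD) :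
    ∀ (bs ks us : List ℕ), chkB S CN CD LN LD K0 bs ks us = true →
      ∀ j < bs.length, j < ks.length ∧ j < us.length ∧
      ∀ x y : ℝ, 0 ≤ x → x ≤ (us.getD j 0 : ℝ) / S → 0 ≤ y → y ≤ (us.getD j 0 : ℝ) / S →
        (x ^ 2 + x * y + y ^ 2) * (((K0 + ks.getD j 0 : ℕ) : ℝ) / (2 * S) -
          (CN : ℝ) / CD / 4 * (x + y) ^ 2) + (LN : ℝ) / LD * (x ^ 4 + y ^ 4) ≤
            (bs.getD j 0 : ℝ) / S := by
  intro bs
  induction bs with
  | nil => intro ks us _ j hj; simp at hj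
  | cons b bs ih =>
    intro ks us h j hj
    match ks, us, h with
    | [], _, h => simp [chkB] at h
    | _ :: _, [], h => simp [chkB] at h
    | k :: ks, u :: us, h =>
      rw [chkB, Bool.and_eq_true] at h
      cases j with
      | zero =>
        refine ⟨by simp, by simp, ?_⟩
        intro x y hx hxU hy hyU
        simp only [List.getD_cons_zero] at hxU hyU ⊢
        exact six_sound hS hCD hLD h.1 hx hxU hy hyU
      | succ j =>
        obtain ⟨h1, h2, h3⟩ := ih ks us h.2 j (by simpa using hj)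
        refine ⟨by simpa using h1, by simpa using h2, ?_⟩
        simp only [List.getD_cons_succ]
        exact h3

end Pool.Agent.ENC
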