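import Mathlib
import Pool.Agent.ENC.Base

set_option autoImplicit false

open MeasureTheory Set Filter Topology MPdbfb19
open scoped ENNReal

namespace Pool.Agent.ENC

/-- **From a solution in `[0, ∞]` to a continuous positive one.**

Proof. `MPdbfb19.Tt_lip` applied to `fun t => u t ^ 3` and `he` (`Tt (u ^ 3) s = ofReal c * u s`,
`c > 0`) give `u s ≤ ofReal (exp (|s - s'| / 4)) * u s'` for all `s, s'`, so with
`φ s = (u s).toReal` (all `u s` finite): `φ s ≤ exp (|s - s'| / 4) * φ s'`. If `φ s' = 0` for one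
`s'` then `φ = 0` everywhere, against `F4 u = 1`; so `φ > 0`. Continuity at `s'`: for `s → s'`,
`exp (-|s - s'| / 4) * φ s' ≤ φ s ≤ exp (|s - s'| / 4) * φ s'` and squeeze. `int4`, `four`: from
`F4 u = ∫⁻ u ^ 4 = 1` and `u s ^ 4 = ofReal (φ s ^ 4)`. `inte`, `eq`: `Tt (u ^ 3) s =
∫⁻ t, u t ^ 3 * Ke (s - t) = ∫⁻ t, ofReal (φ t ^ 3 * Kk (s - t))` (`Ke_eq`), which is
`ofReal (c * φ s)`, finite; use `integral_eq_lintegral_of_nonneg_ae`. -/
theorem ext_of_enn {c : ℝ} (hc0 : 0 < c) {u : ℝ → ℝ≥0∞} (hu : Measurable u)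
    (ht : ∀ s, u s ≠ ∞) (hF : F4 u = 1)
    (he : ∀ s, Tt (fun t => u t ^ 3) s = ENNReal.ofReal c * u s) :
    Ext c (fun s => (u s).toReal) := by
  have hφ0 : ∀ s, 0 ≤ (u s).toReal := fun s => ENNReal.toReal_nonneg
  have hφu : ∀ s, ENNReal.ofReal (u s).toReal = u s := fun s => ENNReal.ofReal_toReal (ht s)
  have hlip : ∀ s s', (u s).toReal ≤ Real.exp (|s - s'| / 4) * (u s').toReal := by
    intro s s'
    have h1 := Tt_lip (fun t => u t ^ 3) s s'
    rw [he, he, ← hφu s, ← hφu s', ← ENNReal.ofReal_mul hc0.le, ← ENNReal.ofReal_mul hc0.le,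
      ← ENNReal.ofReal_mul (Real.exp_pos _).le,
      ENNReal.ofReal_le_ofReal_iff (mul_nonneg (Real.exp_pos _).le (mul_nonneg hc0.le (hφ0 s')))]
      at h1
    have h2 : c * (u s).toReal ≤ c * (Real.exp (|s - s'| / 4) * (u s').toReal) := by
      calc c * (u s).toReal ≤ Real.exp (|s - s'| / 4) * (c * (u s').toReal) := h1
        _ = _ := by ring
    exact le_of_mul_le_mul_left h2 hc0
  have hpos : ∀ s, 0 < (u s).toReal := by
    intro s'
    rcases (hφ0 s').lt_or_eq with h | h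
    · exact h
    · exfalso
      have h1 : ∀ s, u s = 0 := by
        intro s
        have h2 := hlip s s'
        rw [← h, mul_zero] at h2
        have h3 : (u s).toReal = 0 := le_antisymm h2 (hφ0 s)
        rw [← hφu s, h3, ENNReal.ofReal_zero]
      have h4 : F4 u = 0 := by
        unfold F4
        simp_rw [h1]
        simp
      rw [h4] at hF
      exact zero_ne_one hF
  have hcont : Continuous (fun s => (u s).toReal) := by
    rw [continuous_iff_continuousAt]
    intro s'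
    have hl : Tendsto (fun s => Real.exp (-(|s - s'| / 4)) * (u s').toReal) (𝓝 s')
        (𝓝 (u s').toReal) := by
      have h1 : Continuous (fun s => Real.exp (-(|s - s'| / 4)) * (u s').toReal) := by fun_prop
      have h2 := h1.tendsto s'
      simpa using h2
    have hr : Tendsto (fun s => Real.exp (|s - s'| / 4) * (u s').toReal) (𝓝 s')
        (𝓝 (u s').toReal) := by
      have h1 : Continuous (fun s => Real.exp (|s - s'| / 4) * (u s').toReal) := by fun_prop
      have h2 := h1.tendsto s'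
      simpa using h2
    refine tendsto_of_tendsto_of_tendsto_of_le_of_le hl hr (fun s => ?_) (fun s => hlip s s')
    have h3 := hlip s' s
    rw [abs_sub_comm] at h3
    have h4 := mul_le_mul_of_nonneg_left h3 (Real.exp_pos (-(|s - s'| / 4))).le
    rw [← mul_assoc, ← Real.exp_add, neg_add_cancel, Real.exp_zero, one_mul] at h4
    exact h4
  have hF' : ∫⁻ s, ENNReal.ofReal ((u s).toReal ^ 4) = 1 := by
    rw [← hF]
    unfold F4
    refine lintegral_congr fun s => ?_
    rw [ENNReal.ofReal_pow (hφ0 s), hφu]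
  have hm4 : AEStronglyMeasurable (fun s => (u s).toReal ^ 4) volume :=
    (hcont.pow 4).aestronglyMeasurable
  have hn4 : 0 ≤ᵐ[volume] (fun s => (u s).toReal ^ 4) :=
    Eventually.of_forall fun s => pow_nonneg (hφ0 s) 4
  have hT : ∀ s, ∫⁻ t, ENNReal.ofReal ((u t).toReal ^ 3 * Kk (s - t)) =
      ENNReal.ofReal c * u s := by
    intro s
    rw [← he]
    unfold Tt
    refine lintegral_congr fun t => ?_
    rw [ENNReal.ofReal_mul (pow_nonneg (hφ0 t) 3), ENNReal.ofReal_pow (hφ0 t), hφu, Ke_eq]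
  have hm3 : ∀ s, AEStronglyMeasurable (fun t => (u t).toReal ^ 3 * Kk (s - t)) volume :=
    fun s => ((hcont.pow 3).mul
      (Kk_cont.comp (continuous_const.sub continuous_id))).aestronglyMeasurable
  have hn3 : ∀ s, 0 ≤ᵐ[volume] (fun t => (u t).toReal ^ 3 * Kk (s - t)) :=
    fun s => Eventually.of_forall fun t => mul_nonneg (pow_nonneg (hφ0 t) 3) (Kk_pos _).le
  refine ⟨hcont, hpos, ?_, ?_, fun s => ?_, fun s => ?_⟩
  · rw [← lintegral_ofReal_ne_top_iff_integrable hm4 hn4, hF']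
    exact ENNReal.one_ne_top
  · rw [integral_eq_lintegral_of_nonneg_ae hn4 hm4, hF', ENNReal.toReal_one]
  · rw [← lintegral_ofReal_ne_top_iff_integrable (hm3 s) (hn3 s), hT]
    exact ENNReal.mul_ne_top ENNReal.ofReal_ne_top (ht s)
  · rw [integral_eq_lintegral_of_nonneg_ae (hn3 s) (hm3 s), hT, ENNReal.toReal_mul,
      ENNReal.toReal_ofReal hc0.le]

/-- **Existence.** Exactly the beginning of the proof of `MPdbfb19.eigen_least`
(`exists_seq`, `BB_of_validI`, `exists_max`, `exists_solution`), then `ext_of_enn`. -/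
theorem exists_ext {c : ℝ} (hc : IsLeast {C : ℝ | ValidI C} c) (hc0 : 0 < c) :
    ∃ φ, Ext c φ := by
  obtain ⟨φ, h1, h2, h3⟩ := exists_seq hc hc0
  have hB := BB_of_validI hc0.le hc.1
  have hC0 : ENNReal.ofReal c ≠ 0 := (ENNReal.ofReal_pos.2 hc0).ne'
  obtain ⟨ψ, h4, h5, h6, h7⟩ := exists_max hC0 ENNReal.ofReal_ne_top hB h1 h2 h3
  obtain ⟨u, hum, hut, huF, hue⟩ := exists_solution hC0 ENNReal.ofReal_ne_top hB h4 h5 h6 h7
  exact ⟨_, ext_of_enn hc0 hum hut huF hue⟩

/-- Conversely, the cube of a solution attains the constant. -/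
theorem Ext.attain {c : ℝ} {φ : ℝ → ℝ} (hc0 : 0 < c) (h : Ext c φ) :
    NN (fun s => ENNReal.ofReal (φ s ^ 3)) = 1 ∧
      ∫⁻ s, ENNReal.ofReal (φ s ^ 3) * Tt (fun t => ENNReal.ofReal (φ t ^ 3)) s =
        ENNReal.ofReal c := by
  have hφ0 : ∀ s, 0 ≤ φ s := fun s => (h.pos s).le
  have hn4 : 0 ≤ᵐ[volume] (fun s => φ s ^ 4) :=
    Eventually.of_forall fun s => pow_nonneg (hφ0 s) 4
  have h4 : ∫⁻ s, ENNReal.ofReal (φ s ^ 4) = 1 := by
    rw [← ofReal_integral_eq_lintegral_ofReal h.int4 hn4, h.four, ENNReal.ofReal_one]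
  have hT : ∀ s, Tt (fun t => ENNReal.ofReal (φ t ^ 3)) s = ENNReal.ofReal (c * φ s) := by
    intro s
    rw [← h.eq s, ofReal_integral_eq_lintegral_ofReal (h.inte s)
      (Eventually.of_forall fun t => mul_nonneg (pow_nonneg (hφ0 t) 3) (Kk_pos _).le)]
    unfold Tt
    refine lintegral_congr fun t => ?_
    rw [ENNReal.ofReal_mul (pow_nonneg (hφ0 t) 3), Ke_eq]
  constructor
  · rw [← h4]
    unfold NN
    refine lintegral_congr fun s => ?_
    rw [ENNReal.ofReal_rpow_of_nonneg (pow_nonneg (hφ0 s) 3) (by norm_num), cube_pow43 (hφ0 s)]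
  · have e1 : ∀ s, ENNReal.ofReal (φ s ^ 3) * Tt (fun t => ENNReal.ofReal (φ t ^ 3)) s =
        ENNReal.ofReal c * ENNReal.ofReal (φ s ^ 4) := by
      intro s
      rw [hT, ← ENNReal.ofReal_mul (pow_nonneg (hφ0 s) 3), ← ENNReal.ofReal_mul hc0.le]
      congr 1
      ring
    simp_rw [e1]
    rw [lintegral_const_mul' _ _ ENNReal.ofReal_ne_top, h4, mul_one]

end Pool.Agent.ENC
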