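import Mathlib
import Pool.Agent.ENC.Exi

set_option autoImplicit false

open MeasureTheory Set Filter Topology MPdbfb19
open scoped ENNReal

namespace Pool.Agent.ENC

/-- Equality in the inequality of Young. -/
theorem pair_young {u y : ℝ → ℝ≥0∞} (hu : Measurable u) (hy : Measurable y) (hut : ∀ s, u s ≠ ∞)
    (hyt : ∀ s, y s ≠ ∞) (huF : F4 u = 1) (hyF : F4 y = 1) (hL1 : ∫⁻ s, u s * y s ^ 3 = 1) :
    ∀ᵐ s, u s = y s := by
  have mL : Measurable (fun s => u s * y s ^ 3) := hu.mul (hy.pow_const 3)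
  have mL4 : Measurable (fun s => 4 * (u s * y s ^ 3)) := mL.const_mul 4
  have mR : Measurable (fun s => u s ^ 4 + 3 * y s ^ 4) :=
    (hu.pow_const 4).add ((hy.pow_const 4).const_mul 3)
  have hL : ∫⁻ s, 4 * (u s * y s ^ 3) = 4 := by
    rw [lintegral_const_mul _ mL, hL1, mul_one]
  have hR : ∫⁻ s, (u s ^ 4 + 3 * y s ^ 4) = 4 := by
    rw [lintegral_add_left (hu.pow_const 4), lintegral_const_mul _ (hy.pow_const 4)]
    have e1 : ∫⁻ s, u s ^ 4 = 1 := huF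
    have e2 : ∫⁻ s, y s ^ 4 = 1 := hyF
    rw [e1, e2]
    norm_num
  have hsub : ∫⁻ s, ((u s ^ 4 + 3 * y s ^ 4) - 4 * (u s * y s ^ 3)) = 0 := by
    rw [lintegral_sub mL4 (by rw [hL]; simp)
      (Eventually.of_forall fun s => young_enn (hut s) (hyt s)), hL, hR, tsub_self]
  have mS : Measurable (fun s => (u s ^ 4 + 3 * y s ^ 4) - 4 * (u s * y s ^ 3)) := mR.sub mL4
  rw [lintegral_eq_zero_iff mS] at hsub
  filter_upwards [hsub] with s hs
  exact young_enn_eq (hut s) (hyt s) (tsub_eq_zero_iff_le.1 hs)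

/-- The form of the first function. -/
theorem pair_form {c : ℝ≥0∞} (hc0 : c ≠ 0) (hct : c ≠ ∞) (hB : BB c) {f g : ℝ → ℝ≥0∞}
    (hf : Measurable f) (hg : Measurable g) (hfN : NN f = 1) (hgN : NN g = 1)
    (hE : ∫⁻ s, g s * Tt f s = c) : ∫⁻ s, f s * Tt f s = c := by
  have hN1 : (1 : ℝ≥0∞) ≠ ∞ := ENNReal.one_ne_top
  have hgg : ∫⁻ s, g s * Tt g s ≤ c := by
    have := hB g g hg hg (by rw [hgN]; exact hN1) (by rw [hgN]; exact hN1)
    rwa [hgN, ENNReal.one_rpow, mul_one, mul_one] at this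
  have hff : ∫⁻ s, f s * Tt f s ≤ c := by
    have := hB f f hf hf (by rw [hfN]; exact hN1) (by rw [hfN]; exact hN1)
    rwa [hfN, ENNReal.one_rpow, mul_one, mul_one] at this
  have hff' : c ≤ ∫⁻ s, f s * Tt f s := by
    have h1 := form_cs hf hg
    rw [hE] at h1
    have h2 : c ≤ c ^ (1 / 2 : ℝ) * (∫⁻ s, f s * Tt f s) ^ (1 / 2 : ℝ) := by
      refine h1.trans ?_
      gcongr
    have h3 : c = c ^ (1 / 2 : ℝ) * c ^ (1 / 2 : ℝ) := by
      rw [← ENNReal.rpow_add_of_nonneg _ _ (by norm_num) (by norm_num)]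
      norm_num
    have h4 : c ^ (1 / 2 : ℝ) * c ^ (1 / 2 : ℝ) ≤
        c ^ (1 / 2 : ℝ) * (∫⁻ s, f s * Tt f s) ^ (1 / 2 : ℝ) := by
      rw [← h3]
      exact h2
    have h5 : c ^ (1 / 2 : ℝ) ≠ 0 := by
      intro h
      rw [ENNReal.rpow_eq_zero_iff] at h
      rcases h with h | h
      · exact hc0 h.1
      · exact hct h.1
    have h6 : c ^ (1 / 2 : ℝ) ≠ ∞ := ENNReal.rpow_ne_top_of_nonneg (by norm_num) hct
    exact (ENNReal.rpow_le_rpow_iff (by norm_num)).1 ((ENNReal.mul_le_mul_iff_right h5 h6).1 h4)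
  exact le_antisymm hff hff'

/-- The norm of the image. -/
theorem pair_F4 {c : ℝ≥0∞} (hB : BB c) {f g : ℝ → ℝ≥0∞}
    (hf : Measurable f) (hg : Measurable g) (hfN : NN f = 1) (hgN : NN g = 1)
    (hE : ∫⁻ s, g s * Tt f s = c) : F4 (Tt f) = c ^ 4 := by
  refine le_antisymm ?_ ?_
  · have h := op_bound hB hf (by rw [hfN]; exact ENNReal.one_ne_top)
    rwa [hfN, one_pow, mul_one] at h
  · have h := holder hg (Tt_meas hf)
    rw [hE, hgN, ENNReal.one_rpow, one_mul] at h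
    have h2 := pow_le_pow_left' h 4
    have e2 : (F4 (Tt f) ^ (1 / 4 : ℝ)) ^ 4 = F4 (Tt f) := by
      rw [← ENNReal.rpow_natCast, ← ENNReal.rpow_mul]
      norm_num
    rwa [e2] at h2

/-- **Extremal pairs.** If `f, g` of norm `1` attain the constant, then both are the cube of one
solution.

Proof. `NN f = NN g = 1`, `∫⁻ g * Tt f = c`.
(1) `∫⁻ f * Tt f = c`: by `MPdbfb19.form_cs` (with `φ := f`, `ψ := g`)
`c ≤ (∫⁻ g * Tt g) ^ (1/2) * (∫⁻ f * Tt f) ^ (1/2)`, and both integrals are `≤ c` by `hB`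
(`NN = 1`), so both are `c`.
(2) `F4 (Tt f) ≤ c ^ 4` by `MPdbfb19.op_bound`.
(3) Equality in Young's inequality: pointwise (for finite values)
`4 * (c ^ 3 * f s * Tt f s) ≤ 3 * c ^ 4 * f s ^ (4/3) + Tt f s ^ 4`, i.e. for reals `x, y ≥ 0`
`4 x y ^ 3 ≤ x ^ 4 + 3 y ^ 4` (`young_le`; `young_enn`) with `x = Tt f s`, `y = c * f s ^ (1/3)`.
Integrate: left `4 c ^ 3 * c`, right `≤ 3 c ^ 4 + c ^ 4`. So equality a.e., hence
`Tt f s = c * f s ^ (1/3)` a.e. (`young_eq`; `young_enn_eq`). (See the proof of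
`MPdbfb19.exists_solution`, where this argument is carried out.) The same argument with
`y = c * g s ^ (1/3)` (using `∫⁻ g * Tt f = c`) gives `Tt f s = c * g s ^ (1/3)` a.e.
(4) Put `u s = (ofReal c)⁻¹ * Tt f s`. It is measurable, finite everywhere (finite at one point,
as `F4 (Tt f) < ∞`, hence everywhere by `Tt_lip`), `u ^ 3 = f` a.e. and `u ^ 3 = g` a.e., so
`Tt (u ^ 3) = Tt f = c * u` everywhere, and `F4 u = NN f = 1`. Use `ext_of_enn`. -/
theorem pair_ext {c : ℝ} (hB : BB (ENNReal.ofReal c)) (hc0 : 0 < c) {f g : ℝ → ℝ≥0∞}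
    (hf : Measurable f) (hg : Measurable g) (hft : ∀ s, f s ≠ ∞) (hgt : ∀ s, g s ≠ ∞)
    (hfN : NN f = 1) (hgN : NN g = 1) (hE : ∫⁻ s, g s * Tt f s = ENNReal.ofReal c) :
    ∃ φ, Ext c φ ∧ (∀ᵐ s, f s = ENNReal.ofReal (φ s ^ 3)) ∧
      ∀ᵐ s, g s = ENNReal.ofReal (φ s ^ 3) := by
  obtain ⟨C, hC⟩ : ∃ C : ℝ≥0∞, C = ENNReal.ofReal c := ⟨_, rfl⟩
  have hC0 : C ≠ 0 := by
    rw [hC]
    exact (ENNReal.ofReal_pos.2 hc0).ne'
  have hCt : C ≠ ∞ := by
    rw [hC]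
    exact ENNReal.ofReal_ne_top
  rw [← hC] at hB hE
  have hTm : Measurable (Tt f) := Tt_meas hf
  have hF4 := pair_F4 hB hf hg hfN hgN hE
  have hff := pair_form hC0 hCt hB hf hg hfN hgN hE
  have hC4 : C ^ 4 ≠ 0 := pow_ne_zero _ hC0
  have hC4t : C ^ 4 ≠ ∞ := ENNReal.pow_ne_top hCt
  have hCinv : C⁻¹ ≠ ∞ := ENNReal.inv_ne_top.2 hC0
  obtain ⟨u, hu⟩ : ∃ u : ℝ → ℝ≥0∞, u = fun s => Tt f s * C⁻¹ := ⟨_, rfl⟩
  have hum : Measurable u := by
    rw [hu]
    exact hTm.mul_const _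
  have hTu : ∀ s, Tt f s = C * u s := by
    intro s
    rw [hu]
    simp only
    rw [mul_comm (Tt f s), ← mul_assoc, ENNReal.mul_inv_cancel hC0 hCt, one_mul]
  have hTt : ∀ s, Tt f s ≠ ∞ := by
    intro s
    have h1 : (NN f) ^ (3 / 4 : ℝ) ≠ ∞ :=
      ENNReal.rpow_ne_top_of_nonneg (by norm_num) (by rw [hfN]; exact ENNReal.one_ne_top)
    exact ne_top_of_le_ne_top (ENNReal.mul_ne_top h1 MK_ne_top) (Tt_le hf s)
  have hut : ∀ s, u s ≠ ∞ := by
    intro s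
    rw [hu]
    exact ENNReal.mul_ne_top (hTt s) hCinv
  have huF : F4 u = 1 := by
    unfold F4
    have e1 : ∀ s, u s ^ 4 = Tt f s ^ 4 * (C ^ 4)⁻¹ := by
      intro s
      rw [hu]
      simp only
      rw [mul_pow, ENNReal.inv_pow]
    simp_rw [e1]
    rw [lintegral_mul_const _ (hTm.pow_const 4)]
    change F4 (Tt f) * _ = 1
    rw [hF4, ENNReal.mul_inv_cancel hC4 hC4t]
  have key : ∀ h : ℝ → ℝ≥0∞, Measurable h → (∀ s, h s ≠ ∞) → NN h = 1 → ∫⁻ s, h s * Tt f s = C →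
      ∀ᵐ s, u s ^ 3 = h s := by
    intro h hm ht hN hi
    have hy : Measurable (fun s => h s ^ (1 / 3 : ℝ)) := hm.pow_const _
    have hyF : F4 (fun s => h s ^ (1 / 3 : ℝ)) = 1 := by
      unfold F4
      simp_rw [cbrt_four]
      exact hN
    have hL1 : ∫⁻ s, u s * (h s ^ (1 / 3 : ℝ)) ^ 3 = 1 := by
      have e1 : ∀ s, u s * (h s ^ (1 / 3 : ℝ)) ^ 3 = h s * Tt f s * C⁻¹ := by
        intro s
        rw [cbrt_cube, hu]
        ring
      simp_rw [e1]
      have mh : Measurable (fun s => h s * Tt f s) := hm.mul hTm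
      rw [lintegral_mul_const _ mh, hi, ENNReal.mul_inv_cancel hC0 hCt]
    have hae := pair_young hum hy hut
      (fun s => ENNReal.rpow_ne_top_of_nonneg (by norm_num) (ht s)) huF hyF hL1
    filter_upwards [hae] with s hs
    rw [hs]
    exact cbrt_cube _
  have hfa := key f hf hft hfN hff
  have hga := key g hg hgt hgN hE
  have he : ∀ s, Tt (fun t => u t ^ 3) s = ENNReal.ofReal c * u s := by
    intro s
    rw [← hC, ← hTu s]
    unfold Tt
    refine lintegral_congr_ae ?_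
    filter_upwards [hfa] with t ht
    rw [ht]
  refine ⟨fun s => (u s).toReal, ext_of_enn hc0 hum hut huF he, ?_, ?_⟩
  · filter_upwards [hfa] with s hs
    rw [ENNReal.ofReal_pow ENNReal.toReal_nonneg, ENNReal.ofReal_toReal (hut s), hs]
  · filter_upwards [hga] with s hs
    rw [ENNReal.ofReal_pow ENNReal.toReal_nonneg, ENNReal.ofReal_toReal (hut s), hs]

end Pool.Agent.ENC
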