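import Mathlib
import Pool.Agent.ENC.Exi
import Pool.Agent.ENC.Pair

set_option autoImplicit false

/-!
# The equality case of (I)
-/

open MeasureTheory Set Filter Topology MPdbfb19
open scoped ENNReal

namespace Pool.Agent.ENC

/-- The function on the half line: `F x = φ (log x) ^ 3 * x ^ (-3/4)`. -/
noncomputable def FF (φ : ℝ → ℝ) (x : ℝ) : ℝ := φ (Real.log x) ^ 3 * x ^ (-(3 / 4) : ℝ)

theorem cls_FF_exp (φ : ℝ → ℝ) (s : ℝ) :
    FF φ (Real.exp s) = φ s ^ 3 * Real.exp (-(3 / 4) * s) := by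
  unfold FF
  rw [Real.log_exp, ← Real.exp_mul, mul_comm s]

theorem cls_FF_pos {φ : ℝ → ℝ} (hφ : ∀ s, 0 < φ s) {x : ℝ} (hx : 0 < x) : 0 < FF φ x :=
  mul_pos (pow_pos (hφ _) 3) (Real.rpow_pos_of_pos hx _)

theorem cls_FF_meas {φ : ℝ → ℝ} (hφ : Continuous φ) : Measurable (FF φ) := by
  unfold FF
  exact ((hφ.measurable.comp Real.measurable_log).pow_const 3).mul (measurable_id.pow_const _)

theorem cls_FF_lint {c : ℝ} {φ : ℝ → ℝ} (h : Ext c φ) :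
    ∫⁻ x in Ioi (0 : ℝ), ENNReal.ofReal (FF φ x ^ (4 / 3 : ℝ)) = 1 := by
  have h4 : ∫⁻ s, ENNReal.ofReal (φ s ^ 4) = 1 := by
    rw [← ofReal_integral_eq_lintegral_ofReal h.int4
      (Eventually.of_forall fun s => pow_nonneg (h.pos s).le 4), h.four, ENNReal.ofReal_one]
  rw [exp_cv, ← h4]
  refine lintegral_congr fun s => ?_
  rw [cls_FF_exp, ← ENNReal.ofReal_mul (Real.exp_pos s).le]
  congr 1
  have hp := h.pos s
  rw [Real.mul_rpow (pow_pos hp 3).le (Real.exp_pos _).le, ← Real.exp_mul, ← Real.rpow_natCast (φ s) 3,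
    ← Real.rpow_mul hp.le]
  have e1 : ((3 : ℕ) : ℝ) * (4 / 3) = ((4 : ℕ) : ℝ) := by norm_num
  have e2 : -(3 / 4) * s * (4 / 3) = -s := by ring
  rw [e1, e2, Real.rpow_natCast, mul_comm (φ s ^ 4), ← mul_assoc, ← Real.exp_add, add_neg_cancel,
    Real.exp_zero, one_mul]

theorem cls_FF_log (φ : ℝ → ℝ) {x : ℝ} (hx : 0 < x) :
    x ^ (3 / 4 : ℝ) * FF φ x = φ (Real.log x) ^ 3 := by
  unfold FF
  rw [mul_left_comm, ← Real.rpow_add hx]
  norm_num

/-- Properties of `F`. For the integral: `MPdbfb19.exp_cv`/`lint_pow`, `lg (FF φ) s = φ s ^ 3`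
(`Real.log_exp`), `(φ ^ 3) ^ (4/3) = φ ^ 4` and `Ext.four`. Last item: evenness of `φ`. -/
theorem FF_props {c : ℝ} {φ : ℝ → ℝ} (h : EExt c φ) :
    Measurable (FF φ) ∧ ContinuousOn (FF φ) (Ioi 0) ∧ (∀ x ∈ Ioi (0 : ℝ), 0 < FF φ x) ∧
    IntegrableOn (fun x => FF φ x ^ (4 / 3 : ℝ)) (Ioi 0) ∧
    ∫ x in Ioi (0 : ℝ), FF φ x ^ (4 / 3 : ℝ) = 1 ∧
    (∀ x ∈ Ioi (0 : ℝ), FF φ x⁻¹ = x ^ (3 / 2 : ℝ) * FF φ x) ∧
    (MonotoneOn (fun x => x ^ (3 / 4 : ℝ) * FF φ x) (Ioc 0 1)) ∧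
    (AntitoneOn (fun x => x ^ (3 / 4 : ℝ) * FF φ x) (Ici 1)) := by
  have hm : Measurable (FF φ) := cls_FF_meas h.cont
  have hl := cls_FF_lint h.toExt
  have hpos : ∀ x ∈ Ioi (0 : ℝ), 0 < FF φ x := fun x hx => cls_FF_pos h.pos hx
  have hn : 0 ≤ᵐ[volume.restrict (Ioi (0 : ℝ))] (fun x => FF φ x ^ (4 / 3 : ℝ)) :=
    (ae_restrict_iff' measurableSet_Ioi).2
      (Eventually.of_forall fun x hx => Real.rpow_nonneg (hpos x hx).le _)
  have hms : AEStronglyMeasurable (fun x => FF φ x ^ (4 / 3 : ℝ))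
      (volume.restrict (Ioi (0 : ℝ))) := (hm.pow_const _).aestronglyMeasurable
  refine ⟨hm, ?_, hpos, ?_, ?_, ?_, ?_, ?_⟩
  · have h1 : ContinuousOn Real.log (Ioi (0 : ℝ)) :=
      Real.continuousOn_log.mono fun x hx => ne_of_gt hx
    refine ContinuousOn.mul ((h.cont.comp_continuousOn h1).pow 3) ?_
    exact continuousOn_id.rpow_const fun x hx => Or.inl (ne_of_gt hx)
  · refine ⟨hms, ?_⟩
    rw [hasFiniteIntegral_iff_ofReal hn, hl]
    exact ENNReal.one_lt_top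
  · rw [integral_eq_lintegral_of_nonneg_ae hn hms, hl, ENNReal.toReal_one]
  · intro x hx
    have hx0 : (0 : ℝ) < x := hx
    unfold FF
    rw [Real.log_inv, h.even, Real.inv_rpow hx0.le, Real.rpow_neg hx0.le, inv_inv, mul_left_comm,
      ← Real.rpow_neg hx0.le, ← Real.rpow_add hx0]
    norm_num
  · intro x hx y hy hxy
    show x ^ (3 / 4 : ℝ) * FF φ x ≤ y ^ (3 / 4 : ℝ) * FF φ y
    rw [cls_FF_log φ hx.1, cls_FF_log φ hy.1]
    have h1 : Real.log x ≤ Real.log y := Real.log_le_log hx.1 hxy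
    have h2 : Real.log y ≤ 0 := Real.log_nonpos hy.1.le hy.2
    have h3 : φ (-Real.log x) ≤ φ (-Real.log y) :=
      h.anti (show (0 : ℝ) ≤ -Real.log y by linarith) (show (0 : ℝ) ≤ -Real.log x by linarith)
        (by linarith)
    rw [h.even, h.even] at h3
    exact pow_le_pow_left₀ (h.pos _).le h3 3
  · intro x hx y hy hxy
    show y ^ (3 / 4 : ℝ) * FF φ y ≤ x ^ (3 / 4 : ℝ) * FF φ x
    have hx1 : (1 : ℝ) ≤ x := hx
    have hy1 : (1 : ℝ) ≤ y := hy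
    have hx0 : (0 : ℝ) < x := by linarith
    have hy0 : (0 : ℝ) < y := by linarith
    rw [cls_FF_log φ hx0, cls_FF_log φ hy0]
    have h1 : Real.log x ≤ Real.log y := Real.log_le_log hx0 hxy
    exact pow_le_pow_left₀ (h.pos _).le (h.anti (Real.log_nonneg hx1) (Real.log_nonneg hy1) h1) 3


theorem cls_ae {F G : ℝ → ℝ} (hF : Measurable F) (hG : Measurable G) :
    (∀ᵐ x ∂(volume.restrict (Ioi (0 : ℝ))), F x = G x) ↔
      ∀ᵐ s, F (Real.exp s) = G (Real.exp s) := by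
  have hS : MeasurableSet {x | F x ≠ G x} := (measurableSet_eq_fun hF hG).compl
  have hu : Measurable (indicator {x | F x ≠ G x} (fun _ => (1 : ℝ≥0∞))) :=
    measurable_const.indicator hS
  have hu2 : Measurable (fun s => ENNReal.ofReal (Real.exp s) *
      indicator {x | F x ≠ G x} (fun _ => (1 : ℝ≥0∞)) (Real.exp s)) :=
    Real.measurable_exp.ennreal_ofReal.mul (hu.comp Real.measurable_exp)
  have h1 := exp_cv (indicator {x | F x ≠ G x} (fun _ => (1 : ℝ≥0∞)))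
  have h2 : (∀ᵐ x ∂(volume.restrict (Ioi (0 : ℝ))), F x = G x) ↔
      ∫⁻ x in Ioi (0 : ℝ), indicator {x | F x ≠ G x} (fun _ => (1 : ℝ≥0∞)) x = 0 := by
    rw [lintegral_eq_zero_iff hu]
    refine eventually_congr (Eventually.of_forall fun x => ?_)
    by_cases hx : F x = G x
    · simp [hx]
    · simp [hx]
  have h3 : (∀ᵐ s, F (Real.exp s) = G (Real.exp s)) ↔
      ∫⁻ s, ENNReal.ofReal (Real.exp s) *
        indicator {x | F x ≠ G x} (fun _ => (1 : ℝ≥0∞)) (Real.exp s) = 0 := by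
    rw [lintegral_eq_zero_iff hu2]
    refine eventually_congr (Eventually.of_forall fun s => ?_)
    by_cases hx : F (Real.exp s) = G (Real.exp s)
    · simp [hx]
    · simp [hx, Real.exp_pos]
  rw [h2, h3, h1]

theorem cls_NN_mul (k : ℝ≥0∞) (hk : k ≠ ∞) (u : ℝ → ℝ≥0∞) :
    NN (fun s => k * u s) = k ^ (4 / 3 : ℝ) * NN u := by
  unfold NN
  rw [← lintegral_const_mul' _ _ (ENNReal.rpow_ne_top_of_nonneg (by norm_num) hk)]
  refine lintegral_congr fun s => ?_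
  rw [ENNReal.mul_rpow_of_nonneg _ _ (by norm_num)]

theorem cls_Tt_mul (k : ℝ≥0∞) (hk : k ≠ ∞) (u : ℝ → ℝ≥0∞) (s : ℝ) :
    Tt (fun t => k * u t) s = k * Tt u s := by
  unfold Tt
  rw [← lintegral_const_mul' _ _ hk]
  refine lintegral_congr fun t => ?_
  rw [mul_assoc]

theorem cls_Tt_ae {u v : ℝ → ℝ≥0∞} (h : ∀ᵐ s, u s = v s) (s : ℝ) : Tt u s = Tt v s := by
  unfold Tt
  refine lintegral_congr_ae ?_
  filter_upwards [h] with t ht
  rw [ht]

theorem cls_NN_ae {u v : ℝ → ℝ≥0∞} (h : ∀ᵐ s, u s = v s) : NN u = NN v := by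
  unfold NN
  refine lintegral_congr_ae ?_
  filter_upwards [h] with t ht
  rw [ht]

theorem cls_form_mul (k k' : ℝ≥0∞) (hk : k ≠ ∞) (hk' : k' ≠ ∞) (u v : ℝ → ℝ≥0∞) :
    ∫⁻ s, (k' * v s) * Tt (fun t => k * u t) s = k' * k * ∫⁻ s, v s * Tt u s := by
  rw [← lintegral_const_mul' _ _ (ENNReal.mul_ne_top hk' hk)]
  refine lintegral_congr fun s => ?_
  rw [cls_Tt_mul k hk]
  ring

theorem cls_pos {f : ℝ → ℝ} (hf : Measurable f) (hf0 : ∀ x, 0 ≤ f x)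
    (hfn : ¬ ∀ᵐ x ∂(volume.restrict (Ioi (0 : ℝ))), f x = 0) :
    NN (fun s => ENNReal.ofReal (lg f s)) ≠ 0 := by
  intro h0
  apply hfn
  have hm : Measurable (fun s => ENNReal.ofReal (lg f s) ^ (4 / 3 : ℝ)) :=
    (lg_meas hf).ennreal_ofReal.pow_const _
  have h1 : ∀ᵐ s, ENNReal.ofReal (lg f s) ^ (4 / 3 : ℝ) = 0 := (lintegral_eq_zero_iff hm).1 h0
  rw [cls_ae hf (measurable_const : Measurable fun _ : ℝ => (0 : ℝ))]
  filter_upwards [h1] with s hs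
  have h2 : ENNReal.ofReal (lg f s) = 0 := (ENNReal.rpow_eq_zero_iff_of_pos (by norm_num)).1 hs
  have h3 : lg f s ≤ 0 := ENNReal.ofReal_eq_zero.1 h2
  have h4 : lg f s = 0 := le_antisymm h3 (lg_nonneg hf0 s)
  unfold lg at h4
  exact (mul_eq_zero.1 h4).resolve_right (Real.exp_pos _).ne'

/-- the inverse of the norm -/
theorem cls_norm {N : ℝ≥0∞} (h0 : N ≠ 0) (ht : N ≠ ∞) :
    N ^ (3 / 4 : ℝ) ≠ 0 ∧ N ^ (3 / 4 : ℝ) ≠ ∞ ∧
      ((N ^ (3 / 4 : ℝ))⁻¹) ^ (4 / 3 : ℝ) * N = 1 := by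
  have h1 : N ^ (3 / 4 : ℝ) ≠ 0 := by
    intro h
    exact h0 ((ENNReal.rpow_eq_zero_iff_of_pos (by norm_num)).1 h)
  refine ⟨h1, ENNReal.rpow_ne_top_of_nonneg (by norm_num) ht, ?_⟩
  rw [ENNReal.inv_rpow, ← ENNReal.rpow_mul]
  norm_num
  exact ENNReal.inv_mul_cancel h0 ht

/-- from the logarithmic to the original variable -/
theorem cls_back {f φ : ℝ → ℝ} (hf : Measurable f) (hφ : Continuous φ) (A a : ℝ) :
    (∀ᵐ s, lg f s = A * φ (a + s) ^ 3) ↔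
      ∀ᵐ x ∂(volume.restrict (Ioi (0 : ℝ))),
        f x = A * Real.exp (3 / 4 * a) * FF φ (Real.exp a * x) := by
  have hG : Measurable (fun x => A * Real.exp (3 / 4 * a) * FF φ (Real.exp a * x)) :=
    ((cls_FF_meas hφ).comp (measurable_id.const_mul (Real.exp a))).const_mul _
  rw [cls_ae hf hG]
  refine eventually_congr (Eventually.of_forall fun s => ?_)
  have e1 : Real.exp a * Real.exp s = Real.exp (a + s) := (Real.exp_add a s).symm
  rw [e1, cls_FF_exp]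
  unfold lg
  have e2 : A * Real.exp (3 / 4 * a) * (φ (a + s) ^ 3 * Real.exp (-(3 / 4) * (a + s))) =
      A * φ (a + s) ^ 3 * Real.exp (-(3 / 4 * s)) := by
    have e3 : Real.exp (-(3 / 4 * s)) = Real.exp (3 / 4 * a) * Real.exp (-(3 / 4) * (a + s)) := by
      rw [← Real.exp_add]
      congr 1
      ring
    rw [e3]
    ring
  rw [e2, Real.exp_neg, ← div_eq_mul_inv, eq_div_iff (Real.exp_pos _).ne']

/-- **The equality case.**

Proof. By homogeneity one may normalize: with `A = (∫ f^{4/3})^{3/4} > 0`, `B` for `g`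
(`> 0`: `f` is not a.e. zero), `f / A`, `g / B` have norm `1`. In the logarithmic variable
(`MPdbfb19.lhs_eq`, `rhs_eq`, `ofReal_integral`) the equality becomes
`∫⁻ g₁ * Tt f₁ = ofReal c` for `f₁ s = ofReal (lg f s / A)`, `g₁ s = ofReal (lg g s / B)` with
`NN f₁ = NN g₁ = 1`. Forward: `pair_ext` gives a solution `χ` (`Ext c χ`) with `f₁ = g₁ = χ³` a.e.;
`huniq` gives `χ s = φ (a + s)`. So `f (e^s) e^{3s/4} = A φ(a+s)³` for a.e. `s`, i.e. with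
`t = e^a`: `f x = A t^{3/4} FF φ (t x)` for a.e. `x > 0` (the exponential map and its inverse
preserve null sets; e.g. `exp_cv` applied to the indicator of the exceptional set). Backward: both
sides are homogeneous in `α`, `β`; `lg (x ↦ FF φ (t x)) s = t^{-3/4} φ (log t + s)³`, and by
translation invariance and `Ext.attain` (for `h.shift (log t)`, which is an `Ext c`) the
left side is `α β t^{-3/2} c` and the norms are `α t^{-3/4}`, `β t^{-3/4}`. -/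
theorem classify {c : ℝ} (hc : IsLeast {C : ℝ | ValidI C} c) (hc0 : 0 < c) {φ : ℝ → ℝ}
    (h : EExt c φ) (huniq : ∀ χ : ℝ → ℝ, Ext c χ → ∃ a, ∀ s, χ s = φ (a + s)) {f g : ℝ → ℝ}
    (hf : Measurable f) (hg : Measurable g) (hf0 : ∀ x, 0 ≤ f x) (hg0 : ∀ x, 0 ≤ g x)
    (hfi : IntegrableOn (fun x => f x ^ (4 / 3 : ℝ)) (Ioi 0))
    (hgi : IntegrableOn (fun x => g x ^ (4 / 3 : ℝ)) (Ioi 0))
    (hfn : ¬ ∀ᵐ x ∂(volume.restrict (Ioi (0 : ℝ))), f x = 0)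
    (hgn : ¬ ∀ᵐ x ∂(volume.restrict (Ioi (0 : ℝ))), g x = 0) :
    ∫⁻ x in Ioi (0 : ℝ), ∫⁻ y in Ioi (0 : ℝ),
        ENNReal.ofReal (f x * g y * (x + y) ^ (-(1 / 2) : ℝ)) =
      ENNReal.ofReal (c * (∫ x in Ioi (0 : ℝ), f x ^ (4 / 3 : ℝ)) ^ (3 / 4 : ℝ) *
        (∫ y in Ioi (0 : ℝ), g y ^ (4 / 3 : ℝ)) ^ (3 / 4 : ℝ)) ↔
    ∃ α β t : ℝ, 0 < α ∧ 0 < β ∧ 0 < t ∧
      (∀ᵐ x ∂(volume.restrict (Ioi (0 : ℝ))), f x = α * FF φ (t * x)) ∧
      (∀ᵐ x ∂(volume.restrict (Ioi (0 : ℝ))), g x = β * FF φ (t * x)) := by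
  have mf : Measurable (fun s => ENNReal.ofReal (lg f s)) := (lg_meas hf).ennreal_ofReal
  have mg : Measurable (fun s => ENNReal.ofReal (lg g s)) := (lg_meas hg).ennreal_ofReal
  have hBB : BB (ENNReal.ofReal c) := BB_of_validI hc0.le hc.1
  rw [rhs_eq hc0.le hf0 hg0 hfi hgi, lhs_eq hf hg hf0 hg0]
  constructor
  · intro hE
    have hNf0 := cls_pos hf hf0 hfn
    have hNg0 := cls_pos hg hg0 hgn
    have hNft : NN (fun s => ENNReal.ofReal (lg f s)) ≠ ∞ := by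
      rw [← ofReal_integral hf0 hfi]
      exact ENNReal.ofReal_ne_top
    have hNgt : NN (fun s => ENNReal.ofReal (lg g s)) ≠ ∞ := by
      rw [← ofReal_integral hg0 hgi]
      exact ENNReal.ofReal_ne_top
    obtain ⟨M, hM⟩ : ∃ M, M = NN (fun s => ENNReal.ofReal (lg f s)) := ⟨_, rfl⟩
    obtain ⟨N, hN⟩ : ∃ N, N = NN (fun s => ENNReal.ofReal (lg g s)) := ⟨_, rfl⟩
    rw [← hM] at hNf0 hNft
    rw [← hN] at hNg0 hNgt
    rw [← hM, ← hN] at hE
    obtain ⟨a1, a2, a3⟩ := cls_norm hNf0 hNft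
    obtain ⟨b1, b2, b3⟩ := cls_norm hNg0 hNgt
    have a4 : (M ^ (3 / 4 : ℝ))⁻¹ ≠ ∞ := ENNReal.inv_ne_top.2 a1
    have b4 : (N ^ (3 / 4 : ℝ))⁻¹ ≠ ∞ := ENNReal.inv_ne_top.2 b1
    obtain ⟨χ, hχ, h1, h2⟩ := pair_ext hBB hc0
      (f := fun s => (M ^ (3 / 4 : ℝ))⁻¹ * ENNReal.ofReal (lg f s))
      (g := fun s => (N ^ (3 / 4 : ℝ))⁻¹ * ENNReal.ofReal (lg g s))
      (mf.const_mul _) (mg.const_mul _)
      (fun s => ENNReal.mul_ne_top a4 ENNReal.ofReal_ne_top)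
      (fun s => ENNReal.mul_ne_top b4 ENNReal.ofReal_ne_top)
      (by rw [cls_NN_mul _ a4, ← hM, a3]) (by rw [cls_NN_mul _ b4, ← hN, b3])
      (by
        rw [cls_form_mul _ _ a4 b4, hE]
        have e1 : (N ^ (3 / 4 : ℝ))⁻¹ * (M ^ (3 / 4 : ℝ))⁻¹ *
            (ENNReal.ofReal c * M ^ (3 / 4 : ℝ) * N ^ (3 / 4 : ℝ)) =
            (M ^ (3 / 4 : ℝ) * (M ^ (3 / 4 : ℝ))⁻¹) * (N ^ (3 / 4 : ℝ) * (N ^ (3 / 4 : ℝ))⁻¹) *
              ENNReal.ofReal c := by ring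
        rw [e1, ENNReal.mul_inv_cancel a1 a2, ENNReal.mul_inv_cancel b1 b2, one_mul, one_mul])
    obtain ⟨a, ha⟩ := huniq χ hχ
    have key : ∀ (u : ℝ → ℝ) (m : ℝ≥0∞), (∀ s, 0 ≤ u s) → m ≠ 0 → m ≠ ∞ →
        (∀ᵐ s, m⁻¹ * ENNReal.ofReal (u s) = ENNReal.ofReal (χ s ^ 3)) →
        ∀ᵐ s, u s = m.toReal * φ (a + s) ^ 3 := by
      intro u m hu hm0 hmt hh
      filter_upwards [hh] with s hs
      rw [ha] at hs
      have h3 : ENNReal.ofReal (u s) = ENNReal.ofReal (m.toReal * φ (a + s) ^ 3) := by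
        rw [ENNReal.ofReal_mul ENNReal.toReal_nonneg, ENNReal.ofReal_toReal hmt, ← hs, ← mul_assoc,
          ENNReal.mul_inv_cancel hm0 hmt, one_mul]
      exact (ENNReal.ofReal_eq_ofReal_iff (hu s) (mul_nonneg ENNReal.toReal_nonneg
        (pow_pos (h.pos _) 3).le)).1 h3
    have k1 := key (lg f) _ (lg_nonneg hf0) a1 a2 h1
    have k2 := key (lg g) _ (lg_nonneg hg0) b1 b2 h2
    refine ⟨(M ^ (3 / 4 : ℝ)).toReal * Real.exp (3 / 4 * a),
      (N ^ (3 / 4 : ℝ)).toReal * Real.exp (3 / 4 * a), Real.exp a,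
      mul_pos (ENNReal.toReal_pos a1 a2) (Real.exp_pos _),
      mul_pos (ENNReal.toReal_pos b1 b2) (Real.exp_pos _), Real.exp_pos a,
      (cls_back hf h.cont _ a).1 k1, (cls_back hg h.cont _ a).1 k2⟩
  · rintro ⟨α, β, t, hα, hβ, ht, h1, h2⟩
    have hsh : Ext c (fun s => φ (Real.log t + s)) := h.toExt.shift (Real.log t)
    obtain ⟨n1, n2⟩ := Ext.attain hc0 hsh
    have e0 : Real.exp (Real.log t) = t := Real.exp_log ht
    have key : ∀ (u : ℝ → ℝ) (γ : ℝ), Measurable u → 0 < γ →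
        (∀ᵐ x ∂(volume.restrict (Ioi (0 : ℝ))), u x = γ * FF φ (t * x)) →
        ∀ᵐ s, ENNReal.ofReal (lg u s) = ENNReal.ofReal (γ * Real.exp (-(3 / 4 * Real.log t))) *
          ENNReal.ofReal (φ (Real.log t + s) ^ 3) := by
      intro u γ hu hγ hh
      have h3 := (cls_back hu h.cont (γ * Real.exp (-(3 / 4 * Real.log t))) (Real.log t)).2 (by
        rw [e0, mul_assoc γ, ← Real.exp_add, neg_add_cancel, Real.exp_zero, mul_one]
        exact hh)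
      filter_upwards [h3] with s hs
      rw [hs, ENNReal.ofReal_mul (mul_nonneg hγ.le (Real.exp_pos _).le)]
    have k1 := key f α hf hα h1
    have k2 := key g β hg hβ h2
    obtain ⟨A, hA⟩ : ∃ A, A = ENNReal.ofReal (α * Real.exp (-(3 / 4 * Real.log t))) := ⟨_, rfl⟩
    obtain ⟨B, hB⟩ : ∃ B, B = ENNReal.ofReal (β * Real.exp (-(3 / 4 * Real.log t))) := ⟨_, rfl⟩
    rw [← hA] at k1
    rw [← hB] at k2
    have hAt : A ≠ ∞ := by
      rw [hA]
      exact ENNReal.ofReal_ne_top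
    have hBt : B ≠ ∞ := by
      rw [hB]
      exact ENNReal.ofReal_ne_top
    have e43 : ∀ m : ℝ≥0∞, (m ^ (4 / 3 : ℝ)) ^ (3 / 4 : ℝ) = m := by
      intro m
      rw [← ENNReal.rpow_mul]
      norm_num
    rw [cls_NN_ae k1, cls_NN_ae k2, cls_NN_mul A hAt, cls_NN_mul B hBt, n1, mul_one, mul_one,
      e43, e43]
    have e1 : ∫⁻ s, ENNReal.ofReal (lg g s) * Tt (fun t => ENNReal.ofReal (lg f t)) s =
        ∫⁻ s, (B * ENNReal.ofReal (φ (Real.log t + s) ^ 3)) *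
          Tt (fun r => A * ENNReal.ofReal (φ (Real.log t + r) ^ 3)) s := by
      refine lintegral_congr_ae ?_
      filter_upwards [k2] with s hs
      rw [hs, cls_Tt_ae k1]
    rw [e1, cls_form_mul A B hAt hBt, n2]
    ring


end Pool.Agent.ENC
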