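import Mathlib
import Pool.Agent.ENC.Tab
import Pool.Agent.ENC.DU

set_option autoImplicit false

/-!
# The finite check is passed
-/

open MeasureTheory Set Filter Topology MPdbfb19
open scoped ENNReal

namespace Pool.Agent.ENC.DU

theorem tab : chkTab 1000000 16 15 155 K T 6727 KE tE = true := by
  decide +kernel

theorem st1 : stepE 1000000 15464 10000 6727 KE tE (List.replicate 155 840897) 840897 X1 414616 m1 840000 = true := by
  decide +kernel

theorem st2 : stepE 1000000 15464 10000 6727 KE tE X1 414616 X2 220645 m2 250000 = true := by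
  decide +kernel

theorem st3 : stepE 1000000 15464 10000 6727 KE tE X2 220645 X3 166438 m3 220000 = true := by
  decide +kernel

theorem st4 : stepE 1000000 15464 10000 6727 KE tE X3 166438 X4 144696 m4 210000 = true := by
  decide +kernel

theorem st5 : stepE 1000000 15464 10000 6727 KE tE X4 144696 X5 137307 m5 200000 = true := by
  decide +kernel

theorem st6 : stepE 1000000 15464 10000 6727 KE tE X5 137307 X6 134404 m6 200000 = true := by
  decide +kernel

theorem st7 : stepE 1000000 15464 10000 6727 KE tE X6 134404 X7 133165 m7 200000 = true := by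
  decide +kernel

theorem st8 : stepE 1000000 15464 10000 6727 KE tE X7 133165 X8 132607 m8 200000 = true := by
  decide +kernel

theorem st9 : stepE 1000000 15464 10000 6727 KE tE X8 132607 X9 132347 m9 190000 = true := by
  decide +kernel

theorem st10 : stepE 1000000 15464 10000 6727 KE tE X9 132347 X10 132219 m10 190000 = true := by
  decide +kernel

theorem st11 : stepE 1000000 15464 10000 6727 KE tE X10 132219 X11 132155 m11 190000 = true := by
  decide +kernel

theorem st12 : stepE 1000000 15464 10000 6727 KE tE X11 132155 X12 132122 m12 190000 = true := by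
  decide +kernel

theorem st13 : stepE 1000000 15464 10000 6727 KE tE X12 132122 X13 132105 m13 190000 = true := by
  decide +kernel

theorem st14 : stepE 1000000 15464 10000 6727 KE tE X13 132105 X14 132095 m14 190000 = true := by
  decide +kernel

theorem st15 : stepE 1000000 15464 10000 6727 KE tE X14 132095 X15 132090 m15 190000 = true := by
  decide +kernel

theorem st16 : stepE 1000000 15464 10000 6727 KE tE X15 132090 X16 132086 m16 190000 = true := by
  decide +kernel

theorem st17 : stepE 1000000 15464 10000 6727 KE tE X16 132086 X17 132084 m17 190000 = true := by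
  decide +kernel

theorem st18 : stepE 1000000 15464 10000 6727 KE tE X17 132084 X18 132083 m18 170000 = true := by
  decide +kernel

theorem st19 : stepE 1000000 15464 10000 6727 KE tE X18 132083 X19 132082 m19 140000 = true := by
  decide +kernel

theorem st20 : stepE 1000000 15464 10000 6727 KE tE X19 132082 X20 132081 m20 90000 = true := by
  decide +kernel

theorem fin_chk : 2 * (s4 X20 + 132081 ^ 4) < 1000000 ^ 4 := by
  decide +kernel

attribute [local irreducible] stepE chkTab s4 K T tE KE

/-- **The system has no solution with a constant at least `15464 / 10000`.** -/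
theorem no_sys {c : ℝ} (hc : (15464 : ℝ) / 10000 ≤ c) {x : ℕ → ℝ} {xT : ℝ}
    (hs : Sys c (Real.log ((16 : ℝ) / 15)) 155 x xT) : False := by
  have hc' : ((15464 : ℕ) : ℝ) ≤ c * ((10000 : ℕ) : ℝ) := by
    rw [div_le_iff₀ (by norm_num)] at hc
    exact_mod_cast hc
  have hS : 0 < 1000000 := by norm_num
  have hCN : 0 < 15464 := by norm_num
  have hCD : 0 < 10000 := by norm_num
  have hT := tab_sound hS (by norm_num : 0 < 15) (by norm_num : 15 ≤ 16) tab
  have hs' : Sys c (Real.log (((16 : ℕ) : ℝ) / ((15 : ℕ) : ℝ))) 155 x xT := by
    exact_mod_cast hs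
  have h0 := caps_init hS (X := 840897) (by norm_num) hs'
  have h1 := step_sound hS hCN hCD hc' hT hs' h0 st1
  have h2 := step_sound hS hCN hCD hc' hT hs' h1 st2
  have h3 := step_sound hS hCN hCD hc' hT hs' h2 st3
  have h4 := step_sound hS hCN hCD hc' hT hs' h3 st4
  have h5 := step_sound hS hCN hCD hc' hT hs' h4 st5
  have h6 := step_sound hS hCN hCD hc' hT hs' h5 st6
  have h7 := step_sound hS hCN hCD hc' hT hs' h6 st7
  have h8 := step_sound hS hCN hCD hc' hT hs' h7 st8
  have h9 := step_sound hS hCN hCD hc' hT hs' h8 st9
  have h10 := step_sound hS hCN hCD hc' hT hs' h9 st10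
  have h11 := step_sound hS hCN hCD hc' hT hs' h10 st11
  have h12 := step_sound hS hCN hCD hc' hT hs' h11 st12
  have h13 := step_sound hS hCN hCD hc' hT hs' h12 st13
  have h14 := step_sound hS hCN hCD hc' hT hs' h13 st14
  have h15 := step_sound hS hCN hCD hc' hT hs' h14 st15
  have h16 := step_sound hS hCN hCD hc' hT hs' h15 st16
  have h17 := step_sound hS hCN hCD hc' hT hs' h16 st17
  have h18 := step_sound hS hCN hCD hc' hT hs' h17 st18
  have h19 := step_sound hS hCN hCD hc' hT hs' h18 st19
  have h20 := step_sound hS hCN hCD hc' hT hs' h19 st20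
  exact caps_end hS hs' h20 fin_chk

end Pool.Agent.ENC.DU
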