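import Mathlib
import Pool.Agent.ENC.Chk3

set_option autoImplicit false

/-!
# Uniqueness of the even solution from the finite check
-/

open MeasureTheory Set Filter Topology MPdbfb19
open scoped ENNReal

namespace Pool.Agent.ENC

/-- Bounds at the nodes. -/
theorem node_le {c : ℝ} {φ : ℝ → ℝ} (hB : BB (ENNReal.ofReal c)) (hc0 : 0 < c) (h : EExt c φ)
    {S CN CD M XT : ℕ} (hS : 0 < S) (hCN : 0 < CN) (hCD : 0 < CD) (hc : (CN : ℝ) ≤ c * CD)
    {d : ℝ} (hd : 0 < d) {Xs Us mU : List ℕ} {KN : List (List ℕ)} {tN : List ℕ}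
    (hcap : Caps S M Xs XT (cx φ d) (cT φ d M)) (hT : TabsN S d M KN tN)
    (hrow : rowsN S CN CD XT Xs Us mU KN tN = true) (hU : Us.length = M + 1) :
    ∀ i ≤ M, φ (i * d) ≤ (Us.getD i 0 : ℝ) / S := by
  have hs := exists_sys hB hc0 h hd M
  have hl := hcap.len
  have hmass : ∑ j ∈ Finset.range Xs.length, cx φ d j ^ 4 + cT φ d M ^ 4 = 1 / 2 := by
    rw [hl]
    linarith [hs.mass]
  have key := rowsN_sound (XT := XT) hS hCN hCD (Xs := Xs) hc (x := cx φ d) (xT := cT φ d M)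
    (fun j _ => hs.nonneg j) (fun j hj => hcap.cell j (hl ▸ hj)) hs.nonnegT hcap.tail hmass
    Us mU KN tN (fun i j => nu d (if i ≤ j then j - i else i - j - 1) + nu d (i + j))
    (fun i => nut d (M - i) + nut d (M + i)) (fun i => φ (i * d)) hrow
    (fun r hr => hl ▸ hT.lenK r hr)
    (fun i hi j hj => hT.cell i (by omega) j (hl ▸ hj))
    (fun i hi => hT.tail i (by omega))
    (fun i hi => by
      rw [hl]
      exact node hc0 h hd M i (by omega))
    (fun i _ => (h.pos _).le)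
  intro i hi
  exact key i (by omega)

/-- **Uniqueness of the even solution.** -/
theorem uniq_sound {c : ℝ} {φ ψ : ℝ → ℝ} (hB : BB (ENNReal.ofReal c)) (hc0 : 0 < c)
    (h : EExt c φ) (h' : EExt c ψ)
    {S CN CD LN LD M XT K0 A B uM : ℕ} (hS : 0 < S) (hCN : 0 < CN) (hCD : 0 < CD)
    (hLD : 0 < LD) (hBp : 0 < B) (hBA : B < A) (hc : (CN : ℝ) ≤ c * CD)
    {Xs Us mU bs KH : List ℕ} {KN : List (List ℕ)} {tN : List ℕ}
    (hcap : Caps S M Xs XT (cx φ (Real.log ((A : ℝ) / B))) (cT φ (Real.log ((A : ℝ) / B)) M))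
    (hcap' : Caps S M Xs XT (cx ψ (Real.log ((A : ℝ) / B))) (cT ψ (Real.log ((A : ℝ) / B)) M))
    (hT : TabsN S (Real.log ((A : ℝ) / B)) M KN tN)
    (hrow : rowsN S CN CD XT Xs Us mU KN tN = true) (hU : Us.length = M + 1)
    (hH : chkH S A B (K0 :: KH) 1 1 = true) (hbl : bs.length = M)
    (hb : chkB S CN CD LN LD K0 bs (K0 :: KH) Us = true)
    (huM : Us.getD M 0 = uM) {N dp : ℝ} (hN0 : 0 ≤ N)
    (h16 : 16 * ((uM : ℝ) / S) ^ 2 < (CN : ℝ) / CD)
    (hN : 1.41422 * ((uM : ℝ) / S) ≤ N * (1 - 16 * ((uM : ℝ) / S) ^ 2 / ((CN : ℝ) / CD)))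
    (hdp : Real.log ((A : ℝ) / B) ≤ dp)
    (hfin : 2 * (dp * ((bs.sum : ℕ) : ℝ) / S + (3 / 2 * ((K0 : ℝ) / S) +
      (LN : ℝ) / LD * ((uM : ℝ) / S) ^ 2) * (8 * N ^ 2)) - 2 * ((LN : ℝ) / LD) <
        (CN : ℝ) / CD) : φ = ψ := by
  have hS' : (0 : ℝ) < S := by exact_mod_cast hS
  have hCD' : (0 : ℝ) < CD := by exact_mod_cast hCD
  have hCN' : (0 : ℝ) < CN := by exact_mod_cast hCN
  have hLD' : (0 : ℝ) < LD := by exact_mod_cast hLD
  have hB' : (0 : ℝ) < B := by exact_mod_cast hBp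
  have hBA' : (B : ℝ) < A := by exact_mod_cast hBA
  set d : ℝ := Real.log ((A : ℝ) / B) with hdd
  have hd : 0 < d := Real.log_pos (by rw [one_lt_div hB']; exact hBA')
  have hcm : (CN : ℝ) / CD ≤ c := by
    rw [div_le_iff₀ hCD']
    exact hc
  have hcm0 : (0 : ℝ) < (CN : ℝ) / CD := by positivity
  have n1 := node_le hB hc0 h hS hCN hCD hc hd hcap hT hrow hU
  have n2 := node_le hB hc0 h' hS hCN hCD hc hd hcap' hT hrow hU
  -- decay
  have hdec : ∀ χ : ℝ → ℝ, EExt c χ → χ (M * d) ≤ (uM : ℝ) / S →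
      ∀ x, M * d ≤ x → χ x ≤ N * Real.exp (-(x - M * d) / 8) := by
    intro χ hχ hχM
    have hpos := hχ.pos (M * d)
    have hsq : χ (M * d) ^ 2 ≤ ((uM : ℝ) / S) ^ 2 := by gcongr
    apply hχ.decay hc0 (by positivity)
    · linarith
    · have hsqrt : Real.sqrt 2 ≤ 1.41422 := by
        rw [Real.sqrt_le_left (by norm_num)]
        norm_num
      have h1 : 16 * ((uM : ℝ) / S) ^ 2 / c ≤ 16 * ((uM : ℝ) / S) ^ 2 / ((CN : ℝ) / CD) := by
        gcongr
      have h2 : N * (1 - 16 * ((uM : ℝ) / S) ^ 2 / ((CN : ℝ) / CD)) ≤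
          N * (1 - 16 * χ (M * d) ^ 2 / c) := by
        apply mul_le_mul_of_nonneg_left _ hN0
        have : 16 * χ (M * d) ^ 2 / c ≤ 16 * ((uM : ℝ) / S) ^ 2 / c := by gcongr
        linarith
      have h3 : Real.sqrt 2 * χ (M * d) ≤ 1.41422 * ((uM : ℝ) / S) := by gcongr
      calc Real.sqrt 2 * c * χ (M * d) = c * (Real.sqrt 2 * χ (M * d)) := by ring
        _ ≤ c * (N * (1 - 16 * χ (M * d) ^ 2 / c)) := by
            apply mul_le_mul_of_nonneg_left _ hc0.le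
            linarith
        _ = N * (c - 16 * χ (M * d) ^ 2) := by field_simp
  have d1 := hdec φ h (by rw [← huM]; exact n1 M le_rfl)
  have d2 := hdec ψ h' (by rw [← huM]; exact n2 M le_rfl)
  have hMd : 0 ≤ (M : ℝ) * d := by positivity
  -- the trace
  have hHs := chkH_sound hS hBp hBA.le (K0 :: KH) 0 (by simpa using hH)
  simp only [zero_add] at hHs
  have hBs := chkB_sound (K0 := K0) hS hCD hLD bs (K0 :: KH) Us hb
  have hK0 : Kk 0 ≤ (K0 : ℝ) / S := by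
    have := hHs 0 (by simp)
    simpa using this
  have hth := theta_bound (l := (LN : ℝ) / LD) h h' hcm (by positivity) hd M
    (U := fun j => (Us.getD j 0 : ℝ) / S)
    (k := fun j => ((K0 + (K0 :: KH).getD j 0 : ℕ) : ℝ) / (2 * S))
    (B := fun j => (bs.getD j 0 : ℝ) / S) (fun j hj => n1 j hj) (fun j hj => n2 j hj)
    (fun j hj => by
      obtain ⟨e1, _, _⟩ := hBs j (hbl.symm ▸ hj)
      have e2 := hHs j e1
      rw [← hdd] at e2
      push_cast
      calc (Kk 0 + Kk (2 * (j * d))) / 2 ≤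
          ((K0 : ℝ) / S + (((K0 :: KH).getD j 0 : ℕ) : ℝ) / S) / 2 := by linarith
        _ = _ := by field_simp)
    (fun j hj => (hBs j (hbl.symm ▸ hj)).2.2) d1 d2
  refine eq_of_trace hc0 h h' (sq_integrable h hMd d1) (sq_integrable h' hMd d2) ?_
  refine lt_of_le_of_lt hth (lt_of_lt_of_le ?_ hcm)
  refine lt_of_le_of_lt ?_ hfin
  have hsum : ∑ j ∈ Finset.range M, (bs.getD j 0 : ℝ) / S = ((bs.sum : ℕ) : ℝ) / S := by
    rw [← Finset.sum_div]
    congr 1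
    rw [← hbl]
    have : ∀ l : List ℕ, ((l.sum : ℕ) : ℝ) = ∑ j ∈ Finset.range l.length, (l.getD j 0 : ℝ) := by
      intro l
      induction l with
      | nil => simp
      | cons a l ih =>
        rw [List.length_cons, Finset.sum_range_succ', List.sum_cons, Nat.cast_add, ih]
        simp [add_comm]
    exact (this bs).symm
  rw [hsum, huM]
  have e1 : d * (((bs.sum : ℕ) : ℝ) / S) ≤ dp * ((bs.sum : ℕ) : ℝ) / S := by
    rw [mul_div_assoc]
    gcongr
  have e2 : (3 / 2 * Kk 0 + (LN : ℝ) / LD * ((uM : ℝ) / S) ^ 2) * (8 * N ^ 2) ≤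
      (3 / 2 * ((K0 : ℝ) / S) + (LN : ℝ) / LD * ((uM : ℝ) / S) ^ 2) * (8 * N ^ 2) := by
    gcongr
  linarith

/-- Uniqueness up to translation. -/
theorem uniq_shift {c : ℝ} {φ : ℝ → ℝ} (hB : BB (ENNReal.ofReal c)) (hc0 : 0 < c)
    (hu : ∀ ψ, EExt c ψ → φ = ψ) {χ : ℝ → ℝ} (hχ : Ext c χ) :
    ∃ a, ∀ s, χ s = φ (a + s) := by
  obtain ⟨b, hb⟩ := hχ.center hB hc0
  have h1 := hu _ hb
  refine ⟨-b, fun s => ?_⟩
  have := congrFun h1 (-b + s)
  rw [this]
  congr 1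
  ring

end Pool.Agent.ENC
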