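import Mathlib
import Pool.Agent.ENC.Unq5
import Pool.Agent.ENC.DV

set_option autoImplicit false

/-!
# The second finite check is passed
-/

open MeasureTheory Set Filter Topology MPdbfb19
open scoped ENNReal

namespace Pool.Agent.ENC.DV

theorem tab : chkTab 1000000 5 4 60 K T 1238 KE tE = true := by
  decide +kernel

theorem st1 : stepE 1000000 1546 1000 1238 KE tE (List.replicate 60 840897) 840897 X1 404393 m1 830000 = true := by
  decide +kernel

theorem st2 : stepE 1000000 1546 1000 1238 KE tE X1 404393 X2 172508 m2 120000 = true := by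
  decide +kernel

theorem st3 : stepE 1000000 1546 1000 1238 KE tE X2 172508 X3 92306 m3 100000 = true := by
  decide +kernel

theorem st4 : stepE 1000000 1546 1000 1238 KE tE X3 92306 X4 66602 m4 90000 = true := by
  decide +kernel

theorem st5 : stepE 1000000 1546 1000 1238 KE tE X4 66602 X5 60521 m5 90000 = true := by
  decide +kernel

theorem st6 : stepE 1000000 1546 1000 1238 KE tE X5 60521 X6 58619 m6 90000 = true := by
  decide +kernel

theorem st7 : stepE 1000000 1546 1000 1238 KE tE X6 58619 X7 57862 m7 80000 = true := by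
  decide +kernel

theorem st8 : stepE 1000000 1546 1000 1238 KE tE X7 57862 X8 57528 m8 80000 = true := by
  decide +kernel

theorem tabN : chkTabN 1000000 5 4 60 NU NT KN tN = true := by
  decide +kernel

theorem rowN : rowsN 1000000 1546 1000 57528 X8 U mU KN tN = true := by
  decide +kernel

theorem lenU : U.length = 60 + 1 := by
  decide +kernel

theorem lenB : Bs.length = 60 := by
  decide +kernel

theorem kh : chkH 1000000 5 4 (707107 :: KH) 1 1 = true := by
  decide +kernel

theorem cb : chkB 1000000 1546 1000 13 10 707107 Bs (707107 :: KH) U = true := by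
  decide +kernel

theorem lastU : U.getD 60 0 = 57232 := by
  decide +kernel

theorem sumB : Bs.sum = 8402781 := by
  decide +kernel

attribute [local irreducible] stepE chkTab chkTabN rowsN chkH chkB K T tE KE KN tN U mU KH Bs NU NT

/-- The caps of an even solution. -/
theorem caps {c : ℝ} {φ : ℝ → ℝ} (hB : BB (ENNReal.ofReal c)) (hc0 : 0 < c)
    (hc : ((1546 : ℕ) : ℝ) ≤ c * ((1000 : ℕ) : ℝ)) (h : EExt c φ) :
    Caps 1000000 60 X8 57528 (cx φ (Real.log (((5 : ℕ) : ℝ) / ((4 : ℕ) : ℝ))))
      (cT φ (Real.log (((5 : ℕ) : ℝ) / ((4 : ℕ) : ℝ))) 60) := by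
  have hd : 0 < Real.log (((5 : ℕ) : ℝ) / ((4 : ℕ) : ℝ)) := Real.log_pos (by norm_num)
  have hs := exists_sys hB hc0 h hd 60
  have hS : 0 < 1000000 := by norm_num
  have hCN : 0 < 1546 := by norm_num
  have hCD : 0 < 1000 := by norm_num
  have hT := tab_sound hS (by norm_num : 0 < 4) (by norm_num : 4 ≤ 5) tab
  have h0 := caps_init hS (X := 840897) (by norm_num) hs
  have h1 := step_sound hS hCN hCD hc hT hs h0 st1
  have h2 := step_sound hS hCN hCD hc hT hs h1 st2
  have h3 := step_sound hS hCN hCD hc hT hs h2 st3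
  have h4 := step_sound hS hCN hCD hc hT hs h3 st4
  have h5 := step_sound hS hCN hCD hc hT hs h4 st5
  have h6 := step_sound hS hCN hCD hc hT hs h5 st6
  have h7 := step_sound hS hCN hCD hc hT hs h6 st7
  have h8 := step_sound hS hCN hCD hc hT hs h7 st8
  exact h8

/-- **Uniqueness of the even solution.** -/
theorem uniq {c : ℝ} (hB : BB (ENNReal.ofReal c)) (hc0 : 0 < c) (hc : (1546 : ℝ) / 1000 ≤ c)
    {φ ψ : ℝ → ℝ} (h : EExt c φ) (h' : EExt c ψ) : φ = ψ := by
  have hc' : ((1546 : ℕ) : ℝ) ≤ c * ((1000 : ℕ) : ℝ) := by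
    rw [div_le_iff₀ (by norm_num)] at hc
    exact_mod_cast hc
  have hT := tabN_sound (by norm_num : 0 < 1000000) (by norm_num : 0 < 4) (by norm_num : 4 ≤ 5) tabN
  have hdp : Real.log (((5 : ℕ) : ℝ) / ((4 : ℕ) : ℝ)) ≤ 43 / 192 := by
    have := log_le3 (t := 1 / 4) (by norm_num)
    have e : (((5 : ℕ) : ℝ) / ((4 : ℕ) : ℝ)) = 1 + 1 / 4 := by norm_num
    rw [e]
    refine this.trans ?_
    norm_num
  refine uniq_sound hB hc0 h h' (S := 1000000) (CN := 1546) (CD := 1000) (LN := 13) (LD := 10)
    (K0 := 707107) (A := 5) (B := 4) (uM := 57232) (N := 83779 / 1000000) (dp := 43 / 192)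
    (by norm_num) (by norm_num) (by norm_num) (by norm_num) (by norm_num) (by norm_num) hc'
    (caps hB hc0 hc' h) (caps hB hc0 hc' h') hT rowN lenU kh lenB cb lastU (by norm_num) ?_ ?_
    hdp ?_
  · norm_num
  · norm_num
  · rw [sumB]
    norm_num

end Pool.Agent.ENC.DV
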