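import Mathlib
import Pool.Agent.ENC.Exi
import Pool.Agent.ENC.Evn
import Pool.Agent.ENC.Blk2
import Pool.Agent.ENC.DUC
import Pool.Agent.ENC.DL

set_option autoImplicit false

/-!
# The enclosure of the constant
-/

open MeasureTheory Set Filter Topology MPdbfb19
open scoped ENNReal

namespace Pool.Agent.ENC

/-- **Upper bound.** -/
theorem upper {c : ℝ} (hc : IsLeast {C : ℝ | ValidI C} c) (hc0 : 0 < c) : c < 15464 / 10000 := by
  by_contra hcon
  push Not at hcon
  have hB := BB_of_validI hc0.le hc.1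
  obtain ⟨φ, hφ⟩ := exists_ext hc hc0
  obtain ⟨a, ha⟩ := hφ.center hB hc0
  have hd : 0 < Real.log ((16 : ℝ) / 15) := Real.log_pos (by norm_num)
  exact DU.no_sys hcon (exists_sys hB hc0 ha hd 155)

theorem lower' {c : ℝ} (hc : IsLeast {C : ℝ | ValidI C} c) (hc0 : 0 < c) : 15463 / 10000 < c :=
  DL.lower (BB_of_validI hc0.le hc.1) hc0

end Pool.Agent.ENC
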