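import Mathlib
import Pool.Agent.ENC.Base

set_option autoImplicit false

/-!
# Lower bounds of the constant from even step functions
-/

open MeasureTheory Set Filter Topology MPdbfb19
open scoped ENNReal

namespace Pool.Agent.ENC

theorem low1_Kr (s : ℝ) : Kr s = (2 * Real.cosh (s / 2))⁻¹ := by
  unfold Kr
  rw [Real.cosh_eq]
  congr 1
  ring

theorem low1_Kr_sq (v : ℝ) : Kr v ^ 2 = (2 * (1 + Real.cosh v))⁻¹ := by
  rw [low1_Kr, inv_pow]
  congr 1
  have h1 : Real.cosh v = Real.cosh (v / 2) ^ 2 + Real.sinh (v / 2) ^ 2 := by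
    rw [← Real.cosh_two_mul]
    congr 1
    ring
  have h2 := Real.cosh_sq (v / 2)
  rw [h1, mul_pow]
  linarith

theorem low1_Kr_mul (v u : ℝ) :
    Kr (v + u) * Kr (v - u) = (2 * (Real.cosh v + Real.cosh u))⁻¹ := by
  rw [low1_Kr, low1_Kr, ← mul_inv]
  congr 1
  have e1 : (v + u) / 2 = v / 2 + u / 2 := by ring
  have e2 : (v - u) / 2 = v / 2 - u / 2 := by ring
  rw [e1, e2, Real.cosh_add, Real.cosh_sub]
  have h1 : Real.cosh v = Real.cosh (v / 2) ^ 2 + Real.sinh (v / 2) ^ 2 := by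
    rw [← Real.cosh_two_mul]
    congr 1
    ring
  have h1' : Real.cosh u = Real.cosh (u / 2) ^ 2 + Real.sinh (u / 2) ^ 2 := by
    rw [← Real.cosh_two_mul]
    congr 1
    ring
  have h2 := Real.cosh_sq (v / 2)
  have h2' := Real.cosh_sq (u / 2)
  rw [h1, h1']
  set A := Real.cosh (v / 2)
  set B := Real.sinh (v / 2)
  set C := Real.cosh (u / 2)
  set D := Real.sinh (u / 2)
  have h3 : A ^ 2 = B ^ 2 + 1 := h2
  have h4 : C ^ 2 = D ^ 2 + 1 := h2'
  have h5 : 2 * (A * C + B * D) * (2 * (A * C - B * D)) = 4 * (A ^ 2 * C ^ 2 - B ^ 2 * D ^ 2) := by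
    ring
  rw [h5, h3, h4]
  ring

theorem low1_poly {x : ℝ} (h0 : 0 ≤ x) (h4 : x ≤ 4) : (1 - x / 4) ^ 4 * (1 + x) ≤ 1 := by
  have h1 : 1 - x / 4 ≤ Real.exp (-(x / 4)) := by
    have := Real.add_one_le_exp (-(x / 4))
    linarith
  have h2 : (1 - x / 4) ^ 4 ≤ Real.exp (-x) := by
    have h3 := pow_le_pow_left₀ (by linarith : 0 ≤ 1 - x / 4) h1 4
    rw [← Real.exp_nat_mul] at h3
    refine h3.trans (le_of_eq ?_)
    congr 1
    push_cast
    ring
  have h3 : 1 + x ≤ Real.exp x := by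
    have := Real.add_one_le_exp x
    linarith
  calc (1 - x / 4) ^ 4 * (1 + x) ≤ Real.exp (-x) * Real.exp x :=
        mul_le_mul h2 h3 (by linarith) (Real.exp_pos _).le
    _ = 1 := by
      rw [← Real.exp_add]
      simp

/-- `K(v+u) + K(v-u) ≥ 2 K(v) (1 - (cosh u - 1) / (4 (1 + cosh v)))`.

Proof. `Kk x ^ 4 = Kr x ^ 2 = 1 / (2 (1 + cosh x))` (`(2 cosh (x/2)) ^ 2 = 2 (1 + cosh x)`).
`(K(v+u) K(v-u)) ^ 4 = 1 / (4 (1 + cosh (v+u)) (1 + cosh (v-u))) = 1 / (2 (cosh v + cosh u)) ^ 2`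
(`4 cosh ((v+u)/2) cosh ((v-u)/2) = 2 (cosh v + cosh u)`). By AM-GM
`K(v+u) + K(v-u) ≥ 2 (K(v+u) K(v-u)) ^ (1/2)`, and the fourth power of
`(K(v+u) K(v-u)) ^ (1/2) / K(v)` is `(1 + cosh v) / (cosh v + cosh u) = 1 / (1 + x)` with
`x = (cosh u - 1) / (1 + cosh v) ≥ 0`; and `(1 - x/4) ^ 4 ≤ 1 / (1 + x)` if `x ≤ 4` (Bernoulli:
`(1 + x) ≤ (1 - x/4)⁻¹ ^ 4`, as `(1 - x/4) ^ 4 (1 + x) ≤ 1` by AM-GM or `(1 - x/4) ≤ exp (-x/4)`,
`1 + x ≤ exp x`); if `x > 4` the right side of the claim is negative. -/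
theorem Kk_avg (v u : ℝ) :
    2 * Kk v * (1 - (Real.cosh u - 1) / (4 * (1 + Real.cosh v))) ≤ Kk (v + u) + Kk (v - u) := by
  set x := (Real.cosh u - 1) / (1 + Real.cosh v) with hx
  have hv : 0 < 1 + Real.cosh v := by
    have := Real.cosh_pos v
    linarith
  have hx0 : 0 ≤ x := div_nonneg (by linarith [Real.one_le_cosh u]) hv.le
  have e1 : (Real.cosh u - 1) / (4 * (1 + Real.cosh v)) = x / 4 := by
    rw [hx]
    field_simp
  rw [e1]
  have hA := Kk_pos (v + u)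
  have hB := Kk_pos (v - u)
  have hK := Kk_pos v
  rcases le_or_gt x 4 with h4 | h4
  swap
  · have h5 : 2 * Kk v * (1 - x / 4) ≤ 0 :=
      mul_nonpos_of_nonneg_of_nonpos (by linarith) (by linarith)
    linarith
  have hcu : Real.cosh u = 1 + x * (1 + Real.cosh v) := by
    rw [hx, div_mul_cancel₀ _ hv.ne']
    ring
  have h1 : (Kk v ^ 2 * (1 - x / 4) ^ 2) ^ 2 ≤ (Kk (v + u) * Kk (v - u)) ^ 2 := by
    rw [mul_pow (Kk (v + u)), Kk_sq, Kk_sq, Kk_sq, low1_Kr_mul, mul_pow, low1_Kr_sq, hcu]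
    have e2 : Real.cosh v + (1 + x * (1 + Real.cosh v)) = (1 + Real.cosh v) * (1 + x) := by ring
    rw [e2, ← pow_mul]
    have h6 := low1_poly hx0 h4
    have h7 : 0 < 1 + x := by linarith
    have h8 : 0 < 2 * (1 + Real.cosh v) := by linarith
    have e3 : 2 * ((1 + Real.cosh v) * (1 + x)) = 2 * (1 + Real.cosh v) * (1 + x) := by ring
    rw [e3, mul_inv (2 * (1 + Real.cosh v)) (1 + x)]
    refine mul_le_mul_of_nonneg_left ?_ (inv_pos.2 h8).le
    rw [← one_div, le_div_iff₀ h7]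
    exact h6
  have h2 : Kk v ^ 2 * (1 - x / 4) ^ 2 ≤ Kk (v + u) * Kk (v - u) :=
    le_of_sq_le_sq h1 (mul_pos hA hB).le
  have h3 : (2 * Kk v * (1 - x / 4)) ^ 2 ≤ (Kk (v + u) + Kk (v - u)) ^ 2 := by
    have h8 : 0 ≤ (Kk (v + u) - Kk (v - u)) ^ 2 := sq_nonneg _
    nlinarith [h2, h8]
  exact le_of_sq_le_sq h3 (by linarith)

theorem low1_cosh {u d : ℝ} (hd : 0 < d) (hu : |u| ≤ d) :
    Real.cosh u - 1 ≤ (Real.cosh d - 1) / d ^ 2 * u ^ 2 := by
  have hs : ∀ r : ℝ, HasSum (fun n : ℕ => r ^ (2 * (n + 1)) / ((2 * (n + 1)).factorial : ℝ))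
      (Real.cosh r - 1) := by
    intro r
    have h1 := (hasSum_nat_add_iff' 1).2 (Real.hasSum_cosh r)
    simpa using h1
  have h2 := (hs d).mul_left (u ^ 2)
  have h3 := (hs u).mul_left (d ^ 2)
  have h4 : d ^ 2 * (Real.cosh u - 1) ≤ u ^ 2 * (Real.cosh d - 1) := by
    refine hasSum_le (fun n => ?_) h3 h2
    rw [← mul_div_assoc, ← mul_div_assoc]
    refine div_le_div_of_nonneg_right ?_ (Nat.cast_nonneg _)
    have e1 : d ^ 2 * u ^ (2 * (n + 1)) = d ^ 2 * u ^ 2 * (u ^ 2) ^ n := by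
      rw [pow_mul, pow_succ]
      ring
    have e2 : u ^ 2 * d ^ (2 * (n + 1)) = d ^ 2 * u ^ 2 * (d ^ 2) ^ n := by
      rw [pow_mul, pow_succ]
      ring
    rw [e1, e2]
    refine mul_le_mul_of_nonneg_left ?_ (by positivity)
    refine pow_le_pow_left₀ (sq_nonneg _) ?_ n
    rw [← sq_abs u]
    exact pow_le_pow_left₀ (abs_nonneg _) hu 2
  have hd2 : 0 < d ^ 2 := by positivity
  rw [div_mul_eq_mul_div, le_div_iff₀ hd2]
  linarith

theorem low1_swap (m d : ℝ) :
    (∫ s in (0 : ℝ)..d, ∫ t in (0 : ℝ)..d, Kk (m + (s - t))) =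
      ∫ s in (0 : ℝ)..d, ∫ t in (0 : ℝ)..d, Kk (m - (s - t)) := by
  have h1 := intervalIntegral.integral_comp_sub_left (a := 0) (b := d)
    (fun s : ℝ => ∫ t in (0 : ℝ)..d, Kk (m + (s - t))) d
  rw [sub_self, sub_zero] at h1
  rw [← h1]
  congr 1
  funext s
  have h2 := intervalIntegral.integral_comp_sub_left (a := 0) (b := d)
    (fun t : ℝ => Kk (m + (d - s - t))) d
  rw [sub_self, sub_zero] at h2
  rw [← h2]
  congr 1
  funext t
  congr 1
  ring

theorem low1_in (A C s d : ℝ) :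
    (∫ t in (0 : ℝ)..d, A * (1 - C * (s - t) ^ 2)) =
      A * (d - C * (s ^ 3 - (s - d) ^ 3) / 3) := by
  have h1 : ∀ t ∈ uIcc (0 : ℝ) d, HasDerivAt (fun t : ℝ => A * (t + C * (s - t) ^ 3 / 3))
      (A * (1 - C * (s - t) ^ 2)) t := by
    intro t _
    have h2 : HasDerivAt (fun t : ℝ => s - t) (-1) t := by
      simpa using (hasDerivAt_id t).const_sub s
    have h3 := ((h2.pow 3).const_mul C).div_const 3
    have h4 := ((hasDerivAt_id t).add h3).const_mul A
    refine h4.congr_deriv ?_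
    push_cast
    ring
  rw [intervalIntegral.integral_eq_sub_of_hasDerivAt h1
    (Continuous.intervalIntegrable (by fun_prop) _ _)]
  ring

theorem low1_out (A C d : ℝ) :
    (∫ s in (0 : ℝ)..d, A * (d - C * (s ^ 3 - (s - d) ^ 3) / 3)) =
      A * (d ^ 2 - C * d ^ 4 / 6) := by
  have h1 : ∀ s ∈ uIcc (0 : ℝ) d, HasDerivAt
      (fun s : ℝ => A * (d * s - C * (s ^ 4 - (s - d) ^ 4) / 12))
      (A * (d - C * (s ^ 3 - (s - d) ^ 3) / 3)) s := by
    intro s _
    have h2 : HasDerivAt (fun s : ℝ => s - d) 1 s := by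
      simpa using (hasDerivAt_id s).sub_const d
    have h3 := ((((hasDerivAt_id s).pow 4).sub (h2.pow 4)).const_mul C).div_const 12
    have h4 := (((hasDerivAt_id s).const_mul d).sub h3).const_mul A
    refine h4.congr_deriv ?_
    simp only [id]
    push_cast
    ring
  rw [intervalIntegral.integral_eq_sub_of_hasDerivAt h1
    (Continuous.intervalIntegrable (by fun_prop) _ _)]
  ring

/-- The average of `K` over a pair of cells.

Proof. The substitution `(s, t) ↦ (d - s, d - t)` shows that the integral equals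
`1/2 ∬ (K(nd + s - t) + K(nd - (s - t)))`; use `Kk_avg` with `u = s - t`, `|u| ≤ d`,
`cosh u - 1 ≤ (cosh d - 1) u² / d²` (`(cosh u - 1) / u²` is nondecreasing in `|u|`: e.g.
`cosh u - 1 = ∑ u^{2k}/(2k)!`, `u^{2k} ≤ u² d^{2k-2}`), and `∬ (s - t)² = d⁴ / 6`. -/
theorem Kk_cell {d : ℝ} (hd : 0 < d) (n : ℕ) :
    d ^ 2 * (Kk (n * d) * (1 - (Real.cosh d - 1) / (24 * (1 + Real.cosh (n * d))))) ≤
      ∫ s in (0 : ℝ)..d, ∫ t in (0 : ℝ)..d, Kk (n * d + (s - t)) := by
  set m : ℝ := n * d with hm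
  set C : ℝ := (Real.cosh d - 1) / d ^ 2 / (4 * (1 + Real.cosh m)) with hC
  have hv : 0 < 1 + Real.cosh m := by
    have := Real.cosh_pos m
    linarith
  have hc1 : Continuous (fun p : ℝ × ℝ => Kk (m + (p.1 - p.2))) := Kk_cont.comp (by fun_prop)
  have hc2 : Continuous (fun p : ℝ × ℝ => Kk (m - (p.1 - p.2))) := Kk_cont.comp (by fun_prop)
  have hi1 : Continuous (fun s : ℝ => ∫ t in (0 : ℝ)..d, Kk (m + (s - t))) :=
    intervalIntegral.continuous_parametric_intervalIntegral_of_continuous' hc1 0 d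
  have hi2 : Continuous (fun s : ℝ => ∫ t in (0 : ℝ)..d, Kk (m - (s - t))) :=
    intervalIntegral.continuous_parametric_intervalIntegral_of_continuous' hc2 0 d
  have h1 : (∫ s in (0 : ℝ)..d, (2 * Kk m) * (d - C * (s ^ 3 - (s - d) ^ 3) / 3)) ≤
      ∫ s in (0 : ℝ)..d, ((∫ t in (0 : ℝ)..d, Kk (m + (s - t))) +
        ∫ t in (0 : ℝ)..d, Kk (m - (s - t))) := by
    refine intervalIntegral.integral_mono_on hd.le
      (Continuous.intervalIntegrable (by fun_prop) _ _)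
      ((hi1.add hi2).intervalIntegrable _ _) fun s hs => ?_
    rw [← low1_in, ← intervalIntegral.integral_add]
    · refine intervalIntegral.integral_mono_on hd.le
        (Continuous.intervalIntegrable (by fun_prop) _ _)
        (Continuous.intervalIntegrable ?_ _ _) fun t ht => ?_
      · exact (hc1.comp (by fun_prop : Continuous fun t : ℝ => (s, t))).add
          (hc2.comp (by fun_prop : Continuous fun t : ℝ => (s, t)))
      · refine le_trans ?_ (Kk_avg m (s - t))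
        refine mul_le_mul_of_nonneg_left ?_ (by linarith [Kk_pos m])
        have h3 : |s - t| ≤ d := by
          rw [abs_le]
          constructor <;> linarith [hs.1, hs.2, ht.1, ht.2]
        have h4 := low1_cosh hd h3
        have h5 : (Real.cosh (s - t) - 1) / (4 * (1 + Real.cosh m)) ≤ C * (s - t) ^ 2 := by
          rw [hC, div_mul_eq_mul_div]
          exact div_le_div_of_nonneg_right h4 (by linarith)
        linarith
    · exact (hc1.comp (by fun_prop : Continuous fun t : ℝ => (s, t))).intervalIntegrable _ _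
    · exact (hc2.comp (by fun_prop : Continuous fun t : ℝ => (s, t))).intervalIntegrable _ _
  rw [low1_out, intervalIntegral.integral_add (hi1.intervalIntegrable _ _)
    (hi2.intervalIntegrable _ _), ← low1_swap] at h1
  have h6 : 2 * Kk m * (d ^ 2 - C * d ^ 4 / 6) =
      2 * (d ^ 2 * (Kk m * (1 - (Real.cosh d - 1) / (24 * (1 + Real.cosh m))))) := by
    rw [hC]
    have hd0 : d ≠ 0 := hd.ne'
    field_simp
    ring
  rw [h6] at h1
  linarith

end Pool.Agent.ENC
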