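import Mathlib
import Pool.Agent.ENC.Low1

set_option autoImplicit false

/-!
# Lower bounds of the constant from even step functions
-/

open MeasureTheory Set Filter Topology MPdbfb19
open scoped ENNReal

namespace Pool.Agent.ENC

private lemma low2_mem {d : ℝ} (hd : 0 < d) (p : ℤ) (s : ℝ) :
    s ∈ Ioc ((p : ℝ) * d) (((p : ℝ) + 1) * d) ↔ ⌈s / d⌉ - 1 = p := by
  rw [sub_eq_iff_eq_add, Int.ceil_eq_iff, mem_Ioc, lt_div_iff₀ hd, div_le_iff₀ hd]
  push_cast
  rw [add_sub_cancel_right]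

private lemma low2_split {d : ℝ} (hd : 0 < d) (M : ℕ) (H : ℤ → ℝ≥0∞)
    (hH : ∀ p : ℤ, p < -M ∨ M ≤ p → H p = 0) (s : ℝ) :
    H (⌈s / d⌉ - 1) = ∑ j ∈ Finset.range M,
      (indicator (Ioc (((j : ℤ) : ℝ) * d) ((((j : ℤ) : ℝ) + 1) * d)) (fun _ => H j) s +
        indicator (Ioc (((-j - 1 : ℤ) : ℝ) * d) ((((-j - 1 : ℤ) : ℝ) + 1) * d))
          (fun _ => H (-j - 1)) s) := by
  set p : ℤ := ⌈s / d⌉ - 1 with hp
  have e1 : ∀ q : ℤ, indicator (Ioc ((q : ℝ) * d) (((q : ℝ) + 1) * d)) (fun _ => H q) s =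
      if p = q then H p else 0 := by
    intro q
    by_cases h : p = q
    · rw [if_pos h, indicator_of_mem ((low2_mem hd q s).2 (hp ▸ h)), h]
    · rw [if_neg h, indicator_of_notMem]
      intro h'
      exact h (hp ▸ (low2_mem hd q s).1 h')
  simp_rw [e1]
  rcases le_or_gt 0 p with h0 | h0
  · obtain ⟨k, hk⟩ := Int.eq_ofNat_of_zero_le h0
    have e2 : ∀ j ∈ Finset.range M, ((if p = (j : ℤ) then H p else 0) +
        (if p = -(j : ℤ) - 1 then H p else 0)) = if k = j then H p else 0 := by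
      intro j _
      have h1 : ¬ p = -(j : ℤ) - 1 := by omega
      rw [if_neg h1, add_zero]
      by_cases h2 : k = j
      · rw [if_pos h2, if_pos (by omega)]
      · rw [if_neg h2, if_neg (by omega)]
    rw [Finset.sum_congr rfl e2, Finset.sum_ite_eq]
    by_cases h3 : k ∈ Finset.range M
    · rw [if_pos h3]
    · rw [if_neg h3]
      rw [Finset.mem_range] at h3
      exact hH p (Or.inr (by omega))
  · obtain ⟨k, hk⟩ := Int.eq_ofNat_of_zero_le (by omega : 0 ≤ -p - 1)
    have e2 : ∀ j ∈ Finset.range M, ((if p = (j : ℤ) then H p else 0) +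
        (if p = -(j : ℤ) - 1 then H p else 0)) = if k = j then H p else 0 := by
      intro j _
      have h1 : ¬ p = (j : ℤ) := by omega
      rw [if_neg h1, zero_add]
      by_cases h2 : k = j
      · rw [if_pos h2, if_pos (by omega)]
      · rw [if_neg h2, if_neg (by omega)]
    rw [Finset.sum_congr rfl e2, Finset.sum_ite_eq]
    by_cases h3 : k ∈ Finset.range M
    · rw [if_pos h3]
    · rw [if_neg h3]
      rw [Finset.mem_range] at h3
      exact hH p (Or.inl (by omega))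

private lemma low2_int {d : ℝ} (hd : 0 < d) (M : ℕ) (H : ℤ → ℝ≥0∞)
    (hH : ∀ p : ℤ, p < -M ∨ M ≤ p → H p = 0) {w : ℝ → ℝ≥0∞} (hw : Measurable w) :
    ∫⁻ s, H (⌈s / d⌉ - 1) * w s = ∑ j ∈ Finset.range M,
      (H j * (∫⁻ s in Ioc (((j : ℤ) : ℝ) * d) ((((j : ℤ) : ℝ) + 1) * d), w s) +
        H (-j - 1) *
          (∫⁻ s in Ioc (((-j - 1 : ℤ) : ℝ) * d) ((((-j - 1 : ℤ) : ℝ) + 1) * d), w s)) := by
  have e1 : ∀ (A : Set ℝ) (a : ℝ≥0∞) (s : ℝ), indicator A (fun _ => a) s * w s =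
      a * indicator A w s := by
    intro A a s
    by_cases h : s ∈ A
    · rw [indicator_of_mem h, indicator_of_mem h]
    · rw [indicator_of_notMem h, indicator_of_notMem h, zero_mul, mul_zero]
  have e2 : ∀ s, H (⌈s / d⌉ - 1) * w s = ∑ j ∈ Finset.range M,
      (H j * indicator (Ioc (((j : ℤ) : ℝ) * d) ((((j : ℤ) : ℝ) + 1) * d)) w s +
        H (-j - 1) * indicator (Ioc (((-j - 1 : ℤ) : ℝ) * d)
          ((((-j - 1 : ℤ) : ℝ) + 1) * d)) w s) := by
    intro s
    rw [low2_split hd M H hH, Finset.sum_mul]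
    refine Finset.sum_congr rfl fun j _ => ?_
    rw [add_mul, e1, e1]
  simp_rw [e2]
  rw [lintegral_finsetSum]
  · refine Finset.sum_congr rfl fun j _ => ?_
    rw [lintegral_add_left ((hw.indicator measurableSet_Ioc).const_mul _),
      lintegral_const_mul _ (hw.indicator measurableSet_Ioc),
      lintegral_const_mul _ (hw.indicator measurableSet_Ioc),
      lintegral_indicator measurableSet_Ioc, lintegral_indicator measurableSet_Ioc]
  · intro j _
    exact ((hw.indicator measurableSet_Ioc).const_mul _).add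
      ((hw.indicator measurableSet_Ioc).const_mul _)

private lemma low2_le {A : Set ℝ} {f : ℝ → ℝ} (hf : ∀ t, 0 ≤ f t) :
    ENNReal.ofReal (∫ t in A, f t) ≤ ∫⁻ t in A, ENNReal.ofReal (f t) := by
  by_cases h : IntegrableOn f A
  · rw [ofReal_integral_eq_lintegral_ofReal h (Eventually.of_forall hf)]
  · rw [integral_undef h, ENNReal.ofReal_zero]
    exact bot_le

private lemma low2_shift {d : ℝ} (p : ℤ) (F : ℝ → ℝ≥0∞) :
    ∫⁻ s in Ioc ((p : ℝ) * d) (((p : ℝ) + 1) * d), F s =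
      ∫⁻ s in Ioc 0 d, F (s + p * d) := by
  rw [← lintegral_indicator measurableSet_Ioc, ← lintegral_indicator measurableSet_Ioc,
    ← lintegral_add_right_eq_self _ ((p : ℝ) * d)]
  refine lintegral_congr fun s => ?_
  by_cases h : s ∈ Ioc 0 d
  · rw [indicator_of_mem h, indicator_of_mem]
    rw [mem_Ioc] at h ⊢
    constructor <;> nlinarith [h.1, h.2]
  · rw [indicator_of_notMem h, indicator_of_notMem]
    intro h'
    apply h
    rw [mem_Ioc] at h' ⊢
    constructor <;> nlinarith [h'.1, h'.2]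

private lemma low2_cell1 {d : ℝ} (hd : 0 < d) (L : ℕ → ℝ)
    (hLn : ∀ n, L n ≤ Kk (n * d) * (1 - (Real.cosh d - 1) / (24 * (1 + Real.cosh (n * d)))))
    (p q : ℤ) {n : ℕ} (hn : p - q = n) :
    ENNReal.ofReal (d ^ 2 * L n) ≤ ∫⁻ s in Ioc ((p : ℝ) * d) (((p : ℝ) + 1) * d),
      ∫⁻ t in Ioc ((q : ℝ) * d) (((q : ℝ) + 1) * d), Ke (s - t) := by
  have h1 : d ^ 2 * L n ≤ ∫ s in (0 : ℝ)..d, ∫ t in (0 : ℝ)..d, Kk (n * d + (s - t)) := by
    refine le_trans ?_ (Kk_cell hd n)
    have := hLn n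
    have hd2 : 0 ≤ d ^ 2 := by positivity
    exact mul_le_mul_of_nonneg_left this hd2
  refine (ENNReal.ofReal_le_ofReal h1).trans ?_
  rw [intervalIntegral.integral_of_le hd.le, low2_shift]
  have e0 : ∀ s : ℝ, ∫⁻ t in Ioc ((q : ℝ) * d) (((q : ℝ) + 1) * d), Ke (s + p * d - t) =
      ∫⁻ t in Ioc 0 d, ENNReal.ofReal (Kk (n * d + (s - t))) := by
    intro s
    rw [low2_shift]
    refine lintegral_congr fun t => ?_
    rw [Ke_eq]
    congr 2
    have h2 : (p : ℝ) - q = n := by exact_mod_cast hn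
    rw [← h2]
    ring
  simp_rw [e0]
  refine (low2_le ?_).trans (lintegral_mono fun s => ?_)
  · intro s
    exact intervalIntegral.integral_nonneg hd.le fun t _ => (Kk_pos _).le
  · rw [intervalIntegral.integral_of_le hd.le]
    exact low2_le fun t => (Kk_pos _).le

private lemma low2_cell {d : ℝ} (hd : 0 < d) (L : ℕ → ℝ)
    (hLn : ∀ n, L n ≤ Kk (n * d) * (1 - (Real.cosh d - 1) / (24 * (1 + Real.cosh (n * d)))))
    (p q : ℤ) {n : ℕ} (hn : |p - q| = n) :
    ENNReal.ofReal (d ^ 2 * L n) ≤ ∫⁻ s in Ioc ((p : ℝ) * d) (((p : ℝ) + 1) * d),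
      ∫⁻ t in Ioc ((q : ℝ) * d) (((q : ℝ) + 1) * d), Ke (s - t) := by
  rcases le_or_gt 0 (p - q) with h | h
  · rw [abs_of_nonneg h] at hn
    exact low2_cell1 hd L hLn p q hn
  · rw [abs_of_neg h] at hn
    have h1 := low2_cell1 hd L hLn q p (n := n) (by omega)
    refine h1.trans (le_of_eq ?_)
    rw [lintegral_lintegral_swap]
    · refine lintegral_congr fun t => lintegral_congr fun s => ?_
      exact Ke_symm _ _
    · exact (Ke_meas.comp (measurable_fst.sub measurable_snd)).aemeasurable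

/-- **Lower bound.** `f = y_j³` on the cells `(j d, (j+1) d]` and `[-(j+1) d, -j d)`, `j < M`.

Proof. `BB` for `φ = ψ = f` (as `ℝ≥0∞`-valued function; e.g. `f s = ofReal (y (⌈|s|/d⌉₊ - 1) ^ 3)`
for `0 < |s| ≤ M d` and `0` otherwise): `NN f = 2 d ∑ y_j ^ 4` and `∫⁻ f * Tt f` is the sum over
pairs of cells of `y_i³ y_j³ ∬_{cell × cell} K`; the pairs of cells `(j, i)` on the same side
contribute `Kk`-integrals with `n = |i - j|`, those on opposite sides with `n = i + j + 1`; every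
one is `≥ d² L(n)` with `L` the factor in `Kk_cell`. So
`2 d² ∑∑ y_i³ y_j³ (L(|i-j|) + L(i+j+1)) ≤ c (2 d ∑ y_j ^ 4) ^ (3/2)`; square. (Here the `L`'s are
`≥ 0`, as `(cosh d - 1)/(24 (1 + cosh (n d))) ≤ 1` by the hypothesis `hL`.) -/
theorem lower_step {c : ℝ} (hB : BB (ENNReal.ofReal c)) (hc0 : 0 ≤ c) {d : ℝ} (hd : 0 < d)
    (hL : Real.cosh d ≤ 2) (M : ℕ) (y L : ℕ → ℝ) (hy : ∀ j, 0 ≤ y j) (hL0 : ∀ n, 0 ≤ L n)
    (hLn : ∀ n, L n ≤ Kk (n * d) * (1 - (Real.cosh d - 1) / (24 * (1 + Real.cosh (n * d))))) :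
    d * (∑ i ∈ Finset.range M, ∑ j ∈ Finset.range M,
      y i ^ 3 * y j ^ 3 * (L (i - j + (j - i)) + L (i + j + 1))) ^ 2 ≤
      2 * c ^ 2 * (∑ j ∈ Finset.range M, y j ^ 4) ^ 3 := by
  set H : ℤ → ℝ≥0∞ := fun p => if p < -M ∨ M ≤ p then 0 else
    if 0 ≤ p then ENNReal.ofReal (y p.toNat ^ 3) else ENNReal.ofReal (y (-p - 1).toNat ^ 3)
    with hHdef
  have hH : ∀ p : ℤ, p < -M ∨ M ≤ p → H p = 0 := by
    intro p hp
    simp only [hHdef]
    rw [if_pos hp]
  have hH1 : ∀ j ∈ Finset.range M, H (j : ℤ) = ENNReal.ofReal (y j ^ 3) := by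
    intro j hj
    rw [Finset.mem_range] at hj
    simp only [hHdef]
    rw [if_neg (by omega), if_pos (by omega)]
    simp
  have hH2 : ∀ j ∈ Finset.range M, H (-(j : ℤ) - 1) = ENNReal.ofReal (y j ^ 3) := by
    intro j hj
    rw [Finset.mem_range] at hj
    simp only [hHdef]
    rw [if_neg (by omega), if_neg (by omega)]
    congr 3
    omega
  set f : ℝ → ℝ≥0∞ := fun s => H (⌈s / d⌉ - 1) with hf
  have hfm : Measurable f := by
    have h1 : Measurable (fun s : ℝ => ⌈s / d⌉ - 1) :=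
      (Int.measurable_ceil.comp (measurable_id.div_const d)).sub_const 1
    exact (measurable_from_top (f := H)).comp h1
  set S4 : ℝ := ∑ j ∈ Finset.range M, y j ^ 4 with hS4
  have hS40 : 0 ≤ S4 := Finset.sum_nonneg fun j _ => by positivity
  set S : ℝ := ∑ i ∈ Finset.range M, ∑ j ∈ Finset.range M,
      y i ^ 3 * y j ^ 3 * (L (i - j + (j - i)) + L (i + j + 1)) with hS
  have hterm : ∀ i j : ℕ, 0 ≤ y i ^ 3 * y j ^ 3 * (L (i - j + (j - i)) + L (i + j + 1)) := by
    intro i j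
    have := hL0 (i - j + (j - i))
    have := hL0 (i + j + 1)
    have := hy i
    have := hy j
    positivity
  have hS0 : 0 ≤ S := Finset.sum_nonneg fun i _ => Finset.sum_nonneg fun j _ => hterm i j
  -- the norm
  have hvol : ∀ p : ℤ, volume (Ioc ((p : ℝ) * d) (((p : ℝ) + 1) * d)) = ENNReal.ofReal d := by
    intro p
    rw [Real.volume_Ioc]
    congr 1
    ring
  have hNN : NN f = ENNReal.ofReal (2 * d * S4) := by
    unfold NN
    have h1 := low2_int hd M (fun p => H p ^ (4 / 3 : ℝ))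
      (fun p hp => by rw [hH p hp]; norm_num) (w := fun _ => 1) measurable_const
    simp only [mul_one] at h1
    have e1 : ∀ s, f s ^ (4 / 3 : ℝ) = H (⌈s / d⌉ - 1) ^ (4 / 3 : ℝ) := fun s => rfl
    simp_rw [e1]
    rw [h1]
    have e2 : ∀ j ∈ Finset.range M,
        (H (j : ℤ) ^ (4 / 3 : ℝ) *
            (∫⁻ _ in Ioc (((j : ℤ) : ℝ) * d) ((((j : ℤ) : ℝ) + 1) * d), 1) +
          H (-(j : ℤ) - 1) ^ (4 / 3 : ℝ) *
            (∫⁻ _ in Ioc (((-j - 1 : ℤ) : ℝ) * d) ((((-j - 1 : ℤ) : ℝ) + 1) * d), 1)) =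
        ENNReal.ofReal (2 * d * y j ^ 4) := by
      intro j hj
      rw [setLIntegral_one, setLIntegral_one, hvol, hvol, hH1 j hj, hH2 j hj,
        ENNReal.ofReal_pow (hy j), cube_rpow, ← ENNReal.ofReal_pow (hy j),
        ← ENNReal.ofReal_mul (by have := hy j; positivity),
        ← ENNReal.ofReal_add (by have := hy j; positivity) (by have := hy j; positivity)]
      congr 1
      ring
    rw [Finset.sum_congr rfl e2, ← ENNReal.ofReal_sum_of_nonneg (fun j _ => by positivity),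
      hS4, Finset.mul_sum]
  -- the form
  have hTf : ∀ s, Tt f s = ∑ j ∈ Finset.range M, (ENNReal.ofReal (y j ^ 3) *
      (∫⁻ t in Ioc (((j : ℤ) : ℝ) * d) ((((j : ℤ) : ℝ) + 1) * d), Ke (s - t)) +
      ENNReal.ofReal (y j ^ 3) *
      ∫⁻ t in Ioc (((-j - 1 : ℤ) : ℝ) * d) ((((-j - 1 : ℤ) : ℝ) + 1) * d), Ke (s - t)) := by
    intro s
    unfold Tt
    have h1 := low2_int hd M H hH (w := fun t => Ke (s - t))
      (Ke_meas.comp (measurable_const.sub measurable_id))
    simp only [hf]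
    rw [h1]
    refine Finset.sum_congr rfl fun j hj => ?_
    rw [hH1 j hj, hH2 j hj]
  have hKm : ∀ (q : ℤ), Measurable (fun s : ℝ =>
      ∫⁻ t in Ioc ((q : ℝ) * d) (((q : ℝ) + 1) * d), Ke (s - t)) := by
    intro q
    have m : Measurable (fun z : ℝ × ℝ => Ke (z.1 - z.2)) :=
      Ke_meas.comp (measurable_fst.sub measurable_snd)
    exact m.lintegral_prod_right'
  have hTint : ∀ (i : ℕ) (p : ℤ), (p = i ∨ p = -(i : ℤ) - 1) → i ∈ Finset.range M →
      ENNReal.ofReal (∑ j ∈ Finset.range M, y j ^ 3 *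
        (d ^ 2 * (L (i - j + (j - i)) + L (i + j + 1)))) ≤
      ∫⁻ s in Ioc ((p : ℝ) * d) (((p : ℝ) + 1) * d), Tt f s := by
    intro i p hp hi
    simp_rw [hTf]
    rw [lintegral_finsetSum]
    rotate_left
    · intro j _
      exact ((hKm _).const_mul _).add ((hKm _).const_mul _)
    rw [ENNReal.ofReal_sum_of_nonneg (fun j _ => by
        have := hL0 (i - j + (j - i))
        have := hL0 (i + j + 1)
        have := hy j
        positivity)]
    refine Finset.sum_le_sum fun j _ => ?_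
    rw [lintegral_add_left ((hKm _).const_mul _), lintegral_const_mul _ (hKm _),
      lintegral_const_mul _ (hKm _), ← mul_add,
      ENNReal.ofReal_mul (by have := hy j; positivity)]
    gcongr
    rw [mul_add, ENNReal.ofReal_add (by have := hL0 (i - j + (j - i)); positivity)
      (by have := hL0 (i + j + 1); positivity)]
    rcases hp with hp | hp
    · refine add_le_add (low2_cell hd L hLn _ _ ?_) (low2_cell hd L hLn _ _ ?_)
      · subst hp
        rcases le_total i j with h | h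
        · rw [abs_of_nonpos (by omega)]; omega
        · rw [abs_of_nonneg (by omega)]; omega
      · subst hp
        rw [abs_of_nonneg (by omega)]; push_cast; ring
    · rw [add_comm]
      refine add_le_add (low2_cell hd L hLn _ _ ?_) (low2_cell hd L hLn _ _ ?_)
      · subst hp
        rw [abs_of_nonpos (by omega)]; push_cast; ring
      · subst hp
        rcases le_total i j with h | h
        · rw [abs_of_nonneg (by omega)]; omega
        · rw [abs_of_nonpos (by omega)]; omega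
  have hform : ENNReal.ofReal (2 * d ^ 2 * S) ≤ ∫⁻ s, f s * Tt f s := by
    have h1 := low2_int hd M H hH (w := Tt f) (Tt_meas hfm)
    have e1 : ∀ s, f s * Tt f s = H (⌈s / d⌉ - 1) * Tt f s := fun s => rfl
    simp_rw [e1]
    rw [h1]
    have e2 : 2 * d ^ 2 * S = ∑ i ∈ Finset.range M, (y i ^ 3 * (∑ j ∈ Finset.range M, y j ^ 3 *
        (d ^ 2 * (L (i - j + (j - i)) + L (i + j + 1)))) +
        y i ^ 3 * (∑ j ∈ Finset.range M, y j ^ 3 *
        (d ^ 2 * (L (i - j + (j - i)) + L (i + j + 1))))) := by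
      rw [hS, Finset.mul_sum]
      refine Finset.sum_congr rfl fun i _ => ?_
      rw [← two_mul, Finset.mul_sum, Finset.mul_sum, Finset.mul_sum]
      refine Finset.sum_congr rfl fun j _ => ?_
      ring
    have hin : ∀ i : ℕ, 0 ≤ ∑ j ∈ Finset.range M, y j ^ 3 *
        (d ^ 2 * (L (i - j + (j - i)) + L (i + j + 1))) := fun i =>
      Finset.sum_nonneg fun j _ => by
        have := hL0 (i - j + (j - i))
        have := hL0 (i + j + 1)
        have := hy j
        positivity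
    rw [e2, ENNReal.ofReal_sum_of_nonneg (fun i _ => by
      have := hin i
      have := hy i
      positivity)]
    refine Finset.sum_le_sum fun i hi => ?_
    rw [ENNReal.ofReal_add (by have := hin i; have := hy i; positivity)
      (by have := hin i; have := hy i; positivity),
      ENNReal.ofReal_mul (by have := hy i; positivity), hH1 i hi, hH2 i hi]
    refine add_le_add ?_ ?_
    · gcongr
      exact hTint i _ (Or.inl rfl) hi
    · gcongr
      exact hTint i _ (Or.inr rfl) hi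
  have hfin : NN f ≠ ∞ := by
    rw [hNN]
    exact ENNReal.ofReal_ne_top
  have h2 := hform.trans (hB f f hfm hfm hfin hfin)
  have hX0 : 0 ≤ 2 * d * S4 := by positivity
  rw [hNN, mul_assoc (ENNReal.ofReal c), ← ENNReal.rpow_add_of_nonneg _ _ (by norm_num) (by norm_num),
    ENNReal.ofReal_rpow_of_nonneg hX0 (by norm_num), ← ENNReal.ofReal_mul hc0,
    ENNReal.ofReal_le_ofReal_iff (by positivity)] at h2
  have h3 : (2 * d ^ 2 * S) ^ 2 ≤ (c * (2 * d * S4) ^ (3 / 4 + 3 / 4 : ℝ)) ^ 2 :=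
    pow_le_pow_left₀ (by positivity) h2 2
  have e3 : ((2 * d * S4) ^ (3 / 4 + 3 / 4 : ℝ)) ^ 2 = (2 * d * S4) ^ 3 := by
    rw [← Real.rpow_natCast, ← Real.rpow_mul hX0, ← Real.rpow_natCast _ 3]
    norm_num
  rw [mul_pow c, e3] at h3
  have h4 : 4 * d ^ 3 * (d * S ^ 2) ≤ 4 * d ^ 3 * (2 * c ^ 2 * S4 ^ 3) := by
    nlinarith [h3]
  exact le_of_mul_le_mul_left h4 (by positivity)

end Pool.Agent.ENC
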