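import Mathlib
import Pool.Agent.ENC.Low2
import Pool.Agent.ENC.Stp

set_option autoImplicit false

/-!
# The finite check for the lower bound
-/

open MeasureTheory Set Filter Topology MPdbfb19
open scoped ENNReal

namespace Pool.Agent.ENC

/-- Inner product. (Written with recursors for the speed of the kernel.) -/
noncomputable def ip (ks Xs : List ℕ) : ℕ :=
  List.rec (motive := fun _ => List ℕ → ℕ) (fun _ => 0)
    (fun X _ ih ks => List.rec (motive := fun _ => ℕ) 0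
      (fun k ks' _ => Nat.add (ih ks') (Nat.mul k X)) ks) Xs ks

theorem ip_nil (ks : List ℕ) : ip ks [] = 0 := rfl

theorem ip_nil' (Xs : List ℕ) : ip [] Xs = 0 := by
  cases Xs <;> rfl

theorem ip_cons (k X : ℕ) (ks Xs : List ℕ) : ip (k :: ks) (X :: Xs) = ip ks Xs + k * X := rfl

theorem ip_eq : ∀ (Xs ks : List ℕ),
    ip ks Xs = ∑ j ∈ Finset.range Xs.length, ks.getD j 0 * Xs.getD j 0 := by
  intro Xs
  induction Xs with
  | nil => intro ks; simp [ip_nil]
  | cons X Xs ih =>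
    intro ks
    rw [List.length_cons, Finset.sum_range_succ']
    cases ks with
    | nil => simp [ip_nil']
    | cons k ks =>
      rw [ip_cons, ih ks]
      simp

/-- The Toeplitz part. -/
noncomputable def tz (l0 : ℕ) (Lt : List ℕ) : List ℕ → ℕ
  | [] => 0
  | Y :: Ys => Y * (l0 * Y + 2 * ip Lt Ys) + tz l0 Lt Ys

theorem tz_eq (l0 : ℕ) (Lt : List ℕ) : ∀ Ys : List ℕ,
    tz l0 Lt Ys = ∑ i ∈ Finset.range Ys.length, ∑ j ∈ Finset.range Ys.length,
      Ys.getD i 0 * Ys.getD j 0 * (l0 :: Lt).getD (i - j + (j - i)) 0 := by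
  intro Ys
  induction Ys with
  | nil => simp [tz]
  | cons Y Ys ih =>
    rw [tz, List.length_cons, Finset.sum_range_succ', Finset.sum_range_succ', ip_eq]
    have h1 : ∀ i ∈ Finset.range Ys.length,
        ∑ j ∈ Finset.range (Ys.length + 1), (Y :: Ys).getD (i + 1) 0 * (Y :: Ys).getD j 0 *
          (l0 :: Lt).getD (i + 1 - j + (j - (i + 1))) 0 =
        ∑ j ∈ Finset.range Ys.length, Ys.getD i 0 * Ys.getD j 0 *
          (l0 :: Lt).getD (i - j + (j - i)) 0 + Ys.getD i 0 * Y * Lt.getD i 0 := by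
      intro i _
      rw [Finset.sum_range_succ']
      simp only [List.getD_cons_succ, List.getD_cons_zero, Nat.sub_zero, Nat.zero_sub, add_zero]
      congr 1
      apply Finset.sum_congr rfl
      intro j _
      rw [show i + 1 - (j + 1) + (j + 1 - (i + 1)) = i - j + (j - i) by omega]
    rw [Finset.sum_congr rfl h1, Finset.sum_add_distrib, ← ih]
    simp only [List.getD_cons_succ, List.getD_cons_zero, Nat.sub_zero, Nat.zero_sub, add_zero,
      zero_add]
    have h2 : ∑ i ∈ Finset.range Ys.length, Ys.getD i 0 * Y * Lt.getD i 0 =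
        Y * ∑ j ∈ Finset.range Ys.length, Lt.getD j 0 * Ys.getD j 0 := by
      rw [Finset.mul_sum]
      exact Finset.sum_congr rfl fun i _ => by ring
    have h3 : ∑ i ∈ Finset.range Ys.length, Y * Ys.getD i 0 * Lt.getD i 0 =
        Y * ∑ j ∈ Finset.range Ys.length, Lt.getD j 0 * Ys.getD j 0 := by
      rw [Finset.mul_sum]
      exact Finset.sum_congr rfl fun i _ => by ring
    rw [h2, h3]
    ring

/-- The Hankel part: `Zs` runs over a tail of the list of values, `ls` over a tail of the table. -/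
noncomputable def hk (Ys : List ℕ) : List ℕ → List ℕ → ℕ
  | [], _ => 0
  | _ :: _, [] => 0
  | Z :: Zs, l :: ls => Z * ip (l :: ls) Ys + hk Ys Zs ls

theorem hk_eq (Ys : List ℕ) : ∀ (Zs ls : List ℕ),
    hk Ys Zs ls = ∑ i ∈ Finset.range Zs.length, ∑ j ∈ Finset.range Ys.length,
      Zs.getD i 0 * Ys.getD j 0 * ls.getD (i + j) 0 := by
  intro Zs
  induction Zs with
  | nil => intro ls; simp [hk]
  | cons Z Zs ih =>
    intro ls
    cases ls with
    | nil => simp [hk]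
    | cons l ls =>
      rw [hk, List.length_cons, Finset.sum_range_succ', ih ls, ip_eq, add_comm]
      congr 1
      · apply Finset.sum_congr rfl
        intro i _
        apply Finset.sum_congr rfl
        intro j _
        rw [List.getD_cons_succ, show i + 1 + j = i + j + 1 by ring, List.getD_cons_succ]
      · rw [Finset.mul_sum]
        apply Finset.sum_congr rfl
        intro j _
        rw [List.getD_cons_zero, zero_add]
        ring

/-- The check of the table of the kernel: `P = (a b) ^ n`, `Q1 = a ^ (2 n)`, `Q2 = b ^ (2 n)`. -/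
noncomputable def chkL (S a b : ℕ) : List ℕ → ℕ → ℕ → Bool
  | [], _, _ => true
  | l :: ls, an, bn =>
    (Nat.ble ((a ^ 2 - b ^ 2) ^ 2 * (an ^ 2 * bn ^ 2)) (24 * (a ^ 2 * b ^ 2 *
      (an ^ 2 + bn ^ 2) ^ 2)) &&
    Nat.ble (l ^ 2 * (an ^ 2 + bn ^ 2) * (24 * (a ^ 2 * b ^ 2 * (an ^ 2 + bn ^ 2) ^ 2)) ^ 2)
      (S ^ 2 * (an * bn) * (24 * (a ^ 2 * b ^ 2 * (an ^ 2 + bn ^ 2) ^ 2) -
        (a ^ 2 - b ^ 2) ^ 2 * (an ^ 2 * bn ^ 2)) ^ 2)) && chkL S a b ls (a * an) (b * bn)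

/-- The cubes. -/
def chkC : List ℕ → List ℕ → Bool
  | [], [] => true
  | y :: ys, Y :: Ys => Nat.beq (y ^ 3) Y && chkC ys Ys
  | _, _ => false

theorem chkC_eq : ∀ ys Ys : List ℕ, chkC ys Ys = true →
    Ys.length = ys.length ∧ ∀ j, Ys.getD j 0 = ys.getD j 0 ^ 3 := by
  intro ys
  induction ys with
  | nil =>
    intro Ys h
    cases Ys with
    | nil => simp
    | cons Y Ys => simp [chkC] at h
  | cons y ys ih =>
    intro Ys h
    cases Ys with
    | nil => simp [chkC] at h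
    | cons Y Ys =>
      rw [chkC, Bool.and_eq_true] at h
      have h1 := Nat.eq_of_beq_eq_true h.1
      obtain ⟨h2, h3⟩ := ih Ys h.2
      refine ⟨by simp [h2], ?_⟩
      intro j
      cases j with
      | zero => simp [h1]
      | succ j => simpa using h3 j

theorem Kr_eq' (s : ℝ) : Kr s = 1 / (Real.exp (s / 2) + Real.exp (-(s / 2))) := by
  unfold Kr
  rw [one_div]

theorem chkL_sound {S a b : ℕ} (hS : 0 < S) (hb : 0 < b) (hba : b ≤ a) :
    ∀ (ls : List ℕ) (n : ℕ), chkL S a b ls (a ^ n) (b ^ n) = true →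
      ∀ i < ls.length, ((ls.getD i 0 : ℕ) : ℝ) / S ≤
        Kk ((n + i : ℕ) * (2 * Real.log ((a : ℝ) / b))) *
          (1 - (Real.cosh (2 * Real.log ((a : ℝ) / b)) - 1) /
            (24 * (1 + Real.cosh ((n + i : ℕ) * (2 * Real.log ((a : ℝ) / b)))))) := by
  have ha : 0 < a := hb.trans_le hba
  have hS' : (0 : ℝ) < S := by exact_mod_cast hS
  have ha' : (0 : ℝ) < a := by exact_mod_cast ha
  have hb' : (0 : ℝ) < b := by exact_mod_cast hb
  intro ls
  induction ls with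
  | nil => intro n _ i hi; simp at hi
  | cons l ls ih =>
    intro n h i hi
    rw [chkL, Bool.and_eq_true, Bool.and_eq_true] at h
    obtain ⟨⟨h1, h2⟩, h3⟩ := h
    cases i with
    | zero =>
      rw [add_zero, List.getD_cons_zero]
      have h1 := Nat.le_of_ble_eq_true h1
      have h2 := Nat.le_of_ble_eq_true h2
      have hab : b ^ 2 ≤ a ^ 2 := Nat.pow_le_pow_left hba 2
      set x : ℝ := (a : ℝ) ^ n with hx
      set y : ℝ := (b : ℝ) ^ n with hy
      have hx0 : 0 < x := by positivity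
      have hy0 : 0 < y := by positivity
      have h1' : (((a : ℝ) ^ 2 - b ^ 2) ^ 2 * (x ^ 2 * y ^ 2)) ≤ (24 * ((a : ℝ) ^ 2 * b ^ 2 *
          (x ^ 2 + y ^ 2) ^ 2)) := by
        have : ((((a ^ 2 - b ^ 2) ^ 2 * ((a ^ n) ^ 2 * (b ^ n) ^ 2) : ℕ)) : ℝ) ≤
          ((24 * (a ^ 2 * b ^ 2 * ((a ^ n) ^ 2 + (b ^ n) ^ 2) ^ 2) : ℕ) : ℝ) := by
          exact_mod_cast h1
        push_cast [Nat.cast_sub hab] at this
        exact this
      have h2' : ((l : ℝ) ^ 2 * (x ^ 2 + y ^ 2) *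
          (24 * ((a : ℝ) ^ 2 * b ^ 2 * (x ^ 2 + y ^ 2) ^ 2)) ^ 2) ≤
          ((S : ℝ) ^ 2 * (x * y) * (24 * ((a : ℝ) ^ 2 * b ^ 2 * (x ^ 2 + y ^ 2) ^ 2) -
            ((a : ℝ) ^ 2 - b ^ 2) ^ 2 * (x ^ 2 * y ^ 2)) ^ 2) := by
        have : (((l ^ 2 * ((a ^ n) ^ 2 + (b ^ n) ^ 2) * (24 * (a ^ 2 * b ^ 2 *
          ((a ^ n) ^ 2 + (b ^ n) ^ 2) ^ 2)) ^ 2 : ℕ)) : ℝ) ≤
          ((S ^ 2 * (a ^ n * b ^ n) * (24 * (a ^ 2 * b ^ 2 * ((a ^ n) ^ 2 + (b ^ n) ^ 2) ^ 2) -
        (a ^ 2 - b ^ 2) ^ 2 * ((a ^ n) ^ 2 * (b ^ n) ^ 2)) ^ 2 : ℕ) : ℝ) := by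
          exact_mod_cast h2
        push_cast [Nat.cast_sub h1, Nat.cast_sub hab] at this
        exact this
      have e1 : Real.exp (n * (2 * Real.log ((a : ℝ) / b)) / 2) = x / y := by
        rw [show (n : ℝ) * (2 * Real.log ((a : ℝ) / b)) / 2 = n * Real.log ((a : ℝ) / b) by ring,
          Real.exp_nat_mul, Real.exp_log (by positivity), div_pow]
      have e2 : Real.exp (-(n * (2 * Real.log ((a : ℝ) / b)) / 2)) = y / x := by
        rw [Real.exp_neg, e1, inv_div]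
      have e3 : Real.exp (n * (2 * Real.log ((a : ℝ) / b))) = x ^ 2 / y ^ 2 := by
        rw [show (n : ℝ) * (2 * Real.log ((a : ℝ) / b)) =
          n * (2 * Real.log ((a : ℝ) / b)) / 2 + n * (2 * Real.log ((a : ℝ) / b)) / 2 by ring,
          Real.exp_add, e1]
        field_simp
      have e4 : Real.exp (2 * Real.log ((a : ℝ) / b)) = (a : ℝ) ^ 2 / b ^ 2 := by
        rw [two_mul, Real.exp_add, Real.exp_log (by positivity)]
        field_simp
      have hK : Kk (n * (2 * Real.log ((a : ℝ) / b))) ^ 2 = x * y / (x ^ 2 + y ^ 2) := by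
        rw [Kk_sq, Kr_eq', e1, e2]
        field_simp
      have hE : (Real.cosh (2 * Real.log ((a : ℝ) / b)) - 1) /
            (24 * (1 + Real.cosh (n * (2 * Real.log ((a : ℝ) / b))))) =
          (((a : ℝ) ^ 2 - b ^ 2) ^ 2 * (x ^ 2 * y ^ 2)) /
            (24 * ((a : ℝ) ^ 2 * b ^ 2 * (x ^ 2 + y ^ 2) ^ 2)) := by
        rw [Real.cosh_eq, Real.cosh_eq, Real.exp_neg, Real.exp_neg, e3, e4]
        field_simp
        ring
      rw [hE]
      have hD : (0 : ℝ) < 24 * ((a : ℝ) ^ 2 * b ^ 2 * (x ^ 2 + y ^ 2) ^ 2) := by positivity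
      have h4 : (0 : ℝ) ≤ 1 - (((a : ℝ) ^ 2 - b ^ 2) ^ 2 * (x ^ 2 * y ^ 2)) /
            (24 * ((a : ℝ) ^ 2 * b ^ 2 * (x ^ 2 + y ^ 2) ^ 2)) := by
        rw [sub_nonneg, div_le_one hD]
        exact h1'
      refine le_of_pow_le_pow_left₀ (by norm_num : (2 : ℕ) ≠ 0)
        (mul_nonneg (Kk_pos _).le h4) ?_
      rw [mul_pow, hK, div_pow, div_le_iff₀ (by positivity)]
      have e5 : x * y / (x ^ 2 + y ^ 2) * (1 - (((a : ℝ) ^ 2 - b ^ 2) ^ 2 * (x ^ 2 * y ^ 2)) /
            (24 * ((a : ℝ) ^ 2 * b ^ 2 * (x ^ 2 + y ^ 2) ^ 2))) ^ 2 * (S : ℝ) ^ 2 =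
          ((S : ℝ) ^ 2 * (x * y) * (24 * ((a : ℝ) ^ 2 * b ^ 2 * (x ^ 2 + y ^ 2) ^ 2) -
            ((a : ℝ) ^ 2 - b ^ 2) ^ 2 * (x ^ 2 * y ^ 2)) ^ 2) /
          ((x ^ 2 + y ^ 2) * (24 * ((a : ℝ) ^ 2 * b ^ 2 * (x ^ 2 + y ^ 2) ^ 2)) ^ 2) := by
        rw [one_sub_div hD.ne', div_pow]
        field_simp
      rw [e5, le_div_iff₀ (by positivity)]
      linarith
    | succ i =>
      rw [List.getD_cons_succ]
      have e1 : a * a ^ n = a ^ (n + 1) := by ring
      have e2 : b * b ^ n = b ^ (n + 1) := by ring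
      rw [e1, e2] at h3
      have := ih (n + 1) h3 i (by simpa using hi)
      rw [show n + (i + 1) = n + 1 + i by ring]
      exact this

theorem log_ge {a b : ℝ} (hb : 0 < b) (hba : b < a) :
    4 * ((a - b) / (a + b)) + 4 / 3 * ((a - b) / (a + b)) ^ 3 ≤ 2 * Real.log (a / b) := by
  set z : ℝ := (a - b) / (a + b) with hz
  have ha : 0 < a := hb.trans hba
  have hz0 : 0 < z := by
    apply div_pos
    · linarith
    · linarith
  have hz1 : z < 1 := by
    rw [hz, div_lt_one (by linarith)]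
    linarith
  have h := Real.hasSum_log_sub_log_of_abs_lt_one (x := z) (by rw [abs_of_pos hz0]; exact hz1)
  have h2 := h.summable.sum_le_tsum (Finset.range 2) (fun k _ => by positivity)
  rw [h.tsum_eq] at h2
  simp only [Finset.sum_range_succ, Finset.range_zero, Finset.sum_empty, zero_add] at h2
  norm_num at h2
  have h3 : Real.log (a / b) = Real.log (1 + z) - Real.log (1 - z) := by
    rw [← Real.log_div (by linarith) (by linarith)]
    congr 1
    rw [hz]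
    have : a + b ≠ 0 := by linarith
    have : b ≠ 0 := hb.ne'
    have e1 : 1 + (a - b) / (a + b) = 2 * a / (a + b) := by field_simp; ring
    have e2 : 1 - (a - b) / (a + b) = 2 * b / (a + b) := by field_simp; ring
    rw [e1, e2]
    field_simp
  rw [h3]
  linarith

/-- **Soundness of the check for the lower bound.** -/
theorem low_sound {c : ℝ} (hB : BB (ENNReal.ofReal c)) (hc0 : 0 < c)
    {S a b M DN DD CN CD l0 : ℕ} {Lt ys Ys : List ℕ} (hS : 0 < S) (hb : 0 < b) (hba : b < a)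
    (hDD : 0 < DD) (hCD : 0 < CD)
    (hcosh : a ^ 4 + b ^ 4 ≤ 4 * a ^ 2 * b ^ 2)
    (hd : DN * (3 * (a + b) ^ 3) ≤ DD * (12 * (a - b) * (a + b) ^ 2 + 4 * (a - b) ^ 3))
    (hlen : ys.length = M) (hys : 0 < s4 ys)
    (hcub : chkC ys Ys = true) (htab : chkL S a b (l0 :: Lt) 1 1 = true)
    (hfin : 2 * DD * S ^ 2 * s4 ys ^ 3 * CN ^ 2 <
      DN * (tz l0 Lt Ys + hk Ys Ys Lt) ^ 2 * CD ^ 2) : (CN : ℝ) / CD < c := by
  have ha : 0 < a := hb.trans hba
  have hS' : (0 : ℝ) < S := by exact_mod_cast hS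
  have ha' : (0 : ℝ) < a := by exact_mod_cast ha
  have hb' : (0 : ℝ) < b := by exact_mod_cast hb
  have hba' : (b : ℝ) < a := by exact_mod_cast hba
  have hDD' : (0 : ℝ) < DD := by exact_mod_cast hDD
  have hCD' : (0 : ℝ) < CD := by exact_mod_cast hCD
  set d : ℝ := 2 * Real.log ((a : ℝ) / b) with hdd
  have hd0 : 0 < d := by
    have : 0 < Real.log ((a : ℝ) / b) := Real.log_pos (by rw [one_lt_div hb']; exact hba')
    rw [hdd]
    linarith
  have hdl : (DN : ℝ) / DD ≤ d := by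
    refine le_trans ?_ (log_ge hb' hba')
    rw [div_le_iff₀ hDD']
    have h1 : (DN : ℝ) * (3 * (a + b) ^ 3) ≤
        DD * (12 * (a - b) * (a + b) ^ 2 + 4 * (a - b) ^ 3) := by
      have := (Nat.cast_le (α := ℝ)).2 hd
      push_cast [Nat.cast_sub hba.le] at this
      exact this
    have e : (4 * (((a : ℝ) - b) / (a + b)) + 4 / 3 * (((a : ℝ) - b) / (a + b)) ^ 3) * DD =
        DD * (12 * (a - b) * (a + b) ^ 2 + 4 * (a - b) ^ 3) / (3 * (a + b) ^ 3) := by
      field_simp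
      ring
    rw [e, le_div_iff₀ (by positivity)]
    exact h1
  have hch : Real.cosh d ≤ 2 := by
    have e4 : Real.exp d = (a : ℝ) ^ 2 / b ^ 2 := by
      rw [hdd, two_mul, Real.exp_add, Real.exp_log (by positivity)]
      field_simp
    rw [Real.cosh_eq, Real.exp_neg, e4]
    have h1 : (a : ℝ) ^ 4 + b ^ 4 ≤ 4 * a ^ 2 * b ^ 2 := by exact_mod_cast hcosh
    have e5 : ((a : ℝ) ^ 2 / b ^ 2 + ((a : ℝ) ^ 2 / b ^ 2)⁻¹) / 2 =
        (a ^ 4 + b ^ 4) / (2 * a ^ 2 * b ^ 2) := by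
      field_simp
    rw [e5, div_le_iff₀ (by positivity)]
    linarith
  have hLs := chkL_sound hS hb hba.le (l0 :: Lt) 0 (by simpa using htab)
  simp only [zero_add] at hLs
  rw [← hdd] at hLs
  obtain ⟨hl1, hl2⟩ := chkC_eq ys Ys hcub
  have key := lower_step hB hc0.le hd0 hch M (fun j => (ys.getD j 0 : ℝ))
    (fun n => (((l0 :: Lt).getD n 0 : ℕ) : ℝ) / S) (fun j => by positivity)
    (fun n => by positivity) (fun n => by
      by_cases hn : n < (l0 :: Lt).length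
      · exact hLs n hn
      · rw [List.getD_eq_default _ _ (by omega)]
        have h1 : 0 ≤ 1 - (Real.cosh d - 1) / (24 * (1 + Real.cosh (n * d))) := by
          have h2 := Real.one_le_cosh (n * d)
          rw [sub_nonneg, div_le_one (by linarith)]
          linarith
        have := mul_nonneg (Kk_pos (n * d)).le h1
        simpa using this)
  -- the sums
  have hsum : ∑ i ∈ Finset.range M, ∑ j ∈ Finset.range M,
      (ys.getD i 0 : ℝ) ^ 3 * (ys.getD j 0 : ℝ) ^ 3 *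
        ((((l0 :: Lt).getD (i - j + (j - i)) 0 : ℕ) : ℝ) / S +
          (((l0 :: Lt).getD (i + j + 1) 0 : ℕ) : ℝ) / S) =
      ((tz l0 Lt Ys + hk Ys Ys Lt : ℕ) : ℝ) / S := by
    rw [tz_eq, hk_eq, hl1, hlen, ← Finset.sum_add_distrib]
    push_cast
    rw [Finset.sum_div]
    apply Finset.sum_congr rfl
    intro i _
    rw [← Finset.sum_add_distrib, Finset.sum_div]
    apply Finset.sum_congr rfl
    intro j _
    rw [hl2 i, hl2 j, List.getD_cons_succ]
    push_cast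
    ring
  have hs4 : ∑ j ∈ Finset.range M, (ys.getD j 0 : ℝ) ^ 4 = ((s4 ys : ℕ) : ℝ) := by
    rw [s4_sum, hlen]
    push_cast
    rfl
  rw [hsum, hs4] at key
  set Q : ℝ := ((tz l0 Lt Ys + hk Ys Ys Lt : ℕ) : ℝ) with hQ
  set N4 : ℝ := ((s4 ys : ℕ) : ℝ) with hN4
  have hN0 : 0 < N4 := by rw [hN4]; exact_mod_cast hys
  have hf : 2 * DD * S ^ 2 * N4 ^ 3 * (CN : ℝ) ^ 2 < DN * Q ^ 2 * CD ^ 2 := by
    rw [hN4, hQ]
    exact_mod_cast hfin
  have h5 : (DN : ℝ) / DD * (Q / S) ^ 2 ≤ 2 * c ^ 2 * N4 ^ 3 :=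
    le_trans (mul_le_mul_of_nonneg_right hdl (by positivity)) key
  have h6 : (DN : ℝ) * Q ^ 2 ≤ 2 * c ^ 2 * N4 ^ 3 * (DD * S ^ 2) := by
    have e : (DN : ℝ) / DD * (Q / S) ^ 2 = DN * Q ^ 2 / (DD * S ^ 2) := by
      field_simp
    rw [e, div_le_iff₀ (by positivity)] at h5
    exact h5
  rw [div_lt_iff₀ hCD']
  by_contra hcon
  push Not at hcon
  have h7 : (c * CD) ^ 2 ≤ (CN : ℝ) ^ 2 := pow_le_pow_left₀ (by positivity) hcon 2
  have h8 : (DN : ℝ) * Q ^ 2 * CD ^ 2 ≤ 2 * DD * S ^ 2 * N4 ^ 3 * (CN : ℝ) ^ 2 := by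
    calc (DN : ℝ) * Q ^ 2 * CD ^ 2 ≤ 2 * c ^ 2 * N4 ^ 3 * (DD * S ^ 2) * CD ^ 2 :=
          mul_le_mul_of_nonneg_right h6 (by positivity)
      _ = 2 * DD * S ^ 2 * N4 ^ 3 * (c * CD) ^ 2 := by ring
      _ ≤ _ := by gcongr
  linarith

end Pool.Agent.ENC
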